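import Mathlib
import Pool.Prelude.Def_F_458e953d

/-!
Unit bar visibility representations and the recognition problem as a language.
-/

namespace Pool.Agent.Lib.MP_ec9af3_lc

open N487b59b3 N68a2faeb

/-- The bar `[x, x + 1] × {y}`: a closed horizontal segment of length one in the plane. -/
def bar (x y : ℝ) : Set (ℝ × ℝ) := Set.Icc x (x + 1) ×ˢ {y}

/-- The bars of `u` and `v` see each other: there are `a < b` with `[a, b]` inside both
`x`-ranges such that no other bar meets the open rectangle `(a, b) × (min, max)`. -/
def Sees {V : Type} (x y : V → ℝ) (u v : V) : Prop :=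
  ∃ a b : ℝ, a < b ∧ Set.Icc a b ⊆ Set.Icc (x u) (x u + 1) ∩ Set.Icc (x v) (x v + 1) ∧
    ∀ w, w ≠ u → w ≠ v →
      Disjoint (bar (x w) (y w)) (Set.Ioo a b ×ˢ Set.Ioo (min (y u) (y v)) (max (y u) (y v)))

/-- The bars `[x v, x v + 1] × {y v}` form a unit bar visibility representation of `G`. -/
def IsRep {V : Type} (G : SimpleGraph V) (x y : V → ℝ) : Prop :=
  (∀ u v, u ≠ v → Disjoint (bar (x u) (y u)) (bar (x v) (y v))) ∧
    ∀ u v, u ≠ v → (G.Adj u v ↔ Sees x y u v)

/-- `G` is a unit bar visibility graph. -/
def IsUBVG {V : Type} (G : SimpleGraph V) : Prop := ∃ x y : V → ℝ, IsRep G x y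

open Classical in
/-- The adjacency matrix of a graph on `Fin n`, as the list of its rows. -/
noncomputable def adjRows {n : ℕ} (G : SimpleGraph (Fin n)) : List (List Bool) :=
  List.ofFn fun i => List.ofFn fun j => decide (G.Adj i j)

open Classical in
/-- The recognition problem: the bit strings that encode the adjacency matrix of a unit bar
visibility graph. -/
noncomputable def UBVGLang : DecisionProblem := fun s =>
  decide (∃ (n : ℕ) (G : SimpleGraph (Fin n)), bitEncode (adjRows G) = s ∧ IsUBVG G)

end Pool.Agent.Lib.MP_ec9af3_lc
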