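import Pool.Agent.Lib.MP_ec9af3_lc.Geom

/-!
Representations with small integer coordinates.
-/

namespace Pool.Agent.Lib.MP_ec9af3_lc

variable {V : Type}

/-- A representation by bars `[X v, X v + U]` at heights `Y v` with natural number data. -/
def IsRepNat (G : SimpleGraph V) (U : ℕ) (X Y : V → ℕ) : Prop :=
  (∀ u v, u ≠ v → Y u ≠ Y v ∨ X u + U < X v ∨ X v + U < X u) ∧
    ∀ u v, u ≠ v → (G.Adj u v ↔ ∃ a : ℕ, X u ≤ a ∧ X v ≤ a ∧ a < X u + U ∧ a < X v + U ∧
      ∀ w, min (Y u) (Y v) < Y w → Y w < max (Y u) (Y v) → X w + U ≤ a ∨ a < X w)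

theorem IsRepNat.isUBVG [Finite V] {G : SimpleGraph V} {U : ℕ} (hU : 0 < U) {X Y : V → ℕ}
    (h : IsRepNat G U X Y) : IsUBVG G := by
  have hU' : (0 : ℝ) < U := by exact_mod_cast hU
  refine ⟨fun v => (X v : ℝ) / U, fun v => (Y v : ℝ), isRep_iff.2 ⟨fun u v huv => ?_,
    fun u v huv => ?_⟩⟩
  · have key : ∀ p q : ℕ, p + U < q → (p : ℝ) / U + 1 < q / U := by
      intro p q hpq
      rw [div_add_one hU'.ne', div_lt_div_iff_of_pos_right hU']
      exact_mod_cast hpq
    rcases h.1 u v huv with h | h | h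
    · left; exact_mod_cast h
    · right; left; exact key _ _ h
    · right; right; exact key _ _ h
  · rw [h.2 u v huv]
    have hmin : ∀ w, min (Y u : ℝ) (Y v) < Y w ↔ min (Y u) (Y v) < Y w := by
      intro w; rw [← Nat.cast_min, Nat.cast_lt]
    have hmax : ∀ w, (Y w : ℝ) < max (Y u : ℝ) (Y v) ↔ Y w < max (Y u) (Y v) := by
      intro w; rw [← Nat.cast_max, Nat.cast_lt]
    simp only [hmin, hmax]
    constructor
    · rintro ⟨a, h1, h2, h3, h4, h5⟩
      have k1 : ∀ p : ℕ, p ≤ a → (p : ℝ) / U ≤ a / U := fun p hp =>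
        (div_le_div_iff_of_pos_right hU').2 (by exact_mod_cast hp)
      have k2 : ∀ p : ℕ, a < p + U → (a : ℝ) / U < p / U + 1 := fun p hp => by
        rw [div_add_one hU'.ne', div_lt_div_iff_of_pos_right hU']
        exact_mod_cast hp
      refine ⟨(a : ℝ) / U, k1 _ h1, k1 _ h2, k2 _ h3, k2 _ h4, fun w hw1 hw2 => ?_⟩
      rcases h5 w hw1 hw2 with h | h
      · left
        rw [div_add_one hU'.ne', div_le_div_iff_of_pos_right hU']
        exact_mod_cast h
      · right
        rw [div_lt_div_iff_of_pos_right hU']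
        exact_mod_cast h
    · rintro ⟨a, h1, h2, h3, h4, h5⟩
      have ha : 0 ≤ a * U := mul_nonneg (le_trans (by positivity) h1) hU'.le
      have k1 : ∀ p : ℕ, (p : ℝ) / U ≤ a → p ≤ ⌊a * U⌋₊ := fun p hp =>
        Nat.le_floor ((div_le_iff₀ hU').1 hp)
      have k2 : ∀ p : ℕ, a < (p : ℝ) / U → ⌊a * U⌋₊ < p := fun p hp =>
        (Nat.floor_lt ha).2 ((lt_div_iff₀ hU').1 hp)
      have k3 : ∀ p : ℕ, (p : ℝ) / U + 1 = ((p + U : ℕ) : ℝ) / U := fun p => by
        rw [div_add_one hU'.ne']; push_cast; rfl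
      rw [k3] at h3 h4
      refine ⟨⌊a * U⌋₊, k1 _ h1, k1 _ h2, k2 _ h3, k2 _ h4, fun w hw1 hw2 => ?_⟩
      rcases h5 w hw1 hw2 with h | h
      · left; rw [k3] at h; exact k1 _ h
      · right; exact k2 _ h

open Classical in
theorem exists_compress {n : ℕ} (x : Fin n → ℝ) :
    ∃ Φ : ℝ → ℕ, Monotone Φ ∧ (∀ v a, a < x v → Φ a < Φ (x v)) ∧
      (∀ v a, a < x v + 1 → Φ a < Φ (x v + 1)) ∧ (∀ v, Φ (x v + 1) = Φ (x v) + (n + 1)) ∧
      ∀ a, Φ a ≤ (n + 1) * (2 * n) + n := by
  set F : Finset ℤ := Finset.univ.image (fun v => ⌊x v⌋) ∪ Finset.univ.image (fun v => ⌊x v⌋ + 1)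
    with hF
  set g : ℤ → ℕ := fun m => (F.filter (· ≤ m)).card with hg
  set r : ℝ → ℕ := fun s => (Finset.univ.filter (fun v => Int.fract (x v) ≤ s)).card with hr
  have hrn : ∀ s, r s ≤ n := fun s => (Finset.card_filter_le _ _).trans (by simp)
  have hgn : ∀ m, g m ≤ 2 * n := fun m => by
    refine (Finset.card_filter_le _ _).trans ((Finset.card_union_le _ _).trans ?_)
    have h1 := Finset.card_image_le (s := Finset.univ) (f := fun v => ⌊x v⌋)
    have h2 := Finset.card_image_le (s := Finset.univ) (f := fun v => ⌊x v⌋ + 1)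
    simp only [Finset.card_univ, Fintype.card_fin] at h1 h2
    omega
  have hgm : Monotone g := fun a b hab =>
    Finset.card_le_card (Finset.monotone_filter_right _ fun m _ hm => le_trans hm hab)
  have hrm : Monotone r := fun a b hab =>
    Finset.card_le_card (Finset.monotone_filter_right _ fun m _ hm => le_trans hm hab)
  have hgs : ∀ m m', m < m' → m' ∈ F → g m < g m' := by
    intro m m' h hm'
    refine Finset.card_lt_card ⟨Finset.monotone_filter_right _ fun k _ hk => le_trans hk h.le, ?_⟩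
    intro hc
    have := hc (Finset.mem_filter.2 ⟨hm', le_rfl⟩)
    rw [Finset.mem_filter] at this
    omega
  have hrs : ∀ s v, s < Int.fract (x v) → r s < r (Int.fract (x v)) := by
    intro s v h
    refine Finset.card_lt_card ⟨Finset.monotone_filter_right _ fun k _ hk => le_trans hk h.le, ?_⟩
    intro hc
    have := hc (Finset.mem_filter.2 ⟨Finset.mem_univ v, le_rfl⟩)
    rw [Finset.mem_filter] at this
    linarith [this.2]
  have hfr : ∀ a b : ℝ, ⌊a⌋ = ⌊b⌋ → Int.fract a - Int.fract b = a - b := by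
    intro a b h
    rw [Int.fract, Int.fract, h]; ring
  have hmono : ∀ a b : ℝ, a ≤ b → g ⌊a⌋ < g ⌊b⌋ ∨ (g ⌊a⌋ = g ⌊b⌋ ∧ (⌊a⌋ = ⌊b⌋ ∨ ⌊b⌋ ∉ F)) := by
    intro a b hab
    rcases (Int.floor_mono hab).lt_or_eq with h | h
    · rcases (hgm h.le).lt_or_eq with h' | h'
      · exact Or.inl h'
      · exact Or.inr ⟨h', Or.inr fun hb => (hgs _ _ h hb).ne h'⟩
    · exact Or.inr ⟨by rw [h], Or.inl h⟩
  have hstep : ∀ p q s t : ℕ, p < q → s ≤ n → (n + 1) * p + s < (n + 1) * q + t := by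
    intro p q s t hpq hs
    have : (n + 1) * (p + 1) ≤ (n + 1) * q := Nat.mul_le_mul_left _ hpq
    rw [mul_add] at this
    omega
  refine ⟨fun a => (n + 1) * g ⌊a⌋ + (if ⌊a⌋ ∈ F then r (Int.fract a) else n), ?_, ?_, ?_, ?_, ?_⟩
  · intro a b hab
    have hb : ∀ c : ℝ, (if ⌊c⌋ ∈ F then r (Int.fract c) else n) ≤ n := fun c => by
      split_ifs
      · exact hrn _
      · exact le_rfl
    dsimp only
    rcases hmono a b hab with h | ⟨h, h' | h'⟩
    · exact (hstep _ _ _ _ h (hb a)).le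
    · rw [h, h']
      split_ifs
      · have := hfr a b h'
        exact Nat.add_le_add_left (hrm (by linarith)) _
      · exact le_rfl
    · rw [h, if_neg h']
      exact Nat.add_le_add_left (hb a) _
  all_goals
    have hb : ∀ c : ℝ, (if ⌊c⌋ ∈ F then r (Int.fract c) else n) ≤ n := fun c => by
      split_ifs
      · exact hrn _
      · exact le_rfl
    have hm1 : ∀ v, ⌊x v⌋ ∈ F := fun v =>
      Finset.mem_union_left _ (Finset.mem_image_of_mem _ (Finset.mem_univ v))
    have hm2 : ∀ v, ⌊x v⌋ + 1 ∈ F := fun v =>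
      Finset.mem_union_right _ (Finset.mem_image_of_mem _ (Finset.mem_univ v))
  · intro v a ha
    dsimp only
    rcases hmono a _ ha.le with h | ⟨h, h' | h'⟩
    · exact hstep _ _ _ _ h (hb a)
    · rw [h, h', if_pos (hm1 v), if_pos (hm1 v)]
      have := hfr a _ h'
      exact Nat.add_lt_add_left (hrs _ _ (by linarith)) _
    · exact absurd (hm1 v) h'
  · intro v a ha
    dsimp only
    have hm3 : ⌊x v + 1⌋ ∈ F := by rw [Int.floor_add_one]; exact hm2 v
    rcases hmono a _ ha.le with h | ⟨h, h' | h'⟩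
    · exact hstep _ _ _ _ h (hb a)
    · rw [h, h', if_pos hm3, if_pos hm3]
      have := hfr a _ h'
      rw [Int.fract_add_one] at this ⊢
      exact Nat.add_lt_add_left (hrs _ _ (by linarith)) _
    · exact absurd hm3 h'
  · intro v
    dsimp only
    rw [Int.floor_add_one, Int.fract_add_one, if_pos (hm1 v), if_pos (hm2 v)]
    have : g (⌊x v⌋ + 1) = g ⌊x v⌋ + 1 := by
      simp only [hg]
      rw [← Finset.card_insert_of_notMem (a := ⌊x v⌋ + 1) (by simp)]
      congr 1
      ext m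
      simp only [Finset.mem_filter, Finset.mem_insert]
      constructor
      · rintro ⟨h1, h2⟩
        rcases h2.lt_or_eq with h | h
        · exact Or.inr ⟨h1, by omega⟩
        · exact Or.inl h
      · rintro (rfl | ⟨h1, h2⟩)
        · exact ⟨hm2 v, le_rfl⟩
        · exact ⟨h1, by omega⟩
    rw [this]; ring
  · intro a
    exact Nat.add_le_add (Nat.mul_le_mul_left _ (hgn _)) (hb a)

open Classical in
theorem exists_rank {n : ℕ} (y : Fin n → ℝ) :
    ∃ Y : Fin n → ℕ, (∀ u v, Y u < Y v ↔ y u < y v) ∧ ∀ v, Y v ≤ n := by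
  refine ⟨fun v => (Finset.univ.filter (fun w => y w < y v)).card, fun u v => ?_,
    fun v => (Finset.card_filter_le _ _).trans (by simp)⟩
  constructor
  · intro h
    by_contra hc
    push Not at hc
    exact absurd (Finset.card_le_card (Finset.monotone_filter_right _
      fun m _ hm => lt_of_lt_of_le hm hc)) (not_le.2 h)
  · intro h
    refine Finset.card_lt_card ⟨Finset.monotone_filter_right _ fun k _ hk => lt_trans hk h, ?_⟩
    intro hc
    have := hc (Finset.mem_filter.2 ⟨Finset.mem_univ u, h⟩)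
    rw [Finset.mem_filter] at this
    exact lt_irrefl _ this.2

theorem IsUBVG.exists_nat {n : ℕ} {G : SimpleGraph (Fin n)} (h : IsUBVG G) :
    ∃ X Y : Fin n → ℕ, IsRepNat G (n + 1) X Y ∧ (∀ v, X v ≤ (n + 1) * (2 * n) + n) ∧
      ∀ v, Y v ≤ n := by
  classical
  obtain ⟨x, y, h⟩ := h
  obtain ⟨h1, h2⟩ := isRep_iff.1 h
  obtain ⟨Φ, hm, hs1, hs2, hadd, hb⟩ := exists_compress x
  obtain ⟨Y, hY, hYb⟩ := exists_rank y
  refine ⟨fun v => Φ (x v), Y, ⟨fun u v huv => ?_, fun u v huv => ?_⟩, fun v => hb _, hYb⟩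
  · rcases h1 u v huv with h | h | h
    · left
      rcases lt_or_gt_of_ne h with h | h
      · exact ((hY _ _).2 h).ne
      · exact ((hY _ _).2 h).ne'
    · right; left; dsimp only; rw [← hadd]; exact hs1 _ _ h
    · right; right; dsimp only; rw [← hadd]; exact hs1 _ _ h
  · rw [h2 u v huv]
    have hmin : ∀ w, min (Y u) (Y v) < Y w ↔ min (y u) (y v) < y w := by
      intro w; simp only [min_lt_iff, hY]
    have hmax : ∀ w, Y w < max (Y u) (Y v) ↔ y w < max (y u) (y v) := by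
      intro w; simp only [lt_max_iff, hY]
    simp only [hmin, hmax, ← hadd]
    constructor
    · rintro ⟨a, k1, k2, k3, k4, k5⟩
      exact ⟨Φ a, hm k1, hm k2, hs2 _ _ k3, hs2 _ _ k4, fun w hw1 hw2 =>
        (k5 w hw1 hw2).imp (fun h => hm h) (hs1 _ _)⟩
    · rintro ⟨a, k1, k2, k3, k4, k5⟩
      set E : Finset ℝ := (Finset.univ.image x ∪ Finset.univ.image (fun v => x v + 1)).filter
        (fun e => Φ e ≤ a) with hE
      have e1 : ∀ w, Φ (x w) ≤ a → x w ∈ E := fun w hw => Finset.mem_filter.2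
        ⟨Finset.mem_union_left _ (Finset.mem_image_of_mem _ (Finset.mem_univ w)), hw⟩
      have e2 : ∀ w, Φ (x w + 1) ≤ a → x w + 1 ∈ E := fun w hw => Finset.mem_filter.2
        ⟨Finset.mem_union_right _ (Finset.mem_image_of_mem _ (Finset.mem_univ w)), hw⟩
      have hne : E.Nonempty := ⟨_, e1 u k1⟩
      have hmax' : Φ (E.max' hne) ≤ a := (Finset.mem_filter.1 (E.max'_mem hne)).2
      have e3 : ∀ c, a < Φ c → E.max' hne < c := fun c hc =>
        hm.reflect_lt (lt_of_le_of_lt hmax' hc)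
      exact ⟨E.max' hne, E.le_max' _ (e1 u k1), E.le_max' _ (e1 v k2), e3 _ k3, e3 _ k4,
        fun w hw1 hw2 => (k5 w hw1 hw2).imp (fun h => E.le_max' _ (e2 w h)) (e3 _)⟩

end Pool.Agent.Lib.MP_ec9af3_lc
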