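import Pool.Agent.Lib.MP_ec9af3_lc.Defs

/-!
Visibility in terms of endpoint comparisons, and invariance under isomorphism.
-/

namespace Pool.Agent.Lib.MP_ec9af3_lc

variable {V W : Type}

theorem mem_bar {x y : ℝ} {p : ℝ × ℝ} : p ∈ bar x y ↔ x ≤ p.1 ∧ p.1 ≤ x + 1 ∧ p.2 = y := by
  simp [bar, and_assoc]

theorem disjoint_bar_iff {x y x' y' : ℝ} :
    Disjoint (bar x y) (bar x' y') ↔ y ≠ y' ∨ x + 1 < x' ∨ x' + 1 < x := by
  rw [Set.disjoint_left]
  constructor
  · intro h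
    by_contra hc
    push Not at hc
    obtain ⟨h1, h2, h3⟩ := hc
    refine h (a := (max x x', y)) (mem_bar.2 ⟨le_max_left _ _, ?_, rfl⟩)
      (mem_bar.2 ⟨le_max_right _ _, ?_, h1⟩)
    · exact max_le (by linarith) h2
    · exact max_le h3 (by linarith)
  · intro h p hp hp'
    rw [mem_bar] at hp hp'
    rcases h with h | h | h
    · exact h (hp.2.2.symm.trans hp'.2.2)
    · linarith [hp.2.1, hp'.1]
    · linarith [hp.1, hp'.2.1]

theorem disjoint_bar_rect {x y a b c d : ℝ} (hab : a < b) :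
    Disjoint (bar x y) (Set.Ioo a b ×ˢ Set.Ioo c d) ↔ (c < y → y < d → x + 1 ≤ a ∨ b ≤ x) := by
  rw [Set.disjoint_left]
  constructor
  · intro h h1 h2
    by_contra hc
    push Not at hc
    obtain ⟨h3, h4⟩ := hc
    have h5 : max x a < min (x + 1) b :=
      max_lt (lt_min (by linarith) h4) (lt_min h3 hab)
    obtain ⟨t, ht1, ht2⟩ := exists_between h5
    rw [max_lt_iff] at ht1
    rw [lt_min_iff] at ht2
    exact h (a := (t, y)) (mem_bar.2 ⟨ht1.1.le, ht2.1.le, rfl⟩) ⟨⟨ht1.2, ht2.2⟩, h1, h2⟩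
  · intro h p hp hp'
    rw [mem_bar] at hp
    obtain ⟨⟨h1, h2⟩, h3, h4⟩ := hp'
    rw [hp.2.2] at h3 h4
    rcases h h3 h4 with h | h
    · linarith [hp.2.1]
    · linarith [hp.1]

/-- Visibility through an interval `(a, b)`, by endpoint comparisons. -/
theorem sees_iff_ab {x y : V → ℝ} {u v : V} :
    Sees x y u v ↔ ∃ a b : ℝ, a < b ∧ x u ≤ a ∧ x v ≤ a ∧ b ≤ x u + 1 ∧ b ≤ x v + 1 ∧
      ∀ w, min (y u) (y v) < y w → y w < max (y u) (y v) → x w + 1 ≤ a ∨ b ≤ x w := by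
  unfold Sees
  refine exists_congr fun a => exists_congr fun b => and_congr_right fun hab => ?_
  rw [Set.subset_inter_iff, Set.Icc_subset_Icc_iff hab.le, Set.Icc_subset_Icc_iff hab.le]
  constructor
  · rintro ⟨⟨⟨h1, h2⟩, h3, h4⟩, h⟩
    refine ⟨h1, h3, h2, h4, fun w hw1 hw2 => ?_⟩
    refine (disjoint_bar_rect hab).1 (h w ?_ ?_) hw1 hw2
    · rintro rfl
      rcases le_total (y w) (y v) with h | h
      · rw [min_eq_left h] at hw1; exact lt_irrefl _ hw1
      · rw [max_eq_left h] at hw2; exact lt_irrefl _ hw2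
    · rintro rfl
      rcases le_total (y u) (y w) with h | h
      · rw [max_eq_right h] at hw2; exact lt_irrefl _ hw2
      · rw [min_eq_right h] at hw1; exact lt_irrefl _ hw1
  · rintro ⟨h1, h3, h2, h4, h⟩
    exact ⟨⟨⟨h1, h2⟩, h3, h4⟩, fun w _ _ => (disjoint_bar_rect hab).2 (h w)⟩

/-- Visibility just to the right of a point `a`, for finitely many bars. -/
theorem sees_iff_pt [Finite V] {x y : V → ℝ} {u v : V} :
    Sees x y u v ↔ ∃ a : ℝ, x u ≤ a ∧ x v ≤ a ∧ a < x u + 1 ∧ a < x v + 1 ∧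
      ∀ w, min (y u) (y v) < y w → y w < max (y u) (y v) → x w + 1 ≤ a ∨ a < x w := by
  rw [sees_iff_ab]
  constructor
  · rintro ⟨a, b, hab, h1, h2, h3, h4, h⟩
    exact ⟨a, h1, h2, by linarith, by linarith, fun w hw1 hw2 =>
      (h w hw1 hw2).imp id (fun h => by linarith)⟩
  · rintro ⟨a, h1, h2, h3, h4, h⟩
    have hev : ∀ᶠ b in nhdsWithin a (Set.Ioi a), b ≤ x u + 1 ∧ b ≤ x v + 1 ∧
        ∀ w, a < x w → b ≤ x w := by
      have key : ∀ c, a < c → ∀ᶠ b in nhdsWithin a (Set.Ioi a), b ≤ c := fun c hc =>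
        (eventually_le_nhds hc).filter_mono nhdsWithin_le_nhds
      refine (key _ h3).and ((key _ h4).and ?_)
      rw [Filter.eventually_all]
      intro w
      by_cases hw : a < x w
      · exact (key _ hw).mono fun b hb _ => hb
      · exact Filter.Eventually.of_forall fun b hb => absurd hb hw
    obtain ⟨b, ⟨hb1, hb2, hb3⟩, hab⟩ := (hev.and self_mem_nhdsWithin).exists
    exact ⟨a, b, hab, h1, h2, hb1, hb2, fun w hw1 hw2 => (h w hw1 hw2).imp id (hb3 w)⟩

theorem sees_comm {x y : V → ℝ} {u v : V} : Sees x y u v ↔ Sees x y v u := by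
  have key : ∀ u v, Sees x y u v → Sees x y v u := by
    intro u v h
    rw [sees_iff_ab] at h ⊢
    obtain ⟨a, b, hab, h1, h2, h3, h4, h⟩ := h
    exact ⟨a, b, hab, h2, h1, h4, h3, fun w hw1 hw2 =>
      h w (by rwa [min_comm]) (by rwa [max_comm])⟩
  exact ⟨key u v, key v u⟩

/-- A representation, by endpoint comparisons. -/
theorem isRep_iff [Finite V] {G : SimpleGraph V} {x y : V → ℝ} :
    IsRep G x y ↔ (∀ u v, u ≠ v → y u ≠ y v ∨ x u + 1 < x v ∨ x v + 1 < x u) ∧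
      ∀ u v, u ≠ v → (G.Adj u v ↔ ∃ a : ℝ, x u ≤ a ∧ x v ≤ a ∧ a < x u + 1 ∧ a < x v + 1 ∧
        ∀ w, min (y u) (y v) < y w → y w < max (y u) (y v) → x w + 1 ≤ a ∨ a < x w) := by
  simp only [IsRep, disjoint_bar_iff, sees_iff_pt]

theorem sees_equiv (e : V ≃ W) {x y : W → ℝ} {u v : V} :
    Sees (x ∘ e) (y ∘ e) u v ↔ Sees x y (e u) (e v) := by
  simp only [sees_iff_ab, Function.comp]
  refine exists_congr fun a => exists_congr fun b => ?_
  rw [← e.forall_congr_right (q := fun w => min (y (e u)) (y (e v)) < y w →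
    y w < max (y (e u)) (y (e v)) → x w + 1 ≤ a ∨ b ≤ x w)]

theorem IsUBVG.of_iso {G : SimpleGraph V} {H : SimpleGraph W} (e : G ≃g H) (h : IsUBVG H) :
    IsUBVG G := by
  obtain ⟨x, y, h1, h2⟩ := h
  refine ⟨x ∘ e.toEquiv, y ∘ e.toEquiv, fun u v huv => h1 _ _ (e.injective.ne huv),
    fun u v huv => ?_⟩
  rw [sees_equiv]
  exact e.map_adj_iff.symm.trans (h2 _ _ (e.injective.ne huv))

theorem isUBVG_congr {G : SimpleGraph V} {H : SimpleGraph W} (e : G ≃g H) :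
    IsUBVG G ↔ IsUBVG H :=
  ⟨IsUBVG.of_iso e.symm, IsUBVG.of_iso e⟩

end Pool.Agent.Lib.MP_ec9af3_lc
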