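import Pool.Agent.Lib.MP_ec9af3_lc.H18Step

namespace Pool.Agent.Lib.MP_ec9af3_lc.H18

variable {D : Lay} {x y : Vx → ℝ}

/-- The brick wall at the top. -/
structure Wall (D : Lay) : Prop where
  vr : 3 < D.nr
  j0 : ∀ i, D.jt 0 i = 0
  j1 : ∀ i, D.jt 1 i = 0
  j2 : ∀ i, D.jt 2 i = 0
  b0 : ∀ i, D.bk 0 i = 2 * i + 1
  b1 : ∀ i, D.bk 1 i = 2 * i + 1
  t1 : ∀ i, D.tk 1 i = 2 * i
  t2 : ∀ i, D.tk 2 i = 2 * i
  n1 : D.n 1 = D.n 0 + 1
  n2 : D.n 2 = D.n 0 + 2

theorem th0 : th 0 = 0 := rfl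
theorem th1 : th 1 = 2 := rfl
theorem th2 : th 2 = 2 := rfl

theorem Wall.a01 (W : Wall D) {i j : ℕ} (h : i < D.n 0) (e : j = i ∨ j = i + 1) :
    D.G.Adj (0, i, 0) (1, j, 2) :=
  Lay.adj_row (ρ := 0) (by have := W.vr; omega) h (by have := W.n1; simp only [zero_add]; omega)
    (by rw [W.b0, zero_add, W.t1]; omega) (by rw [W.b0, zero_add, W.t1]; omega)

theorem Wall.a12 (W : Wall D) {i j : ℕ} (h : i ≤ D.n 0) (e : j = i ∨ j = i + 1) :
    D.G.Adj (1, i, 0) (2, j, 2) :=
  Lay.adj_row (ρ := 1) (by have := W.vr; omega) (by have := W.n1; omega)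
    (by have := W.n2; show j < D.n 2; omega)
    (by rw [W.b1]; show _ < D.tk 2 _; rw [W.t2]; omega)
    (by rw [W.b1]; show D.tk 2 _ < _; rw [W.t2]; omega)

theorem Wall.nb1 (W : Wall D) {i : ℕ} {w : Vx} (h : D.G.Adj (1, i, 2) w) :
    w = (1, i, 1) ∨ ∃ j, w = (0, j, 0) ∧ (j = i ∨ j + 1 = i) := by
  rcases nb_top th1 h with e | e | e | ⟨ρ, j, e, e', s1, s2⟩
  · exact Or.inl e
  · have := W.j1 (i + 1); omega
  · have := W.j1 i; omega
  · obtain rfl : ρ = 0 := by omega
    rw [W.b0, W.t1] at s1 s2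
    exact Or.inr ⟨j, e', by omega⟩

theorem Wall.nb2 (W : Wall D) {i : ℕ} {w : Vx} (h : D.G.Adj (2, i, 2) w) :
    w = (2, i, 1) ∨ ∃ j, w = (1, j, 0) ∧ (j = i ∨ j + 1 = i) := by
  rcases nb_top th2 h with e | e | e | ⟨ρ, j, e, e', s1, s2⟩
  · exact Or.inl e
  · have := W.j2 (i + 1); omega
  · have := W.j2 i; omega
  · obtain rfl : ρ = 1 := by omega
    rw [W.b1, W.t2] at s1 s2
    exact Or.inr ⟨j, e', by omega⟩

theorem Wall.nb1' (W : Wall D) {i : ℕ} {w : Vx} (h : D.G.Adj (1, i, 0) w) :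
    w = (1, i, 1) ∨ w = (2, i, 2) ∨ w = (2, i + 1, 2) := by
  rcases nb_bot th1 h with e | e | e | ⟨j, e, s1, s2⟩
  · exact Or.inl e
  · have := W.j1 (i + 1); omega
  · have := W.j1 i; omega
  · rw [W.b1] at s1 s2
    have s3 := W.t2 j
    have s4 := W.t2 (j + 1)
    simp only [Nat.reduceAdd] at s1 s2 e
    rcases (by omega : j = i ∨ j = i + 1) with rfl | rfl
    · exact Or.inr (Or.inl e)
    · exact Or.inr (Or.inr e)

theorem Wall.link (W : Wall D) (R : Rep D.S D.G x y) {i j : ℕ} (h : i ≤ D.n 0)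
    (e : j = i ∨ j = i + 1) (i1 : Inner D.S x y (1, i, 1)) (i2 : Inner D.S x y (2, j, 1)) :
    (UpB D.S D.G x y (1, i, 0) (1, i, 1) (1, i, 2) ∧ UpB D.S D.G x y (2, j, 0) (2, j, 1) (2, j, 2)) ∨
    (UpB D.S D.G x y (1, i, 2) (1, i, 1) (1, i, 0) ∧
      UpB D.S D.G x y (2, j, 2) (2, j, 1) (2, j, 0)) := by
  have ad := W.a12 h e
  have := W.vr; have := W.n1; have := W.n2
  rcases R.brick_cases (memS (by omega) (by omega) (by simp [th1])) i1 (nb_mid th1) with B | B <;>
    rcases R.brick_cases (memS (by omega) (by omega) (by simp [th2])) i2 (nb_mid th2) with B' | B'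
  · exact Or.inl ⟨B, B'⟩
  · linarith [R.below B ad (by simp), R.below B' ad.symm (by simp)]
  · linarith [R.above B ad (by simp), R.above B' ad.symm (by simp)]
  · exact Or.inr ⟨B, B'⟩

theorem Wall.not_inner (W : Wall D) (R : Rep D.S D.G x y) {i : ℕ} (h : i < D.n 0)
    (i1 : Inner D.S x y (1, i, 1)) (i2 : Inner D.S x y (2, i + 1, 1))
    (i3 : Inner D.S x y (1, i + 1, 1)) (i4 : Inner D.S x y (0, i, 0)) : False := by
  have a1 := W.a01 h (Or.inl rfl)
  have a2 := W.a01 h (Or.inr rfl)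
  have hc := R.mem a1
  obtain ⟨t, t1, t2, g⟩ := exists_gen D.S x (show x (0, i, 0) < x (0, i, 0) + 1 by linarith)
  obtain ⟨⟨u, hu, c1, c2⟩, ⟨w, hw, c3, c4⟩⟩ := i4 t ⟨t1, t2⟩
  obtain ⟨u', u1, u2, -⟩ := R.exists_up g hc ⟨t1, t2⟩ hu c1 c2
  obtain ⟨w', w1, w2, -⟩ := R.exists_down g hc ⟨t1, t2⟩ hw c3 c4
  have nb : ∀ z, D.G.Adj (0, i, 0) z → z = (1, i, 2) ∨ z = (1, i + 1, 2) := by
    intro z hz
    have v := hz.2.1
    have := W.j0 (i + 1)
    have := W.j0 i
    rcases Lay.nbr hz with h | h | h | h | h | h | ⟨j, -, e, s1, s2⟩ | ⟨ρ, j, h⟩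
    · subst h
      have := v.2.2
      simp [th0] at this
    any_goals omega
    rw [W.b0, zero_add, W.t1] at s1 s2
    rcases (by omega : j = i ∨ j = i + 1) with rfl | rfl
    · exact Or.inl e
    · exact Or.inr e
  rcases W.link R h.le (Or.inr rfl) i1 i2 with ⟨B, B'⟩ | ⟨B, B'⟩ <;>
    rcases W.link R (i := i + 1) h (Or.inl rfl) i3 i2 with ⟨C, C'⟩ | ⟨C, C'⟩
  · have := R.above B a1.symm (by simp)
    have := R.above C a2.symm (by simp)
    rcases nb u' u1 with rfl | rfl <;> linarith [u2.lt]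
  · linarith [B'.ylm, C'.ymh]
  · linarith [C'.ylm, B'.ymh]
  · have := R.below B a1.symm (by simp)
    have := R.below C a2.symm (by simp)
    rcases nb w' w1 with rfl | rfl <;> linarith [w2.lt]

theorem Wall.base (W : Wall D) (R : Rep D.S D.G x y) {p q a b : ℕ} (hq : q ≤ D.n 0)
    (k1 : p + 4 ≤ a) (k2 : a ≤ b) (k3 : b + 2 ≤ q)
    (i1 : ∀ i, p ≤ i → i ≤ q → Inner D.S x y (1, i, 1) ∧ Inner D.S x y (1, i, 0))
    (i2 : ∀ i, p < i → i ≤ q → Inner D.S x y (2, i, 1) ∧ Inner D.S x y (2, i, 2))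
    (hlo : ∀ i, i ≤ q → ∃ j, D.G.Adj (2, i, 0) (2 + 1, j, th (2 + 1)))
    (hy : UpB D.S D.G x y (1, p, 0) (1, p, 1) (1, p, 2)) (hx : x (1, p, 0) ≤ x (1, p + 1, 0)) :
    InvA D x y 2 a b := by
  have := W.vr; have := W.n1; have := W.n2
  have up : ∀ i, p ≤ i → i ≤ q → UpB D.S D.G x y (1, i, 0) (1, i, 1) (1, i, 2) := by
    intro i h
    induction i, h using Nat.le_induction with
    | base => exact fun _ => hy
    | succ i h ih =>
      intro h'
      have B := ih (by omega)
      rcases W.link R (i := i) (by omega) (Or.inr rfl) (i1 i h (by omega)).1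
        (i2 (i + 1) (by omega) h').1 with ⟨C, C'⟩ | ⟨C, C'⟩
      · rcases W.link R (i := i + 1) (by omega) (Or.inl rfl) (i1 _ (by omega) h').1
          (i2 (i + 1) (by omega) h').1 with ⟨E, E'⟩ | ⟨E, E'⟩
        · exact E
        · linarith [C'.ylm, E'.ymh]
      · linarith [B.ylm, C.ymh]
  have up2 : ∀ i, p < i → i ≤ q → UpB D.S D.G x y (2, i, 0) (2, i, 1) (2, i, 2) := by
    intro i h h'
    rcases W.link R (i := i) (by omega) (Or.inl rfl) (i1 i h.le h').1 (i2 i h h').1 with C | C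
    · exact C.2
    · linarith [(up i h.le h').ylm, C.1.ymh]
  have ex : ∀ i, p ≤ i → i ≤ q → x (1, i, 2) = x (1, i, 0) := fun i h h' =>
    ((up i h h').cr le_rfl).1
  have abut : ∀ i, p ≤ i → i < q →
      x (1, i + 1, 0) = x (1, i, 0) + 1 ∨ x (1, i, 0) = x (1, i + 1, 0) + 1 := by
    intro i h h'
    have B := up i h h'.le
    have B' := up (i + 1) (by omega) h'
    have C := up2 (i + 1) (by omega) h'
    have a1 := W.a12 (i := i) (by omega) (Or.inr rfl)
    have a2 := W.a12 (i := i + 1) (by omega) (Or.inl rfl)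
    have a3 := W.a01 (i := i) (by omega) (Or.inl rfl)
    have a4 := W.a01 (i := i) (by omega) (Or.inr rfl)
    refine R.abut_up (i2 (i + 1) (by omega) h').2 (R.st_thick B) (R.st_thick B') a1.symm a2.symm
      (R.above C a1.symm (by simp)) (R.above C a2.symm (by simp)) (fun w hw o => ?_) a3.symm
      (R.above B a3.symm (by simp)) (R.above B' a4.symm (by simp)) a4.symm (fun h => ?_)
      (fun h => ?_) (by simp) (by simp) (by simp)
    · rcases W.nb2 hw with e | ⟨j, e, rfl | e'⟩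
      · rw [e] at o; linarith [C.ymh]
      · exact Or.inr e
      · obtain rfl : j = i := by omega
        exact Or.inl e
    · rcases W.nb1 h with e | ⟨j, e, -⟩ <;> simp at e
    · rcases W.nb1 h with e | ⟨j, e, -⟩ <;> simp at e
  have hand : ∀ i, p ≤ i → i < q → x (1, i + 1, 0) = x (1, i, 0) + 1 := by
    intro i h
    induction i, h using Nat.le_induction with
    | base =>
      intro h'
      rcases abut p le_rfl h' with e | e
      · exact e
      · linarith
    | succ i h ih =>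
      intro h'
      have e0 := ih (by omega)
      rcases abut (i + 1) (by omega) h' with e | e
      · exact e
      exfalso
      have c1 := R.adj_x (W.a12 (i := i) (by omega) (Or.inr rfl))
      have c2 := R.adj_x (W.a12 (i := i + 1 + 1) (by omega) (Or.inl rfl))
      obtain ⟨t, t1, t2, g⟩ := exists_gen D.S x (show max (x (1, i + 1, 0))
        (max (x (2, i + 1, 2) + 1) (x (2, i + 1 + 1, 2) + 1)) < x (1, i + 1, 0) + 1 by
          simp only [max_lt_iff]
          refine ⟨?_, ?_, ?_⟩ <;> linarith [c1.2, c2.2])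
      simp only [max_lt_iff] at t1
      obtain ⟨-, ⟨w, hw, c3, c4⟩⟩ := (i1 (i + 1) (by omega) (by omega)).2 t ⟨t1.1, t2⟩
      obtain ⟨w', w1, w2, -⟩ := R.exists_down g (memS (by omega) (by omega) (by omega))
        ⟨t1.1, t2⟩ hw c3 c4
      rcases W.nb1' w1 with rfl | rfl | rfl
      · linarith [w2.lt, (up (i + 1) (by omega) (by omega)).ylm]
      · linarith [w2.cu.2, t1.2.1]
      · linarith [w2.cu.2, t1.2.2]
  have mono : ∀ i, p ≤ i → i < q → x (1, i, 0) < x (1, i + 1, 0) := fun i h h' => by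
    linarith [hand i h h']
  set U : Set Vx := {w | ∃ i t, p < i ∧ i < q ∧ Gen D.S x t ∧ Cr x t (1, i, 0) ∧ Cr x t w ∧
    y (1, i, 0) ≤ y w} with hU
  have mem : ∀ i, i ≤ q → ((1, i, 0) : Vx) ∈ D.S := fun i h => memS (by omega) (by omega) (by omega)
  have ovr : ∀ i t w, p < i → i < q → Gen D.S x t → Cr x t (1, i, 0) → w ∈ D.S → Cr x t w →
      x w ≠ x (1, i, 0) → y (1, i, 0) ≤ y w →
      ∃ j, (j = i ∨ j + 1 = i) ∧ Cr x t (0, j, 0) ∧ y (0, j, 0) ≤ y w := by
    intro i t w h h' g c hw cw ne o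
    have B := up i h.le h'.le
    have cm : Cr x t (1, i, 1) := by
      unfold Cr at c ⊢
      rwa [B.xl] at c
    obtain ⟨s1, s2⟩ := B.sees t g cm
    have e : ∀ r, r ≤ 2 → y w ≠ y (1, i, r) := fun r hr e => by
      have c' : Cr x t (1, i, r) := by
        unfold Cr at c ⊢
        rwa [(B.cr hr).1]
      rw [R.eq_of_cr hw (memS (by omega) (by omega) (by rwa [th1])) cw c' e] at ne
      exact ne (B.cr hr).1
    have o' : y (1, i, 2) < y w := by
      rcases s1.free w hw cw with k | k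
      · exact absurd (le_antisymm k o) (e 0 (by omega))
      · rcases s2.free w hw cw with k' | k'
        · exact absurd (le_antisymm k' k) (e 1 (by omega))
        · exact lt_of_le_of_ne k' (e 2 le_rfl).symm
    obtain ⟨z, z1, z2, z3⟩ := R.exists_up g (R.mem' B.amh) s2.cv hw cw o'
    rcases W.nb1 z1 with rfl | ⟨j, rfl, e'⟩
    · linarith [z2.lt, B.ymh]
    · exact ⟨j, e', z2.cv, z3⟩
  have low : ∀ i t, p < i → i < q → Gen D.S x t → Cr x t (1, i, 0) →
      LowAt D.S x y U t (1, i, 0) := by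
    intro i t h h' g c
    refine ⟨mem i h'.le, ⟨i, t, h, h', g, c, c, le_rfl⟩, c, fun w hw cw => ⟨?_, fun k => ?_⟩⟩
    swap
    · by_contra o
      exact k ⟨i, t, h, h', g, c, cw, not_lt.1 o⟩
    rintro ⟨j, s, p1, p2, gs, cs, cw', o⟩
    by_contra o'
    push Not at o'
    unfold Cr at c cw cs cw'
    have B := up i h.le h'.le
    rcases lt_trichotomy i j with k | k | k
    · have e := hand i h.le h'
      rcases (show i + 1 ≤ j from k).eq_or_lt with rfl | k'
      · have c1 := R.adj_x (W.a01 (i := i + 1) (by omega) (Or.inr rfl))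
        rw [ex _ (by omega) p2, hand _ (by omega) p2] at c1
        obtain ⟨r, r1, r2, gr⟩ := exists_gen D.S x (lt_min cs.1 (show _ < x (0, i + 1, 0) by
          linarith [c1.2]))
        rw [lt_min_iff] at r2
        obtain ⟨m, rfl | e', d1, d2⟩ := ovr (i + 1) r w p1 p2 gr ⟨r1, by linarith⟩ hw
          ⟨by linarith, by linarith⟩ (by linarith) o
        · linarith [d1.1]
        · obtain rfl : m = i := by omega
          linarith [R.above B (W.a01 (by omega) (Or.inl rfl)).symm (by simp), B.ylm, B.ymh]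
      · linarith [hand (i + 1) (by omega) (by omega), mono_le (T := fun i => x (1, i, 0)) mono
          (i := i + 1 + 1) (j := j) (by omega) k' p2.le]
    · subst k
      linarith
    · have e := hand j p1.le p2
      rcases (show j + 1 ≤ i from k).eq_or_lt with rfl | k'
      · obtain ⟨j', rfl⟩ : ∃ j', j = j' + 1 := ⟨j - 1, by omega⟩
        have c1 := R.adj_x (W.a01 (i := j') (by omega) (Or.inl rfl))
        rw [ex _ (by omega) (by omega)] at c1
        have e' := hand j' (by omega) (by omega)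
        obtain ⟨r, r1, r2, gr⟩ := exists_gen D.S x (max_lt cs.2 (show x (0, j', 0) + 1 < _ by
          linarith [c1.1]))
        rw [max_lt_iff] at r1
        obtain ⟨m, rfl | e'', d1, d2⟩ := ovr (j' + 1) r w p1 p2 gr ⟨by linarith, r2⟩ hw
          ⟨by linarith, by linarith⟩ (by linarith) o
        · linarith [R.above B (W.a01 (by omega) (Or.inr rfl)).symm (by simp), B.ylm, B.ymh]
        · obtain rfl : m = j' := by omega
          linarith [d1.2]
      · linarith [hand (j + 1) (by omega) (by omega), mono_le (T := fun i => x (1, i, 0)) mono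
          (i := j + 1 + 1) (j := i) (by omega) k' h'.le]
  have memU : ∀ i, p < i → i < q → ((1, i, 0) : Vx) ∈ U := by
    intro i h h'
    obtain ⟨t, t1, t2, g⟩ := exists_gen D.S x (show x (1, i, 0) < x (1, i, 0) + 1 by linarith)
    exact (low i t h h' g ⟨t1, t2⟩).2.1
  have sight : ∀ i k, p + 2 ≤ i → i + 2 ≤ q → (k = i ∨ k = i + 1) → ∃ s, Gen D.S x s ∧
      x (1, p + 2, 0) < s ∧ s < x (1, q - 1, 0) ∧ TopAt D.S x y U s (2, k, 2) := by
    intro i k h h' e
    have ad := W.a12 (i := i) (by omega) e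
    obtain ⟨s, st⟩ := R.sees_of_adj ad.symm (R.below (up i (by omega) (by omega)) ad (by simp))
    refine ⟨s, st.gen, ?_, ?_, R.top_of_sees (low i s (by omega) (by omega) st.gen st.cv)
      (R.mem' ad) st⟩
    · linarith [mono_le (T := fun i => x (1, i, 0)) mono (i := p + 2) (by omega) h (by omega),
        st.cv.1]
    · linarith [mono_le (T := fun i => x (1, i, 0)) mono (i := i + 1) (j := q - 1) (by omega)
        (by omega) (by omega), st.cv.2, hand i (by omega) (by omega)]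
  refine (stepA (U := U) (a := p + 2) (b := q - 1) (α := x (1, p + 2, 0)) (β := x (1, q - 1, 0))
    R th2 (by omega) (by omega) (fun k => by rw [W.j2]; omega) ?_ ?_ ?_
    (fun i h h' => (i2 i (by omega) (by omega)).1) ?_ ?_ (fun i _ h => hlo i (by omega))
    k1 k2 (by omega) (W.j2 _) (W.j2 _)).1
  · intro t g t1 t2
    obtain ⟨i, p1, p2, p3, p4⟩ := exists_seg (fun i => x (1, i, 0)) (by omega) t1 t2
      fun i _ h => (g _ (mem i (by omega))).1
    rw [hand i (by omega) (by omega)] at p4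
    have L := low i t (by omega) (by omega) g ⟨p3, p4⟩
    obtain ⟨w, ad, T⟩ := R.exists_top g L (i1 i (by omega) (by omega)).2
    rcases W.nb1' ad with rfl | rfl | rfl
    · linarith [(L.2.2.2 _ T.1 T.2.2.1).2 T.2.1, (up i (by omega) (by omega)).ylm]
    · exact ⟨i, p1, by omega, T⟩
    · exact ⟨i + 1, by omega, by omega, T⟩
  · intro i h h'
    by_cases o : i + 2 ≤ q
    · exact sight i i h o (Or.inl rfl)
    · exact sight (i - 1) i (by omega) (by omega) (Or.inr (by omega))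
  · intro i h h'
    obtain ⟨j, rfl⟩ : ∃ j, i = j + 1 := ⟨i - 1, by omega⟩
    have c1 := R.adj_x (W.a12 (i := j) (by omega) (Or.inr rfl))
    have c2 := R.adj_x (W.a12 (i := j + 1 + 1) (by omega) (Or.inl rfl))
    linarith [c1.2, c2.1, hand j (by omega) (by omega), hand (j + 1) (by omega) (by omega)]
  · intro i h h' ρ j e ad
    rcases W.nb2 ad with e' | ⟨m, e', e''⟩
    · simp at e'
    · rw [e']
      exact memU m (by omega) (by omega)
  · intro i h h'
    have ad := W.a12 (i := i) (by omega) (Or.inl rfl)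
    exact ⟨_, ad.symm, by simp, R.below (up i (by omega) (by omega)) ad (by simp)⟩

end Pool.Agent.Lib.MP_ec9af3_lc.H18
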