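import Pool.Agent.Lib.MP_ec9af3_lc.H18Face

namespace Pool.Agent.Lib.MP_ec9af3_lc.H18

variable {V : Type}

/-- `a` is the lowest bar of `U` over `t` and all other bars over `t` are below it. -/
def LowAt (S : Finset V) (x y : V → ℝ) (U : Set V) (t : ℝ) (a : V) : Prop :=
  a ∈ S ∧ a ∈ U ∧ Cr x t a ∧ ∀ w ∈ S, Cr x t w → (w ∈ U → y a ≤ y w) ∧ (w ∉ U → y w < y a)

/-- `b` is the highest bar outside `U` over `t` and the bars of `U` over `t` are above it. -/
def TopAt (S : Finset V) (x y : V → ℝ) (U : Set V) (t : ℝ) (b : V) : Prop :=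
  b ∈ S ∧ b ∉ U ∧ Cr x t b ∧ ∀ w ∈ S, Cr x t w → (w ∉ U → y w ≤ y b) ∧ (w ∈ U → y b < y w)

noncomputable def jT (x y : V → ℝ) (p q : V) : ℝ := if y p < y q then x q else x p + 1

noncomputable def jB (x y : V → ℝ) (p q : V) : ℝ := if y q < y p then x q else x p + 1

theorem le_of_gen (S : Finset V) (x : V → ℝ) {p q c : ℝ} (h : p < q)
    (H : ∀ t, Gen S x t → p < t → t < q → c < t) : c ≤ p := by
  by_contra hc
  push Not at hc
  obtain ⟨t, a, b, g⟩ := exists_gen S x (lt_min hc h)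
  rw [lt_min_iff] at b
  linarith [H t g a b.2, b.1]

theorem ge_of_gen (S : Finset V) (x : V → ℝ) {p q c : ℝ} (h : p < q)
    (H : ∀ t, Gen S x t → p < t → t < q → t < c) : q ≤ c := by
  by_contra hc
  push Not at hc
  obtain ⟨t, a, b, g⟩ := exists_gen S x (max_lt hc h)
  rw [max_lt_iff] at a
  linarith [H t g a.2 b, a.1]

theorem exists_seg (T : ℕ → ℝ) {a b : ℕ} {t : ℝ} (hab : a ≤ b) (h1 : T a < t) (h2 : t < T b)
    (hne : ∀ i, a ≤ i → i ≤ b → t ≠ T i) : ∃ i, a ≤ i ∧ i < b ∧ T i < t ∧ t < T (i + 1) := by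
  induction b, hab using Nat.le_induction with
  | base => linarith
  | succ b hab ih =>
    rcases lt_trichotomy t (T b) with h | h | h
    · obtain ⟨i, k1, k2, k3⟩ := ih h (fun i p q => hne i p (by omega))
      exact ⟨i, k1, by omega, k3⟩
    · exact absurd h (hne b hab (by omega))
    · exact ⟨b, hab, by omega, h, h2⟩

theorem exists_fib (g : ℕ → ℕ) {a b j : ℕ} (h1 : g a ≤ j) (h2 : j < g b) (hab : a ≤ b) :
    ∃ k, a ≤ k ∧ k < b ∧ g k ≤ j ∧ j < g (k + 1) := by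
  induction b, hab using Nat.le_induction with
  | base => omega
  | succ b hab ih =>
    by_cases h : j < g b
    · obtain ⟨i, k1, k2, k3⟩ := ih h
      exact ⟨i, k1, by omega, k3⟩
    · exact ⟨b, hab, by omega, by omega, h2⟩

theorem mono_le {T : ℕ → ℝ} {a b : ℕ} (h : ∀ i, a ≤ i → i < b → T i < T (i + 1)) {i j : ℕ}
    (h1 : a ≤ i) (h2 : i ≤ j) (h3 : j ≤ b) : T i ≤ T j := by
  induction j, h2 using Nat.le_induction with
  | base => exact le_rfl
  | succ j hij ih => exact (ih (by omega)).trans (h j (by omega) (by omega)).le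

theorem mono_lt {T : ℕ → ℝ} {a b : ℕ} (h : ∀ i, a ≤ i → i < b → T i < T (i + 1)) {i j : ℕ}
    (h1 : a ≤ i) (h2 : i < j) (h3 : j ≤ b) : T i < T j :=
  (h i h1 (by omega)).trans_le (mono_le h (by omega) h2 h3)

theorem seg_unique {T : ℕ → ℝ} {a b : ℕ} (h : ∀ i, a ≤ i → i < b → T i < T (i + 1)) {i j : ℕ}
    {t : ℝ} (h1 : a ≤ i) (h2 : i < b) (h3 : a ≤ j) (h4 : j < b) (p1 : T i < t) (p2 : t < T (i + 1))
    (q1 : T j < t) (q2 : t < T (j + 1)) : i = j := by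
  rcases lt_trichotomy i j with k | k | k
  · linarith [mono_le h (i := i + 1) (j := j) (by omega) k h4.le]
  · exact k
  · linarith [mono_le h (i := j + 1) (j := i) (by omega) k h2.le]

variable {S : Finset V} {G : SimpleGraph V} {x y : V → ℝ} {U : Set V}

theorem Gen.ne_jT {t : ℝ} (g : Gen S x t) {p q : V} (hp : p ∈ S) (hq : q ∈ S) : t ≠ jT x y p q := by
  unfold jT
  split_ifs
  · exact (g q hq).1
  · exact (g p hp).2

theorem Gen.ne_jB {t : ℝ} (g : Gen S x t) {p q : V} (hp : p ∈ S) (hq : q ∈ S) : t ≠ jB x y p q := by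
  unfold jB
  split_ifs
  · exact (g q hq).1
  · exact (g p hp).2

theorem hi_lt {t : ℝ} (g : Gen S x t) {p q : V} (c : Cr x t p) (hq : q ∈ S) (hx : x p < x q)
    (h : Cr x t q → y q ≤ y p) : t < jT x y p q := by
  unfold jT
  split_ifs with k
  · rcases g.not_cr hq (fun c' => absurd (h c') (not_le.2 k)) with a | a
    · exact a
    · linarith [c.2]
  · exact c.2

theorem lo_lt {t : ℝ} (g : Gen S x t) {p q : V} (c : Cr x t p) (hq : q ∈ S) (hx : x p < x q)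
    (h : Cr x t q → y p ≤ y q) : t < jB x y p q := by
  unfold jB
  split_ifs with k
  · rcases g.not_cr hq (fun c' => absurd (h c') (not_le.2 k)) with a | a
    · exact a
    · linarith [c.2]
  · exact c.2

namespace Rep

variable (R : Rep S G x y)
include R

theorem lt_hi {t : ℝ} (g : Gen S x t) {p q : V} (c : Cr x t q) (hp : p ∈ S) (hq : q ∈ S)
    (hx : x p < x q) (h : Cr x t p → y p ≤ y q) : jT x y p q < t := by
  unfold jT
  split_ifs with k
  · exact c.1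
  · by_cases c' : Cr x t p
    · have := R.eq_of_cr hp hq c' c (le_antisymm (h c') (not_lt.1 k))
      rw [this] at hx
      exact absurd hx (lt_irrefl _)
    · rcases g.not_cr hp c' with a | a
      · linarith [c.1]
      · exact a

theorem lt_lo {t : ℝ} (g : Gen S x t) {p q : V} (c : Cr x t q) (hp : p ∈ S) (hq : q ∈ S)
    (hx : x p < x q) (h : Cr x t p → y q ≤ y p) : jB x y p q < t := by
  unfold jB
  split_ifs with k
  · exact c.1
  · by_cases c' : Cr x t p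
    · have := R.eq_of_cr hp hq c' c (le_antisymm (not_lt.1 k) (h c'))
      rw [this] at hx
      exact absurd hx (lt_irrefl _)
    · rcases g.not_cr hp c' with a | a
      · linarith [c.1]
      · exact a

theorem top_lt {t : ℝ} (g : Gen S x t) {p q : V} (T : TopAt S x y U t p) (hq : q ∈ S)
    (hU : q ∉ U) (hx : x p < x q) : t < jT x y p q :=
  hi_lt g T.2.2.1 hq hx fun c => (T.2.2.2 q hq c).1 hU

theorem lt_top {t : ℝ} (g : Gen S x t) {p q : V} (T : TopAt S x y U t q) (hp : p ∈ S)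
    (hU : p ∉ U) (hx : x p < x q) : jT x y p q < t :=
  R.lt_hi g T.2.2.1 hp T.1 hx fun c => (T.2.2.2 p hp c).1 hU

theorem low_lt {t : ℝ} (g : Gen S x t) {p q : V} (T : LowAt S x y U t p) (hq : q ∈ S)
    (hU : q ∈ U) (hx : x p < x q) : t < jB x y p q :=
  lo_lt g T.2.2.1 hq hx fun c => (T.2.2.2 q hq c).1 hU

theorem lt_low {t : ℝ} (g : Gen S x t) {p q : V} (T : LowAt S x y U t q) (hp : p ∈ S)
    (hU : p ∈ U) (hx : x p < x q) : jB x y p q < t :=
  R.lt_lo g T.2.2.1 hp T.1 hx fun c => (T.2.2.2 p hp c).1 hU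

theorem top_unique {t : ℝ} {p q : V} (P : TopAt S x y U t p) (Q : TopAt S x y U t q) : p = q :=
  R.eq_of_cr P.1 Q.1 P.2.2.1 Q.2.2.1 (le_antisymm ((Q.2.2.2 p P.1 P.2.2.1).1 P.2.1)
    ((P.2.2.2 q Q.1 Q.2.2.1).1 Q.2.1))

theorem exists_top {t : ℝ} (g : Gen S x t) {a : V} (L : LowAt S x y U t a) (hi : Inner S x y a) :
    ∃ b, G.Adj a b ∧ TopAt S x y U t b := by
  obtain ⟨-, ⟨u, hu, c1, c2⟩⟩ := hi t L.2.2.1
  obtain ⟨b, b1, b2, -⟩ := R.exists_down g L.1 L.2.2.1 hu c1 c2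
  have hb := R.mem' b1
  have hU : b ∉ U := fun h => absurd ((L.2.2.2 b hb b2.cu).1 h) (not_le.2 b2.lt)
  refine ⟨b, b1, hb, hU, b2.cu, fun w hw cw => ⟨fun h => ?_, fun h => ?_⟩⟩
  · rcases b2.free w hw cw with k | k
    · exact k
    · linarith [(L.2.2.2 w hw cw).2 h]
  · linarith [(L.2.2.2 w hw cw).1 h, b2.lt]

theorem top_of_sees {t : ℝ} {a b : V} (L : LowAt S x y U t a) (hb : b ∈ S)
    (s : Sees S x y t b a) : TopAt S x y U t b := by
  have hU : b ∉ U := fun h => absurd ((L.2.2.2 b hb s.cu).1 h) (not_le.2 s.lt)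
  refine ⟨hb, hU, s.cu, fun w hw cw => ⟨fun h => ?_, fun h => ?_⟩⟩
  · rcases s.free w hw cw with k | k
    · exact k
    · linarith [(L.2.2.2 w hw cw).2 h]
  · linarith [(L.2.2.2 w hw cw).1 h, s.lt]

theorem top_x {s t : ℝ} {p q : V} (P : TopAt S x y U s p) (Q : TopAt S x y U t q) (hst : s < t)
    (ne : p ≠ q) : x p < x q := by
  by_contra h
  push Not at h
  have c1 := P.2.2.1
  have c2 := Q.2.2.1
  have k1 : Cr x s q := ⟨by linarith [c1.1], by linarith [c2.2]⟩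
  have k2 : Cr x t p := ⟨by linarith [c1.1], by linarith [c2.2]⟩
  exact ne (R.eq_of_cr P.1 Q.1 c1 k1 (le_antisymm ((Q.2.2.2 p P.1 k2).1 P.2.1)
    ((P.2.2.2 q Q.1 k1).1 Q.2.1)))

/-- If `p` and `q` are adjacent and on top at `s < t`, a third bar on top between them
lies above one of them and stays between. -/
theorem top_between {s r t : ℝ} {p q m : V} (gr : Gen S x r) (P : TopAt S x y U s p)
    (M : TopAt S x y U r m) (Q : TopAt S x y U t q) (h1 : s < r) (h2 : r < t) (a : G.Adj p q)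
    (n1 : m ≠ p) (n2 : m ≠ q) :
    (Cr x r p ∧ y p < y m) ∨ (Cr x r q ∧ y q < y m) := by
  have hx := R.adj_x a
  have c1 := P.2.2.1
  have c2 := Q.2.2.1
  have lt : ∀ z, z ∈ S → z ∉ U → m ≠ z → Cr x r z → y z < y m := fun z hz hU ne c =>
    lt_of_le_of_ne ((M.2.2.2 z hz c).1 hU) fun e => ne (R.eq_of_cr M.1 hz M.2.2.1 c e.symm)
  by_cases c : Cr x r p
  · exact Or.inl ⟨c, lt p P.1 P.2.1 n1 c⟩
  · rcases gr.not_cr P.1 c with k | k
    · linarith [c1.1]
    · have c' : Cr x r q := ⟨by linarith [hx.2], by linarith [c2.2]⟩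
      exact Or.inr ⟨c', lt q Q.1 Q.2.1 n2 c'⟩

/-- Edges between bars that are visible from above do not cross. -/
theorem no_cross {s1 s2 s3 s4 : ℝ} {p p' q q' : V} (g2 : Gen S x s2) (g3 : Gen S x s3)
    (P : TopAt S x y U s1 p) (P' : TopAt S x y U s2 p') (Q : TopAt S x y U s3 q)
    (Q' : TopAt S x y U s4 q') (h1 : s1 < s2) (h2 : s2 < s3) (h3 : s3 < s4) (a : G.Adj p q)
    (a' : G.Adj p' q') (n1 : p' ≠ p) (n2 : p' ≠ q) (n3 : q ≠ q') : False := by
  have x1 := R.top_x P P' h1 n1.symm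
  have x2 := R.top_x P' Q h2 n2
  have x3 := R.top_x Q Q' h3 n3
  have c1 := P.2.2.1; have c2 := P'.2.2.1; have c3 := Q.2.2.1; have c4 := Q'.2.2.1
  have hx := R.adj_x a
  have hx' := R.adj_x a'
  unfold Cr at c1 c2 c3 c4
  have T : ∀ {s : ℝ} {m z : V}, TopAt S x y U s m → z ∈ S → z ∉ U → x z < s → s < x z + 1 →
      y z ≤ y m := fun M hz hU k1 k2 => (M.2.2.2 _ hz ⟨k1, k2⟩).1 hU
  have sight : ∀ {u v z : V}, G.Adj u v → z ∈ S → ((y u < y z ∧ y z < y v) ∨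
      (y v < y z ∧ y z < y u)) → ∃ t, Cr x t u ∧ Cr x t v ∧ (t < x z ∨ x z + 1 < t) := by
    intro u v z h hz k
    rcases k with k | k
    · obtain ⟨t, st⟩ := R.sees_of_adj h (k.1.trans k.2)
      exact ⟨t, st.cu, st.cv, st.gen.not_cr hz (st.not_cr hz k.1 k.2)⟩
    · obtain ⟨t, st⟩ := R.sees_of_adj h.symm (k.1.trans k.2)
      exact ⟨t, st.cv, st.cu, st.gen.not_cr hz (st.not_cr hz k.1 k.2)⟩
  have ne : ∀ {u v : V} {t : ℝ}, u ∈ S → v ∈ S → u ≠ v → Cr x t u → Cr x t v → y u ≠ y v :=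
    fun hu hv n a b e => n (R.eq_of_cr hu hv a b e)
  -- all four bars contain a common point
  have cm : ∃ t, Cr x t p' ∧ Cr x t q := ⟨(x q + x p' + 1) / 2, ⟨by linarith, by linarith⟩,
    ⟨by linarith, by linarith⟩⟩
  obtain ⟨t0, d1, d2⟩ := cm
  rcases lt_or_gt_of_ne (ne P'.1 Q.1 n2 d1 d2) with k | k
  · -- `q` above `p'`
    rcases R.top_between g2 P P' Q h1 h2 a n1 n2 with ⟨e1, e2⟩ | ⟨e1, e2⟩
    · obtain ⟨t, t1, t2, t3⟩ := sight a P'.1 (Or.inl ⟨e2, k⟩)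
      unfold Cr at t1 t2
      rcases t3 with t3 | t3 <;> linarith
    · linarith
  · rcases R.top_between g3 P' Q Q' h2 h3 a' n2.symm n3 with ⟨e1, e2⟩ | ⟨e1, e2⟩
    · linarith
    · obtain ⟨t, t1, t2, t3⟩ := sight a' Q.1 (Or.inr ⟨e2, k⟩)
      unfold Cr at t1 t2
      rcases t3 with t3 | t3 <;> linarith

/-- Adding a row to the ceiling. -/
theorem add_row {Rw : Set V} {t : ℝ} (g : Gen S x t) {b : V} (T : TopAt S x y U t b)
    (hb : b ∈ Rw) (hR : ∀ w ∈ Rw, w ∉ U)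
    (hc : ∀ w ∈ S, w ∉ U → Cr x t w → ∀ u ∈ S, u ∈ U → Cr x t u → y w < y u)
    (hn : ∀ w ∈ Rw, Cr x t w → ∀ z, G.Adj w z → y w < y z → z ∈ U ∪ Rw) :
    ∃ a ∈ Rw, LowAt S x y (U ∪ Rw) t a := by
  classical
  obtain ⟨a, ha, hmin⟩ := (S.filter (fun u => u ∈ Rw ∧ Cr x t u)).exists_min_image y
    ⟨b, Finset.mem_filter.2 ⟨T.1, hb, T.2.2.1⟩⟩
  obtain ⟨haS, haR, hca⟩ := Finset.mem_filter.1 ha
  refine ⟨a, haR, haS, Or.inr haR, hca, fun w hw cw => ⟨fun h => ?_, fun h => ?_⟩⟩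
  · rcases h with h | h
    · exact (hc a haS (hR a haR) hca w hw h cw).le
    · exact hmin w (Finset.mem_filter.2 ⟨hw, h, cw⟩)
  · by_contra hcon
    push Not at hcon
    have hlt : y a < y w := lt_of_le_of_ne hcon fun e =>
      h (R.eq_of_cr haS hw hca cw e ▸ Or.inr haR)
    obtain ⟨m, hm, hmax⟩ := (S.filter (fun u => u ∈ Rw ∧ Cr x t u ∧ y u < y w)).exists_max_image y
      ⟨a, Finset.mem_filter.2 ⟨haS, haR, hca, hlt⟩⟩
    obtain ⟨hmS, hmR, hcm, hmw⟩ := Finset.mem_filter.1 hm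
    obtain ⟨z, z1, z2, z3⟩ := R.exists_up g hmS hcm hw cw hmw
    have hz := R.mem' z1
    rcases hn m hmR hcm z z1 z2.lt with k | k
    · linarith [hc w hw (fun e => h (Or.inl e)) cw z hz k z2.cv]
    · have : y z < y w := lt_of_le_of_ne z3 fun e =>
        h (R.eq_of_cr hz hw z2.cv cw e ▸ Or.inr k)
      linarith [hmax z (Finset.mem_filter.2 ⟨hz, k, z2.cv, this⟩), z2.lt]

end Rep

theorem LowAt.sep {t : ℝ} {a : V} (L : LowAt S x y U t a) :
    ∀ w ∈ S, w ∉ U → Cr x t w → ∀ u ∈ S, u ∈ U → Cr x t u → y w < y u :=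
  fun w hw h c u hu h' c' => ((L.2.2.2 w hw c).2 h).trans_le ((L.2.2.2 u hu c').1 h')

end Pool.Agent.Lib.MP_ec9af3_lc.H18
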