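import Pool.Agent.Lib.MP_ec9af3_lc.H18Lay

namespace Pool.Agent.Lib.MP_ec9af3_lc.H18

/-- Coordinates for a layered graph. -/
structure Layout (D : Lay) (X T B : ℕ → ℕ → ℝ) (up : ℕ → ℕ → Prop) : Prop where
  npos : ∀ ρ, ρ < D.nr → 0 < D.n ρ
  T0 : ∀ ρ, T ρ 0 = X ρ 0
  B0 : ∀ ρ, B ρ 0 = X ρ 0
  Tn : ∀ ρ, ρ < D.nr → T ρ (D.n ρ) = X ρ (D.n ρ - 1) + 1
  Bn : ∀ ρ, ρ < D.nr → B ρ (D.n ρ) = X ρ (D.n ρ - 1) + 1
  jup : ∀ ρ i, ρ < D.nr → i + 1 < D.n ρ → up ρ (i + 1) →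
    T ρ (i + 1) = X ρ (i + 1) ∧ B ρ (i + 1) = X ρ i + 1
  jdn : ∀ ρ i, ρ < D.nr → i + 1 < D.n ρ → ¬ up ρ (i + 1) →
    T ρ (i + 1) = X ρ i + 1 ∧ B ρ (i + 1) = X ρ (i + 1)
  xlt : ∀ ρ i, ρ < D.nr → i + 1 < D.n ρ → X ρ i < X ρ (i + 1)
  j0 : ∀ ρ i, ρ < D.nr → i + 1 < D.n ρ → D.jt ρ (i + 1) = 0 → X ρ (i + 1) = X ρ i + 1
  jne : ∀ ρ i, ρ < D.nr → i + 1 < D.n ρ → D.jt ρ (i + 1) ≠ 0 → X ρ (i + 1) < X ρ i + 1
  jle : ∀ ρ i, D.jt ρ i ≤ 2
  thick : ∀ ρ i, th ρ = 2 → (D.jt ρ i = 1 → up ρ i) ∧ (D.jt ρ i = 2 → ¬ up ρ i)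
  Tm : ∀ ρ i, ρ < D.nr → i < D.n ρ → T ρ i < T ρ (i + 1)
  Bm : ∀ ρ i, ρ < D.nr → i < D.n ρ → B ρ i < B ρ (i + 1)
  face : ∀ ρ i j, ρ + 1 < D.nr → i < D.n ρ → j < D.n (ρ + 1) →
    (D.bk ρ i < D.tk (ρ + 1) (j + 1) ↔ B ρ i < T (ρ + 1) (j + 1)) ∧
    (D.tk (ρ + 1) j < D.bk ρ (i + 1) ↔ T (ρ + 1) j < B ρ (i + 1))
  pl : ∀ ρ, ρ + 1 < D.nr → X (ρ + 1) 0 ≤ X ρ 0
  pr : ∀ ρ, ρ + 1 < D.nr → X ρ (D.n ρ - 1) ≤ X (ρ + 1) (D.n (ρ + 1) - 1)

open Classical in
noncomputable def lam (up : ℕ → Prop) : ℕ → ℤ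
  | 0 => 0
  | i + 1 => lam up i + if up (i + 1) then 1 else -1

theorem lam_bnd (up : ℕ → Prop) (i : ℕ) : -(i : ℤ) ≤ lam up i ∧ lam up i ≤ i := by
  induction i with
  | zero => simp [lam]
  | succ i ih =>
    simp only [lam]
    split_ifs <;> push_cast <;> omega

theorem th_cases (ρ : ℕ) : th ρ = 0 ∨ th ρ = 2 := by
  unfold th
  split_ifs <;> simp

noncomputable def hgt (D : Lay) (up : ℕ → ℕ → Prop) (v : Vx) : ℤ :=
  -(6 * ((∑ ρ ∈ Finset.range D.nr, D.n ρ : ℕ) : ℤ) + 6) * v.1 + (th v.1 + 1) * lam (up v.1) v.2.1 +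
    v.2.2

namespace Layout

variable {D : Lay} {X T B : ℕ → ℕ → ℝ} {up : ℕ → ℕ → Prop} (L : Layout D X T B up)

theorem hgt_sep {u v : Vx} (hu : D.valid u) (hv : D.valid v) (h : u.1 < v.1) :
    hgt D up v < hgt D up u := by
  have key : ∀ w : Vx, D.valid w → -(3 * ((∑ ρ ∈ Finset.range D.nr, D.n ρ : ℕ) : ℤ)) ≤
      (th w.1 + 1) * lam (up w.1) w.2.1 + w.2.2 ∧ (th w.1 + 1) * lam (up w.1) w.2.1 + w.2.2 ≤
        3 * ((∑ ρ ∈ Finset.range D.nr, D.n ρ : ℕ) : ℤ) + 2 := by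
    intro w hw
    have h1 : D.n w.1 ≤ ∑ ρ ∈ Finset.range D.nr, D.n ρ :=
      Finset.single_le_sum (f := D.n) (fun _ _ => Nat.zero_le _) (Finset.mem_range.2 hw.1)
    have h2 := lam_bnd (up w.1) w.2.1
    have h3 := hw.2.1
    have h4 := hw.2.2
    rcases th_cases w.1 with e | e <;> rw [e] at h4 ⊢ <;> omega
  have a := key u hu
  have b := key v hv
  unfold hgt
  have h' : (u.1 : ℤ) + 1 ≤ v.1 := by exact_mod_cast h
  nlinarith [a.1, b.2]

include L

theorem xle {ρ i j : ℕ} (h : ρ < D.nr) (hij : i ≤ j) (hj : j < D.n ρ) : X ρ i ≤ X ρ j :=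
  mono_le (T := X ρ) (a := 0) (b := D.n ρ - 1) (fun i _ q => L.xlt ρ i h (by omega))
    (Nat.zero_le _) hij (by omega)

theorem run {ρ i j : ℕ} (h : ρ < D.nr) (hij : i < j) (hj : j < D.n ρ) (hx : X ρ j ≤ X ρ i + 1) :
    (up ρ (i + 1) ∧ up ρ j ∧ ∀ m, i ≤ m → m ≤ j → lam (up ρ) m = lam (up ρ) i + (m - i)) ∨
    (¬ up ρ (i + 1) ∧ ¬ up ρ j ∧ ∀ m, i ≤ m → m ≤ j → lam (up ρ) m = lam (up ρ) i - (m - i)) := by
  induction j, (show i + 1 ≤ j from hij) using Nat.le_induction with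
  | base =>
    by_cases u : up ρ (i + 1)
    · refine Or.inl ⟨u, u, fun m p q => ?_⟩
      rcases (by omega : m = i ∨ m = i + 1) with rfl | rfl <;> simp [lam, u]
    · refine Or.inr ⟨u, u, fun m p q => ?_⟩
      rcases (by omega : m = i ∨ m = i + 1) with rfl | rfl <;> simp [lam, u]
      ring
  | succ j hij' ih =>
    obtain ⟨k, rfl⟩ : ∃ k, j = k + 1 := ⟨j - 1, by omega⟩
    have x1 := L.xlt ρ (k + 1) h hj
    have x2 := L.xle (i := i) (j := k) h (by omega) (by omega)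
    rcases ih (by omega) (by omega) (by linarith) with ⟨a, b, c⟩ | ⟨a, b, c⟩
    · have u : up ρ (k + 1 + 1) := by
        by_contra u
        linarith [L.Bm ρ (k + 1) h (by omega), (L.jup ρ k h (by omega) b).2,
          (L.jdn ρ (k + 1) h hj u).2]
      refine Or.inl ⟨a, u, fun m p q => ?_⟩
      rcases q.eq_or_lt with rfl | q
      · rw [lam, if_pos u, c (k + 1) (by omega) le_rfl]; push_cast; ring
      · exact c m p (by omega)
    · have u : ¬ up ρ (k + 1 + 1) := by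
        intro u
        linarith [L.Tm ρ (k + 1) h (by omega), (L.jdn ρ k h (by omega) b).1,
          (L.jup ρ (k + 1) h hj u).1]
      refine Or.inr ⟨a, u, fun m p q => ?_⟩
      rcases q.eq_or_lt with rfl | q
      · rw [lam, if_neg u, c (k + 1) (by omega) le_rfl]; push_cast; ring
      · exact c m p (by omega)

theorem ends {ρ i : ℕ} (h : ρ < D.nr) (hi : i ≤ D.n ρ) :
    ((i < D.n ρ ∧ T ρ i = X ρ i) ∨ (0 < i ∧ T ρ i = X ρ (i - 1) + 1)) ∧
    ((i < D.n ρ ∧ B ρ i = X ρ i) ∨ (0 < i ∧ B ρ i = X ρ (i - 1) + 1)) := by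
  have := L.npos ρ h
  rcases hi.eq_or_lt with rfl | hi
  · exact ⟨Or.inr ⟨this, L.Tn ρ h⟩, Or.inr ⟨this, L.Bn ρ h⟩⟩
  rcases i with _ | i
  · exact ⟨Or.inl ⟨hi, L.T0 ρ⟩, Or.inl ⟨hi, L.B0 ρ⟩⟩
  by_cases u : up ρ (i + 1)
  · exact ⟨Or.inl ⟨hi, (L.jup ρ i h hi u).1⟩, Or.inr ⟨by omega, (L.jup ρ i h hi u).2⟩⟩
  · exact ⟨Or.inr ⟨by omega, (L.jdn ρ i h hi u).1⟩, Or.inl ⟨hi, (L.jdn ρ i h hi u).2⟩⟩

theorem xstep {ρ i : ℕ} (h : ρ < D.nr) (hi : i + 1 < D.n ρ) : X ρ (i + 1) ≤ X ρ i + 1 := by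
  by_cases e : D.jt ρ (i + 1) = 0
  · exact (L.j0 ρ i h hi e).le
  · exact (L.jne ρ i h hi e).le

theorem inside {ρ i : ℕ} (h : ρ < D.nr) (hi : i < D.n ρ) :
    X ρ i ≤ T ρ i ∧ T ρ (i + 1) ≤ X ρ i + 1 ∧ X ρ i ≤ B ρ i ∧ B ρ (i + 1) ≤ X ρ i + 1 := by
  have a := L.ends h hi.le
  have b := L.ends h (show i + 1 ≤ _ from hi)
  have c : 0 < i → X ρ i ≤ X ρ (i - 1) + 1 := fun p => by
    have := L.xstep (i := i - 1) h (by omega)
    rwa [show i - 1 + 1 = i by omega] at this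
  simp only [Nat.add_sub_cancel] at b
  refine ⟨?_, ?_, ?_, ?_⟩
  · rcases a.1 with e | e
    · exact e.2.ge
    · linarith [c e.1, e.2]
  · rcases b.1 with e | e
    · linarith [L.xstep h e.1, e.2]
    · exact e.2.le
  · rcases a.2 with e | e
    · exact e.2.ge
    · linarith [c e.1, e.2]
  · rcases b.2 with e | e
    · linarith [L.xstep h e.1, e.2]
    · exact e.2.le

theorem top {ρ i j : ℕ} {t : ℝ} (h : ρ < D.nr) (hi : i < D.n ρ) (hj : j < D.n ρ) (t1 : T ρ i < t)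
    (t2 : t < T ρ (i + 1)) (c1 : X ρ j < t) (c2 : t < X ρ j + 1) :
    j = i ∨ lam (up ρ) j < lam (up ρ) i := by
  have b := L.inside h hi
  rcases lt_trichotomy i j with k | k | k
  · rcases L.run h k hj (by linarith [b.2.1]) with ⟨a, -, -⟩ | ⟨-, -, c⟩
    · linarith [(L.jup ρ i h (by omega) a).1, L.xle (i := i + 1) h k hj]
    · have := c j k.le le_rfl
      omega
  · exact Or.inl k.symm
  · obtain ⟨m, rfl⟩ : ∃ m, i = m + 1 := ⟨i - 1, by omega⟩
    rcases L.run h k hi (by linarith [b.1]) with ⟨-, -, c⟩ | ⟨-, a, -⟩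
    · have := c _ k.le le_rfl
      omega
    · linarith [(L.jdn ρ m h hi a).1, L.xle (i := j) (j := m) h (by omega) (by omega)]

theorem bot {ρ i j : ℕ} {t : ℝ} (h : ρ < D.nr) (hi : i < D.n ρ) (hj : j < D.n ρ) (t1 : B ρ i < t)
    (t2 : t < B ρ (i + 1)) (c1 : X ρ j < t) (c2 : t < X ρ j + 1) :
    j = i ∨ lam (up ρ) i < lam (up ρ) j := by
  have b := L.inside h hi
  rcases lt_trichotomy i j with k | k | k
  · rcases L.run h k hj (by linarith [b.2.2.2]) with ⟨-, -, c⟩ | ⟨a, -, -⟩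
    · have := c j k.le le_rfl
      omega
    · linarith [(L.jdn ρ i h (by omega) a).2, L.xle (i := i + 1) h k hj]
  · exact Or.inl k.symm
  · obtain ⟨m, rfl⟩ : ∃ m, i = m + 1 := ⟨i - 1, by omega⟩
    rcases L.run h k hi (by linarith [b.2.2.1]) with ⟨-, a, -⟩ | ⟨-, -, c⟩
    · linarith [(L.jup ρ m h hi a).2, L.xle (i := j) (j := m) h (by omega) (by omega)]
    · have := c _ k.le le_rfl
      omega

theorem cover {ρ : ℕ} {t : ℝ} (h : ρ < D.nr) (g : Gen D.S (fun v => X v.1 v.2.1) t)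
    (t1 : X ρ 0 < t) (t2 : t < X ρ (D.n ρ - 1) + 1) :
    (∃ i, i < D.n ρ ∧ T ρ i < t ∧ t < T ρ (i + 1)) ∧
      ∃ i, i < D.n ρ ∧ B ρ i < t ∧ t < B ρ (i + 1) := by
  have ne : ∀ i, i < D.n ρ → t ≠ X ρ i ∧ t ≠ X ρ i + 1 := fun i hi =>
    g (ρ, i, 0) (D.mem_S.2 ⟨h, hi, Nat.zero_le _⟩)
  constructor
  · obtain ⟨i, -, p⟩ := exists_seg (T ρ) (Nat.zero_le (D.n ρ)) (by rwa [L.T0]) (by rwa [L.Tn ρ h])
      fun i _ q => by
        rcases (L.ends h q).1 with e | e <;> rw [e.2]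
        · exact (ne i e.1).1
        · exact (ne _ (by omega)).2
    exact ⟨i, p⟩
  · obtain ⟨i, -, p⟩ := exists_seg (B ρ) (Nat.zero_le (D.n ρ)) (by rwa [L.B0]) (by rwa [L.Bn ρ h])
      fun i _ q => by
        rcases (L.ends h q).2 with e | e <;> rw [e.2]
        · exact (ne i e.1).1
        · exact (ne _ (by omega)).2
    exact ⟨i, p⟩

theorem sees_of_e {u v : Vx} (hu : D.valid u) (hv : D.valid v) (e : D.e u v) :
    ∃ t, Sees D.S (fun v => X v.1 v.2.1) (fun v => hgt D up v) t u v ∨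
      Sees D.S (fun v => X v.1 v.2.1) (fun v => hgt D up v) t v u := by
  have one : ∀ u v : Vx, hgt D up v = hgt D up u + 1 → X u.1 u.2.1 < X v.1 v.2.1 + 1 →
      X v.1 v.2.1 < X u.1 u.2.1 + 1 →
      ∃ t, Sees D.S (fun v => X v.1 v.2.1) (fun v => hgt D up v) t u v := by
    intro u v h a b
    obtain ⟨t, t1, t2, g⟩ := exists_gen D.S (fun v => X v.1 v.2.1)
      (show max (X u.1 u.2.1) (X v.1 v.2.1) < min (X u.1 u.2.1 + 1) (X v.1 v.2.1 + 1) by
        simp only [max_lt_iff, lt_min_iff]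
        refine ⟨⟨?_, ?_⟩, ?_, ?_⟩ <;> linarith)
    rw [max_lt_iff] at t1
    rw [lt_min_iff] at t2
    refine ⟨t, g, ⟨t1.1, t2.1⟩, ⟨t1.2, t2.2⟩, ?_, fun w _ _ => ?_⟩
    · exact_mod_cast (by omega : hgt D up u < hgt D up v)
    · exact_mod_cast (by omega : hgt D up w ≤ hgt D up u ∨ hgt D up v ≤ hgt D up w)
  obtain ⟨ρ, i, p⟩ := u
  obtain ⟨σ, j, q⟩ := v
  obtain ⟨a1, a2, a3⟩ := hu
  obtain ⟨b1, b2, b3⟩ := hv
  simp only [Lay.e] at e a1 a2 a3 b1 b2 b3
  have jn : ∀ p q, σ = ρ → j = i + 1 → D.jt σ j ≠ 0 → (up ρ j → p = th ρ ∧ q = 0) →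
      (¬ up ρ j → p = 0 ∧ q = th ρ) →
      ∃ t, Sees D.S (fun v => X v.1 v.2.1) (fun v => hgt D up v) t (ρ, i, p) (σ, j, q) ∨
        Sees D.S (fun v => X v.1 v.2.1) (fun v => hgt D up v) t (σ, j, q) (ρ, i, p) := by
    rintro p q rfl rfl h h1 h2
    have x1 := L.xlt σ i a1 b2
    have x2 := L.jne σ i a1 b2 h
    by_cases u : up σ (i + 1)
    · obtain ⟨rfl, rfl⟩ := h1 u
      obtain ⟨t, s⟩ := one (σ, i, th σ) (σ, i + 1, 0) (by simp [hgt, lam, u]; ring)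
        (by dsimp only; linarith) x2
      exact ⟨t, Or.inl s⟩
    · obtain ⟨rfl, rfl⟩ := h2 u
      obtain ⟨t, s⟩ := one (σ, i + 1, th σ) (σ, i, 0) (by simp [hgt, lam, u]; ring) x2
        (by dsimp only; linarith)
      exact ⟨t, Or.inr s⟩
  rcases e with ⟨rfl, rfl, rfl⟩ | ⟨e1, e2, h, rfl, rfl⟩ | ⟨e1, e2, h, rfl, rfl⟩ |
    ⟨rfl, rfl, rfl, h1, h2⟩
  · obtain ⟨t, s⟩ := one (σ, j, p) (σ, j, p + 1) (by simp [hgt]; ring) (by simp) (by simp)
    exact ⟨t, Or.inl s⟩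
  · refine jn _ _ e1 e2 (by omega) (fun _ => ⟨rfl, rfl⟩) fun u => ?_
    subst e1
    rcases th_cases σ with e | e
    · exact ⟨e, e.symm⟩
    · exact absurd ((L.thick σ j e).1 h) u
  · subst e1
    refine jn _ _ rfl e2 (by omega) (fun u => ?_) fun _ => ⟨rfl, rfl⟩
    rcases th_cases σ with e | e
    · exact ⟨e.symm, e⟩
    · exact absurd u ((L.thick σ j e).2 h)
  · have f := L.face ρ i j b1 a2 b2
    obtain ⟨t, t1, t2, g⟩ := exists_gen D.S (fun v => X v.1 v.2.1)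
      (show max (B ρ i) (T (ρ + 1) j) < min (B ρ (i + 1)) (T (ρ + 1) (j + 1)) by
        simp only [max_lt_iff, lt_min_iff]
        exact ⟨⟨L.Bm ρ i a1 a2, f.2.1 h2⟩, f.1.1 h1, L.Tm _ j b1 b2⟩)
    rw [max_lt_iff] at t1
    rw [lt_min_iff] at t2
    have i1 := L.inside a1 a2
    have i2 := L.inside b1 b2
    have vu : D.valid (ρ, i, 0) := ⟨a1, a2, a3⟩
    have vv : D.valid (ρ + 1, j, th (ρ + 1)) := ⟨b1, b2, b3⟩
    refine ⟨t, Or.inr ⟨g, ⟨by linarith [i2.1, t1.2], by linarith [i2.2.1, t2.2]⟩,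
      ⟨by linarith [i1.2.2.1, t1.1], by linarith [i1.2.2.2, t2.1]⟩, ?_, ?_⟩⟩
    · exact_mod_cast hgt_sep vu vv (by simp)
    · rintro ⟨τ, k, r⟩ hw c
      have vw := D.mem_S.1 hw
      suffices hgt D up (τ, k, r) ≤ hgt D up (ρ + 1, j, th (ρ + 1)) ∨
        hgt D up (ρ, i, 0) ≤ hgt D up (τ, k, r) by exact_mod_cast this
      rcases lt_trichotomy τ ρ with o | rfl | o
      · exact Or.inr (hgt_sep vw vu o).le
      · right
        rcases L.bot a1 a2 vw.2.1 t1.1 t2.1 c.1 c.2 with e | e <;> dsimp only at e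
        · simp [hgt, e]
        · simp only [hgt, add_assoc, add_le_add_iff_left]
          rcases th_cases τ with e' | e' <;> rw [e'] <;> omega
      · left
        rcases (show ρ + 1 ≤ τ from o).eq_or_lt with rfl | o
        · have r1 : (r : ℤ) ≤ th (ρ + 1) := by exact_mod_cast vw.2.2
          rcases L.top b1 b2 vw.2.1 t1.2 t2.2 c.1 c.2 with e | e <;> dsimp only at e
          · simp only [hgt, e]
            linarith
          · simp only [hgt]
            nlinarith [Int.natCast_nonneg (th (ρ + 1))]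
        · exact (hgt_sep vv vw o).le

theorem e_of_sees {u v : Vx} (hu : D.valid u) (hv : D.valid v) {t : ℝ}
    (s : Sees D.S (fun v => X v.1 v.2.1) (fun v => hgt D up v) t u v) : D.e u v ∨ D.e v u := by
  have lt : hgt D up u < hgt D up v := by exact_mod_cast s.lt
  have free : ∀ w, D.valid w → X w.1 w.2.1 < t → t < X w.1 w.2.1 + 1 →
      hgt D up w ≤ hgt D up u ∨ hgt D up v ≤ hgt D up w := fun w hw a b => by
    exact_mod_cast s.free w (D.mem_S.2 hw) ⟨a, b⟩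
  have cu := s.cu
  have cv := s.cv
  have g := s.gen
  clear s
  obtain ⟨σ, j, q⟩ := u
  obtain ⟨ρ, i, p⟩ := v
  have ⟨a1, a2, a3⟩ := hu
  have ⟨b1, b2, b3⟩ := hv
  simp only [Cr] at cu cv a1 a2 a3 b1 b2 b3
  rcases lt_trichotomy σ ρ with o | rfl | o
  · linarith [hgt_sep (up := up) hu hv o]
  · have f0 := free (σ, i, 0) ⟨a1, b2, Nat.zero_le _⟩ cv.1 cv.2
    have f1 := free (σ, j, th σ) ⟨a1, a2, le_rfl⟩ cu.1 cu.2
    have f2 := fun h : q + 1 ≤ th σ => free (σ, j, q + 1) ⟨a1, a2, h⟩ cu.1 cu.2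
    have mid : ∀ m, min i j ≤ m → m ≤ max i j → hgt D up (σ, m, 0) ≤ hgt D up (σ, j, q) ∨
        hgt D up (σ, i, p) ≤ hgt D up (σ, m, 0) := by
      intro m h1 h2
      refine free (σ, m, 0) ⟨a1, by dsimp only; omega, Nat.zero_le _⟩ ?_ ?_ <;> dsimp only
      · rcases le_total i j with k | k
        · linarith [L.xle (i := m) a1 (by omega) a2]
        · linarith [L.xle (i := m) a1 (by omega) b2]
      · rcases le_total i j with k | k
        · linarith [L.xle (i := i) (j := m) a1 (by omega) (by omega)]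
        · linarith [L.xle (i := j) (j := m) a1 (by omega) (by omega)]
    simp only [hgt, add_assoc, add_le_add_iff_left, add_lt_add_iff_left] at lt f0 f1 f2 mid
    have tc := th_cases σ
    rcases lt_trichotomy i j with k | rfl | k
    · have m := mid (i + 1) (by omega) (by omega)
      clear mid f2
      rcases L.run a1 k a2 (by linarith) with ⟨-, -, c⟩ | ⟨-, u, c⟩
      · have := c j k.le le_rfl
        exfalso
        clear m f0 f1
        rcases tc with e | e <;> rw [e] at lt a3 b3 <;> omega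
      · have c1 := c j k.le le_rfl
        have c2 := c (i + 1) (by omega) k
        obtain rfl : j = i + 1 := by
          clear f0 f1
          rcases tc with e | e <;> rw [e] at lt a3 b3 m <;> omega
        obtain rfl : q = th σ := by
          clear f0 m
          rcases tc with e | e <;> rw [e] at lt a3 b3 f1 ⊢ <;> omega
        obtain rfl : p = 0 := by
          clear f1 m
          rcases tc with e | e <;> rw [e] at lt b3 f0 <;> omega
        have jn := mt (L.j0 σ i a1 a2) (by linarith)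
        have jl := L.jle σ (i + 1)
        by_cases h : D.jt σ (i + 1) = 2
        · exact Or.inr (Or.inr (Or.inr (Or.inl ⟨rfl, rfl, h, rfl, rfl⟩)))
        · rcases tc with e | e
          · exact Or.inr (Or.inr (Or.inl ⟨rfl, rfl, by dsimp only; omega, e.symm, e⟩))
          · exact absurd ((L.thick σ _ e).1 (by omega)) u
    · left; left
      refine ⟨rfl, rfl, ?_⟩
      clear mid f0 f1
      dsimp only
      omega
    · have m := mid (j + 1) (by omega) (by omega)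
      clear mid f2
      rcases L.run a1 k b2 (by linarith) with ⟨-, u, c⟩ | ⟨-, -, c⟩
      · have c1 := c i k.le le_rfl
        have c2 := c (j + 1) (by omega) k
        obtain rfl : i = j + 1 := by
          clear f0 f1
          rcases tc with e | e <;> rw [e] at lt a3 b3 m <;> omega
        obtain rfl : q = th σ := by
          clear f0 m
          rcases tc with e | e <;> rw [e] at lt a3 b3 f1 ⊢ <;> omega
        obtain rfl : p = 0 := by
          clear f1 m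
          rcases tc with e | e <;> rw [e] at lt b3 f0 <;> omega
        have jn := mt (L.j0 σ j a1 b2) (by linarith)
        have jl := L.jle σ (j + 1)
        by_cases h : D.jt σ (j + 1) = 1
        · exact Or.inl (Or.inr (Or.inl ⟨rfl, rfl, h, rfl, rfl⟩))
        · rcases tc with e | e
          · exact Or.inl (Or.inr (Or.inr (Or.inl ⟨rfl, rfl, by dsimp only; omega, e, e.symm⟩)))
          · exact absurd u ((L.thick σ _ e).2 (by omega))
      · have := c i k.le le_rfl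
        exfalso
        clear m f0 f1
        rcases tc with e | e <;> rw [e] at lt a3 b3 <;> omega
  · have r1 : X ρ 0 < t := by linarith [L.xle b1 (Nat.zero_le i) b2]
    have r2 : t < X ρ (D.n ρ - 1) + 1 := by
      linarith [L.xle (i := i) (j := D.n ρ - 1) b1 (by omega) (by omega)]
    have v1 : ρ + 1 < D.nr := by omega
    obtain ⟨j', p1, p2, p3⟩ := (L.cover v1 g (by linarith [L.pl ρ v1]) (by linarith [L.pr ρ v1])).1
    obtain ⟨i', q1, q2, q3⟩ := (L.cover b1 g r1 r2).2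
    have i1 := L.inside v1 p1
    have i2 := L.inside b1 q1
    have w1 : D.valid (ρ + 1, j', th (ρ + 1)) := ⟨v1, p1, le_rfl⟩
    have w2 : D.valid (ρ, i', 0) := ⟨b1, q1, Nat.zero_le _⟩
    have f1 := (free _ w1 (by dsimp only; linarith [i1.1]) (by
      dsimp only; linarith [i1.2.1])).resolve_right (not_le.2 (hgt_sep hv w1 (by simp)))
    have f2 := (free _ w2 (by dsimp only; linarith [i2.2.2.1]) (by
      dsimp only; linarith [i2.2.2.2])).resolve_left (not_le.2 (hgt_sep w2 hu o))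
    rcases (show ρ + 1 ≤ σ from o).eq_or_lt with rfl | o'
    swap
    · linarith [hgt_sep (up := up) w1 hu o']
    simp only [hgt, add_assoc, add_le_add_iff_left] at f1 f2
    have e1 : j = j' ∧ q = th (ρ + 1) := by
      rcases L.top v1 p1 a2 p2 p3 cu.1 cu.2 with e | e
      · subst e; omega
      · rcases th_cases (ρ + 1) with e' | e' <;> rw [e'] at f1 a3 <;> omega
    have e2 : i = i' ∧ p = 0 := by
      rcases L.bot b1 q1 b2 q2 q3 cv.1 cv.2 with e | e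
      · subst e; omega
      · rcases th_cases ρ with e' | e' <;> rw [e'] at f2 <;> omega
    obtain ⟨rfl, rfl⟩ := e1
    obtain ⟨rfl, rfl⟩ := e2
    have f := L.face ρ i j v1 b2 a2
    exact Or.inr (Or.inr (Or.inr (Or.inr ⟨rfl, rfl, rfl, f.1.2 (q2.trans p3), f.2.2 (p2.trans q3)⟩)))

theorem rep : Rep D.S D.G (fun v => X v.1 v.2.1) (fun v => hgt D up v) := by
  refine ⟨fun h => D.mem_S.2 h.1, ?_, fun u hu v hv => ⟨fun h => ?_, ?_⟩⟩
  · rintro ⟨ρ, i, p⟩ hu ⟨σ, j, q⟩ hv ne e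
    rw [D.mem_S] at hu hv
    have e' : hgt D up (ρ, i, p) = hgt D up (σ, j, q) := by exact_mod_cast e
    rcases lt_trichotomy ρ σ with o | rfl | o
    · linarith [hgt_sep (up := up) hu hv o]
    · have ⟨a1, a2, a3⟩ := hu
      have ⟨b1, b2, b3⟩ := hv
      simp only [hgt, add_assoc, add_right_inj] at e' a1 a2 a3 b1 b2 b3
      have k : lam (up ρ) i = lam (up ρ) j ∧ p = q := by
        rcases th_cases ρ with e | e <;> rw [e] at e' a3 b3 <;> omega
      dsimp only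
      rcases lt_trichotomy i j with o | rfl | o
      · left
        by_contra h
        rcases L.run a1 o b2 (not_lt.1 h) with ⟨-, -, c⟩ | ⟨-, -, c⟩ <;>
          have := c j o.le le_rfl <;> omega
      · exact absurd (by rw [k.2]) ne
      · right
        by_contra h
        rcases L.run a1 o a2 (not_lt.1 h) with ⟨-, -, c⟩ | ⟨-, -, c⟩ <;>
          have := c i o.le le_rfl <;> omega
    · linarith [hgt_sep (up := up) hv hu o]
  · rcases h.2.2 with e | e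
    · exact L.sees_of_e h.1 h.2.1 e
    · obtain ⟨t, s⟩ := L.sees_of_e h.2.1 h.1 e
      exact ⟨t, s.symm⟩
  · rw [D.mem_S] at hu hv
    rintro ⟨t, s | s⟩
    · exact ⟨hu, hv, L.e_of_sees hu hv s⟩
    · exact ⟨hu, hv, (L.e_of_sees hv hu s).symm⟩

end Layout

end Pool.Agent.Lib.MP_ec9af3_lc.H18
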