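import Pool.Agent.Lib.MP_ec9af3_lc.H18Geom

namespace Pool.Agent.Lib.MP_ec9af3_lc.H18

variable {V : Type}

/-- A solid stack with bottom `l` and top `h` (possibly a single bar). -/
structure St (S : Finset V) (G : SimpleGraph V) (x y : V → ℝ) (l h : V) : Prop where
  ml : l ∈ S
  mh : h ∈ S
  xe : x h = x l
  yle : y l ≤ y h
  solid : ∀ w ∈ S, ∀ t, Gen S x t → Cr x t l → Cr x t w → y l ≤ y w → y w ≤ y h →
    w = l ∨ w = h ∨ ∀ z, G.Adj w z → z = l ∨ z = h

theorem St.negY {S : Finset V} {G : SimpleGraph V} {x y : V → ℝ} {l h : V}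
    (B : St S G x y l h) : St S G x (fun v => -y v) h l := by
  refine ⟨B.mh, B.ml, B.xe.symm, by simpa using B.yle, fun w hw t h1 h2 h3 h4 h5 => ?_⟩
  have h2' : Cr x t l := by
    unfold Cr at h2 ⊢
    rwa [B.xe] at h2
  rcases B.solid w hw t h1 h2' h3 (by simpa using h5) (by simpa using h4) with a | a | a
  · exact Or.inr (Or.inl a)
  · exact Or.inl a
  · exact Or.inr (Or.inr fun z hz => (a z hz).symm)

theorem St.negX {S : Finset V} {G : SimpleGraph V} {x y : V → ℝ} {l h : V}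
    (B : St S G x y l h) : St S G (fun v => -x v) y l h :=
  ⟨B.ml, B.mh, by simp [B.xe], B.yle, fun w hw t h1 h2 h3 h4 h5 =>
    B.solid w hw _ (gen_negX.1 h1) (cr_negX.1 h2) (cr_negX.1 h3) h4 h5⟩

namespace Rep

variable {S : Finset V} {G : SimpleGraph V} {x y : V → ℝ} (R : Rep S G x y)
include R

theorem st_thin {v : V} (hv : v ∈ S) : St S G x y v v :=
  ⟨hv, hv, rfl, le_rfl, fun w hw _ _ h2 h3 h4 h5 =>
    Or.inl (R.eq_of_cr hw hv h3 h2 (le_antisymm h5 h4))⟩

theorem st_thick {l m h : V} (B : UpB S G x y l m h) : St S G x y l h := by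
  have hm := R.mem B.amh
  refine ⟨R.mem B.alm, R.mem' B.amh, B.xh.trans B.xl.symm, (B.ylm.trans B.ymh).le,
    fun w hw t h1 h2 h3 h4 h5 => ?_⟩
  have hc : Cr x t m := by
    unfold Cr at h2 ⊢
    rwa [B.xl] at h2
  obtain ⟨s1, s2⟩ := B.sees t h1 hc
  rcases s1.free w hw h3 with a | a
  · exact Or.inl (R.eq_of_cr hw (R.mem B.alm) h3 h2 (le_antisymm a h4))
  · rcases s2.free w hw h3 with b | b
    · have : w = m := R.eq_of_cr hw hm h3 hc (le_antisymm b a)
      subst this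
      exact Or.inr (Or.inr B.nb)
    · exact Or.inr (Or.inl (R.eq_of_cr hw (R.mem' B.amh) h3 s2.cv (le_antisymm h5 b)))

/-- No gap between the only two upper neighbours of an inner bar. -/
theorem no_gap {s p q : V} (hi : Inner S x y s) (ap : G.Adj s p) (aq : G.Adj s q)
    (ex : ∀ w, G.Adj s w → y s < y w → w = p ∨ w = q) : x q ≤ x p + 1 := by
  by_contra hcon
  push Not at hcon
  have h1 := R.adj_x ap
  have h2 := R.adj_x aq
  obtain ⟨t, a, b, ht⟩ := exists_gen S x (show max (x p + 1) (x s) < min (x q) (x s + 1) by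
    simp only [max_lt_iff, lt_min_iff]
    refine ⟨⟨?_, ?_⟩, ?_, ?_⟩ <;> linarith)
  rw [max_lt_iff] at a
  rw [lt_min_iff] at b
  have hc : Cr x t s := ⟨a.2, b.2⟩
  obtain ⟨⟨u, hu, c1, c2⟩, -⟩ := hi t hc
  obtain ⟨w, w1, w2, -⟩ := R.exists_up ht (R.mem ap) hc hu c1 c2
  rcases ex w w1 w2.lt with rfl | rfl
  · linarith [w2.cv.2, a.1]
  · linarith [w2.cv.1, b.1]

theorem caseI_aux {s pl ph ql u : V} (P : St S G x y pl ph) (ap : G.Adj s pl) (aq : G.Adj s ql)
    (yp : y s < y pl) (ex : ∀ w, G.Adj s w → y s < y w → w = pl ∨ w = ql)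
    (au : G.Adj ph u) (yu : y ph < y u) (yqu : y ql < y u) (na : ¬ G.Adj ph ql) (ne : ph ≠ ql)
    (ypq : y pl < y ql) (ov : x ql < x pl + 1) {t2 : ℝ} (s2 : Sees S x y t2 s ql)
    (ht2 : x pl + 1 < t2) : False := by
  have hs := R.mem ap
  have hq := R.mem' aq
  obtain ⟨t1, s1⟩ := R.sees_of_adj ap yp
  obtain ⟨t3, s3⟩ := R.sees_of_adj au yu
  have c1 := s1.cu; have c2 := s1.cv; have c3 := s2.cu; have c4 := s2.cv
  have c5 := s3.cu; have c6 := s3.cv
  unfold Cr at c1 c2 c3 c4 c5 c6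
  have xe := P.xe
  obtain ⟨t, a, b, ht⟩ := exists_gen S x (show max t1 (max (x ql) t3) < x pl + 1 by
    simp only [max_lt_iff]
    refine ⟨?_, ?_, ?_⟩ <;> linarith)
  simp only [max_lt_iff] at a
  obtain ⟨a1, a2, a3⟩ := a
  have cq : Cr x t ql := ⟨a2, by linarith⟩
  have cp : Cr x t pl := ⟨by linarith, b⟩
  have cph : Cr x t ph := ⟨by linarith, by linarith⟩
  have yhq : y ph < y ql := by
    by_contra hc
    rcases P.solid ql hq t ht cp cq ypq.le (not_lt.1 hc) with e | e | e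
    · rw [e] at ypq; exact lt_irrefl _ ypq
    · exact ne e.symm
    · rcases e s aq.symm with e | e
      · rw [e] at yp; exact lt_irrefl _ yp
      · have := P.yle; rw [← e] at this; linarith
  obtain ⟨w, w1, w2, w3⟩ := R.exists_up ht P.mh cph hq cq yhq
  have hw := R.mem' w1
  have wq : y w < y ql := lt_of_le_of_ne w3 (fun e => na (R.eq_of_cr hw hq w2.cv cq e ▸ w1))
  have c7 := w2.cv
  unfold Cr at c7
  have xw : x w ≤ x pl := by
    by_contra hc
    push Not at hc
    obtain ⟨t', a', b', ht'⟩ := exists_gen S x (show x pl + 1 < min t2 (x w + 1) by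
      simp only [lt_min_iff]; constructor <;> linarith)
    rw [lt_min_iff] at b'
    have cs : Cr x t' s := ⟨by linarith, by linarith⟩
    have cw : Cr x t' w := ⟨by linarith, b'.2⟩
    obtain ⟨z, z1, z2, z3⟩ := R.exists_up ht' hs cs hw cw
      (by linarith [w2.lt, P.yle])
    rcases ex z z1 z2.lt with rfl | rfl
    · linarith [z2.cv.2]
    · linarith
  exact s3.not_cr hw w2.lt (by linarith) ⟨by linarith, by linarith⟩

theorem caseI {s pl ph ql u : V} (P : St S G x y pl ph) (ap : G.Adj s pl) (aq : G.Adj s ql)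
    (yp : y s < y pl) (ex : ∀ w, G.Adj s w → y s < y w → w = pl ∨ w = ql)
    (au : G.Adj ph u) (yu : y ph < y u) (yqu : y ql < y u) (na : ¬ G.Adj ph ql) (ne : ph ≠ ql)
    (ypq : y pl < y ql) (ov : x ql < x pl + 1) (ov' : x pl < x ql + 1) : False := by
  obtain ⟨t2, s2⟩ := R.sees_of_adj aq (yp.trans ypq)
  rcases s2.gen.not_cr P.ml (s2.not_cr P.ml yp ypq) with h | h
  · refine R.negX.caseI_aux P.negX ap aq yp ex au yu yqu na ne ypq (by linarith)
      (t2 := 1 - t2) (sees_negX.2 (by simpa using s2)) (by linarith)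
  · exact R.caseI_aux P ap aq yp ex au yu yqu na ne ypq ov s2 h

theorem y_ne_of_overlap {p q : V} (hp : p ∈ S) (hq : q ∈ S) (ne : p ≠ q) (ov : x q < x p + 1)
    (ov' : x p < x q + 1) : y p ≠ y q := by
  intro e
  rcases R.disj p hp q hq ne e with h | h <;> linarith

theorem abut_of {s p q : V} (hi : Inner S x y s) (ap : G.Adj s p) (aq : G.Adj s q)
    (ex : ∀ w, G.Adj s w → y s < y w → w = p ∨ w = q)
    (h : x q < x p + 1 → x p < x q + 1 → False) : x q = x p + 1 ∨ x p = x q + 1 := by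
  have h1 := R.no_gap hi ap aq ex
  have h2 := R.no_gap hi aq ap (fun w a b => (ex w a b).symm)
  by_contra hc
  push Not at hc
  exact h (lt_of_le_of_ne h1 hc.1) (lt_of_le_of_ne h2 hc.2)

/-- A face with one stack on each side. -/
theorem abut_up {s pl ph ql qh u : V} (hi : Inner S x y s) (P : St S G x y pl ph)
    (Q : St S G x y ql qh) (ap : G.Adj s pl) (aq : G.Adj s ql)
    (yp : y s < y pl) (yq : y s < y ql) (ex : ∀ w, G.Adj s w → y s < y w → w = pl ∨ w = ql)
    (au : G.Adj ph u) (yu : y ph < y u) (yu' : y qh < y u) (au' : G.Adj qh u)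
    (na : ¬ G.Adj ph ql) (na' : ¬ G.Adj qh pl) (ne : ph ≠ ql) (ne' : qh ≠ pl) (ne2 : pl ≠ ql) :
    x ql = x pl + 1 ∨ x pl = x ql + 1 := by
  refine R.abut_of hi ap aq ex (fun ov ov' => ?_)
  rcases lt_or_gt_of_ne (R.y_ne_of_overlap P.ml Q.ml ne2 ov ov') with h | h
  · exact R.caseI P ap aq yp ex au yu (by linarith [Q.yle]) na ne h ov ov'
  · exact R.caseI Q aq ap yq (fun w a b => (ex w a b).symm) au' yu' (by linarith [P.yle]) na' ne' h
      ov' ov

end Rep

end Pool.Agent.Lib.MP_ec9af3_lc.H18
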