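import Pool.Agent.Lib.MP_ec9af3_lc.H18Num
import Pool.Agent.Lib.MP_ec9af3_lc.H18Comp

namespace Pool.Agent.Lib.MP_ec9af3_lc.H18

/-- The real number coded by `c` in row `r`. -/
noncomputable def val (R r c : ℕ) : ℝ :=
  (((c / 4 : ℕ) : ℝ) + if c % 4 = 0 then 0 else ((2 * r + c % 4 : ℕ) : ℝ) / (2 * R + 8)) / 100

theorem val_mono {R r : ℕ} (h : r ≤ R) : StrictMono (val R r) := by
  refine strictMono_nat_of_lt_succ fun c => ?_
  unfold val
  have hR : (0 : ℝ) < 2 * R + 8 := by positivity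
  have hr : (r : ℝ) ≤ R := by exact_mod_cast h
  have h0 : (0 : ℝ) ≤ r := Nat.cast_nonneg r
  refine div_lt_div_of_pos_right ?_ (by norm_num)
  rcases (show c % 4 = 0 ∨ (c % 4 = 1 ∨ c % 4 = 2) ∨ c % 4 = 3 by omega) with e | e | e
  · rw [show (c + 1) / 4 = c / 4 by omega, if_pos e, if_neg (by omega)]
    have : (0 : ℝ) < ((2 * r + (c + 1) % 4 : ℕ) : ℝ) / (2 * R + 8) :=
      div_pos (by exact_mod_cast (by omega)) hR
    linarith
  · rw [show (c + 1) / 4 = c / 4 by omega, if_neg (by omega), if_neg (by omega)]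
    have : ((2 * r + c % 4 : ℕ) : ℝ) / (2 * R + 8) < ((2 * r + (c + 1) % 4 : ℕ) : ℝ) / (2 * R + 8) :=
      div_lt_div_of_pos_right (by exact_mod_cast (by omega)) hR
    linarith
  · rw [show (c + 1) / 4 = c / 4 + 1 by omega, if_neg (by omega), if_pos (by omega), e]
    have : ((2 * r + 3 : ℕ) : ℝ) / (2 * R + 8) < 1 := by
      rw [div_lt_one hR]; push_cast; linarith
    push_cast at this ⊢
    linarith

theorem val_add (R r c k : ℕ) : val R r (c + 400 * k) = val R r c + k := by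
  unfold val
  rw [show (c + 400 * k) / 4 = c / 4 + 100 * k by omega, show (c + 400 * k) % 4 = c % 4 by omega]
  push_cast
  ring

theorem val_one (R r c : ℕ) : val R r (c + 400) = val R r c + 1 := by
  simpa using val_add R r c 1

theorem val_conv (R r : ℕ) {c : ℕ} (h : c % 4 ≤ 1) :
    val R (r + 1) c = val R r (c + 2 * (c % 4)) := by
  unfold val
  rcases (show c % 4 = 0 ∨ c % 4 = 1 by omega) with e | e
  · simp [e]
  · rw [show (c + 2 * (c % 4)) / 4 = c / 4 by omega, show (c + 2 * (c % 4)) % 4 = 3 by omega, e]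
    norm_num
    congr 1
    ring

theorem val_eight (R r : ℕ) : val R r 8 = 1 / 50 := by
  unfold val
  norm_num

open Classical in
noncomputable def Tg (D : Lay) (X : ℕ → ℕ → ℝ) (up : ℕ → ℕ → Prop) (ρ i : ℕ) : ℝ :=
  if i = 0 then X ρ 0 else if i < D.n ρ ∧ up ρ i then X ρ i else X ρ (i - 1) + 1

open Classical in
noncomputable def Bg (D : Lay) (X : ℕ → ℕ → ℝ) (up : ℕ → ℕ → Prop) (ρ i : ℕ) : ℝ :=
  if i = 0 then X ρ 0 else if i < D.n ρ ∧ ¬ up ρ i then X ρ i else X ρ (i - 1) + 1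

theorem rows (ρ : ℕ) : ρ = 0 ∨ ρ = 1 ∨ (∃ r, ρ = 2 * r + 2) ∨ ∃ r, ρ = 2 * r + 2 + 1 := by
  by_cases h : ρ ≤ 1
  · omega
  · rcases (show ρ % 2 = 0 ∨ ρ % 2 = 1 by omega) with e | e
    · exact Or.inr (Or.inr (Or.inl ⟨(ρ - 2) / 2, by omega⟩))
    · exact Or.inr (Or.inr (Or.inr ⟨(ρ - 2) / 2, by omega⟩))

def cc (s : ℕ → ℕ) : ℕ → ℕ
  | 0 => 0
  | r + 1 => cc s r + (1 - s r)

namespace Par

variable (p : Par) (s q : ℕ → ℕ)

noncomputable def XA (r k : ℕ) : ℝ := val p.R r (p.xc q r k) - cc s r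

noncomputable def tv (r j : ℕ) : ℝ := val p.R r (p.tc s q r j) - cc s r

noncomputable def bv (r i : ℕ) : ℝ :=
  if s r = 1 then (if i = 0 then p.tv s q r 0 else p.tv s q r (i - 1) + 1)
  else p.tv s q r (i + 1) - 1

noncomputable def X (ρ i : ℕ) : ℝ :=
  if ρ = 0 then i + 1 else if ρ = 1 then i + 1 / 2 else if ρ % 2 = 0 then p.XA s q ((ρ - 2) / 2) i
  else if s ((ρ - 2) / 2) = 1 then p.tv s q ((ρ - 2) / 2) i else p.tv s q ((ρ - 2) / 2) (i + 1) - 1

def up (ρ i : ℕ) : Prop := if ρ % 2 = 1 ∧ 3 ≤ ρ then s ((ρ - 2) / 2) = 1 else p.lay.jt ρ i = 1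

theorem X0 (i : ℕ) : p.X s q 0 i = i + 1 := rfl

theorem X1 (i : ℕ) : p.X s q 1 i = i + 1 / 2 := rfl

theorem X_A (r k : ℕ) : p.X s q (2 * r + 2) k = p.XA s q r k := by
  unfold X
  rw [if_neg (by omega), if_neg (by omega), if_pos (by omega),
    show (2 * r + 2 - 2) / 2 = r by omega]

theorem X_V (r k : ℕ) : p.X s q (2 * r + 2 + 1) k =
    if s r = 1 then p.tv s q r k else p.tv s q r (k + 1) - 1 := by
  unfold X
  rw [if_neg (by omega), if_neg (by omega), if_neg (by omega),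
    show (2 * r + 2 + 1 - 2) / 2 = r by omega]

theorem up_A (r k : ℕ) : p.up s (2 * r + 2) k ↔ p.jA r k = 1 := by
  unfold up
  rw [if_neg (by omega), jtA]

theorem up_V (r k : ℕ) : p.up s (2 * r + 2 + 1) k ↔ s r = 1 := by
  unfold up
  rw [if_pos (by omega), show (2 * r + 2 + 1 - 2) / 2 = r by omega]

theorem TB0 (i : ℕ) : Tg p.lay (p.X s q) (p.up s) 0 i = i + 1 ∧
    Bg p.lay (p.X s q) (p.up s) 0 i = i + 1 := by
  have : ¬ p.up s 0 i := by simp [up, lay]
  unfold Tg Bg
  rcases i with _ | i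
  · simp [X0]
  · simp only [X0, this, Nat.add_sub_cancel]
    constructor <;> split_ifs <;> first | contradiction | (push_cast; ring) | simp_all

theorem TB1 (i : ℕ) : Tg p.lay (p.X s q) (p.up s) 1 i = i + 1 / 2 ∧
    Bg p.lay (p.X s q) (p.up s) 1 i = i + 1 / 2 := by
  have : ¬ p.up s 1 i := by simp [up, lay]
  unfold Tg Bg
  rcases i with _ | i
  · simp [X1]
  · simp only [X1, this, Nat.add_sub_cancel]
    constructor <;> split_ifs <;> first | contradiction | (push_cast; ring) | simp_all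

variable {p s q} (h : p.Good s q)
include h

theorem Good.tv_step {r : ℕ} (hr : r ≤ p.R) (j : ℕ) :
    p.tv s q r j < p.tv s q r (j + 1) ∧ p.tv s q r (j + 1) < p.tv s q r j + 1 := by
  have a := val_mono hr (h.tc_step r j).1
  have b := val_mono hr (h.tc_step r j).2
  rw [val_one] at b
  unfold tv
  constructor <;> linarith

theorem Good.tv_mono {r : ℕ} (hr : r ≤ p.R) : StrictMono (p.tv s q r) :=
  strictMono_nat_of_lt_succ fun j => (h.tv_step hr j).1

theorem Good.bv_mono {r : ℕ} (hr : r ≤ p.R) : StrictMono (p.bv s q r) := by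
  refine strictMono_nat_of_lt_succ fun j => ?_
  unfold bv
  by_cases e : s r = 1
  · simp only [if_pos e]
    rcases j with _ | j
    · simp
    · simpa using (h.tv_step hr j).1
  · simpa only [if_neg e, sub_lt_sub_iff_right] using (h.tv_step hr (j + 1)).1

theorem Good.XA_step {r : ℕ} (hr : r ≤ p.R) (k : ℕ) : p.XA s q r k < p.XA s q r (k + 1) ∧
    (p.jA r (k + 1) = 0 → p.XA s q r (k + 1) = p.XA s q r k + 1) ∧
    (p.jA r (k + 1) ≠ 0 → p.XA s q r (k + 1) < p.XA s q r k + 1) ∧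
    (if p.jA r (k + 1) = 1 then p.XA s q r k + 1 else p.XA s q r (k + 1)) =
      p.tv s q r (p.gU r (k + 1)) := by
  obtain ⟨a, -, b, c, d⟩ := h.xc_step r k
  unfold XA tv
  refine ⟨by linarith [val_mono hr a], fun e => by rw [b e, val_one]; ring,
    fun e => by linarith [val_mono hr (c e), val_one p.R r (p.xc q r k)], ?_⟩
  rw [← d]
  split_ifs
  · rw [val_one]; ring
  · rfl

theorem Good.XA_mono {r : ℕ} (hr : r ≤ p.R) : StrictMono (p.XA s q r) :=
  strictMono_nat_of_lt_succ fun j => (h.XA_step hr j).1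

theorem Good.XA_grp (r n : ℕ) : p.XA s q r (wd r * (3 * n)) = 21 * n + 1 / 50 - cc s r ∧
    p.tv s q r (48 * n) = 21 * n + 1 / 50 - cc s r := by
  unfold XA tv
  rw [(h.grp r n).1, (h.grp r n).2, show 8400 * n + 8 = 8 + 400 * (21 * n) by omega, val_add,
    val_eight]
  push_cast
  constructor <;> ring

theorem Good.XA_lo (r k : ℕ) : (if p.jA (r + 1) (k + 1) = 1 then p.XA s q (r + 1) (k + 1)
    else p.XA s q (r + 1) k + 1) = p.bv s q r (p.gL r (k + 1)) := by
  have a := h.tc_lo r k rfl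
  have b := val_conv p.R r (c := if p.jA (r + 1) (k + 1) = 1 then p.xc q (r + 1) (k + 1)
    else p.xc q (r + 1) k + 400) (by
      have := (h.xc_step (r + 1) k).2.1
      have := (h.xc_step (r + 1) (k + 1)).2.1
      split_ifs <;> omega)
  have g : 0 < p.gL r (k + 1) := lt_of_le_of_lt (Nat.zero_le _) (h.ok.gL_step r k).1
  rw [a, val_add] at b
  have c : (if p.jA (r + 1) (k + 1) = 1 then p.XA s q (r + 1) (k + 1)
      else p.XA s q (r + 1) k + 1) = val p.R r (p.tc s q r (p.gL r (k + 1) + 1 - 2 * s r)) + s r -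
      cc s (r + 1) := by
    rw [← b]
    unfold XA
    split_ifs
    · rfl
    · rw [val_one]; ring
  rw [c]
  unfold bv tv
  rcases (show s r = 0 ∨ s r = 1 by have := h.s1 r; omega) with e | e
  · simp only [cc, e]
    norm_num
    ring
  · simp only [cc, e, if_pos, if_neg g.ne']
    rw [show p.gL r (k + 1) + 1 - 2 * 1 = p.gL r (k + 1) - 1 by omega]
    norm_num
    ring

theorem Good.B_A {r k : ℕ} (hr : r ≤ p.R) (hk : k ≤ p.lay.n (2 * r + 2)) :
    Bg p.lay (p.X s q) (p.up s) (2 * r + 2) k = p.tv s q r (p.gU r k) := by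
  unfold Bg
  rcases k with _ | k
  · have a := h.XA_grp r 0
    have b := h.ok.gU_cell r 0
    simp only [mul_zero] at a b
    rw [if_pos rfl, X_A, b, a.1, a.2]
  · obtain ⟨-, a, -, d⟩ := h.XA_step hr k
    rw [if_neg (by omega), ← d, up_A, X_A, X_A, Nat.add_sub_cancel]
    by_cases e : p.jA r (k + 1) = 1
    · simp [e]
    · rw [if_neg e]
      split_ifs with c
      · rfl
      · have := h.ok.G2
        rw [nA] at hk c
        have e' : k + 1 = wd r * (3 * (p.G + r)) :=
          le_antisymm hk (not_lt.1 fun l => c ⟨l, by simp [e]⟩)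
        exact (a (by rw [e']; exact (h.ok.anchor (by omega) (by omega)).1)).symm

theorem Good.T_A {r k : ℕ} (hk : k + 1 ≤ p.lay.n (2 * (r + 1) + 2)) :
    Tg p.lay (p.X s q) (p.up s) (2 * (r + 1) + 2) (k + 1) = p.bv s q r (p.gL r (k + 1)) := by
  unfold Tg
  rw [if_neg (by omega), ← h.XA_lo, up_A, X_A, X_A, Nat.add_sub_cancel]
  by_cases e : p.jA (r + 1) (k + 1) = 1
  · rw [if_pos e]
    refine if_pos ⟨?_, e⟩
    have := h.ok.G2
    rw [nA] at hk ⊢
    refine lt_of_le_of_ne hk fun e' => ?_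
    have := (h.ok.anchor (r := r + 1) (u := 3 * (p.G + (r + 1))) (by omega) (by omega)).1
    rw [← e'] at this
    omega
  · simp [e]

theorem Good.XA0 (k : ℕ) : p.XA s q 0 k = k + 1 / 50 := by
  unfold XA
  rw [h.xc0, add_comm, val_add, val_eight]
  simp [cc, add_comm]

theorem Good.T_A0 (k : ℕ) : Tg p.lay (p.X s q) (p.up s) (2 * 0 + 2) k = k + 1 / 50 := by
  unfold Tg
  rw [up_A, h.ok.jA0, X_A, X_A, X_A, h.XA0, h.XA0, h.XA0]
  rcases k with _ | k
  · simp
  · simp
    ring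

theorem Good.T_V {r : ℕ} (hr : r ≤ p.R) :
    Tg p.lay (p.X s q) (p.up s) (2 * r + 2 + 1) 0 ≤ p.tv s q r 0 ∧ ∀ j, j + 1 ≤ 48 * (p.G + r) →
      p.tv s q r (j + 1) ≤ Tg p.lay (p.X s q) (p.up s) (2 * r + 2 + 1) (j + 1) ∧
      (j + 1 < 48 * (p.G + r) →
        Tg p.lay (p.X s q) (p.up s) (2 * r + 2 + 1) (j + 1) = p.tv s q r (j + 1)) := by
  unfold Tg
  simp only [X_V, up_V, nV, Nat.add_sub_cancel, if_pos, Nat.add_eq_zero_iff, one_ne_zero,
    and_false, if_false]
  by_cases e : s r = 1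
  · simp only [e, if_true, and_true]
    refine ⟨le_rfl, fun j _ => ⟨?_, fun c => if_pos c⟩⟩
    split_ifs
    · rfl
    · exact (h.tv_step hr j).2.le
  · simp only [e, if_false, and_false]
    exact ⟨by linarith [(h.tv_step hr 0).2], fun j _ => ⟨by simp, fun _ => by simp⟩⟩

theorem Good.B_V (r : ℕ) : (∀ j, j < 48 * (p.G + r) →
      Bg p.lay (p.X s q) (p.up s) (2 * r + 2 + 1) j = p.bv s q r j) ∧
    Bg p.lay (p.X s q) (p.up s) (2 * r + 2 + 1) (48 * (p.G + r)) =
      if s r = 1 then p.bv s q r (48 * (p.G + r)) else p.tv s q r (48 * (p.G + r)) := by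
  have := h.ok.G2
  unfold Bg bv
  simp only [X_V, up_V, nV]
  by_cases e : s r = 1
  · simp [e]
  · simp only [e, if_false, not_false_iff, and_true, lt_irrefl]
    refine ⟨fun j c => ?_, ?_⟩
    · split_ifs with c'
      · rw [c']
      · rfl
    · rw [if_neg (by omega), show 48 * (p.G + r) - 1 + 1 = 48 * (p.G + r) by omega]
      ring

theorem Good.Bm (ρ i : ℕ) (hρ : ρ < p.lay.nr) (hi : i < p.lay.n ρ) :
    Bg p.lay (p.X s q) (p.up s) ρ i < Bg p.lay (p.X s q) (p.up s) ρ (i + 1) := by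
  simp only [lay] at hρ
  rcases rows ρ with rfl | rfl | ⟨r, rfl⟩ | ⟨r, rfl⟩
  · simp [TB0]
  · simp [TB1]
  · rw [h.B_A (by omega) hi.le, h.B_A (by omega) hi]
    exact h.tv_mono (by omega) (h.ok.gU_mono r (by omega))
  · have hr : r ≤ p.R := by omega
    rw [nV] at hi
    rw [(h.B_V r).1 i hi]
    rcases (show i + 1 ≤ _ from hi).eq_or_lt with e | e
    · rw [e, (h.B_V r).2, ← e]
      split_ifs with c
      · exact h.bv_mono hr (by omega)
      · unfold bv
        rw [if_neg c]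
        linarith
    · rw [(h.B_V r).1 _ e]
      exact h.bv_mono hr (by omega)

theorem Good.xlt (ρ i : ℕ) (hρ : ρ < p.lay.nr) : p.X s q ρ i < p.X s q ρ (i + 1) := by
  simp only [lay] at hρ
  rcases rows ρ with rfl | rfl | ⟨r, rfl⟩ | ⟨r, rfl⟩
  · simp [X0]
  · simp [X1]
  · rw [X_A, X_A]
    exact (h.XA_step (by omega) i).1
  · rw [X_V, X_V]
    split_ifs
    · exact (h.tv_step (by omega) i).1
    · linarith [(h.tv_step (show r ≤ p.R by omega) (i + 1)).1]

theorem Good.Tm (ρ i : ℕ) (hρ : ρ < p.lay.nr) (hi : i < p.lay.n ρ) :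
    Tg p.lay (p.X s q) (p.up s) ρ i < Tg p.lay (p.X s q) (p.up s) ρ (i + 1) := by
  rcases i with _ | i
  · have := h.xlt ρ 0 hρ
    unfold Tg
    rw [if_pos rfl, if_neg (by omega)]
    split_ifs
    · exact this
    · simp
  simp only [lay] at hρ
  rcases rows ρ with rfl | rfl | ⟨r, rfl⟩ | ⟨r, rfl⟩
  · simp [TB0]
  · simp [TB1]
  · rcases r with _ | r
    · rw [h.T_A0, h.T_A0]
      simp
    · rw [h.T_A hi.le, h.T_A hi]
      exact h.bv_mono (by omega) (h.ok.gL_mono r (by omega))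
  · have hr : r ≤ p.R := by omega
    rw [nV] at hi
    rw [((h.T_V hr).2 i hi.le).2 hi]
    exact (h.tv_step hr _).1.trans_le ((h.T_V hr).2 _ hi).1

theorem Good.pl (ρ : ℕ) (hρ : ρ + 1 < p.lay.nr) : p.X s q (ρ + 1) 0 ≤ p.X s q ρ 0 := by
  simp only [lay] at hρ
  rcases rows ρ with rfl | rfl | ⟨r, rfl⟩ | ⟨r, rfl⟩
  · rw [zero_add, X0, X1]; norm_num
  · rw [show 1 + 1 = 2 * 0 + 2 from rfl, X_A, X1, h.XA0]; norm_num
  · have a := h.XA_grp r 0
    have b := (h.tv_step (show r ≤ p.R by omega) 0).2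
    simp only [mul_zero] at a
    rw [X_A, X_V]
    split_ifs <;> linarith [a.1, a.2]
  · have a := h.XA_grp r 0
    have a' := h.XA_grp (r + 1) 0
    have b := (h.tv_step (show r ≤ p.R by omega) 0).1
    have := h.s1 r
    simp only [mul_zero, cc] at a a'
    rw [show 2 * r + 2 + 1 + 1 = 2 * (r + 1) + 2 from rfl, X_A, X_V, a'.1]
    split_ifs with c
    · rw [a.2, c]; simp
    · rw [show s r = 0 by omega]
      push_cast
      linarith [a.2]

theorem Good.pr (ρ : ℕ) (hρ : ρ + 1 < p.lay.nr) :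
    p.X s q ρ (p.lay.n ρ - 1) ≤ p.X s q (ρ + 1) (p.lay.n (ρ + 1) - 1) := by
  have := h.ok.G2
  simp only [lay] at hρ
  rcases rows ρ with rfl | rfl | ⟨r, rfl⟩ | ⟨r, rfl⟩
  · rw [zero_add, X0, X1, show p.lay.n 1 - 1 = p.lay.n 0 - 1 + 1 by simp [lay]; omega]
    push_cast
    linarith
  · rw [show 1 + 1 = 2 * 0 + 2 from rfl, X_A, X1, h.XA0,
      show p.lay.n (2 * 0 + 2) - 1 = p.lay.n 1 - 1 + 1 by simp [lay]; omega]
    push_cast
    linarith
  · have hr : r ≤ p.R := by omega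
    have a := h.XA_grp r (p.G + r)
    have b := (h.tv_step hr (48 * (p.G + r) - 1)).2
    have w : 0 < wd r * (3 * (p.G + r)) := Nat.mul_pos (wd_pos r) (by omega)
    have c := (h.XA_step hr (wd r * (3 * (p.G + r)) - 1)).2.1
    rw [Nat.sub_add_cancel w] at c
    have d := c (h.ok.anchor (by omega) (by omega)).1
    rw [X_A, X_V, nA, nV]
    rw [show 48 * (p.G + r) - 1 + 1 = 48 * (p.G + r) by omega] at b ⊢
    split_ifs <;> linarith [a.1, a.2]
  · have hr : r ≤ p.R := by omega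
    have a := h.XA_grp r (p.G + r)
    have a' := h.XA_grp (r + 1) (p.G + r)
    have b := (h.tv_step hr (48 * (p.G + r) - 1)).1
    have d := (h.XA_mono (show r + 1 ≤ p.R by omega)).monotone
      (show wd (r + 1) * (3 * (p.G + r)) ≤ wd (r + 1) * (3 * (p.G + (r + 1))) - 1 by
        rw [show wd (r + 1) = 8 from rfl]; omega)
    have := h.s1 r
    rw [show 2 * r + 2 + 1 + 1 = 2 * (r + 1) + 2 from rfl, X_A, X_V, nA, nV]
    rw [show 48 * (p.G + r) - 1 + 1 = 48 * (p.G + r) by omega] at b ⊢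
    simp only [cc] at a'
    split_ifs with c
    · rw [c] at a'
      simp only [Nat.sub_self, add_zero] at a'
      linarith [a.2, a'.1]
    · rw [show s r = 0 by omega] at a'
      simp only [Nat.sub_zero, Nat.cast_add, Nat.cast_one] at a' a
      linarith [a.2, a'.1]

theorem Good.face (ρ i j : ℕ) (hρ : ρ + 1 < p.lay.nr) (hi : i < p.lay.n ρ)
    (hj : j < p.lay.n (ρ + 1)) :
    (p.lay.bk ρ i < p.lay.tk (ρ + 1) (j + 1) ↔
      Bg p.lay (p.X s q) (p.up s) ρ i < Tg p.lay (p.X s q) (p.up s) (ρ + 1) (j + 1)) ∧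
    (p.lay.tk (ρ + 1) j < p.lay.bk ρ (i + 1) ↔
      Tg p.lay (p.X s q) (p.up s) (ρ + 1) j < Bg p.lay (p.X s q) (p.up s) ρ (i + 1)) := by
  have := h.ok.G2
  have hρ' := hρ
  simp only [lay] at hρ'
  have cmp : ∀ (a b : ℕ) (d : ℝ), 0 < d → d < 1 → (a ≤ b ↔ (a : ℝ) < b + d) := by
    intro a b d d0 d1
    constructor
    · intro e
      have : (a : ℝ) ≤ b := by exact_mod_cast e
      linarith
    · intro e
      have : (a : ℝ) < (b + 1 : ℕ) := by push_cast; linarith
      have : a < b + 1 := by exact_mod_cast this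
      omega
  rcases rows ρ with rfl | rfl | ⟨r, rfl⟩ | ⟨r, rfl⟩
  · rw [zero_add, (TB0 p s q _).2, (TB0 p s q _).2, (TB1 p s q _).1, (TB1 p s q _).1,
      h.ok.wall.b0, h.ok.wall.b0, h.ok.wall.t1, h.ok.wall.t1]
    have a := cmp i j (1 / 2) (by norm_num) (by norm_num)
    have b := cmp j (i + 1) (1 / 2) (by norm_num) (by norm_num)
    push_cast at a b ⊢
    exact ⟨⟨fun e => by linarith [a.1 (by omega)], fun e => by have := a.2 (by linarith); omega⟩,
      ⟨fun e => by linarith [b.1 (by omega)], fun e => by have := b.2 (by linarith); omega⟩⟩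
  · rw [show 1 + 1 = 2 * 0 + 2 from rfl, (TB1 p s q _).2, (TB1 p s q _).2, h.T_A0, h.T_A0,
      h.ok.wall.b1, h.ok.wall.b1]
    rw [show 2 * 0 + 2 = 2 from rfl, h.ok.wall.t2, h.ok.wall.t2]
    have a := cmp i j (26 / 50) (by norm_num) (by norm_num)
    have b := cmp j (i + 1) (24 / 50) (by norm_num) (by norm_num)
    push_cast at a b ⊢
    exact ⟨⟨fun e => by linarith [a.1 (by omega)], fun e => by have := a.2 (by linarith); omega⟩,
      ⟨fun e => by linarith [b.1 (by omega)], fun e => by have := b.2 (by linarith); omega⟩⟩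
  · have hr : r ≤ p.R := by omega
    have m := h.tv_mono hr
    rw [h.B_A hr hi.le, h.B_A hr hi, bkA, tkV, tkV]
    rw [nA] at hi
    rw [nV] at hj
    have g := h.ok.gU_mono r hi
    rw [h.ok.gU_cell] at g
    obtain ⟨a, b⟩ := h.T_V hr
    constructor
    · rcases (show j + 1 ≤ _ from hj).eq_or_lt with e | e
      · exact iff_of_true (by omega) ((m (by omega)).trans_le (b j hj).1)
      · rw [(b j hj).2 e, m.lt_iff_lt]
    · rcases j with _ | j
      · have := h.ok.gU_mono r (show 0 < i + 1 by omega)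
        exact iff_of_true (by omega) (a.trans_lt (m ((Nat.zero_le _).trans_lt this)))
      · rw [(b j hj.le).2 hj, m.lt_iff_lt]
  · have hr : r ≤ p.R := by omega
    have m := h.bv_mono hr
    have hi' := hi
    rw [tkA, bkV, bkV]
    rw [nV] at hi
    obtain ⟨a, b⟩ := h.B_V r
    refine ⟨by rw [a i hi]; exact (m.lt_iff_lt.symm.trans (by rw [← h.T_A hj]; rfl)), ?_⟩
    rcases j with _ | j
    · refine iff_of_true (show 0 < i + 1 by omega) ((h.pl _ hρ).trans_lt ?_)
      exact mono_lt (T := Bg p.lay (p.X s q) (p.up s) (2 * r + 2 + 1)) (a := 0)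
        (fun k _ hk => h.Bm _ k (by omega) hk) (i := 0) le_rfl (by omega) hi'
    · have t : Tg p.lay (p.X s q) (p.up s) (2 * r + 2 + 1 + 1) (j + 1) = _ := h.T_A hj.le
      rw [t]
      rcases (show i + 1 ≤ _ from hi).eq_or_lt with e | e
      swap
      · rw [a _ e, m.lt_iff_lt]
      rw [e, b]
      split_ifs with c
      · rw [m.lt_iff_lt]
      have s0 : s r = 0 := by have := h.s1 r; omega
      constructor
      · intro l
        refine (m l).trans ?_
        unfold bv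
        rw [if_neg c]
        linarith [(h.tv_step hr (48 * (p.G + r))).2]
      · intro l
        by_contra l'
        have an := (h.ok.anchor (r := r) (u := 3 * (p.G + r)) (by omega) (by omega)).2.2.2
        have k1 : 8 * (3 * (p.G + r)) < j + 1 := (h.ok.gL_mono r).lt_iff_lt.1 (by omega)
        have k2 := m.monotone ((h.ok.gL_mono r).monotone
          (show 24 * (p.G + r) + 1 ≤ j + 1 by omega))
        have k3 : p.bv s q r (p.gL r (24 * (p.G + r) + 1)) = p.tv s q r (48 * (p.G + r)) := by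
          unfold bv tv
          rw [if_neg c, h.last r _ s0, (h.grp r _).2,
            show 8400 * (p.G + r) + 408 = 8400 * (p.G + r) + 8 + 400 by omega, val_one]
          ring
        linarith

theorem Good.layout : Layout p.lay (p.X s q) (Tg p.lay (p.X s q) (p.up s))
    (Bg p.lay (p.X s q) (p.up s)) (p.up s) := by
  have := h.ok.G2
  have np : ∀ ρ, 0 < p.lay.n ρ := fun ρ => by
    simp only [lay]
    split_ifs <;> omega
  refine ⟨fun ρ _ => np ρ, fun _ => rfl, fun _ => rfl, fun ρ _ => ?_, fun ρ _ => ?_,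
    fun ρ i _ a b => ?_, fun ρ i _ a b => ?_, fun ρ i a _ => h.xlt ρ i a, fun ρ i a _ b => ?_,
    fun ρ i a _ b => ?_, fun ρ i => ?_, fun ρ i a => ?_, h.Tm, h.Bm, h.face, h.pl, h.pr⟩
  · simp [Tg, (np ρ).ne']
  · simp [Bg, (np ρ).ne']
  · simp [Tg, Bg, a, b]
  · simp [Tg, Bg, a, b]
  · simp only [lay] at a
    rcases rows ρ with rfl | rfl | ⟨r, rfl⟩ | ⟨r, rfl⟩
    · simp [X0]
    · simp only [X1]; push_cast; ring
    · rw [jtA] at b
      rw [X_A, X_A]
      exact (h.XA_step (by omega) i).2.1 b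
    · rw [jtV] at b
      omega
  · simp only [lay] at a
    rcases rows ρ with rfl | rfl | ⟨r, rfl⟩ | ⟨r, rfl⟩
    · exact absurd rfl b
    · exact absurd rfl b
    · rw [jtA] at b
      rw [X_A, X_A]
      exact (h.XA_step (by omega) i).2.2.1 b
    · rw [X_V, X_V]
      split_ifs
      · exact (h.tv_step (by omega) i).2
      · linarith [(h.tv_step (show r ≤ p.R by omega) (i + 1)).2]
  · rcases rows ρ with rfl | rfl | ⟨r, rfl⟩ | ⟨r, rfl⟩
    · exact Nat.zero_le _
    · exact Nat.zero_le _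
    · rw [jtA]; exact h.ok.jA_le r i
    · rw [jtV]; omega
  · rcases rows ρ with rfl | rfl | ⟨r, rfl⟩ | ⟨r, rfl⟩
    · exact absurd a (by simp [th])
    · simp [lay]
    · rw [jtA, up_A]; omega
    · rw [thV] at a; omega

omit h

/-- Completeness: fitting directions give a representation. -/
theorem Ok.full (h : p.Ok) (s : ℕ → Prop) (s0 : s 0) (s1 : ¬ s 1)
    (H : ∀ n, ∃ g, g < 3 ∧ (p.P (3 * n + g) = 0 → ¬ s (p.L (3 * n + g))) ∧
      (p.P (3 * n + g) = 1 → s (p.L (3 * n + g)))) : ∃ x y, Rep p.lay.S p.lay.G x y := by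
  classical
  choose q q3 hq using H
  have G : p.Good (fun r => if s r then 1 else 0) q := by
    refine ⟨h, fun r => by split_ifs <;> omega, q3, fun r u => ?_⟩
    have a := h.P1 u
    have b := hq (u / 3)
    have l3 := h.L3 u
    have c : u % 3 = q (u / 3) → (p.P u = 0 → ¬ s (p.L u)) ∧ (p.P u = 1 → s (p.L u)) := by
      intro e
      rwa [← e, Nat.div_add_mod] at b
    have u3 : u % 3 < 3 := Nat.mod_lt _ (by omega)
    unfold adm vk
    by_cases r0 : r = 0
    · simp [r0, s0, u3]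
    by_cases r1 : r = 1
    · simp only [r1, s1]
      simp [add_comm]
      omega
    rw [if_neg r0, if_neg r1]
    by_cases e : r = p.L u
    · rw [if_neg (show ¬ r + 1 < p.L u by omega), if_neg (show ¬ r + 1 = p.L u by omega), if_pos e]
      rw [← e] at c
      rcases (show p.P u = 0 ∨ p.P u = 1 by omega) with e | e
      · simp only [e] at c ⊢
        by_cases k : u % 3 = q (u / 3)
        · simp [(c k).1]
        · simp [k]
      · simp only [e] at c ⊢
        by_cases k : u % 3 = q (u / 3)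
        · simp [(c k).2]
        · simp [k]
    · split_ifs <;> first | rfl | omega
  exact ⟨_, _, G.layout.rep⟩

end Par

end Pool.Agent.Lib.MP_ec9af3_lc.H18
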