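import Mathlib

namespace Pool.Agent.Lib.MP_ec9af3_lc.H18

variable {V : Type}

def Gen (S : Finset V) (x : V → ℝ) (t : ℝ) : Prop := ∀ w ∈ S, t ≠ x w ∧ t ≠ x w + 1

def Cr (x : V → ℝ) (t : ℝ) (v : V) : Prop := x v < t ∧ t < x v + 1

structure Sees (S : Finset V) (x y : V → ℝ) (t : ℝ) (u v : V) : Prop where
  gen : Gen S x t
  cu : Cr x t u
  cv : Cr x t v
  lt : y u < y v
  free : ∀ w ∈ S, Cr x t w → y w ≤ y u ∨ y v ≤ y w

structure Rep (S : Finset V) (G : SimpleGraph V) (x y : V → ℝ) : Prop where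
  mem : ∀ {u v}, G.Adj u v → u ∈ S
  disj : ∀ u ∈ S, ∀ v ∈ S, u ≠ v → y u = y v → x u + 1 < x v ∨ x v + 1 < x u
  adj : ∀ u ∈ S, ∀ v ∈ S, (G.Adj u v ↔ ∃ t, Sees S x y t u v ∨ Sees S x y t v u)

def Inner (S : Finset V) (x y : V → ℝ) (v : V) : Prop :=
  ∀ t, Cr x t v → (∃ u ∈ S, Cr x t u ∧ y v < y u) ∧ (∃ u ∈ S, Cr x t u ∧ y u < y v)

theorem exists_gen_notMem (S : Finset V) (x : V → ℝ) {C : Set ℝ} (hC : C.Countable) {a b : ℝ}
    (h : a < b) : ∃ t, a < t ∧ t < b ∧ Gen S x t ∧ t ∉ C := by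
  classical
  have hc : (C ∪ ((S.image x ∪ S.image (fun w => x w + 1) : Finset ℝ) : Set ℝ)).Countable :=
    hC.union (Finset.countable_toSet _)
  have hu : ¬ (Set.Ioo a b).Countable := by
    intro hh
    have := hh.measure_zero MeasureTheory.volume
    rw [Real.volume_Ioo] at this
    simp at this
    linarith
  by_contra hcon
  apply hu
  refine hc.mono (fun t ht => ?_)
  by_contra h2
  apply hcon
  simp only [Set.mem_union, Finset.coe_union, Finset.coe_image, Set.mem_image, Finset.mem_coe,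
    not_or, not_exists, not_and] at h2
  exact ⟨t, ht.1, ht.2, fun w hw => ⟨fun e => h2.2.1 w hw e.symm, fun e => h2.2.2 w hw e.symm⟩,
    h2.1⟩

theorem exists_gen (S : Finset V) (x : V → ℝ) {a b : ℝ} (h : a < b) :
    ∃ t, a < t ∧ t < b ∧ Gen S x t := by
  obtain ⟨t, h1, h2, h3, -⟩ := exists_gen_notMem S x Set.countable_empty h
  exact ⟨t, h1, h2, h3⟩

theorem Gen.not_cr {S : Finset V} {x : V → ℝ} {t : ℝ} (h : Gen S x t) {w : V} (hw : w ∈ S)
    (hc : ¬ Cr x t w) : t < x w ∨ x w + 1 < t := by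
  have := h w hw
  unfold Cr at hc
  rcases lt_trichotomy t (x w) with h1 | h1 | h1
  · exact Or.inl h1
  · exact absurd h1 this.1
  · rcases lt_trichotomy t (x w + 1) with h2 | h2 | h2
    · exact absurd ⟨h1, h2⟩ hc
    · exact absurd h2 this.2
    · exact Or.inr h2

theorem gen_negX {S : Finset V} {x : V → ℝ} {t : ℝ} :
    Gen S (fun v => -x v) t ↔ Gen S x (1 - t) := by
  unfold Gen
  refine forall_congr' fun w => forall_congr' fun _ => ?_
  constructor
  · rintro ⟨h1, h2⟩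
    exact ⟨fun e => h2 (by linarith), fun e => h1 (by linarith)⟩
  · rintro ⟨h1, h2⟩
    exact ⟨fun e => h2 (by linarith), fun e => h1 (by linarith)⟩

theorem cr_negX {x : V → ℝ} {t : ℝ} {v : V} : Cr (fun v => -x v) t v ↔ Cr x (1 - t) v := by
  unfold Cr
  constructor <;> rintro ⟨h1, h2⟩ <;> constructor <;> linarith

theorem sees_negX {S : Finset V} {x y : V → ℝ} {t : ℝ} {u v : V} :
    Sees S (fun v => -x v) y t u v ↔ Sees S x y (1 - t) u v := by
  constructor
  · rintro ⟨h1, h2, h3, h4, h5⟩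
    exact ⟨gen_negX.1 h1, cr_negX.1 h2, cr_negX.1 h3, h4, fun w hw hc => h5 w hw (cr_negX.2 hc)⟩
  · rintro ⟨h1, h2, h3, h4, h5⟩
    exact ⟨gen_negX.2 h1, cr_negX.2 h2, cr_negX.2 h3, h4, fun w hw hc => h5 w hw (cr_negX.1 hc)⟩

theorem sees_negY {S : Finset V} {x y : V → ℝ} {t : ℝ} {u v : V} :
    Sees S x (fun v => -y v) t u v ↔ Sees S x y t v u := by
  constructor
  · rintro ⟨h1, h2, h3, h4, h5⟩
    refine ⟨h1, h3, h2, by linarith, fun w hw hc => ?_⟩
    rcases h5 w hw hc with h | h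
    · right; linarith
    · left; linarith
  · rintro ⟨h1, h2, h3, h4, h5⟩
    refine ⟨h1, h3, h2, by linarith, fun w hw hc => ?_⟩
    rcases h5 w hw hc with h | h
    · right; linarith
    · left; linarith

theorem inner_negX {S : Finset V} {x y : V → ℝ} {v : V} (h : Inner S x y v) :
    Inner S (fun v => -x v) y v := by
  intro t ht
  obtain ⟨⟨u, hu, h1, h2⟩, ⟨w, hw, h3, h4⟩⟩ := h (1 - t) (cr_negX.1 ht)
  exact ⟨⟨u, hu, cr_negX.2 h1, h2⟩, ⟨w, hw, cr_negX.2 h3, h4⟩⟩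

theorem inner_negY {S : Finset V} {x y : V → ℝ} {v : V} (h : Inner S x y v) :
    Inner S x (fun v => -y v) v := by
  intro t ht
  obtain ⟨⟨u, hu, h1, h2⟩, ⟨w, hw, h3, h4⟩⟩ := h t ht
  exact ⟨⟨w, hw, h3, by simpa using h4⟩, ⟨u, hu, h1, by simpa using h2⟩⟩

namespace Rep

variable {S : Finset V} {G : SimpleGraph V} {x y : V → ℝ} (R : Rep S G x y)
include R

theorem negX : Rep S G (fun v => -x v) y where
  mem := R.mem
  disj u hu v hv huv hy := by
    rcases R.disj u hu v hv huv hy with h | h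
    · right; linarith
    · left; linarith
  adj u hu v hv := by
    rw [R.adj u hu v hv]
    constructor
    · rintro ⟨t, h⟩
      refine ⟨1 - t, ?_⟩
      simpa only [sees_negX, sub_sub_cancel] using h
    · rintro ⟨t, h⟩
      exact ⟨1 - t, by simpa only [sees_negX] using h⟩

theorem negY : Rep S G x (fun v => -y v) where
  mem := R.mem
  disj u hu v hv huv hy := R.disj u hu v hv huv (by simpa using hy)
  adj u hu v hv := by
    rw [R.adj u hu v hv]
    simp only [sees_negY, or_comm]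

theorem mem' {u v : V} (h : G.Adj u v) : v ∈ S := R.mem h.symm

theorem eq_of_cr {u v : V} {t : ℝ} (hu : u ∈ S) (hv : v ∈ S) (h1 : Cr x t u) (h2 : Cr x t v)
    (h : y u = y v) : u = v := by
  by_contra hne
  obtain ⟨a, b⟩ := h1
  obtain ⟨c, d⟩ := h2
  rcases R.disj u hu v hv hne h with h | h <;> linarith

theorem adj_of_sees {u v : V} {t : ℝ} (hu : u ∈ S) (hv : v ∈ S) (h : Sees S x y t u v) :
    G.Adj u v := (R.adj u hu v hv).2 ⟨t, Or.inl h⟩

theorem sees_of_adj {u v : V} (h : G.Adj u v) (hy : y u < y v) : ∃ t, Sees S x y t u v := by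
  obtain ⟨t, h | h⟩ := (R.adj u (R.mem h) v (R.mem' h)).1 h
  · exact ⟨t, h⟩
  · exact absurd h.lt (by linarith)

theorem adj_x {u v : V} (h : G.Adj u v) : x u < x v + 1 ∧ x v < x u + 1 := by
  obtain ⟨t, h | h⟩ := (R.adj u (R.mem h) v (R.mem' h)).1 h
  all_goals
    obtain ⟨a, b⟩ := h.cu
    obtain ⟨c, d⟩ := h.cv
    constructor <;> linarith

theorem adj_y {u v : V} (h : G.Adj u v) : y u < y v ∨ y v < y u := by
  obtain ⟨t, h | h⟩ := (R.adj u (R.mem h) v (R.mem' h)).1 h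
  · exact Or.inl h.lt
  · exact Or.inr h.lt

theorem exists_up {t : ℝ} (ht : Gen S x t) {v w : V} (hv : v ∈ S) (hcv : Cr x t v) (hw : w ∈ S)
    (hcw : Cr x t w) (h : y v < y w) : ∃ u, G.Adj v u ∧ Sees S x y t v u ∧ y u ≤ y w := by
  classical
  obtain ⟨u, hu, hmin⟩ := (S.filter (fun u => Cr x t u ∧ y v < y u)).exists_min_image y
    ⟨w, Finset.mem_filter.2 ⟨hw, hcw, h⟩⟩
  obtain ⟨huS, hcu, hlt⟩ := Finset.mem_filter.1 hu
  have hs : Sees S x y t v u := ⟨ht, hcv, hcu, hlt, fun z hz hcz => by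
    by_cases hh : y v < y z
    · exact Or.inr (hmin z (Finset.mem_filter.2 ⟨hz, hcz, hh⟩))
    · exact Or.inl (not_lt.1 hh)⟩
  exact ⟨u, R.adj_of_sees hv huS hs, hs, hmin w (Finset.mem_filter.2 ⟨hw, hcw, h⟩)⟩

theorem exists_down {t : ℝ} (ht : Gen S x t) {v w : V} (hv : v ∈ S) (hcv : Cr x t v) (hw : w ∈ S)
    (hcw : Cr x t w) (h : y w < y v) : ∃ u, G.Adj v u ∧ Sees S x y t u v ∧ y w ≤ y u := by
  obtain ⟨u, h1, h2, h3⟩ := R.negY.exists_up ht hv hcv hw hcw (by simpa using h)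
  exact ⟨u, h1, sees_negY.1 h2, by simpa using h3⟩

end Rep

theorem Sees.not_cr {S : Finset V} {x y : V → ℝ} {t : ℝ} {u v w : V} (h : Sees S x y t u v)
    (hw : w ∈ S) (h1 : y u < y w) (h2 : y w < y v) : ¬ Cr x t w := by
  intro hc
  rcases h.free w hw hc with h | h <;> linarith

/-- A thick brick with bottom `l`, middle `m` and top `h`. -/
structure UpB (S : Finset V) (G : SimpleGraph V) (x y : V → ℝ) (l m h : V) : Prop where
  alm : G.Adj l m
  amh : G.Adj m h
  ylm : y l < y m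
  ymh : y m < y h
  xl : x l = x m
  xh : x h = x m
  sees : ∀ t, Gen S x t → Cr x t m → Sees S x y t l m ∧ Sees S x y t m h
  nb : ∀ w, G.Adj m w → w = l ∨ w = h

theorem UpB.negY {S : Finset V} {G : SimpleGraph V} {x y : V → ℝ} {l m h : V}
    (B : UpB S G x y l m h) : UpB S G x (fun v => -y v) h m l :=
  ⟨B.amh.symm, B.alm.symm, by simpa using B.ymh, by simpa using B.ylm, B.xh, B.xl,
    fun t h1 h2 => ⟨sees_negY.2 (B.sees t h1 h2).2, sees_negY.2 (B.sees t h1 h2).1⟩,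
    fun w hw => (B.nb w hw).symm⟩

theorem UpB.negX {S : Finset V} {G : SimpleGraph V} {x y : V → ℝ} {l m h : V}
    (B : UpB S G x y l m h) : UpB S G (fun v => -x v) y l m h :=
  ⟨B.alm, B.amh, B.ylm, B.ymh, by simp [B.xl], by simp [B.xh],
    fun t h1 h2 => ⟨sees_negX.2 (B.sees _ (gen_negX.1 h1) (cr_negX.1 h2)).1,
      sees_negX.2 (B.sees _ (gen_negX.1 h1) (cr_negX.1 h2)).2⟩, B.nb⟩

theorem x_eq_of_cr {S : Finset V} {x : V → ℝ} {m l : V}
    (h : ∀ t, Gen S x t → Cr x t m → Cr x t l) : x l = x m := by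
  rcases lt_trichotomy (x l) (x m) with h1 | h1 | h1
  · obtain ⟨t, a, b, c⟩ := exists_gen S x (show max (x m) (x l + 1) < x m + 1 by
      simp only [max_lt_iff]; constructor <;> linarith)
    rw [max_lt_iff] at a
    have := (h t c ⟨a.1, b⟩).2
    linarith [a.2]
  · exact h1
  · obtain ⟨t, a, b, c⟩ := exists_gen S x (show x m < min (x l) (x m + 1) by
      simp only [lt_min_iff]; constructor <;> linarith)
    rw [lt_min_iff] at b
    have := (h t c ⟨a, b.2⟩).1
    linarith [b.1]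

namespace Rep

variable {S : Finset V} {G : SimpleGraph V} {x y : V → ℝ} (R : Rep S G x y)
include R

theorem upB_of {l m h : V} (hm : m ∈ S) (hi : Inner S x y m)
    (nb : ∀ w, G.Adj m w → w = l ∨ w = h) (hl : y l < y m) (hh : y m < y h) :
    UpB S G x y l m h := by
  have key : ∀ t, Gen S x t → Cr x t m →
      (G.Adj m l ∧ Sees S x y t l m) ∧ (G.Adj m h ∧ Sees S x y t m h) := by
    intro t ht hc
    obtain ⟨⟨u, hu, h1, h2⟩, ⟨w, hw, h3, h4⟩⟩ := hi t hc
    obtain ⟨u', a1, a2, -⟩ := R.exists_up ht hm hc hu h1 h2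
    obtain ⟨w', b1, b2, -⟩ := R.exists_down ht hm hc hw h3 h4
    constructor
    · rcases nb w' b1 with rfl | rfl
      · exact ⟨b1, b2⟩
      · exact absurd b2.lt (by linarith)
    · rcases nb u' a1 with rfl | rfl
      · exact absurd a2.lt (by linarith)
      · exact ⟨a1, a2⟩
  obtain ⟨t0, a, b, c⟩ := exists_gen S x (show x m < x m + 1 by linarith)
  obtain ⟨⟨k1, -⟩, ⟨k2, -⟩⟩ := key t0 c ⟨a, b⟩
  exact ⟨k1.symm, k2, hl, hh, x_eq_of_cr (fun t h1 h2 => (key t h1 h2).1.2.cu),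
    x_eq_of_cr (fun t h1 h2 => (key t h1 h2).2.2.cv),
    fun t h1 h2 => ⟨(key t h1 h2).1.2, (key t h1 h2).2.2⟩, nb⟩

theorem brick_cases {l m h : V} (hm : m ∈ S) (hi : Inner S x y m)
    (nb : ∀ w, G.Adj m w → w = l ∨ w = h) : UpB S G x y l m h ∨ UpB S G x y h m l := by
  obtain ⟨t, a, b, ht⟩ := exists_gen S x (show x m < x m + 1 by linarith)
  have hc : Cr x t m := ⟨a, b⟩
  obtain ⟨⟨u, hu, h1, h2⟩, ⟨w, hw, h3, h4⟩⟩ := hi t hc
  obtain ⟨u', a1, a2, -⟩ := R.exists_up ht hm hc hu h1 h2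
  obtain ⟨w', b1, b2, -⟩ := R.exists_down ht hm hc hw h3 h4
  have p := a2.lt
  have q := b2.lt
  rcases nb u' a1 with rfl | rfl <;> rcases nb w' b1 with rfl | rfl
  · linarith
  · exact Or.inr (R.upB_of hm hi (fun w hw => (nb w hw).symm) q p)
  · exact Or.inl (R.upB_of hm hi nb q p)
  · linarith

theorem above {l m h w : V} (B : UpB S G x y l m h) (hw : G.Adj h w) (hne : w ≠ m) :
    y h < y w := by
  rcases R.adj_y hw with h1 | h1
  · exact h1
  · exfalso
    obtain ⟨t, ht⟩ := R.sees_of_adj hw.symm h1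
    have hc : Cr x t m := by
      have := ht.cv
      unfold Cr at this ⊢
      rwa [B.xh] at this
    have h2 := (B.sees t ht.gen hc).2
    have hm := R.mem B.amh
    have hwS := R.mem' hw
    rcases ht.free m hm hc with h3 | h3
    · rcases h2.free w hwS ht.cu with h4 | h4
      · exact hne (R.eq_of_cr hwS hm ht.cu hc (le_antisymm h4 h3))
      · linarith
    · linarith [B.ymh]

theorem below {l m h w : V} (B : UpB S G x y l m h) (hw : G.Adj l w) (hne : w ≠ m) :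
    y w < y l := by
  have := R.negY.above B.negY hw hne
  simpa using this

end Rep

end Pool.Agent.Lib.MP_ec9af3_lc.H18
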