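import Pool.Agent.Lib.MP_ec9af3_lc.H18Geom

namespace Pool.Agent.Lib.MP_ec9af3_lc.H18

open Classical

variable {V : Type}

noncomputable def ind (p : Prop) : ZMod 2 := if p then 1 else 0

theorem ind_pos {p : Prop} (h : p) : ind p = 1 := if_pos h
theorem ind_neg {p : Prop} (h : ¬ p) : ind p = 0 := if_neg h
theorem z2_add_self (a : ZMod 2) : a + a = 0 := by revert a; decide

noncomputable def xi (S : Finset V) (x y : V → ℝ) (u v : V) : ℝ :=
  if h : ∃ t, Sees S x y t u v ∨ Sees S x y t v u then h.choose else 0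

noncomputable def par (S : Finset V) (x y : V → ℝ) (E : List (V × V)) (t h : ℝ) : ZMod 2 :=
  (E.map fun e => ind (xi S x y e.1 e.2 < t) * (ind (h < y e.1) + ind (h < y e.2))).sum

noncomputable def dg (S : Finset V) (x y : V → ℝ) (E : List (V × V)) (t : ℝ) (v : V) : ZMod 2 :=
  (E.map fun e => ind (xi S x y e.1 e.2 < t) * (ind (e.1 = v) + ind (e.2 = v))).sum

noncomputable def bd (E : List (V × V)) (v : V) : ZMod 2 :=
  (E.map fun e => ind (e.1 = v) + ind (e.2 = v)).sum

def Off (E : List (V × V)) (v : V) : Prop := ∀ e ∈ E, e.1 ≠ v ∧ e.2 ≠ v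

def AllAdj (G : SimpleGraph V) (E : List (V × V)) : Prop := ∀ e ∈ E, G.Adj e.1 e.2

theorem sum_ind_mul {S : Finset V} {u : V} (hu : u ∈ S) (f : V → ZMod 2) :
    ∑ v ∈ S, f v * ind (u = v) = f u := by
  rw [Finset.sum_eq_single_of_mem u hu]
  · simp [ind]
  · intro b _ hb
    simp [ind, hb.symm]

theorem dg_off {S : Finset V} {x y : V → ℝ} {E : List (V × V)} {t : ℝ} {v : V} (h : Off E v) :
    dg S x y E t v = 0 := by
  unfold dg
  refine List.sum_eq_zero (fun a ha => ?_)
  obtain ⟨e, he, rfl⟩ := List.mem_map.1 ha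
  simp [ind_neg (h e he).1, ind_neg (h e he).2]

theorem par_append (S : Finset V) (x y : V → ℝ) (E F : List (V × V)) (t h : ℝ) :
    par S x y (E ++ F) t h = par S x y E t h + par S x y F t h := by
  simp [par]

theorem dg_append (S : Finset V) (x y : V → ℝ) (E F : List (V × V)) (t : ℝ) (v : V) :
    dg S x y (E ++ F) t v = dg S x y E t v + dg S x y F t v := by
  simp [dg]

theorem bd_append (E F : List (V × V)) (v : V) : bd (E ++ F) v = bd E v + bd F v := by
  simp [bd]

namespace Rep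

variable {S : Finset V} {G : SimpleGraph V} {x y : V → ℝ} (R : Rep S G x y)
include R

theorem xi_spec {u v : V} (h : G.Adj u v) :
    Sees S x y (xi S x y u v) u v ∨ Sees S x y (xi S x y u v) v u := by
  have h' := (R.adj u (R.mem h) v (R.mem' h)).1 h
  unfold xi
  rw [dif_pos h']
  exact h'.choose_spec

theorem xi_cr {u v : V} (h : G.Adj u v) : Cr x (xi S x y u v) u ∧ Cr x (xi S x y u v) v := by
  rcases R.xi_spec h with s | s
  · exact ⟨s.cu, s.cv⟩
  · exact ⟨s.cv, s.cu⟩

theorem sum_dg {E : List (V × V)} (hE : AllAdj G E) (t : ℝ) (f : V → ZMod 2) :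
    ∑ v ∈ S, f v * dg S x y E t v =
      (E.map fun e => ind (xi S x y e.1 e.2 < t) * (f e.1 + f e.2)).sum := by
  induction E with
  | nil => simp [dg]
  | cons e E ih =>
    have h1 := hE e (by simp)
    have := ih (fun e he => hE e (by simp [he]))
    unfold dg at this ⊢
    simp only [List.map_cons, List.sum_cons, mul_add (f _), Finset.sum_add_distrib, this]
    congr 1
    have a := sum_ind_mul (R.mem h1) (fun v => ind (xi S x y e.1 e.2 < t) * f v)
    have b := sum_ind_mul (R.mem' h1) (fun v => ind (xi S x y e.1 e.2 < t) * f v)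
    rw [mul_add, ← a, ← b, ← Finset.sum_add_distrib]
    refine Finset.sum_congr rfl (fun v _ => by ring)

theorem par_eq_sum {E : List (V × V)} (hE : AllAdj G E) (t h : ℝ) :
    par S x y E t h = ∑ v ∈ S, ind (h < y v) * dg S x y E t v :=
  (R.sum_dg hE t (fun v => ind (h < y v))).symm

theorem dg_not_cr {E : List (V × V)} (hE : AllAdj G E) (ev : ∀ v, bd E v = 0) {t : ℝ} {v : V}
    (h : ¬ Cr x t v) : dg S x y E t v = 0 := by
  unfold Cr at h
  by_cases h1 : x v < t
  · have h2 : x v + 1 ≤ t := by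
      by_contra h2
      exact h ⟨h1, not_le.1 h2⟩
    rw [← ev v]
    unfold dg bd
    congr 1
    refine List.map_congr_left (fun e he => ?_)
    obtain ⟨c1, c2⟩ := R.xi_cr (hE e he)
    by_cases a : e.1 = v
    · rw [ind_pos (show xi S x y e.1 e.2 < t by rw [a] at c1; rw [a]; linarith [c1.2]), one_mul]
    · by_cases b : e.2 = v
      · rw [ind_pos (show xi S x y e.1 e.2 < t by rw [b] at c2; rw [b]; linarith [c2.2]), one_mul]
      · simp [ind_neg a, ind_neg b]
  · unfold dg
    refine List.sum_eq_zero (fun a ha => ?_)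
    obtain ⟨e, he, rfl⟩ := List.mem_map.1 ha
    obtain ⟨c1, c2⟩ := R.xi_cr (hE e he)
    by_cases a : e.1 = v
    · rw [ind_neg (show ¬ xi S x y e.1 e.2 < t by rw [a] at c1; rw [a]; linarith [c1.1]), zero_mul]
    · by_cases b : e.2 = v
      · rw [ind_neg (show ¬ xi S x y e.1 e.2 < t by rw [b] at c2; rw [b]; linarith [c2.1]),
          zero_mul]
      · simp [ind_neg a, ind_neg b]

theorem par_horiz {E : List (V × V)} (hE : AllAdj G E) {w : V} (hw : w ∈ S) (ho : Off E w)
    {t t' : ℝ} (c : Cr x t w) (c' : Cr x t' w) :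
    par S x y E t (y w) = par S x y E t' (y w) := by
  unfold par
  congr 1
  refine List.map_congr_left (fun e he => ?_)
  have ha := hE e he
  by_cases hc : Cr x (xi S x y e.1 e.2) w
  · obtain ⟨c1, c2⟩ := R.xi_cr ha
    have n1 : y w ≠ y e.1 := fun h => (ho e he).1 (R.eq_of_cr hw (R.mem ha) hc c1 h).symm
    have n2 : y w ≠ y e.2 := fun h => (ho e he).2 (R.eq_of_cr hw (R.mem' ha) hc c2 h).symm
    have : ind (y w < y e.1) + ind (y w < y e.2) = 0 := by
      rcases R.xi_spec ha with s | s <;> have l := s.lt <;> rcases s.free w hw hc with h | h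
      · rw [ind_pos (lt_of_le_of_ne h n1), ind_pos (by linarith)]; decide
      · rw [ind_neg (by linarith), ind_neg (by linarith)]; decide
      · rw [ind_pos (by linarith), ind_pos (lt_of_le_of_ne h n2)]; decide
      · rw [ind_neg (by linarith), ind_neg (by linarith)]; decide
    rw [this, mul_zero, mul_zero]
  · unfold Cr at hc c c'
    congr 2
    apply propext
    constructor <;> intro h <;> by_contra h' <;> apply hc <;> constructor <;> linarith [c.1, c.2]

theorem par_vert {E : List (V × V)} (hE : AllAdj G E) (ev : ∀ v, bd E v = 0) {u v : V}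
    (hv : v ∈ S) {t : ℝ} (s : Sees S x y t u v) :
    par S x y E t (y u) = par S x y E t (y v) + dg S x y E t v := by
  rw [R.par_eq_sum hE, R.par_eq_sum hE, ← sum_ind_mul hv (dg S x y E t),
    ← Finset.sum_add_distrib]
  refine Finset.sum_congr rfl (fun w hw => ?_)
  by_cases c : Cr x t w
  · have l := s.lt
    by_cases e : v = w
    · subst e
      rw [ind_pos l, ind_neg (lt_irrefl _), ind_pos rfl]
      ring
    · have n : y w ≠ y v := fun h => e (R.eq_of_cr hw hv c s.cv h).symm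
      rw [ind_neg e]
      rcases s.free w hw c with h | h
      · rw [ind_neg (by linarith), ind_neg (by linarith)]; ring
      · rw [ind_pos (by linarith), ind_pos (lt_of_le_of_ne h n.symm)]; ring
  · rw [R.dg_not_cr hE ev c]; ring

theorem inner_of_par {E : List (V × V)} (hE : AllAdj G E) (ev : ∀ v, bd E v = 0) {w : V}
    (hw : w ∈ S) (ho : Off E w) (h : par S x y E (x w + 1 / 2) (y w) = 1) : Inner S x y w := by
  intro t c
  have h1 : par S x y E t (y w) = 1 := by
    rw [← h]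
    exact R.par_horiz hE hw ho c ⟨by linarith, by linarith⟩
  rw [R.par_eq_sum hE] at h1
  constructor
  · by_contra hc
    push Not at hc
    rw [Finset.sum_eq_zero] at h1
    · exact absurd h1 (by decide)
    · intro v hv
      by_cases c' : Cr x t v
      · rw [ind_neg (not_lt.2 (hc v hv c')), zero_mul]
      · rw [R.dg_not_cr hE ev c', mul_zero]
  · by_contra hc
    push Not at hc
    have h2 := R.sum_dg hE t (fun _ => 1)
    rw [List.sum_eq_zero (by
      intro a ha
      obtain ⟨e, -, rfl⟩ := List.mem_map.1 ha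
      rw [z2_add_self, mul_zero])] at h2
    rw [Finset.sum_congr rfl (g := fun v => 1 * dg S x y E t v), h2] at h1
    · exact absurd h1 (by decide)
    · intro v hv
      by_cases c' : Cr x t v
      · by_cases e : v = w
        · subst e
          rw [dg_off ho]; ring
        · rw [ind_pos (lt_of_le_of_ne (hc v hv c')
            (fun h => e (R.eq_of_cr hw hv c c' h).symm))]
      · rw [R.dg_not_cr hE ev c']; ring

theorem pv_adj {E : List (V × V)} (hE : AllAdj G E) (ev : ∀ v, bd E v = 0) {u v : V}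
    (h : G.Adj u v) (ou : Off E u) (ov : Off E v) :
    par S x y E (x u + 1 / 2) (y u) = par S x y E (x v + 1 / 2) (y v) := by
  wlog hl : y u < y v generalizing u v
  · exact (this h.symm ov ou ((R.adj_y h).resolve_left hl)).symm
  obtain ⟨t, s⟩ := R.sees_of_adj h hl
  rw [R.par_horiz hE (R.mem h) ou ⟨by linarith, by linarith⟩ s.cu,
    R.par_horiz hE (R.mem' h) ov ⟨by linarith, by linarith⟩ s.cv, R.par_vert hE ev (R.mem' h) s,
    dg_off ov, add_zero]

end Rep

/-- Connected inside a set. -/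
def Conn (G : SimpleGraph V) (A : Set V) (u v : V) : Prop :=
  Relation.ReflTransGen (fun a b => G.Adj a b ∧ a ∈ A ∧ b ∈ A) u v ∧ u ∈ A

theorem Conn.refl {G : SimpleGraph V} {A : Set V} {u : V} (h : u ∈ A) : Conn G A u u :=
  ⟨Relation.ReflTransGen.refl, h⟩

theorem Conn.right {G : SimpleGraph V} {A : Set V} {u v : V} (h : Conn G A u v) : v ∈ A := by
  obtain ⟨h, hu⟩ := h
  induction h with
  | refl => exact hu
  | tail _ h _ => exact h.2.2

theorem Conn.trans {G : SimpleGraph V} {A : Set V} {u v w : V} (h : Conn G A u v)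
    (h' : Conn G A v w) : Conn G A u w := ⟨h.1.trans h'.1, h.2⟩

theorem Conn.single {G : SimpleGraph V} {A : Set V} {u v : V} (h : G.Adj u v) (hu : u ∈ A)
    (hv : v ∈ A) : Conn G A u v := ⟨Relation.ReflTransGen.single ⟨h, hu, hv⟩, hu⟩

theorem Conn.symm {G : SimpleGraph V} {A : Set V} {u v : V} (h : Conn G A u v) :
    Conn G A v u := by
  have hv := h.right
  obtain ⟨h, hu⟩ := h
  refine ⟨?_, hv⟩
  induction h with
  | refl => exact Relation.ReflTransGen.refl
  | tail _ h ih => exact Relation.ReflTransGen.head ⟨h.1.symm, h.2.2, h.2.1⟩ (ih h.2.1)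

theorem Conn.mono {G : SimpleGraph V} {A B : Set V} {u v : V} (h : Conn G A u v) (hAB : A ⊆ B) :
    Conn G B u v := by
  obtain ⟨h, hu⟩ := h
  refine ⟨?_, hAB hu⟩
  induction h with
  | refl => exact Relation.ReflTransGen.refl
  | tail _ h ih => exact ih.tail ⟨h.1, hAB h.2.1, hAB h.2.2⟩

theorem Conn.edges {G : SimpleGraph V} {A : Set V} {u v : V} (h : Conn G A u v) :
    ∃ E : List (V × V), AllAdj G E ∧ (∀ e ∈ E, e.1 ∈ A ∧ e.2 ∈ A) ∧
      ∀ w, bd E w = ind (u = w) + ind (v = w) := by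
  obtain ⟨h, -⟩ := h
  induction h with
  | refl => exact ⟨[], by simp [AllAdj], by simp, fun w => by simp [bd, z2_add_self]⟩
  | @tail b c _ h ih =>
    obtain ⟨E, h1, h2, h3⟩ := ih
    refine ⟨(b, c) :: E, ?_, ?_, fun w => ?_⟩
    · intro e he
      rcases List.mem_cons.1 he with rfl | he
      · exact h.1
      · exact h1 e he
    · intro e he
      rcases List.mem_cons.1 he with rfl | he
      · exact h.2
      · exact h2 e he
    · have := h3 w
      unfold bd at this ⊢
      simp only [List.map_cons, List.sum_cons, this]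
      have := z2_add_self (ind (b = w))
      linear_combination this

theorem theta_arith (a1 a2 a3 : ℝ) (u1 u2 u3 : Prop) (t12 : a1 = a2 → (u1 ↔ ¬ u2))
    (t13 : a1 = a3 → (u1 ↔ ¬ u3)) (t23 : a2 = a3 → (u2 ↔ ¬ u3)) :
    (ind (a2 < a1) * (ind u2 + ind (¬ u1)) + ind (a3 < a1) * (ind u3 + ind (¬ u1))) +
    (ind (a1 < a2) * (ind u1 + ind (¬ u2)) + ind (a3 < a2) * (ind u3 + ind (¬ u2))) +
    (ind (a1 < a3) * (ind u1 + ind (¬ u3)) + ind (a2 < a3) * (ind u2 + ind (¬ u3))) = 1 := by
  rcases lt_trichotomy a1 a2 with h | h | h <;> rcases lt_trichotomy a1 a3 with h' | h' | h' <;>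
    rcases lt_trichotomy a2 a3 with h'' | h'' | h'' <;>
    first
    | (exfalso; linarith)
    | (by_cases p1 : u1 <;> by_cases p2 : u2 <;> by_cases p3 : u3 <;>
        simp_all [ind, not_lt_of_gt] <;> decide)

namespace Rep

variable {S : Finset V} {G : SimpleGraph V} {x y : V → ℝ} (R : Rep S G x y)
include R

theorem pv_conn {E : List (V × V)} (hE : AllAdj G E) (ev : ∀ v, bd E v = 0) {A : Set V}
    (hA : ∀ v ∈ A, Off E v) {u v : V} (h : Conn G A u v) :
    par S x y E (x u + 1 / 2) (y u) = par S x y E (x v + 1 / 2) (y v) := by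
  obtain ⟨h, -⟩ := h
  induction h with
  | refl => rfl
  | tail _ h ih => exact ih.trans (R.pv_adj hE ev h.1 (hA _ h.2.1) (hA _ h.2.2))

theorem theta_term {a n n' n'' : V} {F' F'' : List (V × V)} (h : G.Adj a n) (h' : G.Adj a n')
    (h'' : G.Adj a n'') (hE : AllAdj G (((a, n') :: F') ++ ((a, n'') :: F'')))
    (ev : ∀ v, bd (((a, n') :: F') ++ ((a, n'') :: F'')) v = 0)
    (o : Off (((a, n') :: F') ++ ((a, n'') :: F'')) n) (o' : Off F' a) (o'' : Off F'' a) :
    par S x y (((a, n') :: F') ++ ((a, n'') :: F'')) (x n + 1 / 2) (y n) =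
      par S x y F' (x a + 1 / 2) (y a) + par S x y F'' (x a + 1 / 2) (y a) +
      (ind (xi S x y a n' < xi S x y a n) * (ind (y a < y n') + ind (¬ y a < y n)) +
        ind (xi S x y a n'' < xi S x y a n) * (ind (y a < y n'') + ind (¬ y a < y n))) := by
  have ha := R.mem h
  have hn := R.mem' h
  obtain ⟨ca, cn⟩ := R.xi_cr h
  have mid : Cr x (x a + 1 / 2) a := ⟨by linarith, by linarith⟩
  have p1 := R.par_horiz (E := F') (fun e he => hE e (by simp [he])) ha o' ca mid
  have p2 := R.par_horiz (E := F'') (fun e he => hE e (by simp [he])) ha o'' ca mid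
  have d1 : dg S x y F' (xi S x y a n) a = 0 := dg_off o'
  have d2 : dg S x y F'' (xi S x y a n) a = 0 := dg_off o''
  have U : par S x y (((a, n') :: F') ++ ((a, n'') :: F'')) (xi S x y a n) (y a) =
      par S x y F' (x a + 1 / 2) (y a) + par S x y F'' (x a + 1 / 2) (y a) +
      (ind (xi S x y a n' < xi S x y a n) * ind (y a < y n') +
        ind (xi S x y a n'' < xi S x y a n) * ind (y a < y n'')) := by
    rw [par_append, ← p1, ← p2]
    simp only [par, List.map_cons, List.sum_cons, ind_neg (lt_irrefl (y a))]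
    ring
  have D : dg S x y (((a, n') :: F') ++ ((a, n'') :: F'')) (xi S x y a n) a =
      ind (xi S x y a n' < xi S x y a n) + ind (xi S x y a n'' < xi S x y a n) := by
    rw [dg_append]
    unfold dg at d1 d2 ⊢
    simp only [List.map_cons, List.sum_cons, d1, d2, ind_pos trivial, ind_neg h'.ne',
      ind_neg h''.ne']
    ring
  rw [R.par_horiz hE hn o ⟨by linarith, by linarith⟩ cn]
  rcases R.xi_spec h with s | s
  · have := R.par_vert hE ev hn s
    rw [dg_off o, add_zero] at this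
    rw [← this, U, ind_neg (not_not.2 s.lt)]
    ring
  · rw [R.par_vert hE ev ha s, U, D, ind_pos (not_lt.2 s.lt.le)]
    ring

theorem xi_tie {a n n' : V} (h : G.Adj a n) (h' : G.Adj a n') (ne : n ≠ n')
    (e : xi S x y a n = xi S x y a n') : (y a < y n ↔ ¬ y a < y n') := by
  have hn := R.mem' h
  have hn' := R.mem' h'
  have s' := R.xi_spec h'
  rw [← e] at s'
  rcases R.xi_spec h with s | s <;> rcases s' with s' | s' <;> have l := s.lt <;>
    have l' := s'.lt
  · exfalso
    refine ne (R.eq_of_cr hn hn' s.cv s'.cv ?_)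
    rcases s.free n' hn' s'.cv with k | k <;> rcases s'.free n hn s.cv with k' | k' <;> linarith
  · exact ⟨fun _ => not_lt.2 l'.le, fun _ => l⟩
  · exact ⟨fun k => absurd k (not_lt.2 l.le), fun k => absurd l' k⟩
  · exfalso
    refine ne (R.eq_of_cr hn hn' s.cu s'.cu ?_)
    rcases s.free n' hn' s'.cu with k | k <;> rcases s'.free n hn s.cu with k' | k' <;> linarith

/-- One of the two sides of a theta graph consists of inner bars. -/
theorem theta {a c n1 n2 n3 q p : V} {A1 A2 A3 : Set V} (h1 : G.Adj a n1) (h2 : G.Adj a n2)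
    (h3 : G.Adj a n3) (c1 : Conn G A1 n1 c) (c2 : Conn G A2 n2 c) (c3 : Conn G A3 n3 c)
    (a1 : a ∉ A1) (a2 : a ∉ A2) (a3 : a ∉ A3)
    (q1 : Conn G {v | v ≠ a ∧ v ∉ A2 ∧ v ∉ A3} n1 q)
    (q2 : Conn G {v | v ≠ a ∧ v ∉ A1 ∧ v ∉ A3} n2 q)
    (p3 : Conn G {v | v ≠ a ∧ v ∉ A1 ∧ v ∉ A2} n3 p) :
    (∀ w ∈ S, Conn G {v | v ≠ a ∧ v ∉ A1 ∧ v ∉ A2} q w → Inner S x y w) ∨
    (∀ w ∈ S, Conn G {v | v ≠ a ∧ v ∉ A1 ∧ v ∉ A2} p w → Inner S x y w) := by
  obtain ⟨F1, f1, g1, b1⟩ := c1.edges
  obtain ⟨F2, f2, g2, b2⟩ := c2.edges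
  obtain ⟨F3, f3, g3, b3⟩ := c3.edges
  have adj : ∀ {n n' : V} {F F' : List (V × V)}, G.Adj a n → G.Adj a n' → AllAdj G F →
      AllAdj G F' → AllAdj G (((a, n) :: F) ++ ((a, n') :: F')) := by
    intro n n' F F' h h' f f' e he
    simp only [List.cons_append, List.mem_cons, List.mem_append] at he
    rcases he with rfl | he | rfl | he
    exacts [h, f e he, h', f' e he]
  have evn : ∀ {n n' : V} {F F' : List (V × V)}, (∀ w, bd F w = ind (n = w) + ind (c = w)) →
      (∀ w, bd F' w = ind (n' = w) + ind (c = w)) →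
      ∀ w, bd (((a, n) :: F) ++ ((a, n') :: F')) w = 0 := by
    intro n n' F F' b b' w
    have e := b w
    have e' := b' w
    rw [bd_append]
    unfold bd at e e' ⊢
    simp only [List.map_cons, List.sum_cons, e, e']
    have z1 := z2_add_self (ind (a = w))
    have z2 := z2_add_self (ind (n = w))
    have z3 := z2_add_self (ind (n' = w))
    have z4 := z2_add_self (ind (c = w))
    linear_combination z1 + z2 + z3 + z4
  have off : ∀ {n n' : V} {F F' : List (V × V)} {A A' : Set V}, n ∈ A → n' ∈ A' →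
      (∀ e ∈ F, e.1 ∈ A ∧ e.2 ∈ A) → (∀ e ∈ F', e.1 ∈ A' ∧ e.2 ∈ A') →
      ∀ v ∈ {v | v ≠ a ∧ v ∉ A ∧ v ∉ A'}, Off (((a, n) :: F) ++ ((a, n') :: F')) v := by
    intro n n' F F' A A' m m' g g' v hv e he
    obtain ⟨v1, v2, v3⟩ := hv
    simp only [List.cons_append, List.mem_cons, List.mem_append] at he
    rcases he with rfl | he | rfl | he
    · exact ⟨v1.symm, fun h => v2 (h ▸ m)⟩
    · exact ⟨fun h => v2 (h ▸ (g e he).1), fun h => v2 (h ▸ (g e he).2)⟩
    · exact ⟨v1.symm, fun h => v3 (h ▸ m')⟩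
    · exact ⟨fun h => v3 (h ▸ (g' e he).1), fun h => v3 (h ▸ (g' e he).2)⟩
  have offa : ∀ {F : List (V × V)} {A : Set V}, a ∉ A → (∀ e ∈ F, e.1 ∈ A ∧ e.2 ∈ A) →
      Off F a := fun ha g e he => ⟨fun h => ha (h ▸ (g e he).1), fun h => ha (h ▸ (g e he).2)⟩
  have m1 := c1.2
  have m2 := c2.2
  have m3 := c3.2
  have T1 := R.theta_term h1 h2 h3 (adj h2 h3 f2 f3) (evn b2 b3) (off m2 m3 g2 g3 _ q1.2)
    (offa a2 g2) (offa a3 g3)
  have T2 := R.theta_term h2 h1 h3 (adj h1 h3 f1 f3) (evn b1 b3) (off m1 m3 g1 g3 _ q2.2)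
    (offa a1 g1) (offa a3 g3)
  have T3 := R.theta_term h3 h1 h2 (adj h1 h2 f1 f2) (evn b1 b2) (off m1 m2 g1 g2 _ p3.2)
    (offa a1 g1) (offa a2 g2)
  have n12 : n1 ≠ n2 := fun e => q1.2.2.1 (e ▸ m2)
  have n13 : n1 ≠ n3 := fun e => q1.2.2.2 (e ▸ m3)
  have n23 : n2 ≠ n3 := fun e => q2.2.2.2 (e ▸ m3)
  have A := theta_arith (xi S x y a n1) (xi S x y a n2) (xi S x y a n3) (y a < y n1)
    (y a < y n2) (y a < y n3) (R.xi_tie h1 h2 n12) (R.xi_tie h1 h3 n13) (R.xi_tie h2 h3 n23)
  rw [R.pv_conn (adj h2 h3 f2 f3) (evn b2 b3) (off m2 m3 g2 g3) q1] at T1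
  rw [R.pv_conn (adj h1 h3 f1 f3) (evn b1 b3) (off m1 m3 g1 g3) q2] at T2
  rw [R.pv_conn (adj h1 h2 f1 f2) (evn b1 b2) (off m1 m2 g1 g2) p3] at T3
  have key : par S x y (((a, n1) :: F1) ++ ((a, n2) :: F2)) (x q + 1 / 2) (y q) +
      par S x y (((a, n1) :: F1) ++ ((a, n2) :: F2)) (x p + 1 / 2) (y p) = 1 := by
    rw [par_append] at T1 T2 ⊢
    have z1 := z2_add_self (par S x y F1 (x a + 1 / 2) (y a))
    have z2 := z2_add_self (par S x y F2 (x a + 1 / 2) (y a))
    have z3 := z2_add_self (par S x y F3 (x a + 1 / 2) (y a))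
    have z4 := z2_add_self (par S x y ((a, n3) :: F3) (x q + 1 / 2) (y q))
    linear_combination T1 + T2 + T3 + A + z1 + z2 + z3 - z4
  have two : ∀ u v : ZMod 2, u + v = 1 → u = 1 ∨ v = 1 := by decide
  rcases two _ _ key with k | k
  · left
    intro w hw cw
    refine R.inner_of_par (adj h1 h2 f1 f2) (evn b1 b2) hw (off m1 m2 g1 g2 _ cw.right) ?_
    rw [← R.pv_conn (adj h1 h2 f1 f2) (evn b1 b2) (off m1 m2 g1 g2) cw, k]
  · right
    intro w hw cw
    refine R.inner_of_par (adj h1 h2 f1 f2) (evn b1 b2) hw (off m1 m2 g1 g2 _ cw.right) ?_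
    rw [← R.pv_conn (adj h1 h2 f1 f2) (evn b1 b2) (off m1 m2 g1 g2) cw, k]

end Rep

end Pool.Agent.Lib.MP_ec9af3_lc.H18
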