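import Pool.Agent.Lib.MP_ec9af3_lc.H18Base
import Pool.Agent.Lib.MP_ec9af3_lc.H18Theta

namespace Pool.Agent.Lib.MP_ec9af3_lc.H18

variable {D : Lay} {x y : Vx → ℝ} {A : Set Vx}

theorem vpath {ρ lo hi : ℕ} (W : VRow D ρ) (hn : hi < D.n (ρ + 1))
    (hA : ∀ j, lo ≤ j → j ≤ hi → ((ρ + 1, j, 0) : Vx) ∈ A) {i j : ℕ} (h1 : lo ≤ i) (h2 : i ≤ hi)
    (h3 : lo ≤ j) (h4 : j ≤ hi) : Conn D.G A (ρ + 1, i, 0) (ρ + 1, j, 0) := by
  have key : ∀ j, lo ≤ j → j ≤ hi → Conn D.G A (ρ + 1, lo, 0) (ρ + 1, j, 0) := by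
    intro j h
    induction j, h using Nat.le_induction with
    | base => exact fun h => Conn.refl (hA lo le_rfl h)
    | succ j h ih =>
      intro h'
      have := Lay.adj_up (i := j) W.vr (by omega) (W.jt1 _)
      rw [W.t0] at this
      exact (ih (by omega)).trans (Conn.single this (hA j h (by omega)) (hA _ (by omega) h'))
  exact (key i h1 h2).symm.trans (key j h3 h4)

theorem bpath {σ k : ℕ} (h2 : th σ = 2) (vr : σ < D.nr) (hk : k < D.n σ) {p q : ℕ} (hp : p ≤ q)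
    (hq : q ≤ 2) (hA : ∀ r, r ≤ q → ((σ, k, r) : Vx) ∈ A) : Conn D.G A (σ, k, q) (σ, k, p) := by
  induction q, hp using Nat.le_induction with
  | base => exact Conn.refl (hA p le_rfl)
  | succ q h ih =>
    exact (Conn.single (Lay.adj_in ⟨vr, hk, by dsimp only; omega⟩).symm (hA _ le_rfl)
      (hA q (by omega))).trans (ih (by omega) fun r hr => hA r (by omega))

theorem VRow.adU {ρ k : ℕ} (W : VRow D ρ) (h1 : k < D.n ρ) (h2 : D.bk ρ k < D.n (ρ + 1)) :
    D.G.Adj (ρ, k, 0) (ρ + 1, D.bk ρ k, 0) := by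
  have := W.gU (show k < k + 1 by omega)
  have ad := Lay.adj_row (i := k) (j := D.bk ρ k) W.vr h1 h2 (by rw [W.tk1]; omega)
    (by rw [W.tk1]; omega)
  rwa [W.t0] at ad

theorem VRow.adL {ρ k j : ℕ} (W : VRow D ρ) (vr : ρ + 1 + 1 < D.nr) (h1 : k < D.n (ρ + 1 + 1))
    (h2 : j < D.n (ρ + 1)) (h3 : D.tk (ρ + 1 + 1) k ≤ j) (h4 : j < D.tk (ρ + 1 + 1) (k + 1)) :
    D.G.Adj (ρ + 1, j, 0) (ρ + 1 + 1, k, 2) := by
  have ad := Lay.adj_row (i := j) (j := k) vr h2 h1 (by rw [W.bk1]; omega) (by rw [W.bk1]; omega)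
  rwa [W.t2'] at ad

theorem descend {R lo hi : ℕ} (k : ℕ → ℕ) (W : ∀ r, r ≤ R → VRow D (2 * r + 2))
    (hk : ∀ r, r ≤ R → k r < D.n (2 * r + 2) ∧ (∀ p, p ≤ 2 → ((2 * r + 2, k r, p) : Vx) ∈ A) ∧
      lo ≤ D.bk (2 * r + 2) (k r) ∧ D.bk (2 * r + 2) (k r) ≤ hi ∧ hi < D.n (2 * r + 2 + 1) ∧
      ∀ j, lo ≤ j → j ≤ hi → ((2 * r + 2 + 1, j, 0) : Vx) ∈ A)
    (hl : ∀ r, r < R → ∃ j, lo ≤ j ∧ j ≤ hi ∧ D.tk (2 * r + 2 + 1 + 1) (k (r + 1)) ≤ j ∧
      j < D.tk (2 * r + 2 + 1 + 1) (k (r + 1) + 1)) :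
    ∀ r, r ≤ R → ∀ j, lo ≤ j → j ≤ hi → Conn D.G A (2, k 0, 2) (2 * r + 2 + 1, j, 0) := by
  have one : ∀ r, r ≤ R → ∀ j, lo ≤ j → j ≤ hi →
      Conn D.G A (2 * r + 2, k r, 2) (2 * r + 2 + 1, j, 0) := by
    intro r hr j h1 h2
    obtain ⟨a, b, c, d, e, f⟩ := hk r hr
    have V := W r hr
    exact ((bpath V.t2 (by have := V.vr; omega) a (Nat.zero_le _) le_rfl b).trans
      (Conn.single (V.adU a (by omega)) (b 0 (by omega)) (f _ c d))).trans
      (vpath V e f c d h1 h2)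
  intro r
  induction r with
  | zero => exact one 0
  | succ r ih =>
    intro hr j h1 h2
    obtain ⟨i, a, b, c, d⟩ := hl r hr
    obtain ⟨a', b', -⟩ := hk (r + 1) hr
    obtain ⟨-, -, -, -, e, f⟩ := hk r (by omega)
    have V := W r (by omega)
    have V' := W (r + 1) hr
    exact ((ih (by omega) i a b).trans (Conn.single (V.adL (by have := V'.vr; omega) a'
      (by omega) c d) (f i a b) (b' 2 le_rfl))).trans (one (r + 1) hr j h1 h2)

/-- A frame: a column of the layered graph along which a cycle is closed. -/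
structure Frame (D : Lay) (R κ J H : ℕ) (K : ℕ → ℕ) : Prop where
  wall : Wall D
  vrow : ∀ r, r ≤ R → VRow D (2 * r + 2)
  r1 : 1 ≤ R
  k1 : 1 ≤ κ
  k0 : K 0 = κ + 2
  kn : κ + 2 < D.n 0
  kK : ∀ r, r ≤ R → 1 < K r ∧ K r + 1 < D.n (2 * r + 2)
  u0 : ∀ r, r ≤ R → D.bk (2 * r + 2) 0 = 0
  uK : ∀ r, r ≤ R → D.bk (2 * r + 2) (K r) = J ∧ D.bk (2 * r + 2) (K r + 1) ≤ H ∧
    H < D.n (2 * r + 2 + 1)
  l0 : ∀ r, r < R → D.tk (2 * r + 2 + 1 + 1) 0 = 0
  lK : ∀ r, r < R → D.tk (2 * r + 2 + 1 + 1) (K (r + 1)) ≤ J ∧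
    J < D.tk (2 * r + 2 + 1 + 1) (K (r + 1) + 1) ∧ D.tk (2 * r + 2 + 1 + 1) (K (r + 1) + 1) ≤ H

theorem Frame.inner {R κ J H : ℕ} {K : ℕ → ℕ} (F : Frame D R κ J H K) (Rp : Rep D.S D.G x y) :
    (∀ i p, 0 < i → i ≤ κ → p ≤ 1 → Inner D.S x y (1, i, p)) ∧
    (∀ r k p, r ≤ R → 0 < k → k < K r → p ≤ 2 → Inner D.S x y (2 * r + 2, k, p)) ∧
    (∀ r j, r < R → 0 < j → j < J → Inner D.S x y (2 * r + 2 + 1, j, 0)) := by
  have W := F.wall
  have := W.vr; have := W.n1; have := W.n2; have := F.r1; have := F.k1; have := F.k0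
  have := F.kn
  let pos : ℕ → ℕ := fun ρ => if ρ = 1 then κ + 1 else if ρ % 2 = 0 then K (ρ / 2 - 1) else J
  have p1 : pos 1 = κ + 1 := rfl
  have pA : ∀ r, pos (2 * r + 2) = K r := fun r => by
    simp only [pos]
    rw [if_neg (by omega), if_pos (by omega), show (2 * r + 2) / 2 - 1 = r by omega]
  have p2 : pos 2 = κ + 2 := (pA 0).trans F.k0
  have pV : ∀ r, pos (2 * r + 2 + 1) = J := fun r => by
    simp only [pos]
    rw [if_neg (by omega), if_neg (by omega)]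
  have JH : 1 < J ∧ J < H := by
    have V := F.vrow 0 (by omega)
    have a := F.uK 0 (by omega)
    have b := V.gU.id_le (K 0)
    have c := V.gU (show K 0 < K 0 + 1 by omega)
    simp only [id] at b
    omega
  let A1 : Set Vx := {v | (v.1 = 0 ∧ v.2.1 ≤ κ) ∨ (v.1 = 1 ∧ v.2.1 ≤ κ ∧ v.2.2 = 2) ∨ v.2.1 = 0 ∨
    (v.1 = 2 * R + 2 + 1 ∧ v.2.1 ≤ J)}
  let A2 : Set Vx := {v | 1 ≤ v.1 ∧ v.2.1 = pos v.1 ∧ ¬ (v.1 = 1 ∧ v.2.2 = 2)}
  let A3 : Set Vx := {v | (v.1 = 0 ∧ κ + 1 ≤ v.2.1) ∨ (1 ≤ v.1 ∧ pos v.1 < v.2.1) ∨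
    (v.1 = 2 * R + 2 + 1 ∧ v.2.1 = J)}
  have m1 : ∀ a b c, ((a, b, c) : Vx) ∈ A1 ↔ (a = 0 ∧ b ≤ κ) ∨ (a = 1 ∧ b ≤ κ ∧ c = 2) ∨ b = 0 ∨
    (a = 2 * R + 2 + 1 ∧ b ≤ J) := fun _ _ _ => Iff.rfl
  have m2 : ∀ a b c, ((a, b, c) : Vx) ∈ A2 ↔ 1 ≤ a ∧ b = pos a ∧ ¬ (a = 1 ∧ c = 2) :=
    fun _ _ _ => Iff.rfl
  have m3 : ∀ a b c, ((a, b, c) : Vx) ∈ A3 ↔ (a = 0 ∧ κ + 1 ≤ b) ∨ (1 ≤ a ∧ pos a < b) ∨
    (a = 2 * R + 2 + 1 ∧ b = J) := fun _ _ _ => Iff.rfl
  have mI : ∀ (P Q : Set Vx) a b c, ((a, b, c) : Vx) ∈ {v : Vx | v ≠ (1, κ + 1, 2) ∧ v ∉ P ∧ v ∉ Q} ↔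
      ¬ (a = 1 ∧ b = κ + 1 ∧ c = 2) ∧ (a, b, c) ∉ P ∧ (a, b, c) ∉ Q := fun P Q a b c => by
    simp
  have aW : ∀ i p, i ≤ D.n 0 → p ≤ 1 → D.G.Adj (1, i, p) (1, i, p + 1) := fun i p h h' =>
    Lay.adj_in ⟨by dsimp only; omega, by dsimp only; omega, by simp [th1]; omega⟩
  have c1 : Conn D.G A1 (0, κ, 0) (2 * R + 2 + 1, J, 0) := by
    have z : ∀ i, i ≤ κ → Conn D.G A1 (0, i, 0) (1, 0, 2) := by
      intro i
      induction i with
      | zero =>
        exact fun _ => Conn.single (W.a01 (by omega) (Or.inl rfl)) (by simp [m1]) (by simp [m1])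
      | succ i ih =>
        intro h
        exact ((Conn.single (W.a01 (by omega) (Or.inl rfl)) (by rw [m1]; omega)
          (by rw [m1]; omega)).trans (Conn.single (W.a01 (by omega) (Or.inr rfl)).symm
          (by rw [m1]; omega) (by rw [m1]; omega))).trans (ih (by omega))
    have d := descend (A := A1) (lo := 0) (hi := 0) (fun _ => 0) F.vrow
      (fun r hr => ⟨by have := F.kK r hr; omega, fun p _ => by simp [m1], le_rfl.trans
        (Nat.zero_le _), (F.u0 r hr).le, by have := F.uK r hr; omega, fun j _ h => by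
          rw [m1]; omega⟩)
      (fun r hr => ⟨0, le_rfl, le_rfl, (F.l0 r hr).le, by
        have := (F.vrow r hr.le).gL (show 0 < 0 + 1 by omega); omega⟩) R le_rfl 0 le_rfl le_rfl
    exact ((((z κ le_rfl).trans (bpath th1 (by omega) (by omega) (Nat.zero_le _) le_rfl
      fun r _ => by simp [m1])).trans (Conn.single (W.a12 (by omega) (Or.inl rfl)) (by simp [m1])
        (by simp [m1]))).trans d).trans (vpath (lo := 0) (hi := J) (F.vrow R le_rfl)
        (by have := F.uK R le_rfl; omega) (fun j _ h => by rw [m1]; omega) le_rfl (by omega)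
        (by omega) le_rfl)
  have c2 : Conn D.G A2 (1, κ + 1, 1) (2 * R + 2 + 1, J, 0) := by
    have d := descend (A := A2) (lo := J) (hi := J) K F.vrow
      (fun r hr => ⟨by have := F.kK r hr; omega, fun p _ => by rw [m2, pA]; omega,
        (F.uK r hr).1.ge, (F.uK r hr).1.le, by have := F.uK r hr; omega, fun j h h' => by
          rw [m2, pV]; omega⟩)
      (fun r hr => ⟨J, le_rfl, le_rfl, (F.lK r hr).1, (F.lK r hr).2.1⟩) R le_rfl J le_rfl le_rfl
    rw [F.k0] at d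
    exact ((Conn.single (aW _ 0 (by omega) (by omega)).symm (by rw [m2, p1]; omega)
      (by rw [m2, p1]; omega)).trans (Conn.single (W.a12 (by omega) (Or.inr rfl))
      (by rw [m2, p1]; omega) (by rw [m2, p2]; omega))).trans d
  have c3 : Conn D.G A3 (0, κ + 1, 0) (2 * R + 2 + 1, J, 0) := by
    have d := descend (A := A3) (lo := J + 1) (hi := H) (fun r => K r + 1) F.vrow
      (fun r hr => ⟨(F.kK r hr).2, fun p _ => by rw [m3, pA]; omega, by
        have := (F.vrow r hr).gU (show K r < K r + 1 by omega)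
        have := F.uK r hr
        omega, (F.uK r hr).2.1, (F.uK r hr).2.2, fun j h h' => by rw [m3, pV]; omega⟩)
      (fun r hr => ⟨_, (F.lK r hr).2.1, (F.lK r hr).2.2, le_rfl,
        (F.vrow r hr.le).gL (by omega)⟩) R le_rfl (J + 1) le_rfl (by omega)
    rw [F.k0] at d
    exact ((((Conn.single (W.a01 (by omega) (Or.inr rfl)) (by rw [m3]; omega)
      (by rw [m3, p1]; omega)).trans (bpath th1 (by omega) (by omega) (Nat.zero_le _) le_rfl
      fun r _ => by rw [m3, p1]; omega)).trans (Conn.single (W.a12 (by omega) (Or.inr rfl))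
      (by rw [m3, p1]; omega) (by rw [m3, p2]; omega))).trans d).trans
      (vpath (lo := J) (hi := J + 1) (F.vrow R le_rfl)
        (by have := F.uK R le_rfl; omega) (fun j _ h => by rw [m3, pV]; omega) (by omega) le_rfl
        le_rfl (by omega))
  have T := Rp.theta (a := (1, κ + 1, 2)) (q := (1, κ, 1)) (p := (0, κ + 1, 0))
    (W.a01 (i := κ) (by omega) (Or.inr rfl)).symm (aW _ 1 (by omega) le_rfl).symm
    (W.a01 (i := κ + 1) (by omega) (Or.inl rfl)).symm c1 c2 c3 (by rw [m1]; omega)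
    (by rw [m2]; omega) (by rw [m3, p1]; omega)
    ((Conn.single (W.a01 (by omega) (Or.inl rfl)) (by rw [mI, m2, m3]; omega)
      (by rw [mI, m2, m3, p1]; omega)).trans (Conn.single (aW _ 1 (by omega) le_rfl).symm
      (by rw [mI, m2, m3, p1]; omega) (by rw [mI, m2, m3, p1]; omega)))
    ((((Conn.single (aW _ 0 (by omega) (by omega)).symm (by rw [mI, m1, m3, p1]; omega)
      (by rw [mI, m1, m3, p1]; omega)).trans (Conn.single (W.a12 (by omega) (Or.inl rfl))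
      (by rw [mI, m1, m3, p1]; omega) (by rw [mI, m1, m3, p2]; omega))).trans
      (Conn.single (W.a12 (by omega) (Or.inr rfl)).symm (by rw [mI, m1, m3, p2]; omega)
      (by rw [mI, m1, m3, p1]; omega))).trans (Conn.single (aW _ 0 (by omega) (by omega))
      (by rw [mI, m1, m3, p1]; omega) (by rw [mI, m1, m3, p1]; omega)))
    (Conn.refl (by rw [mI, m1, m2]; omega))
  set I : Set Vx := {v : Vx | v ≠ (1, κ + 1, 2) ∧ v ∉ A1 ∧ v ∉ A2} with hI
  rcases T with T | T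
  swap
  · exfalso
    have e1 : Conn D.G I (0, κ + 1, 0) (1, κ + 1 + 1, 2) :=
      Conn.single (W.a01 (by omega) (Or.inr rfl)) (by rw [mI, m1, m2]; omega)
        (by rw [mI, m1, m2, p1]; omega)
    have e2 : Conn D.G I (0, κ + 1, 0) (0, κ + 1 + 1, 0) :=
      e1.trans (Conn.single (W.a01 (by omega) (Or.inl rfl)).symm (by rw [mI, m1, m2, p1]; omega)
        (by rw [mI, m1, m2]; omega))
    have e3 : ∀ p, p ≤ 2 → Conn D.G I (0, κ + 1, 0) (1, κ + 1 + 1, p) := fun p hp =>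
      e1.trans (bpath th1 (by omega) (by omega) hp le_rfl
        fun r _ => by rw [mI, m1, m2, p1]; omega)
    have e4 : Conn D.G I (0, κ + 1, 0) (2, κ + 1 + 1 + 1, 1) :=
      ((e3 0 (by omega)).trans (Conn.single (W.a12 (by omega) (Or.inr rfl))
        (by rw [mI, m1, m2, p1]; omega) (by rw [mI, m1, m2, p2]; omega))).trans
        (bpath th2 (by omega) (by omega) (by omega) le_rfl
          fun r _ => by rw [mI, m1, m2, p2]; omega)
    have e5 : Conn D.G I (0, κ + 1, 0) (1, κ + 1 + 1 + 1, 1) :=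
      (e2.trans (Conn.single (W.a01 (by omega) (Or.inr rfl)) (by rw [mI, m1, m2]; omega)
        (by rw [mI, m1, m2, p1]; omega))).trans
        (bpath th1 (by omega) (by omega) (by omega) le_rfl
          fun r _ => by rw [mI, m1, m2, p1]; omega)
    exact W.not_inner Rp (i := κ + 1 + 1) (by omega)
      (T _ (memS (by omega) (by omega) (by simp [th1])) (e3 1 (by omega)))
      (T _ (memS (by omega) (by omega) (by simp [th2])) e4)
      (T _ (memS (by omega) (by omega) (by simp [th1])) e5)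
      (T _ (memS (by omega) (by omega) (by simp)) e2)
  have mm : ∀ i p, 0 < i → i ≤ κ → p ≤ 1 → ((1, i, p) : Vx) ∈ I := by
    intro i p h1 h2 h3
    rw [mI, m1, m2, p1]; omega
  have mA : ∀ r k p, r ≤ R → 0 < k → k < K r → ((2 * r + 2, k, p) : Vx) ∈ I := by
    intro r k p h1 h2 h3
    rw [mI, m1, m2, pA]; omega
  have mV : ∀ r j, r < R → 0 < j → j < J → ((2 * r + 2 + 1, j, 0) : Vx) ∈ I := by
    intro r j h1 h2 h3
    rw [mI, m1, m2, pV]; omega
  have bU : ∀ r k, r ≤ R → 0 < k → k < K r →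
      1 ≤ D.bk (2 * r + 2) k ∧ D.bk (2 * r + 2) k ≤ J - 1 := by
    intro r k h1 h2 h3
    have := (F.vrow r h1).gU h2
    have := (F.vrow r h1).gU h3
    have := F.uK r h1
    omega
  have bL : ∀ r k, r < R → 0 < k → k < K (r + 1) →
      1 ≤ D.tk (2 * r + 2 + 1 + 1) k ∧ D.tk (2 * r + 2 + 1 + 1) k ≤ J - 1 := by
    intro r k h1 h2 h3
    have := (F.vrow r h1.le).gL h2
    have := (F.vrow r h1.le).gL h3
    have := F.lK r h1
    omega
  have d := descend (A := I) (R := R - 1) (lo := 1) (hi := J - 1) (fun _ => 1)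
    (fun r hr => F.vrow r (by omega))
    (fun r hr => ⟨by have := F.kK r (by omega); omega,
      fun p _ => mA r 1 p (by omega) (by omega) (F.kK r (by omega)).1,
      (bU r 1 (by omega) (by omega) (F.kK r (by omega)).1).1,
      (bU r 1 (by omega) (by omega) (F.kK r (by omega)).1).2,
      by have := F.uK r (by omega); omega, fun j h h' => mV r j (by omega) h (by omega)⟩)
    (fun r hr => ⟨_, (bL r 1 (by omega) (by omega) (F.kK _ (by omega)).1).1,
      (bL r 1 (by omega) (by omega) (F.kK _ (by omega)).1).2, le_rfl,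
      (F.vrow r (by omega)).gL (by omega)⟩)
  have dA : ∀ r k p, r ≤ R → 0 < k → k < K r → p ≤ 2 → Conn D.G I (2, 1, 2) (2 * r + 2, k, p) := by
    intro r k p h1 h2 h3 h4
    have V := F.vrow r h1
    have hk := F.kK r h1
    have b2 : ∀ p, p ≤ 2 → Conn D.G I (2 * r + 2, k, 2) (2 * r + 2, k, p) := fun p hp =>
      bpath V.t2 (by have := V.vr; omega) (by omega) hp le_rfl fun q _ => mA r k q h1 h2 h3
    rcases r with _ | r
    · have := bU 0 k h1 h2 h3
      have := F.uK 0 h1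
      exact (((d 0 (by omega) _ (by omega) (by omega)).trans (Conn.single
        (V.adU (k := k) (by omega) (by omega)).symm (mV 0 _ (by omega) (by omega) (by omega))
        (mA 0 k 0 h1 h2 h3))).trans (b2 0 (by omega)).symm).trans (b2 p h4)
    · have := bL r k h1 h2 h3
      have := F.uK r (by omega)
      have V' := F.vrow r (by omega)
      exact ((d r (by omega) _ (by omega) (by omega)).trans (Conn.single
        (V'.adL (k := k) (by have := V.vr; omega) (by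
          show k < D.n (2 * (r + 1) + 2); omega) (by omega) le_rfl (V'.gL (by omega)))
        (mV r _ (by omega) (by omega) (by omega)) (mA (r + 1) k 2 h1 h2 h3))).trans (b2 p h4)
  have dW : ∀ i p, 0 < i → i ≤ κ → p ≤ 1 → Conn D.G I (2, 1, 2) (1, i, p) := by
    intro i p h1 h2 h3
    exact ((dA 0 i 2 (by omega) h1 (by omega) le_rfl).trans (Conn.single
      (W.a12 (by omega) (Or.inl rfl)).symm (mA 0 i 2 (by omega) h1 (by omega))
      (mm i 0 h1 h2 (by omega)))).trans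
      ((bpath th1 (by omega) (by omega) (Nat.zero_le _) (by omega)
        fun r hr => mm i r h1 h2 (by omega)).symm)
  have q := (dW κ 1 (by omega) le_rfl le_rfl).symm
  refine ⟨fun i p h1 h2 h3 => T _ (memS (by omega) (by omega) (by rw [th1]; omega))
    (q.trans (dW i p h1 h2 h3)), fun r k p h1 h2 h3 h4 => T _ (memS ?_ ?_ ?_)
    (q.trans (dA r k p h1 h2 h3 h4)), fun r j h1 h2 h3 => T _ (memS (F.vrow r h1.le).vr ?_
      (Nat.zero_le _)) (q.trans (d r (by omega) j h2 (by omega)))⟩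
  · have := (F.vrow r h1).vr; omega
  · have := F.kK r h1; omega
  · rwa [(F.vrow r h1).t2]
  · have := F.uK r h1.le; omega

end Pool.Agent.Lib.MP_ec9af3_lc.H18
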