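import Pool.Agent.Lib.MP_ec9af3_lc.H18Inner

namespace Pool.Agent.Lib.MP_ec9af3_lc.H18

def upK : List ℕ := [9, 9, 9, 0, 1, 2, 3, 3, 4, 4, 5, 6, 7, 8]

def loK : List ℕ := [0, 1, 2, 3, 3, 3, 3, 4, 5, 6, 7, 8, 7, 8]

def tJ : List (List ℕ) :=
  [[0, 2, 2, 2, 2, 2, 2, 2, 2],
   [2, 2, 2, 2, 2, 2, 2, 2, 2],
   [2, 2, 2, 2, 2, 2, 2, 0, 0],
   [0, 2, 2, 2, 2, 0, 0, 0, 0],
   [0, 0, 1, 2, 2, 0, 0, 0, 0],
   [0, 0, 2, 2, 1, 0, 0, 0, 0],
   [0, 0, 0, 2, 2, 1, 0, 0, 0],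
   [0, 0, 2, 2, 2, 2, 0, 0, 0],
   [0, 0, 0, 2, 2, 2, 2, 0, 0],
   [0, 0, 0, 0, 0, 0, 0, 0]]

def tU : List (List ℕ) :=
  [[0, 2, 4, 6, 8, 10, 12, 16],
   [0, 3, 5, 7, 9, 11, 13, 16],
   [0, 3, 5, 7, 9, 11, 14, 16],
   [0, 1, 4, 6, 8, 10, 12, 14, 16],
   [0, 1, 4, 6, 8, 10, 12, 14, 16],
   [0, 1, 4, 6, 8, 10, 11, 14, 16],
   [0, 1, 3, 5, 8, 10, 12, 14, 16],
   [0, 1, 3, 5, 8, 10, 12, 14, 16],
   [0, 2, 4, 7, 8, 10, 12, 14, 16],
   [0, 2, 4, 5, 8, 10, 12, 14, 16],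
   [0, 2, 3, 5, 7, 10, 12, 14, 16],
   [0, 2, 4, 5, 7, 9, 12, 14, 16],
   [0, 2, 3, 5, 7, 10, 12, 14, 16],
   [0, 2, 4, 5, 7, 9, 12, 14, 16]]

def tL : List (List ℕ) :=
  [[1, 2, 4, 6, 8, 10, 12, 14],
   [2, 3, 5, 7, 9, 11, 13, 15],
   [2, 3, 5, 7, 9, 11, 12, 15],
   [1, 2, 4, 6, 8, 10, 12, 14],
   [1, 2, 4, 6, 8, 10, 12, 14],
   [1, 2, 4, 6, 8, 10, 13, 15],
   [1, 3, 5, 8, 9, 11, 13, 15],
   [1, 3, 5, 8, 9, 11, 13, 15],
   [1, 3, 4, 7, 9, 11, 13, 15],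
   [1, 3, 5, 8, 9, 11, 13, 15],
   [1, 3, 5, 7, 10, 11, 13, 15],
   [1, 3, 5, 7, 9, 12, 13, 15],
   [1, 3, 5, 7, 10, 11, 13, 15],
   [1, 3, 5, 7, 9, 12, 13, 15]]


def tb (t : List (List ℕ)) (a b : ℕ) : ℕ := (t.getD a []).getD b 0

def wd (r : ℕ) : ℕ := if r = 0 then 7 else 8

/-- Parameters: number of rows, number of groups of cells, sign and literal row of each cell. -/
structure Par where
  R : ℕ
  G : ℕ
  P : ℕ → ℕ
  L : ℕ → ℕ

namespace Par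

variable (p : Par)

def vk (r u : ℕ) : ℕ :=
  if r = 0 then u % 3 else if r = 1 then 3 + u % 3 else if r + 1 < p.L u then 6
  else if r + 1 = p.L u then 7 else if r = p.L u then 8 + p.P u
  else if r = p.L u + 1 then 10 + p.P u else 12 + p.P u

def jA (r k : ℕ) : ℕ := tb tJ (upK.getD (p.vk r (k / wd r)) 0) (k % wd r)

def gU (r k : ℕ) : ℕ := 16 * (k / wd r) + tb tU (p.vk r (k / wd r)) (k % wd r)

def gL (r k : ℕ) : ℕ :=
  if k = 0 then 0 else 16 * ((k - 1) / 8) + tb tL (p.vk r ((k - 1) / 8)) ((k - 1) % 8)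

def lay : Lay where
  nr := 2 * p.R + 4
  n ρ := if ρ = 0 then 21 * p.G - 2 else if ρ = 1 then 21 * p.G - 1 else if ρ = 2 then 21 * p.G
    else if ρ % 2 = 0 then 24 * (p.G + (ρ - 2) / 2) else 48 * (p.G + (ρ - 2) / 2)
  jt ρ i := if ρ ≤ 1 then 0 else if ρ % 2 = 1 then 1 else p.jA ((ρ - 2) / 2) i
  bk ρ i := if ρ ≤ 1 then 2 * i + 1 else if ρ % 2 = 1 then i else p.gU ((ρ - 2) / 2) i
  tk ρ i := if ρ ≤ 2 then 2 * i else if ρ % 2 = 1 then i else p.gL ((ρ - 4) / 2) i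

structure Ok : Prop where
  P1 : ∀ u, p.P u ≤ 1
  L3 : ∀ u, 3 ≤ p.L u
  G2 : 2 ≤ p.G
  R1 : 1 ≤ p.R

theorem nA (r : ℕ) : p.lay.n (2 * r + 2) = wd r * (3 * (p.G + r)) := by
  simp only [lay, wd]
  split_ifs <;> first | contradiction | omega

theorem nV (r : ℕ) : p.lay.n (2 * r + 2 + 1) = 48 * (p.G + r) := by
  simp only [lay]
  split_ifs <;> first | contradiction | omega

theorem jtA (r k : ℕ) : p.lay.jt (2 * r + 2) k = p.jA r k := by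
  simp only [lay]
  rw [if_neg (by omega), if_neg (by omega), show (2 * r + 2 - 2) / 2 = r by omega]

theorem bkA (r : ℕ) : p.lay.bk (2 * r + 2) = p.gU r := by
  funext k
  simp only [lay]
  rw [if_neg (by omega), if_neg (by omega), show (2 * r + 2 - 2) / 2 = r by omega]

theorem tkA (r : ℕ) : p.lay.tk (2 * r + 2 + 1 + 1) = p.gL r := by
  funext k
  simp only [lay]
  rw [if_neg (by omega), if_neg (by omega), show (2 * r + 2 + 1 + 1 - 4) / 2 = r by omega]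

theorem jtV (r k : ℕ) : p.lay.jt (2 * r + 2 + 1) k = 1 := by
  simp only [lay]
  rw [if_neg (by omega), if_pos (by omega)]

theorem bkV (r k : ℕ) : p.lay.bk (2 * r + 2 + 1) k = k := by
  simp only [lay]
  rw [if_neg (by omega), if_pos (by omega)]

theorem tkV (r k : ℕ) : p.lay.tk (2 * r + 2 + 1) k = k := by
  simp only [lay]
  rw [if_neg (by omega), if_pos (by omega)]

theorem thA (r : ℕ) : th (2 * r + 2) = 2 := by
  unfold th
  rw [if_pos (by omega)]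

theorem thV (r : ℕ) : th (2 * r + 2 + 1) = 0 := by
  unfold th
  rw [if_neg (by omega)]

/-- Width of a cell in the row above a staircase of kind `v`. -/
def wv (v : ℕ) : ℕ := if v < 3 then 7 else 8

variable {p}

theorem Ok.vk_lt (h : p.Ok) (r u : ℕ) : p.vk r u < 14 ∧ wv (p.vk r u) = wd r ∧
    (p.vk r u < 6 → p.vk r u % 3 = u % 3) ∧ (2 ≤ r ↔ 6 ≤ p.vk r u) ∧ (r = 0 ↔ p.vk r u < 3) := by
  have := h.P1 u
  unfold vk wv wd
  split_ifs <;> omega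

theorem Ok.kind (h : p.Ok) (r u : ℕ) :
    upK.getD (p.vk (r + 1) u) 0 = loK.getD (p.vk r u) 0 := by
  have h1 := h.P1 u
  have h2 := h.L3 u
  have h3 : u % 3 < 3 := Nat.mod_lt _ (by omega)
  unfold vk
  generalize p.P u = a at *
  generalize u % 3 = b at *
  split_ifs <;> first | contradiction | omega | (interval_cases a <;> interval_cases b <;> rfl)

theorem wd_pos (r : ℕ) : 0 < wd r := by unfold wd; split_ifs <;> omega

theorem cell (r k : ℕ) : ∃ u i, i < wd r ∧ k = wd r * u + i :=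
  ⟨k / wd r, k % wd r, Nat.mod_lt _ (wd_pos r), (Nat.div_add_mod k _).symm⟩

theorem cell_div {w u i : ℕ} (h : i < w) : (w * u + i) / w = u ∧ (w * u + i) % w = i := by
  constructor
  · rw [Nat.mul_add_div (by omega), Nat.div_eq_of_lt h, add_zero]
  · rw [Nat.mul_add_mod, Nat.mod_eq_of_lt h]

theorem tabA : ∀ v < 14, tb tU v 0 = 0 ∧ tb tU v (wv v) = 16 ∧ 1 ≤ tb tL v 0 ∧ tb tL v 7 ≤ 15 ∧
    tb tJ (loK.getD v 0) 1 ≠ 1 := by
  decide +kernel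

theorem tabB : ∀ v < 14, ∀ i < wv v, tb tU v i < tb tU v (i + 1) ∧ tb tJ (upK.getD v 0) i ≤ 2 := by
  decide +kernel

theorem tabC : ∀ v < 14, ∀ i < wv v, tb tU v (i + 1) ≠ tb tU v i + 1 ∨
    tb tJ (upK.getD v 0) i = 1 ∨ tb tJ (upK.getD v 0) (i + 1) = 2 := by
  decide +kernel

theorem tabD : ∀ v < 14, ∀ i < 7, tb tL v i < tb tL v (i + 1) ∧ (tb tL v (i + 1) ≠ tb tL v i + 1 ∨
    tb tJ (loK.getD v 0) (i + 1) = 2 ∨ tb tJ (loK.getD v 0) (i + 1 + 1) = 1) := by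
  decide +kernel

theorem tabE : ∀ v < 14, (v < 6 ∧ v % 3 ≠ 2) ∨ (tb tJ (upK.getD v 0) (wv v) = 0 ∧
    tb tJ (upK.getD v 0) (wv v - 1) = 0 ∧ tb tU v (wv v - 1) = 14 ∧ tb tL v 7 = 15) := by
  decide +kernel

theorem tab2 : ∀ v < 14, ∀ v' < 14, (v < 6 ∧ 6 ≤ v') ∨ (v' < 6 ∧ 6 ≤ v) ∨ (v < 3 ∧ 3 ≤ v') ∨
    (v' < 3 ∧ 3 ≤ v) ∨ (v < 6 ∧ v' % 3 ≠ (v % 3 + 1) % 3) ∨
    tb tJ (upK.getD v 0) (wv v) = tb tJ (upK.getD v' 0) 0 := by
  decide +kernel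

theorem Ok.next (h : p.Ok) (r u : ℕ) : (6 ≤ p.vk r u ↔ 6 ≤ p.vk r (u + 1)) ∧
    (p.vk r u < 3 ↔ p.vk r (u + 1) < 3) ∧
    (p.vk r u < 6 → p.vk r (u + 1) % 3 = (p.vk r u % 3 + 1) % 3) := by
  have a := h.vk_lt r u
  have b := h.vk_lt r (u + 1)
  omega

theorem Ok.jA_eq (h : p.Ok) (r u : ℕ) {i : ℕ} (hi : i ≤ wd r) :
    p.jA r (wd r * u + i) = tb tJ (upK.getD (p.vk r u) 0) i := by
  unfold jA
  rcases hi.eq_or_lt with rfl | hi
  · rw [← Nat.mul_succ, Nat.mul_div_cancel_left _ (wd_pos r), Nat.mul_mod_right,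
      ← (h.vk_lt r u).2.1]
    have a := tab2 _ (h.vk_lt r u).1 _ (h.vk_lt r (u + 1)).1
    have b := h.next r u
    rw [Nat.succ_eq_add_one]
    omega
  · rw [(cell_div hi).1, (cell_div hi).2]

theorem Ok.jA_lo (h : p.Ok) (r u : ℕ) {i : ℕ} (hi : i ≤ 8) :
    p.jA (r + 1) (8 * u + i) = tb tJ (loK.getD (p.vk r u) 0) i := by
  rw [← h.kind]
  exact h.jA_eq (r + 1) u hi

theorem Ok.gU_eq (h : p.Ok) (r u : ℕ) {i : ℕ} (hi : i ≤ wd r) :
    p.gU r (wd r * u + i) = 16 * u + tb tU (p.vk r u) i := by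
  unfold gU
  rcases hi.eq_or_lt with rfl | hi
  · rw [← Nat.mul_succ, Nat.mul_div_cancel_left _ (wd_pos r), Nat.mul_mod_right,
      ← (h.vk_lt r u).2.1, (tabA _ (h.vk_lt r u).1).2.1, (tabA _ (h.vk_lt r _).1).1]
    omega
  · rw [(cell_div hi).1, (cell_div hi).2]

theorem gL_eq (r u : ℕ) {i : ℕ} (hi : i < 8) :
    p.gL r (8 * u + i + 1) = 16 * u + tb tL (p.vk r u) i := by
  unfold gL
  rw [if_neg (by omega), Nat.add_sub_cancel, (cell_div hi).1, (cell_div hi).2]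

theorem Ok.jA_le (h : p.Ok) (r k : ℕ) : p.jA r k ≤ 2 := by
  obtain ⟨u, i, hi, rfl⟩ := cell r k
  rw [h.jA_eq r u hi.le]
  exact (tabB _ (h.vk_lt r u).1 i (by rwa [(h.vk_lt r u).2.1])).2

theorem Ok.gU_mono (h : p.Ok) (r : ℕ) : StrictMono (p.gU r) := by
  refine strictMono_nat_of_lt_succ fun k => ?_
  obtain ⟨u, i, hi, rfl⟩ := cell r k
  rw [h.gU_eq r u hi.le, add_assoc, h.gU_eq r u (i := i + 1) hi]
  have := (tabB _ (h.vk_lt r u).1 i (by rwa [(h.vk_lt r u).2.1])).1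
  omega

theorem Ok.fibU (h : p.Ok) (r k : ℕ) (e : p.gU r (k + 1) = p.gU r k + 1) :
    p.jA r k = 1 ∨ p.jA r (k + 1) = 2 := by
  obtain ⟨u, i, hi, rfl⟩ := cell r k
  rw [h.gU_eq r u hi.le, add_assoc, h.gU_eq r u (i := i + 1) hi] at e
  rw [h.jA_eq r u hi.le, add_assoc, h.jA_eq r u (i := i + 1) hi]
  exact (tabC _ (h.vk_lt r u).1 i (by rwa [(h.vk_lt r u).2.1])).resolve_left (by omega)

theorem Ok.gL_step (h : p.Ok) (r k : ℕ) : p.gL r k < p.gL r (k + 1) ∧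
    (1 ≤ k → p.gL r (k + 1) = p.gL r k + 1 → p.jA (r + 1) k = 2 ∨ p.jA (r + 1) (k + 1) = 1) := by
  rcases k with _ | k
  · have a : p.gL r (0 + 1) = _ := gL_eq (p := p) r 0 (i := 0) (by omega)
    have b := (tabA _ (h.vk_lt r 0).1).2.2.1
    have c : p.gL r 0 = 0 := rfl
    omega
  obtain ⟨u, i, hi, rfl⟩ : ∃ u i, i < 8 ∧ k = 8 * u + i := ⟨k / 8, k % 8, by omega, by omega⟩
  have t := tabA _ (h.vk_lt r u).1
  rw [gL_eq r u hi]
  by_cases e : i = 7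
  · subst e
    rw [show 8 * u + 7 + 1 + 1 = 8 * (u + 1) + 0 + 1 by omega, gL_eq r (u + 1) (i := 0) (by omega)]
    have := (tabA _ (h.vk_lt r (u + 1)).1).2.2.1
    omega
  · have t' := tabD _ (h.vk_lt r u).1 i (by omega)
    rw [show 8 * u + i + 1 + 1 = 8 * u + (i + 1) + 1 by omega, gL_eq r u (i := i + 1) (by omega),
      show 8 * u + (i + 1) + 1 = 8 * u + (i + 1 + 1) by omega, add_assoc (8 * u),
      h.jA_lo r u (i := i + 1) (by omega), h.jA_lo r u (i := i + 1 + 1) (by omega)]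
    exact ⟨by omega, fun _ e => t'.2.resolve_left (by omega)⟩

theorem Ok.gL_mono (h : p.Ok) (r : ℕ) : StrictMono (p.gL r) :=
  strictMono_nat_of_lt_succ fun k => (h.gL_step r k).1

theorem Ok.gU_cell (h : p.Ok) (r u : ℕ) : p.gU r (wd r * u) = 16 * u := by
  have := h.gU_eq r u (Nat.zero_le _)
  rwa [(tabA _ (h.vk_lt r u).1).1] at this

/-- The regular structure at the boundary of two cells. -/
theorem Ok.anchor (h : p.Ok) {r u : ℕ} (h1 : 1 ≤ u) (h2 : 2 ≤ r ∨ u % 3 = 0) :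
    p.jA r (wd r * u) = 0 ∧ p.jA r (wd r * u - 1) = 0 ∧ p.gU r (wd r * u - 1) + 2 = 16 * u ∧
      p.gL r (8 * u) + 1 = 16 * u := by
  obtain ⟨u, rfl⟩ : ∃ v, u = v + 1 := ⟨u - 1, by omega⟩
  have a := h.vk_lt r u
  have t := (tabE _ a.1).resolve_left (by omega)
  have w := wd_pos r
  rw [a.2.1] at t
  rw [Nat.mul_succ, show wd r * u + wd r - 1 = wd r * u + (wd r - 1) by omega,
    h.jA_eq r u le_rfl, h.jA_eq r u (i := wd r - 1) (by omega),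
    h.gU_eq r u (i := wd r - 1) (by omega), show 8 * (u + 1) = 8 * u + 7 + 1 by omega,
    gL_eq r u (i := 7) (by omega)]
  omega

theorem Ok.gL_next (h : p.Ok) (r u : ℕ) :
    16 * u + 1 ≤ p.gL r (8 * u + 1) ∧ p.gL r (8 * u + 1) ≤ 16 * u + 15 := by
  have a := gL_eq (p := p) r u (i := 0) (by omega)
  have b := gL_eq (p := p) r u (i := 7) (by omega)
  have t := tabA _ (h.vk_lt r u).1
  have := (h.gL_mono r).monotone (show 8 * u + 0 + 1 ≤ 8 * u + 7 + 1 by omega)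
  simp only [add_zero] at a this
  omega

theorem Ok.jA0 (h : p.Ok) (k : ℕ) : p.jA 0 k = 0 := by
  obtain ⟨u, i, hi, rfl⟩ := cell 0 k
  rw [h.jA_eq 0 u hi.le]
  have h3 : u % 3 < 3 := Nat.mod_lt _ (by omega)
  simp only [vk, if_pos, wd] at hi ⊢
  generalize u % 3 = b at *
  interval_cases b <;> interval_cases i <;> rfl

theorem Ok.wall (h : p.Ok) : Wall p.lay := by
  have := h.G2
  refine ⟨by simp only [lay]; omega, fun _ => rfl, fun _ => rfl, fun i => ?_, fun _ => rfl,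
    fun _ => rfl, fun _ => rfl, fun _ => rfl, ?_, ?_⟩
  · exact (p.jtA 0 i).trans (h.jA0 i)
  · simp only [lay]; simp; omega
  · simp only [lay]; simp; omega

theorem Ok.vrow (h : p.Ok) {r : ℕ} (hr : r ≤ p.R) : VRow p.lay (2 * r + 2) := by
  refine ⟨thA r, thV r, thA (r + 1), by simp only [lay]; omega, p.jtV r, p.tkV r, p.bkV r, ?_, ?_,
    fun k => ?_, fun k => ?_⟩
  · rw [bkA]; exact h.gU_mono r
  · rw [tkA]; exact h.gL_mono r
  · rw [jtA]; exact h.jA_le r k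
  · rw [bkA, jtA, jtA]; exact h.fibU r k

theorem Ok.frame (h : p.Ok) : Frame p.lay p.R (21 * (p.G - 1) - 2) (48 * (p.G - 1))
    (48 * (p.G - 1) + 15) (fun r => wd r * (3 * (p.G - 1))) := by
  have := h.G2
  refine ⟨h.wall, fun r => h.vrow, h.R1, by omega, by simp only [wd]; simp; omega,
    by simp only [lay]; simp; omega, fun r _ => ?_, fun r _ => ?_, fun r _ => ?_, fun r _ => ?_,
    fun r _ => ?_⟩
  · rw [nA]
    unfold wd
    split_ifs <;> omega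
  · rw [bkA]
    simpa using h.gU_cell r 0
  · rw [bkA, nV, h.gU_cell]
    have a := h.gU_mono r (show wd r * (3 * (p.G - 1)) + 1 < wd r * (3 * (p.G - 1) + 1) by
      unfold wd; split_ifs <;> omega)
    rw [h.gU_cell] at a
    omega
  · rw [tkA]; rfl
  · rw [tkA]
    have a := (h.anchor (r := r) (u := 3 * (p.G - 1)) (by omega) (by omega)).2.2.2
    have b := h.gL_next r (3 * (p.G - 1))
    simp only [wd, Nat.add_eq_zero_iff, one_ne_zero, and_false, if_false]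
    omega

end Par

end Pool.Agent.Lib.MP_ec9af3_lc.H18
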