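import Pool.Agent.Lib.MP_ec9af3_lc.Discrete
import Pool.Agent.Shared.PolyTime.Extra
import Pool.Agent.Shared.PolyTime.NPComplete

/-!
The recognition problem for unit bar visibility graphs is in NP, and an interface for
hardness proofs.
-/

namespace Pool.Agent.Lib.MP_ec9af3_lc

open N487b59b3 N68a2faeb N793a5b8e Pool.Agent.Shared.PolyTime

/-- The list of rows `M` is the adjacency matrix of a unit bar visibility graph. -/
def UBVGMat (M : List (List Bool)) : Prop :=
  ∃ (n : ℕ) (G : SimpleGraph (Fin n)), adjRows G = M ∧ IsUBVG G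

theorem UBVGLang_iff (s : List Bool) :
    UBVGLang s = true ↔ ∃ M, bitEncode M = s ∧ UBVGMat M := by
  simp only [UBVGLang, decide_eq_true_eq, UBVGMat]
  constructor
  · rintro ⟨n, G, h1, h2⟩
    exact ⟨_, h1, n, G, rfl, h2⟩
  · rintro ⟨M, h1, n, G, rfl, h2⟩
    exact ⟨n, G, h1, h2⟩

theorem UBVGLang_encode (M : List (List Bool)) : UBVGLang (bitEncode M) = true ↔ UBVGMat M := by
  rw [UBVGLang_iff]
  constructor
  · rintro ⟨M', h, h'⟩
    rwa [← bitEncode_injective h]
  · exact fun h => ⟨M, rfl, h⟩

/-- The visibility test on lists of coordinates. -/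
def seesL (n : ℕ) (X Y : List ℕ) (i j : ℕ) : Prop :=
  ∃ t < n + 1, X.getD j 0 ≤ X.getD i 0 + t ∧ X.getD i 0 + t < X.getD j 0 + (n + 1) ∧
    ∀ w < n, min (Y.getD i 0) (Y.getD j 0) < Y.getD w 0 → Y.getD w 0 < max (Y.getD i 0) (Y.getD j 0) →
      X.getD w 0 + (n + 1) ≤ X.getD i 0 + t ∨ X.getD i 0 + t < X.getD w 0

/-- The verifier's test. -/
def check (M : List (List Bool)) (W : List ℕ × List ℕ) : Prop :=
  ∀ i < M.length, (M.getD i []).length = M.length ∧ (M.getD i []).getD i false = false ∧
    ∀ j < M.length, i ≠ j →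
      (W.2.getD i 0 ≠ W.2.getD j 0 ∨ W.1.getD i 0 + (M.length + 1) < W.1.getD j 0 ∨
        W.1.getD j 0 + (M.length + 1) < W.1.getD i 0) ∧
      ((M.getD i []).getD j false = true ↔ seesL M.length W.1 W.2 i j)

open Classical in
theorem check_polyTime :
    IsPolyTime (fun z : List (List Bool) × (List ℕ × List ℕ) => decide (check z.1 z.2)) := by
  unfold check seesL
  fun_prop

theorem seesL_iff {n : ℕ} (X Y : List ℕ) (u v : Fin n) :
    seesL n X Y u v ↔ ∃ a : ℕ, X.getD u 0 ≤ a ∧ X.getD v 0 ≤ a ∧ a < X.getD u 0 + (n + 1) ∧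
      a < X.getD v 0 + (n + 1) ∧ ∀ w : Fin n, min (Y.getD u 0) (Y.getD v 0) < Y.getD w 0 →
        Y.getD w 0 < max (Y.getD u 0) (Y.getD v 0) →
          X.getD w 0 + (n + 1) ≤ a ∨ a < X.getD w 0 := by
  constructor
  · rintro ⟨t, h0, h1, h2, h3⟩
    exact ⟨X.getD u 0 + t, by omega, h1, by omega, h2, fun w => h3 w w.2⟩
  · rintro ⟨a, h0, h1, h2, h3, h4⟩
    obtain ⟨t, rfl⟩ := Nat.exists_eq_add_of_le h0
    exact ⟨t, by omega, h1, h3, fun w hw => h4 ⟨w, hw⟩⟩

theorem length_adjRows {n : ℕ} (G : SimpleGraph (Fin n)) : (adjRows G).length = n := by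
  simp [adjRows]

open Classical in
theorem getD_adjRows {n : ℕ} (G : SimpleGraph (Fin n)) (i : Fin n) :
    (adjRows G).getD i [] = List.ofFn fun j => decide (G.Adj i j) := by
  simp [adjRows, List.getD_eq_getElem?_getD]

theorem getD_getD_adjRows {n : ℕ} (G : SimpleGraph (Fin n)) (i j : Fin n) :
    ((adjRows G).getD i []).getD j false = true ↔ G.Adj i j := by
  rw [getD_adjRows]
  simp [List.getD_eq_getElem?_getD]

theorem getD_ofFn {n : ℕ} (X : Fin n → ℕ) (i : Fin n) : (List.ofFn X).getD i 0 = X i := by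
  simp [List.getD_eq_getElem?_getD]

theorem check_complete {M : List (List Bool)} (h : UBVGMat M) :
    ∃ W : List ℕ × List ℕ,
      bsize W ≤ 3 * (M.length * (2 * ((M.length + 1) * (2 * M.length) + M.length) + 1)) + 1 ∧
        check M W := by
  obtain ⟨n, G, rfl, hG⟩ := h
  obtain ⟨X, Y, ⟨h1, h2⟩, hX, hY⟩ := hG.exists_nat
  refine ⟨(List.ofFn X, List.ofFn Y), ?_, ?_⟩
  · rw [length_adjRows, bsize_pair]
    have k1 := bsize_list_le (List.ofFn X) ((n + 1) * (2 * n) + n) (fun a ha => by
      obtain ⟨v, rfl⟩ := List.mem_ofFn.1 ha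
      exact (bsize_nat_le_self _).trans (hX v))
    have k2 := bsize_list_le (List.ofFn Y) ((n + 1) * (2 * n) + n) (fun a ha => by
      obtain ⟨v, rfl⟩ := List.mem_ofFn.1 ha
      exact (bsize_nat_le_self _).trans ((hY v).trans (Nat.le_add_left _ _)))
    rw [List.length_ofFn] at k1 k2
    omega
  · intro i hi
    rw [length_adjRows] at hi ⊢
    lift i to Fin n using hi
    refine ⟨by rw [getD_adjRows]; simp, ?_, fun j hj hij => ?_⟩
    · rw [← Bool.not_eq_true, getD_getD_adjRows]
      exact G.irrefl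
    · lift j to Fin n using hj
      have hij' : i ≠ j := fun h => hij (congrArg _ h)
      rw [getD_getD_adjRows, seesL_iff]
      simp only [getD_ofFn]
      exact ⟨h1 i j hij', h2 i j hij'⟩

theorem check_sound {M : List (List Bool)} {W : List ℕ × List ℕ} (h : check M W) : UBVGMat M := by
  classical
  have hsym : ∀ i j : Fin M.length, (M.getD i []).getD j false = true →
      (M.getD j []).getD i false = true := by
    intro i j hij
    by_cases e : i = j
    · subst e; exact hij
    · have e' : (i : ℕ) ≠ j := fun h => e (Fin.ext h)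
      rw [((h i i.2).2.2 j j.2 e').2, seesL_iff] at hij
      rw [((h j j.2).2.2 i i.2 e'.symm).2, seesL_iff]
      obtain ⟨a, h1, h2, h3, h4, h5⟩ := hij
      exact ⟨a, h2, h1, h4, h3, fun w hw1 hw2 => h5 w (by rwa [min_comm]) (by rwa [max_comm])⟩
  let G : SimpleGraph (Fin M.length) :=
    { Adj := fun i j => (M.getD i []).getD j false = true
      symm := ⟨hsym⟩
      loopless := ⟨fun i hi => by rw [(h i i.2).2.1] at hi; exact Bool.false_ne_true hi⟩ }
  refine ⟨M.length, G, ?_, IsRepNat.isUBVG (U := M.length + 1) (Nat.succ_pos _)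
    (X := fun v => W.1.getD v 0) (Y := fun v => W.2.getD v 0) ⟨fun u v huv => ?_, fun u v huv => ?_⟩⟩
  · refine List.ext_getElem (length_adjRows G) fun i h1 h2 => ?_
    have hl := (h i h2).1
    have hM : M.getD i [] = M[i] := List.getD_eq_getElem _ _ h2
    have hM' : (adjRows G).getD i [] = (adjRows G)[i] := List.getD_eq_getElem _ _ h1
    have hl' : ((adjRows G).getD i []).length = M.length := by
      rw [getD_adjRows G ⟨i, h2⟩, List.length_ofFn]
    rw [← hM, ← hM']
    apply List.ext_getElem (hl'.trans hl.symm)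
    intro j h3 h4
    rw [← List.getD_eq_getElem _ false h3, ← List.getD_eq_getElem _ false h4, Bool.eq_iff_iff]
    exact getD_getD_adjRows G ⟨i, h2⟩ ⟨j, hl ▸ h4⟩
  · exact ((h u u.2).2.2 v v.2 fun e => huv (Fin.ext e)).1
  · exact (((h u u.2).2.2 v v.2 fun e => huv (Fin.ext e)).2).trans (seesL_iff _ _ u v)

/-- Recognising unit bar visibility graphs is in NP. -/
theorem UBVGLang_mem_NP : UBVGLang ∈ NP := by
  classical
  refine mem_NP_of_verifier (α := List (List Bool)) (β := List ℕ × List ℕ) (by fun_prop)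
    (by fun_prop) (fun M W => decide (check M W)) check_polyTime
    (fun M => 3 * (M.length * (2 * ((M.length + 1) * (2 * M.length) + M.length) + 1)) + 1)
    (by fun_prop) (fun M hM => ?_) (fun M W h => check_sound (of_decide_eq_true h)) _ UBVGLang_iff
  obtain ⟨W, h1, h2⟩ := check_complete hM
  exact ⟨W, h1, decide_eq_true h2⟩

/-- NP-hardness of the typed problem gives NP-completeness of the language. -/
theorem isCompleteFor_of_npHard (h : NPHard UBVGMat) : IsCompleteFor NP UBVGLang :=
  ⟨UBVGLang_mem_NP, h.manyOneReducible _ UBVGLang_encode⟩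

/-- The graph on the members of a vertex list given by a Boolean adjacency test. -/
def listGraph {β : Type} (vs : List β) (adj : β → β → Bool) (hs : ∀ a b, adj a b = adj b a)
    (hi : ∀ a, adj a a = false) : SimpleGraph {a // a ∈ vs} where
  Adj a b := adj a b = true
  symm := ⟨fun a b h => by rwa [hs]⟩
  loopless := ⟨fun a h => by rw [hi] at h; exact Bool.false_ne_true h⟩

/-- The matrix built from a vertex list without repetitions is a yes-instance exactly when the
graph on the members of the list is a unit bar visibility graph. -/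
theorem ubvgMat_map_iff {β : Type} (vs : List β) (hn : vs.Nodup) (adj : β → β → Bool)
    (hs : ∀ a b, adj a b = adj b a) (hi : ∀ a, adj a a = false) :
    UBVGMat (vs.map fun a => vs.map fun b => adj a b) ↔ IsUBVG (listGraph vs adj hs hi) := by
  classical
  let e : Fin vs.length ≃ {a // a ∈ vs} := hn.getEquiv
  have he : ∀ i, (e i).1 = vs[i] := fun i => rfl
  let G₀ : SimpleGraph (Fin vs.length) := (listGraph vs adj hs hi).comap e
  have hiso : G₀ ≃g listGraph vs adj hs hi := SimpleGraph.Iso.comap e _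
  have hrows : adjRows G₀ = vs.map fun a => vs.map fun b => adj a b := by
    refine List.ext_getElem (by simp [adjRows]) fun i h1 h2 => ?_
    simp only [adjRows, List.getElem_ofFn, List.getElem_map]
    refine List.ext_getElem (by simp) fun j h3 h4 => ?_
    rw [List.getElem_ofFn, List.getElem_map, Bool.eq_iff_iff, decide_eq_true_eq]
    rfl
  rw [← hrows, ← isUBVG_congr hiso]
  constructor
  · rintro ⟨n, G, h1, h2⟩
    have hn' : n = vs.length := by rw [← length_adjRows G, h1, length_adjRows]
    subst hn'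
    have : G = G₀ := by
      ext i j
      rw [← getD_getD_adjRows, h1, getD_getD_adjRows]
    rwa [← this]
  · exact fun h => ⟨_, G₀, rfl, h⟩

end Pool.Agent.Lib.MP_ec9af3_lc
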