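import Pool.Agent.Lib.MP_ec9af3_lc.H18Ceil
import Pool.Agent.Lib.MP_ec9af3_lc.NPMem

namespace Pool.Agent.Lib.MP_ec9af3_lc.H18

abbrev Vx := ℕ × ℕ × ℕ

/-- Index of the top bar of a stack in row `ρ`. -/
def th (ρ : ℕ) : ℕ := if ρ = 1 ∨ (2 ≤ ρ ∧ ρ % 2 = 0) then 2 else 0

/-- Data of a layered graph. -/
structure Lay where
  nr : ℕ
  n : ℕ → ℕ
  jt : ℕ → ℕ → ℕ
  bk : ℕ → ℕ → ℕ
  tk : ℕ → ℕ → ℕ

namespace Lay

variable (D : Lay)

def valid (v : Vx) : Prop := v.1 < D.nr ∧ v.2.1 < D.n v.1 ∧ v.2.2 ≤ th v.1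

def e (u v : Vx) : Prop :=
  (v.1 = u.1 ∧ v.2.1 = u.2.1 ∧ v.2.2 = u.2.2 + 1) ∨
  (v.1 = u.1 ∧ v.2.1 = u.2.1 + 1 ∧ D.jt v.1 v.2.1 = 1 ∧ u.2.2 = th u.1 ∧ v.2.2 = 0) ∨
  (v.1 = u.1 ∧ v.2.1 = u.2.1 + 1 ∧ D.jt v.1 v.2.1 = 2 ∧ u.2.2 = 0 ∧ v.2.2 = th v.1) ∨
  (v.1 = u.1 + 1 ∧ u.2.2 = 0 ∧ v.2.2 = th v.1 ∧ D.bk u.1 u.2.1 < D.tk v.1 (v.2.1 + 1) ∧
    D.tk v.1 v.2.1 < D.bk u.1 (u.2.1 + 1))

def G : SimpleGraph Vx where
  Adj u v := D.valid u ∧ D.valid v ∧ (D.e u v ∨ D.e v u)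
  symm := ⟨fun _ _ h => ⟨h.2.1, h.1, h.2.2.symm⟩⟩
  loopless := ⟨fun u h => by
    have := h.2.2
    unfold e at this
    omega⟩

def vs : List Vx :=
  (List.range D.nr).flatMap fun ρ => (List.range (D.n ρ)).flatMap fun i =>
    (List.range (th ρ + 1)).map fun p => (ρ, i, p)

theorem mem_vs {v : Vx} : v ∈ D.vs ↔ D.valid v := by
  obtain ⟨a, b, c⟩ := v
  simp only [vs, valid, List.mem_flatMap, List.mem_range, List.mem_map, Prod.mk.injEq]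
  constructor
  · rintro ⟨ρ, h1, i, h2, p, h3, rfl, rfl, rfl⟩
    exact ⟨h1, h2, by omega⟩
  · rintro ⟨h1, h2, h3⟩
    exact ⟨a, h1, b, h2, c, by omega, rfl, rfl, rfl⟩

theorem nodup_vs : D.vs.Nodup := by
  unfold vs
  rw [List.nodup_flatMap]
  refine ⟨fun ρ _ => ?_, ?_⟩
  · rw [List.nodup_flatMap]
    refine ⟨fun i _ => List.nodup_range.map fun p q h => by simpa using h, ?_⟩
    refine List.nodup_range.pairwise_of_forall_ne fun a _ b _ hab => ?_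
    simp only [Function.onFun, List.disjoint_left, List.mem_map]
    rintro _ ⟨p, -, rfl⟩ ⟨q, -, h⟩
    simp only [Prod.mk.injEq] at h
    exact hab h.2.1.symm
  · refine List.nodup_range.pairwise_of_forall_ne fun a _ b _ hab => ?_
    simp only [Function.onFun, List.disjoint_left, List.mem_flatMap, List.mem_map]
    rintro _ ⟨i, -, p, -, rfl⟩ ⟨j, -, q, -, h⟩
    simp only [Prod.mk.injEq] at h
    exact hab h.1.symm

def S : Finset Vx := D.vs.toFinset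

theorem mem_S {v : Vx} : v ∈ D.S ↔ D.valid v := by
  rw [S, List.mem_toFinset, mem_vs]

variable {D}

theorem adj_iff {u v : Vx} : D.G.Adj u v ↔ D.valid u ∧ D.valid v ∧ (D.e u v ∨ D.e v u) := Iff.rfl

theorem nbr {ρ i p : ℕ} {w : Vx} (h : D.G.Adj (ρ, i, p) w) :
    w = (ρ, i, p + 1) ∨ (1 ≤ p ∧ w = (ρ, i, p - 1)) ∨
    (D.jt ρ (i + 1) = 1 ∧ p = th ρ ∧ w = (ρ, i + 1, 0)) ∨
    (D.jt ρ (i + 1) = 2 ∧ p = 0 ∧ w = (ρ, i + 1, th ρ)) ∨
    (1 ≤ i ∧ D.jt ρ i = 1 ∧ p = 0 ∧ w = (ρ, i - 1, th ρ)) ∨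
    (1 ≤ i ∧ D.jt ρ i = 2 ∧ p = th ρ ∧ w = (ρ, i - 1, 0)) ∨
    (∃ j, p = 0 ∧ w = (ρ + 1, j, th (ρ + 1)) ∧ D.bk ρ i < D.tk (ρ + 1) (j + 1) ∧
      D.tk (ρ + 1) j < D.bk ρ (i + 1)) ∨
    (∃ σ j, ρ = σ + 1 ∧ p = th ρ ∧ w = (σ, j, 0) ∧ D.bk σ j < D.tk ρ (i + 1) ∧
      D.tk ρ i < D.bk σ (j + 1)) := by
  obtain ⟨a, b, c⟩ := w
  obtain ⟨-, -, h⟩ := h
  simp only [e] at h
  rcases h with (h | h | h | h) | (h | h | h | h)
  · obtain ⟨rfl, rfl, rfl⟩ := h; simp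
  · obtain ⟨rfl, rfl, h, rfl, rfl⟩ := h; simp [h]
  · obtain ⟨rfl, rfl, h, rfl, rfl⟩ := h; simp [h]
  · obtain ⟨rfl, rfl, rfl, h⟩ := h
    exact Or.inr (Or.inr (Or.inr (Or.inr (Or.inr (Or.inr (Or.inl ⟨b, rfl, rfl, h⟩))))))
  · obtain ⟨rfl, rfl, rfl⟩ := h; simp
  · obtain ⟨rfl, rfl, h, rfl, rfl⟩ := h; simp [h]
  · obtain ⟨rfl, rfl, h, rfl, rfl⟩ := h; simp [h]
  · obtain ⟨rfl, rfl, rfl, h⟩ := h
    exact Or.inr (Or.inr (Or.inr (Or.inr (Or.inr (Or.inr (Or.inr ⟨a, b, rfl, rfl, rfl, h⟩))))))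

theorem adj_in {ρ i p : ℕ} (h : D.valid (ρ, i, p + 1)) : D.G.Adj (ρ, i, p) (ρ, i, p + 1) :=
  ⟨⟨h.1, h.2.1, by have := h.2.2; dsimp only at this ⊢; omega⟩, h, Or.inl (Or.inl ⟨rfl, rfl, rfl⟩)⟩

theorem adj_up {ρ i : ℕ} (h1 : ρ < D.nr) (h2 : i + 1 < D.n ρ) (h : D.jt ρ (i + 1) = 1) :
    D.G.Adj (ρ, i, th ρ) (ρ, i + 1, 0) :=
  ⟨⟨h1, by dsimp only; omega, le_rfl⟩, ⟨h1, h2, Nat.zero_le _⟩,
    Or.inl (Or.inr (Or.inl ⟨rfl, rfl, h, rfl, rfl⟩))⟩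

theorem adj_dn {ρ i : ℕ} (h1 : ρ < D.nr) (h2 : i + 1 < D.n ρ) (h : D.jt ρ (i + 1) = 2) :
    D.G.Adj (ρ, i, 0) (ρ, i + 1, th ρ) :=
  ⟨⟨h1, by dsimp only; omega, Nat.zero_le _⟩, ⟨h1, h2, le_rfl⟩,
    Or.inl (Or.inr (Or.inr (Or.inl ⟨rfl, rfl, h, rfl, rfl⟩)))⟩

theorem adj_row {ρ i j : ℕ} (h1 : ρ + 1 < D.nr) (h2 : i < D.n ρ) (h3 : j < D.n (ρ + 1))
    (h4 : D.bk ρ i < D.tk (ρ + 1) (j + 1)) (h5 : D.tk (ρ + 1) j < D.bk ρ (i + 1)) :
    D.G.Adj (ρ, i, 0) (ρ + 1, j, th (ρ + 1)) :=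
  ⟨⟨by dsimp only; omega, h2, Nat.zero_le _⟩, ⟨h1, h3, le_rfl⟩,
    Or.inl (Or.inr (Or.inr (Or.inr ⟨rfl, rfl, rfl, h4, h5⟩)))⟩

end Lay

open Classical in
/-- The representations used here are those of the problem. -/
theorem isUBVG_iff_rep {β : Type} (vs : List β) (G : SimpleGraph β)
    (hm : ∀ {u v}, G.Adj u v → u ∈ vs) (H : SimpleGraph {a // a ∈ vs})
    (hH : ∀ a b, H.Adj a b ↔ G.Adj a b) : IsUBVG H ↔ ∃ x y, Rep vs.toFinset G x y := by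
  have key : ∀ (x y : β → ℝ), (∀ u ∈ vs, ∀ v ∈ vs, u ≠ v → y u = y v →
      x u + 1 < x v ∨ x v + 1 < x u) → ∀ u ∈ vs, ∀ v ∈ vs, u ≠ v →
      ((∃ a : ℝ, x u ≤ a ∧ x v ≤ a ∧ a < x u + 1 ∧ a < x v + 1 ∧
        ∀ w : {a // a ∈ vs}, min (y u) (y v) < y w → y w < max (y u) (y v) →
          x w + 1 ≤ a ∨ a < x w) ↔
        ∃ t, Sees vs.toFinset x y t u v ∨ Sees vs.toFinset x y t v u) := by
    intro x y hd u hu v hv ne
    constructor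
    · rintro ⟨a, h1, h2, h3, h4, h5⟩
      obtain ⟨c, hc, hmin⟩ := ((vs.toFinset.image x ∪ {x u + 1, x v + 1}).filter
        (fun c => a < c)).exists_min_image id ⟨x u + 1, by simp [h3]⟩
      have hac := (Finset.mem_filter.1 hc).2
      obtain ⟨t, t1, t2, g⟩ := exists_gen vs.toFinset x hac
      have k1 : c ≤ x u + 1 := hmin _ (by simp [h3])
      have k2 : c ≤ x v + 1 := hmin _ (by simp [h4])
      have cu : Cr x t u := ⟨by linarith, by linarith⟩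
      have cv : Cr x t v := ⟨by linarith, by linarith⟩
      have free : ∀ w ∈ vs.toFinset, Cr x t w → y w ≤ min (y u) (y v) ∨ max (y u) (y v) ≤ y w := by
        intro w hw cw
        by_contra hcon
        push Not at hcon
        rcases h5 ⟨w, List.mem_toFinset.1 hw⟩ hcon.1 hcon.2 with k | k
        · linarith [cw.2]
        · have : c ≤ x w := hmin _ (Finset.mem_filter.2 ⟨Finset.mem_union_left _
            (Finset.mem_image_of_mem _ hw), k⟩)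
          linarith [cw.1]
      rcases lt_trichotomy (y u) (y v) with k | k | k
      · rw [min_eq_left k.le, max_eq_right k.le] at free
        exact ⟨t, Or.inl ⟨g, cu, cv, k, free⟩⟩
      · rcases hd u hu v hv ne k with k | k <;> linarith
      · rw [min_eq_right k.le, max_eq_left k.le] at free
        exact ⟨t, Or.inr ⟨g, cv, cu, k, free⟩⟩
    · rintro ⟨t, s | s⟩
      · refine ⟨t, s.cu.1.le, s.cv.1.le, s.cu.2, s.cv.2, fun w k1 k2 => ?_⟩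
        rw [min_eq_left s.lt.le] at k1
        rw [max_eq_right s.lt.le] at k2
        have hw := List.mem_toFinset.2 w.2
        rcases s.gen.not_cr hw (s.not_cr hw k1 k2) with k | k
        · exact Or.inr k
        · exact Or.inl k.le
      · refine ⟨t, s.cv.1.le, s.cu.1.le, s.cv.2, s.cu.2, fun w k1 k2 => ?_⟩
        rw [min_eq_right s.lt.le] at k1
        rw [max_eq_left s.lt.le] at k2
        have hw := List.mem_toFinset.2 w.2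
        rcases s.gen.not_cr hw (s.not_cr hw k1 k2) with k | k
        · exact Or.inr k
        · exact Or.inl k.le
  constructor
  · rintro ⟨x, y, h⟩
    obtain ⟨h1, h2⟩ := isRep_iff.1 h
    let x' : β → ℝ := fun v => if hv : v ∈ vs then x ⟨v, hv⟩ else 0
    let y' : β → ℝ := fun v => if hv : v ∈ vs then y ⟨v, hv⟩ else 0
    have ex : ∀ a : {a // a ∈ vs}, x' a = x a := fun a => dif_pos a.2
    have ey : ∀ a : {a // a ∈ vs}, y' a = y a := fun a => dif_pos a.2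
    have hd : ∀ u ∈ vs, ∀ v ∈ vs, u ≠ v → y' u = y' v → x' u + 1 < x' v ∨ x' v + 1 < x' u := by
      intro u hu v hv ne e
      have := h1 ⟨u, hu⟩ ⟨v, hv⟩ (fun k => ne (congrArg Subtype.val k))
      rw [← ex, ← ex, ← ey, ← ey] at this
      exact this.resolve_left (not_not.2 e)
    refine ⟨x', y', fun h => List.mem_toFinset.2 (hm h), fun u hu v hv =>
      hd u (List.mem_toFinset.1 hu) v (List.mem_toFinset.1 hv), fun u hu v hv => ?_⟩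
    rw [List.mem_toFinset] at hu hv
    by_cases ne : u = v
    · subst ne
      refine ⟨fun h => absurd h G.irrefl, ?_⟩
      rintro ⟨t, s | s⟩ <;> exact absurd s.lt (lt_irrefl _)
    · rw [← key x' y' hd u hu v hv ne, ← hH ⟨u, hu⟩ ⟨v, hv⟩,
        h2 _ _ (fun k => ne (congrArg Subtype.val k))]
      simp only [← ex, ← ey]
  · rintro ⟨x, y, R⟩
    have hd : ∀ u ∈ vs, ∀ v ∈ vs, u ≠ v → y u = y v → x u + 1 < x v ∨ x v + 1 < x u :=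
      fun u hu v hv => R.disj u (List.mem_toFinset.2 hu) v (List.mem_toFinset.2 hv)
    refine ⟨fun a => x a, fun a => y a, isRep_iff.2 ⟨fun u v ne => ?_, fun u v ne => ?_⟩⟩
    · by_cases e : y u = y v
      · exact Or.inr (hd u u.2 v v.2 (fun k => ne (Subtype.ext k)) e)
      · exact Or.inl e
    · rw [hH, key x y hd u u.2 v v.2 (fun k => ne (Subtype.ext k)),
        R.adj u (List.mem_toFinset.2 u.2) v (List.mem_toFinset.2 v.2)]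

end Pool.Agent.Lib.MP_ec9af3_lc.H18
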