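import Pool.Agent.Lib.MP_ec9af3_lc.H18Inst

namespace Pool.Agent.Lib.MP_ec9af3_lc.H18

def tXb : List (List ℕ) :=
  [[0, 360, 740, 1120, 1480, 1860, 2240, 2620, 3000],
   [200, 360, 740, 1120, 1480, 1860, 2240, 2620, 3000],
   [200, 360, 740, 1120, 1480, 1860, 2000, 2400, 2800],
   [0, 301, 601, 901, 1200, 1600, 2000, 2400, 2800],
   [0, 400, 720, 1000, 1200, 1600, 2000, 2400, 2800],
   [0, 400, 520, 840, 1200, 1600, 2000, 2400, 2800],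
   [0, 400, 800, 1080, 1240, 1600, 2000, 2400, 2800],
   [0, 400, 701, 1001, 1301, 1600, 2000, 2400, 2800],
   [0, 400, 800, 1101, 1401, 1701, 2000, 2400, 2800],
   [0, 400, 800, 1200, 1600, 2000, 2400, 2800]]

def tXf : List (List ℕ) :=
  [[2, 2, 2, 2, 2, 2, 2, 2, 2],
   [2, 2, 2, 2, 2, 2, 2, 2, 2],
   [2, 2, 2, 2, 2, 2, 2, 2, 2],
   [0, 0, 0, 0, 1, 1, 1, 1, 1],
   [0, 0, 0, 0, 1, 1, 1, 1, 1],
   [0, 0, 0, 0, 1, 1, 1, 1, 1],
   [0, 0, 0, 0, 0, 1, 1, 1, 1],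
   [0, 0, 0, 0, 0, 1, 1, 1, 1],
   [0, 0, 0, 0, 0, 0, 1, 1, 1],
   [2, 2, 2, 2, 2, 2, 2, 2]]

def tVb : List (List ℕ) :=
  [[],
   [0, 360, 400, 740, 800, 1120, 1200, 1480, 1600, 1860, 2000, 2240, 2400, 2620, 2680, 2740, 2800],
   [],
   [0, 200, 360, 400, 740, 800, 1120, 1200, 1480, 1600, 1860, 2000, 2240, 2400, 2620, 2708, 2800],
   [],
   [0, 200, 360, 400, 740, 800, 1120, 1200, 1480, 1600, 1860, 2000, 2132, 2264, 2400, 2600, 2800],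
   [0, 360, 400, 703, 740, 1003, 1120, 1303, 1480, 1600, 1860, 2000, 2240, 2400, 2620, 2800, 3000],
   [],
   [200, 360, 400, 703, 740, 1003, 1120, 1303, 1480, 1600, 1860, 2000, 2240, 2400, 2620, 2800,
     3000],
   [],
   [200, 360, 400, 703, 740, 1003, 1120, 1303, 1480, 1600, 1860, 2000, 2132, 2264, 2400, 2600,
     2800],
   [],
   [0, 301, 400, 601, 703, 901, 1003, 1096, 1200, 1303, 1600, 1796, 2000, 2196, 2400, 2596, 2800],
   [0, 301, 303, 601, 603, 901, 902, 903, 1200, 1396, 1600, 1796, 2000, 2196, 2400, 2596, 2800],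
   [0, 301, 400, 601, 720, 901, 1120, 1156, 1200, 1400, 1600, 1796, 2000, 2196, 2400, 2596, 2800],
   [0, 301, 320, 601, 720, 901, 948, 1000, 1200, 1396, 1600, 1796, 2000, 2196, 2400, 2596, 2800],
   [0, 200, 400, 600, 800, 920, 960, 1000, 1200, 1396, 1600, 1796, 2000, 2196, 2400, 2596, 2800],
   [0, 200, 400, 520, 800, 802, 800, 1000, 1200, 1404, 1600, 1804, 2000, 2204, 2400, 2604, 2800],
   [0, 200, 400, 600, 800, 1000, 1200, 1202, 1200, 1480, 1600, 1804, 2000, 2204, 2400, 2604, 2800],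
   [0, 200, 400, 600, 800, 1000, 1040, 1080, 1200, 1396, 1600, 1796, 2000, 2196, 2400, 2596, 2800],
   [0, 200, 400, 520, 800, 840, 1103, 1240, 1403, 1496, 1600, 1703, 2000, 2196, 2400, 2596, 2800],
   [0, 200, 400, 520, 703, 840, 1003, 1240, 1268, 1303, 1600, 1796, 2000, 2196, 2400, 2596, 2800],
   [0, 200, 400, 600, 800, 1080, 1200, 1240, 1503, 1640, 1803, 1896, 2000, 2103, 2400, 2596, 2800],
   [0, 200, 400, 600, 800, 1080, 1103, 1240, 1403, 1640, 1668, 1703, 2000, 2196, 2400, 2596, 2800],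
   [0, 200, 400, 701, 800, 1001, 1103, 1301, 1403, 1496, 1600, 1703, 2000, 2196, 2400, 2596, 2800],
   [0, 200, 400, 701, 703, 1001, 1003, 1301, 1302, 1303, 1600, 1796, 2000, 2196, 2400, 2596, 2800],
   [0, 200, 400, 600, 800, 1101, 1200, 1401, 1503, 1701, 1803, 1896, 2000, 2103, 2400, 2596, 2800],
   [0, 200, 400, 600, 800, 1101, 1103, 1401, 1403, 1701, 1702, 1703, 2000, 2196, 2400, 2596, 2800]]

def tVf : List (List ℕ) :=
  [[],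
   [2, 2, 2, 2, 2, 2, 2, 2, 2, 2, 2, 2, 2, 2, 2, 2, 2],
   [],
   [2, 2, 2, 2, 2, 2, 2, 2, 2, 2, 2, 2, 2, 2, 2, 2, 2],
   [],
   [2, 2, 2, 2, 2, 2, 2, 2, 2, 2, 2, 2, 2, 2, 2, 2, 2],
   [2, 2, 0, 0, 2, 0, 2, 0, 2, 1, 2, 1, 2, 1, 2, 1, 2],
   [],
   [2, 2, 0, 0, 2, 0, 2, 0, 2, 1, 2, 1, 2, 1, 2, 1, 2],
   [],
   [2, 2, 0, 0, 2, 0, 2, 0, 2, 1, 2, 2, 2, 2, 2, 2, 2],
   [],
   [0, 0, 0, 0, 0, 0, 0, 0, 1, 0, 1, 0, 1, 0, 1, 0, 1],
   [0, 0, 0, 0, 0, 0, 0, 0, 1, 0, 1, 0, 1, 0, 1, 0, 1],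
   [0, 0, 0, 0, 0, 0, 0, 0, 1, 0, 1, 0, 1, 0, 1, 0, 1],
   [0, 0, 0, 0, 0, 0, 0, 0, 1, 0, 1, 0, 1, 0, 1, 0, 1],
   [0, 0, 0, 0, 0, 0, 0, 0, 1, 0, 1, 0, 1, 0, 1, 0, 1],
   [0, 0, 0, 0, 0, 0, 1, 0, 1, 0, 1, 0, 1, 0, 1, 0, 1],
   [0, 0, 0, 0, 0, 0, 0, 0, 1, 0, 1, 0, 1, 0, 1, 0, 1],
   [0, 0, 0, 0, 0, 0, 0, 0, 1, 0, 1, 0, 1, 0, 1, 0, 1],
   [0, 0, 0, 0, 0, 0, 0, 0, 0, 0, 1, 0, 1, 0, 1, 0, 1],
   [0, 0, 0, 0, 0, 0, 0, 0, 0, 0, 1, 0, 1, 0, 1, 0, 1],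
   [0, 0, 0, 0, 0, 0, 0, 0, 0, 0, 0, 0, 1, 0, 1, 0, 1],
   [0, 0, 0, 0, 0, 0, 0, 0, 0, 0, 0, 0, 1, 0, 1, 0, 1],
   [0, 0, 0, 0, 0, 0, 0, 0, 0, 0, 1, 0, 1, 0, 1, 0, 1],
   [0, 0, 0, 0, 0, 0, 0, 0, 0, 0, 1, 0, 1, 0, 1, 0, 1],
   [0, 0, 0, 0, 0, 0, 0, 0, 0, 0, 0, 0, 1, 0, 1, 0, 1],
   [0, 0, 0, 0, 0, 0, 0, 0, 0, 0, 0, 0, 1, 0, 1, 0, 1]]

def cm (g q : ℕ) : ℕ := tb [[2, 2, 2], [0, 3, 3], [1, 1, 4], [2, 2, 2]] g q

def ev (b f : List (List ℕ)) (a i g q : ℕ) : ℕ :=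
  tb b a i + 4 * cm (if tb f a i = 0 then g else if tb f a i = 1 then g + 1 else 0) q

def xl (a i g q : ℕ) : ℕ := ev tXb tXf a i g q

def tl (v s j g q : ℕ) : ℕ := ev tVb tVf (2 * v + s) j g q

def e0 (v g q : ℕ) : ℕ := if 6 ≤ v then 4 * cm g q else if 3 ≤ v ∧ g % 3 ≠ 0 then 208 else 8

def adm (v s g q : ℕ) : Bool :=
  if v < 3 then s == 1 && g == v else if v < 6 then s == 0 && g + 3 == v
  else if v = 8 then s != 1 || g != q else if v = 9 then s != 0 || g != q else true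

def cT (a i g q : ℕ) : ℕ := if tb tJ a (i + 1) = 1 then xl a (i + 1) g q else xl a i g q + 400

def cB (a i g q : ℕ) : ℕ := if tb tJ a (i + 1) = 1 then xl a i g q + 400 else xl a (i + 1) g q

open Par

set_option synthInstance.maxSize 1024

theorem num1 : ∀ v < 14, ∀ s < 2, ∀ g < 3, ∀ q < 3, adm v s g q = false ∨
    (xl (upK.getD v 0) 0 g q = e0 v g q ∧ xl (upK.getD v 0) (wv v) g q = 2800 + e0 v (g + 1) q ∧
      tl v s 0 g q = e0 v g q ∧ tl v s 16 g q = 2800 + e0 v (g + 1) q) := by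
  decide +kernel

theorem num2 : ∀ v < 14, ∀ s < 2, ∀ g < 3, ∀ q < 3, adm v s g q = false ∨ ∀ i < wv v,
    xl (upK.getD v 0) i g q < xl (upK.getD v 0) (i + 1) g q ∧ xl (upK.getD v 0) i g q % 4 ≤ 1 ∧
      cB (upK.getD v 0) i g q = tl v s (tb tU v (i + 1)) g q ∧ tb tU v (i + 1) ≤ 16 := by
  decide +kernel

theorem num3 : ∀ v < 14, ∀ s < 2, ∀ g < 3, ∀ q < 3, adm v s g q = false ∨ ∀ i < wv v,
    (tb tJ (upK.getD v 0) (i + 1) = 0 ∧
      xl (upK.getD v 0) (i + 1) g q = xl (upK.getD v 0) i g q + 400) ∨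
    (tb tJ (upK.getD v 0) (i + 1) ≠ 0 ∧
      xl (upK.getD v 0) (i + 1) g q < xl (upK.getD v 0) i g q + 400) := by
  decide +kernel

theorem num4 : ∀ v < 14, ∀ s < 2, ∀ g < 3, ∀ q < 3, adm v s g q = false ∨ ∀ j < 16,
    tl v s j g q < tl v s (j + 1) g q ∧ tl v s (j + 1) g q < tl v s j g q + 400 := by
  decide +kernel

theorem num5 : ∀ v < 14, ∀ s < 2, ∀ g < 3, ∀ q < 3, adm v s g q = false ∨ ∀ i < 8,
    cT (loK.getD v 0) i g q + 2 * (cT (loK.getD v 0) i g q % 4) =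
      tl v s (tb tL v i + 1 - 2 * s) g q + 400 * s ∧ 1 ≤ tb tL v i ∧ tb tL v i ≤ 15 := by
  decide +kernel

theorem num6 : ∀ v < 14, ∀ q < 3, adm v 0 0 q = false ∨ tl v 0 (tb tL v 0 + 1) 0 q = 408 := by
  decide +kernel

theorem e0_zero : ∀ v, ∀ q < 3, e0 v 0 q = 8 ∧ e0 v 3 q = 8 := by
  intro v q hq
  unfold e0
  interval_cases q <;> split_ifs <;> first | contradiction | omega | exact ⟨rfl, rfl⟩

namespace Par

variable (p : Par) (s q : ℕ → ℕ)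

def xc (r k : ℕ) : ℕ := 2800 * (k / wd r) +
  xl (upK.getD (p.vk r (k / wd r)) 0) (k % wd r) (k / wd r % 3) (q (k / wd r / 3))

def tc (r j : ℕ) : ℕ := 2800 * (j / 16) +
  tl (p.vk r (j / 16)) (s r) (j % 16) (j / 16 % 3) (q (j / 16 / 3))

/-- Directions `s` of the staircases and choices `q` of a cell in each group that fit. -/
structure Good : Prop where
  ok : p.Ok
  s1 : ∀ r, s r < 2
  q2 : ∀ n, q n < 3
  ad : ∀ r u, adm (p.vk r u) (s r) (u % 3) (q (u / 3)) = true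

variable {p s q} (h : p.Good s q)
include h

theorem Good.use {C : ℕ → ℕ → ℕ → ℕ → Prop}
    (H : ∀ v < 14, ∀ s < 2, ∀ g < 3, ∀ q < 3, adm v s g q = false ∨ C v s g q) (r u : ℕ) :
    C (p.vk r u) (s r) (u % 3) (q (u / 3)) :=
  (H _ (h.ok.vk_lt r u).1 _ (h.s1 r) _ (Nat.mod_lt _ (by omega)) _ (h.q2 _)).resolve_left
    (by simp [h.ad])

theorem Good.e0_next (r u : ℕ) : e0 (p.vk r (u + 1)) ((u + 1) % 3) (q ((u + 1) / 3)) =
    e0 (p.vk r u) (u % 3 + 1) (q (u / 3)) := by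
  by_cases e : u % 3 = 2
  · rw [e, show (u + 1) % 3 = 0 by omega, (e0_zero _ _ (h.q2 _)).1, (e0_zero _ _ (h.q2 _)).2]
  · have := h.ok.next r u
    rw [show (u + 1) % 3 = u % 3 + 1 by omega, show (u + 1) / 3 = u / 3 by omega]
    unfold e0
    split_ifs <;> first | rfl | omega

theorem Good.xc_eq (r u : ℕ) {i : ℕ} (hi : i ≤ wd r) : p.xc q r (wd r * u + i) =
    2800 * u + xl (upK.getD (p.vk r u) 0) i (u % 3) (q (u / 3)) := by
  unfold xc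
  rcases hi.eq_or_lt with rfl | hi
  · have a := (h.use num1 r u).2.1
    have b := (h.use num1 r (u + 1)).1
    rw [(h.ok.vk_lt r u).2.1] at a
    rw [← Nat.mul_succ, Nat.mul_div_cancel_left _ (wd_pos r), Nat.mul_mod_right,
      Nat.succ_eq_add_one, a, b, h.e0_next]
    omega
  · rw [(cell_div hi).1, (cell_div hi).2]

theorem Good.tc_eq (r u : ℕ) {i : ℕ} (hi : i ≤ 16) : p.tc s q r (16 * u + i) =
    2800 * u + tl (p.vk r u) (s r) i (u % 3) (q (u / 3)) := by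
  unfold tc
  rcases hi.eq_or_lt with rfl | hi
  · have a := (h.use num1 r u).2.2.2
    have b := (h.use num1 r (u + 1)).2.2.1
    rw [show (16 * u + 16) / 16 = u + 1 by omega, show (16 * u + 16) % 16 = 0 by omega, a, b,
      h.e0_next]
    omega
  · rw [(cell_div hi).1, (cell_div hi).2]

theorem Good.xc_step (r k : ℕ) : p.xc q r k < p.xc q r (k + 1) ∧ p.xc q r k % 4 ≤ 1 ∧
    (p.jA r (k + 1) = 0 → p.xc q r (k + 1) = p.xc q r k + 400) ∧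
    (p.jA r (k + 1) ≠ 0 → p.xc q r (k + 1) < p.xc q r k + 400) ∧
    (if p.jA r (k + 1) = 1 then p.xc q r k + 400 else p.xc q r (k + 1)) =
      p.tc s q r (p.gU r (k + 1)) := by
  obtain ⟨u, i, hi, rfl⟩ := cell r k
  have a := h.use num2 r u i (by rwa [(h.ok.vk_lt r u).2.1])
  have b := h.use num3 r u i (by rwa [(h.ok.vk_lt r u).2.1])
  rw [add_assoc, h.xc_eq r u hi.le, h.xc_eq r u (i := i + 1) hi, h.ok.jA_eq r u (i := i + 1) hi,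
    h.ok.gU_eq r u (i := i + 1) hi, h.tc_eq r u a.2.2.2, ← a.2.2.1, cB]
  refine ⟨by omega, by omega, by omega, by omega, ?_⟩
  split_ifs <;> omega

theorem Good.tc_step (r j : ℕ) :
    p.tc s q r j < p.tc s q r (j + 1) ∧ p.tc s q r (j + 1) < p.tc s q r j + 400 := by
  obtain ⟨u, i, hi, rfl⟩ : ∃ u i, i < 16 ∧ j = 16 * u + i := ⟨j / 16, j % 16, by omega, by omega⟩
  have a := h.use num4 r u i hi
  rw [add_assoc, h.tc_eq r u hi.le, h.tc_eq r u (i := i + 1) hi]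
  omega

theorem Good.tc_lo (r k : ℕ) {c : ℕ}
    (hc : c = if p.jA (r + 1) (k + 1) = 1 then p.xc q (r + 1) (k + 1) else p.xc q (r + 1) k + 400) :
    c + 2 * (c % 4) = p.tc s q r (p.gL r (k + 1) + 1 - 2 * s r) + 400 * s r := by
  obtain ⟨u, i, hi, rfl⟩ : ∃ u i, i < 8 ∧ k = 8 * u + i := ⟨k / 8, k % 8, by omega, by omega⟩
  have a := h.use num5 r u i hi
  have s1 := h.s1 r
  have e1 : p.xc q (r + 1) (8 * u + i) = _ := h.xc_eq (r + 1) u hi.le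
  have e2 : p.xc q (r + 1) (8 * u + i + 1) = _ := h.xc_eq (r + 1) u (i := i + 1) hi
  have e3 : p.jA (r + 1) (8 * u + i + 1) = _ := h.ok.jA_lo r u (i := i + 1) hi
  rw [e1, e2, e3, h.ok.kind] at hc
  rw [gL_eq r u hi, show 16 * u + tb tL (p.vk r u) i + 1 - 2 * s r =
    16 * u + (tb tL (p.vk r u) i + 1 - 2 * s r) by omega, h.tc_eq r u (by omega)]
  unfold cT at a
  split_ifs at a hc <;> omega

theorem Good.grp (r n : ℕ) :
    p.xc q r (wd r * (3 * n)) = 8400 * n + 8 ∧ p.tc s q r (48 * n) = 8400 * n + 8 := by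
  have a := h.xc_eq r (3 * n) (Nat.zero_le _)
  have b := h.tc_eq r (3 * n) (Nat.zero_le _)
  have c := h.use num1 r (3 * n)
  rw [c.1] at a
  rw [c.2.2.1] at b
  rw [Nat.mul_mod_right, (e0_zero _ _ (h.q2 _)).1, add_zero] at a b
  rw [show 48 * n = 16 * (3 * n) by omega]
  omega

theorem Good.last (r n : ℕ) (e : s r = 0) :
    p.tc s q r (p.gL r (24 * n + 1) + 1) = 8400 * n + 408 := by
  have a := h.ad r (3 * n)
  have b := (h.use num5 r (3 * n) 0 (by omega)).2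
  rw [e, Nat.mul_mod_right] at a
  have c := (num6 _ (h.ok.vk_lt r (3 * n)).1 _ (h.q2 (3 * n / 3))).resolve_left (by rw [a]; simp)
  rw [show 24 * n + 1 = 8 * (3 * n) + 0 + 1 by omega, gL_eq r (3 * n) (i := 0) (by omega),
    add_assoc, h.tc_eq r (3 * n) (by omega), e, Nat.mul_mod_right, c]
  omega

theorem Good.xc0 (k : ℕ) : p.xc q 0 k = 400 * k + 8 := by
  induction k with
  | zero => simpa using (h.grp 0 0).1
  | succ k ih => rw [(h.xc_step 0 k).2.2.1 (h.ok.jA0 _), ih]; omega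

end Par

end Pool.Agent.Lib.MP_ec9af3_lc.H18
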