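import Pool.Agent.Lib.MP_ec9af3_lc.H18Sound
import Pool.Agent.Lib.MP_ec9af3_lc.H18Full
import Pool.Agent.Shared.PolyTime.BaseProblems

namespace Pool.Agent.Lib.MP_ec9af3_lc.H18

open N487b59b3 N68a2faeb Pool.Agent.Shared.PolyTime

abbrev Fm := List (ℕ × ℕ × ℕ)

def ent (c : ℕ × ℕ × ℕ) : List ℕ := [c.1, c.2.1, c.2.2]

def flat (φ : Fm) : List ℕ := φ.flatMap ent

def rR (φ : Fm) : ℕ := (flat φ).length + 3

def rG (φ : Fm) : ℕ := 8 * rR φ + 2 * φ.length + 5

def rP (φ : Fm) (u : ℕ) : ℕ :=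
  if 4 * rR φ + 2 ≤ u / 3 ∧ u / 3 < 4 * rR φ + 2 + 2 * φ.length then (u / 3 - (4 * rR φ + 2)) % 2
  else 0

def rL (φ : Fm) (u : ℕ) : ℕ :=
  if 4 * rR φ + 2 ≤ u / 3 ∧ u / 3 < 4 * rR φ + 2 + 2 * φ.length then
    3 + (flat φ).idxOf ((ent (φ.getD ((u / 3 - (4 * rR φ + 2)) / 2) (0, 0, 0))).getD (u % 3) 0)
  else rR φ + 5

def prm (φ : Fm) : Par := ⟨rR φ, rG φ, rP φ, rL φ⟩

theorem prm_ok (φ : Fm) : (prm φ).Ok := by
  refine ⟨fun u => ?_, fun u => ?_, ?_, ?_⟩ <;> simp only [prm, rP, rL, rG, rR]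
  · split_ifs <;> omega
  · split_ifs <;> omega
  · omega
  · omega

theorem cell_mid (φ : Fm) {c e g : ℕ} (hc : c < φ.length) (he : e < 2) (hg : g < 3) :
    rP φ (3 * (4 * rR φ + 2 + 2 * c + e) + g) = e ∧
    rL φ (3 * (4 * rR φ + 2 + 2 * c + e) + g) = 3 + (flat φ).idxOf ((ent φ[c]).getD g 0) ∧
    (ent φ[c]).getD g 0 ∈ flat φ := by
  unfold rP rL
  rw [if_pos (by omega), if_pos (by omega),
    show ((3 * (4 * rR φ + 2 + 2 * c + e) + g) / 3 - (4 * rR φ + 2)) / 2 = c by omega,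
    show (3 * (4 * rR φ + 2 + 2 * c + e) + g) % 3 = g by omega, List.getD_eq_getElem _ _ hc]
  refine ⟨by omega, rfl, List.mem_flatMap.2 ⟨_, List.getElem_mem hc, ?_⟩⟩
  interval_cases g <;> simp [ent]

theorem correct (φ : Fm) : MonoNAE3 φ ↔ ∃ x y, Rep (prm φ).lay.S (prm φ).lay.G x y := by
  constructor
  · rintro ⟨ν, hν⟩
    refine (prm_ok φ).full (fun r => r = 0 ∨ (3 ≤ r ∧ r < rR φ ∧ ν ((flat φ).getD (r - 3) 0) = true))
      (Or.inl rfl) (by omega) fun n => ?_
    by_cases h : 4 * rR φ + 2 ≤ n ∧ n < 4 * rR φ + 2 + 2 * φ.length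
    · obtain ⟨c, e, hc, he, rfl⟩ : ∃ c e, c < φ.length ∧ e < 2 ∧ n = 4 * rR φ + 2 + 2 * c + e :=
        ⟨(n - (4 * rR φ + 2)) / 2, (n - (4 * rR φ + 2)) % 2, by omega, by omega, by omega⟩
      have key : ∀ g, g < 3 → ν ((ent φ[c]).getD g 0) = decide (e = 1) →
          ((prm φ).P (3 * (4 * rR φ + 2 + 2 * c + e) + g) = 0 →
            ¬ ((prm φ).L (3 * (4 * rR φ + 2 + 2 * c + e) + g) = 0 ∨
              (3 ≤ (prm φ).L (3 * (4 * rR φ + 2 + 2 * c + e) + g) ∧
              (prm φ).L (3 * (4 * rR φ + 2 + 2 * c + e) + g) < rR φ ∧ ν ((flat φ).getD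
                ((prm φ).L (3 * (4 * rR φ + 2 + 2 * c + e) + g) - 3) 0) = true))) ∧
          ((prm φ).P (3 * (4 * rR φ + 2 + 2 * c + e) + g) = 1 →
            ((prm φ).L (3 * (4 * rR φ + 2 + 2 * c + e) + g) = 0 ∨
              (3 ≤ (prm φ).L (3 * (4 * rR φ + 2 + 2 * c + e) + g) ∧
              (prm φ).L (3 * (4 * rR φ + 2 + 2 * c + e) + g) < rR φ ∧ ν ((flat φ).getD
                ((prm φ).L (3 * (4 * rR φ + 2 + 2 * c + e) + g) - 3) 0) = true))) := by
        intro g hg hv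
        obtain ⟨a, b, m⟩ := cell_mid φ hc he hg
        have l := List.idxOf_lt_length_iff.2 m
        simp only [prm]
        rw [a, b, Nat.add_sub_cancel_left, List.getD_eq_getElem _ _ l, List.getElem_idxOf, hv]
        refine ⟨fun e0 => by simp [e0], fun e1 => Or.inr ⟨by omega, by unfold rR; omega, ?_⟩⟩
        simp [e1]
      have := hν _ (List.getElem_mem hc)
      by_cases k0 : ν φ[c].1 = decide (e = 1)
      · exact ⟨0, by omega, key 0 (by omega) k0⟩
      by_cases k1 : ν φ[c].2.1 = decide (e = 1)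
      · exact ⟨1, by omega, key 1 (by omega) k1⟩
      refine ⟨2, by omega, key 2 (by omega) ?_⟩
      show ν φ[c].2.2 = _
      revert this k0 k1
      cases ν φ[c].1 <;> cases ν φ[c].2.1 <;> cases ν φ[c].2.2 <;> cases decide (e = 1) <;> simp
    · refine ⟨0, by omega, ?_⟩
      simp only [prm, rP, rL]
      rw [if_neg (by omega), if_neg (by omega)]
      omega
  · rintro ⟨x, y, R⟩
    classical
    obtain ⟨s, hs⟩ := (prm_ok φ).sound (by simp only [prm, rG]; omega)
      (by simp only [prm, rR]; omega) R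
    refine ⟨fun v => decide (s (3 + (flat φ).idxOf v)), fun d hd => ?_⟩
    obtain ⟨c, hc, rfl⟩ := List.getElem_of_mem hd
    have key : ∀ e, e < 2 → ∃ g, g < 3 ∧ (e = 0 → ¬ s (3 + (flat φ).idxOf ((ent φ[c]).getD g 0))) ∧
        (e = 1 → s (3 + (flat φ).idxOf ((ent φ[c]).getD g 0))) := by
      intro e he
      obtain ⟨g, hg, h⟩ := hs (4 * rR φ + 2 + 2 * c + e) (by simp only [prm]; omega)
        (by simp only [prm, rG]; omega) fun g hg => by
          obtain ⟨-, b, m⟩ := cell_mid φ hc he hg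
          have l := List.idxOf_lt_length_iff.2 m
          simp only [prm]
          rw [b]
          unfold rR
          omega
      obtain ⟨a, b, -⟩ := cell_mid φ hc he hg
      simp only [prm] at h
      rw [a, b] at h
      exact ⟨g, hg, h⟩
    obtain ⟨g, hg, h, -⟩ := key 0 (by omega)
    obtain ⟨g', hg', -, h'⟩ := key 1 (by omega)
    have h := h rfl
    have h' := h' rfl
    simp only [decide_eq_decide]
    rintro ⟨a, b⟩
    interval_cases g <;> interval_cases g' <;> simp only [ent, List.getD_cons_zero,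
      List.getD_cons_succ] at h h' <;> tauto

open Classical in
noncomputable def adjB (φ : Fm) (u v : Vx) : Bool := decide ((prm φ).lay.G.Adj u v)

noncomputable def mat (φ : Fm) : List (List Bool) :=
  (prm φ).lay.vs.map fun a => (prm φ).lay.vs.map fun b => adjB φ a b

theorem mat_iff (φ : Fm) : MonoNAE3 φ ↔ UBVGMat (mat φ) := by
  classical
  have hs : ∀ a b, adjB φ a b = adjB φ b a := fun a b => by
    simp only [adjB, SimpleGraph.adj_comm]
  have hi : ∀ a, adjB φ a a = false := fun a => by simp [adjB]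
  rw [mat, ubvgMat_map_iff _ (Lay.nodup_vs _) _ hs hi,
    isUBVG_iff_rep _ (prm φ).lay.G (fun h => (Lay.mem_vs _).2 h.1) _
      (fun a b => by simp [listGraph, adjB]), correct]
  have e : ∀ inst : DecidableEq Vx, @List.toFinset _ inst (prm φ).lay.vs = (prm φ).lay.S :=
    fun inst => Finset.ext fun v => by simp [Lay.S]
  rw [e]

section

variable {α : Type} [N487b59b3 α] {f : α → Fm} {a b : α → ℕ}

@[fun_prop] theorem ent_pt {c : α → ℕ × ℕ × ℕ} (hc : IsPolyTime c) :
    IsPolyTime (fun x => ent (c x)) := by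
  unfold ent; fun_prop

@[fun_prop] theorem flat_pt (hf : IsPolyTime f) : IsPolyTime (fun x => flat (f x)) := by
  unfold flat; fun_prop

@[fun_prop] theorem rR_pt (hf : IsPolyTime f) : IsPolyTime (fun x => rR (f x)) := by
  unfold rR; fun_prop

@[fun_prop] theorem rR_bd (hf : IsPolyTime f) : PolyBdd (fun x => rR (f x)) := by
  unfold rR; fun_prop

@[fun_prop] theorem rG_pt (hf : IsPolyTime f) : IsPolyTime (fun x => rG (f x)) := by
  unfold rG; fun_prop

@[fun_prop] theorem rG_bd (hf : IsPolyTime f) : PolyBdd (fun x => rG (f x)) := by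
  unfold rG; fun_prop

@[fun_prop] theorem rP_pt (hf : IsPolyTime f) (ha : IsPolyTime a) :
    IsPolyTime (fun x => rP (f x) (a x)) := by
  unfold rP; fun_prop

@[fun_prop] theorem rL_pt (hf : IsPolyTime f) (ha : IsPolyTime a) :
    IsPolyTime (fun x => rL (f x) (a x)) := by
  unfold rL; fun_prop

@[fun_prop] theorem th_pt (ha : IsPolyTime a) : IsPolyTime (fun x => th (a x)) := by
  unfold th; fun_prop

@[fun_prop] theorem th_bd : PolyBdd (fun x => th (a x)) := by
  unfold th; fun_prop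

@[fun_prop] theorem wd_pt (ha : IsPolyTime a) : IsPolyTime (fun x => wd (a x)) := by
  unfold wd; fun_prop

@[fun_prop] theorem tb_pt (t : List (List ℕ)) (ha : IsPolyTime a) (hb : IsPolyTime b) :
    IsPolyTime (fun x => tb t (a x) (b x)) := by
  unfold tb; fun_prop

def vkF (φ : Fm) (r u : ℕ) : ℕ := (prm φ).vk r u

@[fun_prop] theorem vkF_pt (hf : IsPolyTime f) (ha : IsPolyTime a) (hb : IsPolyTime b) :
    IsPolyTime (fun x => vkF (f x) (a x) (b x)) := by
  unfold vkF Par.vk prm; dsimp only; fun_prop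

def nF (φ : Fm) (r : ℕ) : ℕ := (prm φ).lay.n r

@[fun_prop] theorem nF_pt (hf : IsPolyTime f) (ha : IsPolyTime a) :
    IsPolyTime (fun x => nF (f x) (a x)) := by
  unfold nF Par.lay prm; dsimp only; fun_prop

@[fun_prop] theorem nF_bd (hf : IsPolyTime f) (ha : PolyBdd a) :
    PolyBdd (fun x => nF (f x) (a x)) := by
  unfold nF Par.lay prm; dsimp only; fun_prop

def jtF (φ : Fm) (r u : ℕ) : ℕ := (prm φ).lay.jt r u

@[fun_prop] theorem jtF_pt (hf : IsPolyTime f) (ha : IsPolyTime a) (hb : IsPolyTime b) :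
    IsPolyTime (fun x => jtF (f x) (a x) (b x)) := by
  unfold jtF Par.lay Par.jA
  simp only [← vkF.eq_1]
  fun_prop

def bkF (φ : Fm) (r u : ℕ) : ℕ := (prm φ).lay.bk r u

@[fun_prop] theorem bkF_pt (hf : IsPolyTime f) (ha : IsPolyTime a) (hb : IsPolyTime b) :
    IsPolyTime (fun x => bkF (f x) (a x) (b x)) := by
  unfold bkF Par.lay Par.gU
  simp only [← vkF.eq_1]
  fun_prop

def tkF (φ : Fm) (r u : ℕ) : ℕ := (prm φ).lay.tk r u

@[fun_prop] theorem tkF_pt (hf : IsPolyTime f) (ha : IsPolyTime a) (hb : IsPolyTime b) :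
    IsPolyTime (fun x => tkF (f x) (a x) (b x)) := by
  unfold tkF Par.lay Par.gL
  simp only [← vkF.eq_1]
  fun_prop

@[fun_prop] theorem adjB_pt {u v : α → Vx} (hf : IsPolyTime f) (hu : IsPolyTime u)
    (hv : IsPolyTime v) : IsPolyTime (fun x => adjB (f x) (u x) (v x)) := by
  unfold adjB
  simp only [Lay.adj_iff, Lay.valid, Lay.e, ← nF.eq_1, ← jtF.eq_1, ← bkF.eq_1, ← tkF.eq_1,
    show ∀ φ, (prm φ).lay.nr = 2 * rR φ + 4 from fun _ => rfl]
  fun_prop

end

theorem vs_eq (φ : Fm) : (prm φ).lay.vs = (List.range (2 * rR φ + 4)).flatMap fun ρ =>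
    (List.range (nF φ (min ρ (2 * rR φ + 4)))).flatMap fun i =>
      (List.range (th ρ + 1)).map fun p => (ρ, i, p) := by
  unfold Lay.vs
  refine List.flatMap_congr fun ρ h => ?_
  rw [min_eq_left (show ρ ≤ 2 * rR φ + 4 from (List.mem_range.1 h).le)]
  rfl

theorem mat_pt : IsPolyTime mat := by
  unfold mat
  simp only [vs_eq]
  fun_prop

theorem npHard : NPHard UBVGMat :=
  npHardOn_monoNAE3.npHard_of_reduce mat mat_pt fun φ _ => mat_iff φ

end Pool.Agent.Lib.MP_ec9af3_lc.H18
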