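import Pool.Agent.Lib.MP_ec9af3_lc.H18Inst

namespace Pool.Agent.Lib.MP_ec9af3_lc.H18

namespace Par

variable {p : Par} {x y : Vx → ℝ}

/-- The invariant for the thick row number `r`. -/
def Inv (p : Par) (x y : Vx → ℝ) (r : ℕ) : Prop :=
  InvA p.lay x y (2 * r + 2) (wd r * (3 * (1 + 4 * r))) (wd r * (3 * (p.G - 2 - 4 * r)))

/-- The relations forced by the staircase number `r`. -/
def Rl (p : Par) (x y : Vx → ℝ) (r : ℕ) : Prop :=
  Rel p.lay x y (2 * r + 2) (48 * (5 + 4 * r) - 1) (48 * (p.G - 6 - 4 * r) - 1)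

theorem wd_ge (r : ℕ) : 7 ≤ wd r ∧ wd r ≤ 8 := by unfold wd; split_ifs <;> omega

theorem wd_succ (r : ℕ) : wd (r + 1) = 8 := rfl

theorem Inv.j0 (_h : p.Ok) {r k : ℕ} (I : p.Inv x y r) (h1 : wd r * (3 * (1 + 4 * r)) ≤ k)
    (h2 : k ≤ wd r * (3 * (p.G - 2 - 4 * r))) :
    (p.jA r k = 0 → x (2 * r + 2, k, 0) = x (2 * r + 2, k - 1, 0) + 1 ∧
      TT x y (2 * r + 2) k = x (2 * r + 2, k, 0) ∧ BB x y (2 * r + 2) k = x (2 * r + 2, k, 0)) ∧
    (p.jA r k = 1 → TT x y (2 * r + 2) k = x (2 * r + 2, k, 0) ∧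
      BB x y (2 * r + 2) k = x (2 * r + 2, k - 1, 0) + 1) ∧
    (p.jA r k = 2 → TT x y (2 * r + 2) k = x (2 * r + 2, k - 1, 0) + 1 ∧
      BB x y (2 * r + 2) k = x (2 * r + 2, k, 0)) := by
  have J := I.jn k h1 h2
  rw [Jn, jtA] at J
  exact ⟨J.2.1, fun e => (J.2.2.1 e).2, fun e => (J.2.2.2 e).2⟩

theorem Inv.two (h : p.Ok) {r n : ℕ} (I : p.Inv x y r) (h1 : 1 + 4 * r ≤ n)
    (h2 : n + 1 ≤ p.G - 2 - 4 * r) :
    x (2 * r + 2, wd r * (3 * n), 0) + 2 ≤ x (2 * r + 2, wd r * (3 * (n + 1)), 0) := by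
  have w := wd_ge r
  have a := h.anchor (r := r) (u := 3 * (n + 1)) (by omega) (by omega)
  have l1 : wd r * (3 * (1 + 4 * r)) ≤ wd r * (3 * n) := Nat.mul_le_mul_left _ (by omega)
  have l2 : wd r * (3 * (n + 1)) ≤ wd r * (3 * (p.G - 2 - 4 * r)) :=
    Nat.mul_le_mul_left _ (by omega)
  have l3 : wd r * (3 * (n + 1)) = wd r * (3 * n) + 3 * wd r := by ring
  have e1 := ((I.j0 h (k := wd r * (3 * (n + 1))) (by omega) l2).1 a.1).1
  have e2 := ((I.j0 h (k := wd r * (3 * (n + 1)) - 1) (by omega) (by omega)).1 a.2.1).1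
  have e3 := mono_le (T := fun k => x (2 * r + 2, k, 0)) (a := wd r * (3 * (1 + 4 * r)))
    (b := wd r * (3 * (p.G - 2 - 4 * r))) (fun i q1 q2 => (I.jn (i + 1) (by omega) q2).1)
    (i := wd r * (3 * n)) (j := wd r * (3 * (n + 1)) - 1 - 1) l1 (by omega) (by omega)
  linarith

theorem Ok.hlo (h : p.Ok) {r i : ℕ} (hr : r ≤ p.R) (hi : i ≤ wd r * (3 * (p.G - 1))) :
    ∃ j, p.lay.G.Adj (2 * r + 2, i, 0) (2 * r + 2 + 1, j, th (2 * r + 2 + 1)) := by
  have F := h.frame
  have a := F.kK r hr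
  have b := F.uK r hr
  have c := (F.vrow r hr).gU.monotone hi
  rw [thV]
  exact ⟨_, (F.vrow r hr).adU (by omega) (by omega)⟩

theorem Ok.one (h : p.Ok) (hG : 8 * p.R + 5 ≤ p.G) (R : Rep p.lay.S p.lay.G x y) {r : ℕ}
    (hr : r < p.R) (I : p.Inv x y r) : p.Inv x y (r + 1) ∧ p.Rl x y r := by
  obtain ⟨-, i2, i3⟩ := h.frame.inner R
  have w := wd_ge r
  obtain ⟨b, hb⟩ : ∃ b, p.G = b + 6 + 4 * r := ⟨p.G - 6 - 4 * r, by omega⟩
  have eb : p.G - 2 - 4 * r = b + 3 + 1 := by omega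
  have mul : ∀ m n, m ≤ n → wd r * (3 * m) ≤ wd r * (3 * n) := fun m n e =>
    Nat.mul_le_mul_left _ (by omega)
  have mul' : ∀ m n, m < n → wd r * (3 * m) + 21 ≤ wd r * (3 * n) := fun m n e => by
    have := mul (m + 1) n e
    have : wd r * (3 * (m + 1)) = wd r * (3 * m) + 3 * wd r := by ring
    omega
  have an := fun n (hn : 1 ≤ n) => h.anchor (r := r) (u := 3 * n) (by omega) (by omega)
  have an' := fun n (hn : 1 ≤ n) => h.anchor (r := r + 1) (u := 3 * n) (by omega) (by omega)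
  have S := step R (a1 := wd r * (3 * (2 + 4 * r))) (a3 := wd r * (3 * (4 + 4 * r)))
    (b3 := wd r * (3 * (b + 1))) (b1 := wd r * (3 * (b + 3))) (a' := 8 * (3 * (4 + 4 * r)) + 1)
    (b' := 8 * (3 * (b + 1)) - 1) (a'' := 8 * (3 * (5 + 4 * r))) (b'' := 8 * (3 * b))
    (h.vrow hr.le) I (by have := mul' 0 (1 + 4 * r) (by omega); omega)
    (by have := mul' (1 + 4 * r) (2 + 4 * r) (by omega); omega) (mul _ _ (by omega))
    (mul _ _ (by omega)) (by have := mul' (b + 1) (b + 3) (by omega); omega)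
    (by have := mul' (b + 3) (p.G - 2 - 4 * r) (by omega); omega)
    (by rw [jtA]; exact (an _ (by omega)).1) (by rw [jtA]; exact (an _ (by omega)).1)
    (by rw [bkA, h.gU_cell, nV]; omega)
    (by
      have a := I.two h (n := 2 + 4 * r) (by omega) (by omega)
      have b := I.two h (n := 2 + 4 * r + 1) (by omega) (by omega)
      rw [show 2 + 4 * r + 1 + 1 = 4 + 4 * r by omega] at b
      linarith)
    (by
      have a := I.two h (n := b + 1) (by omega) (by omega)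
      have b := I.two h (n := b + 1 + 1) (by omega) (by omega)
      linarith)
    (by rw [bkA, tkA, h.gU_cell]; have := h.gL_next r (3 * (4 + 4 * r)); omega)
    (by
      rw [bkA, tkA, h.gU_cell, show 8 * (3 * (b + 1)) - 1 + 1 = 8 * (3 * (b + 1)) by omega]
      have := (an (b + 1) (by omega)).2.2.2
      omega)
    (by omega) (by omega) (by omega) (by simp only [lay]; omega)
    (by have := p.nA (r + 1); rw [wd_succ] at this; exact lt_of_lt_of_eq (by omega) this.symm)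
    (fun k => (h.vrow (r := r + 1) hr).jle k)
    ((p.jtA (r + 1) _).trans (an' _ (by omega)).1) ((p.jtA (r + 1) _).trans (an' _ (by omega)).1)
    (fun k hk e => by
      rw [tkA] at e
      exact ((h.gL_step r k).2 (by omega) e).imp (p.jtA (r + 1) _).trans (p.jtA (r + 1) _).trans)
    (fun k k1 k2 => i2 r k 0 hr.le (by have := mul' 0 (1 + 4 * r) (by omega); omega)
      (by have := mul (p.G - 2 - 4 * r) (p.G - 1) (by omega); omega) (by omega))
    (fun j k1 k2 => by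
      rw [bkA, h.gU_cell] at k1 k2
      exact i3 r j hr (by omega) (by omega))
    (fun k k1 k2 => i2 (r + 1) k 1 hr (by omega) (by rw [wd_succ]; omega) (by omega))
    (fun k k1 k2 => h.hlo (r := r + 1) hr (by rw [wd_succ]; omega))
  constructor
  · have := S.1
    rw [Inv, wd_succ, show 1 + 4 * (r + 1) = 5 + 4 * r by omega,
      show p.G - 2 - 4 * (r + 1) = b by omega]
    exact this
  · have := S.2
    have a1 := (an (5 + 4 * r) (by omega)).2.2.2
    have a2 := (an b (by omega)).2.2.2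
    rw [tkA] at this
    rw [Rl, show 48 * (5 + 4 * r) - 1 = p.gL r (8 * (3 * (5 + 4 * r))) by omega,
      show 48 * (p.G - 6 - 4 * r) - 1 = p.gL r (8 * (3 * b)) by omega]
    exact this

theorem Ok.norm (h : p.Ok) (R : Rep p.lay.S p.lay.G x y) : ∃ x y, Rep p.lay.S p.lay.G x y ∧
    UpB p.lay.S p.lay.G x y (1, 1, 0) (1, 1, 1) (1, 1, 2) ∧ x (1, 1, 0) ≤ x (1, 1 + 1, 0) := by
  have key : ∀ x y, Rep p.lay.S p.lay.G x y →
      UpB p.lay.S p.lay.G x y (1, 1, 0) (1, 1, 1) (1, 1, 2) → ∃ x y, Rep p.lay.S p.lay.G x y ∧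
      UpB p.lay.S p.lay.G x y (1, 1, 0) (1, 1, 1) (1, 1, 2) ∧ x (1, 1, 0) ≤ x (1, 1 + 1, 0) := by
    intro x y R B
    rcases le_total (x (1, 1, 0)) (x (1, 1 + 1, 0)) with e | e
    · exact ⟨x, y, R, B, e⟩
    · exact ⟨_, y, R.negX, B.negX, by simpa using e⟩
  have F := h.frame
  have := F.k1; have := F.kn; have := F.wall.n1; have := F.wall.vr
  rcases R.brick_cases (memS (ρ := 1) (i := 1) (p := 1) (by omega) (by omega) (by simp [th1]))
    ((F.inner R).1 1 1 (by omega) (by omega) le_rfl) (nb_mid th1) with B | B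
  · exact key x y R B
  · exact key _ _ R.negY B.negY

theorem Ok.all (h : p.Ok) (hG : 8 * p.R + 5 ≤ p.G) (R : Rep p.lay.S p.lay.G x y) :
    ∃ x y, (∀ r, r ≤ p.R → p.Inv x y r) ∧ ∀ r, r < p.R → p.Rl x y r := by
  obtain ⟨x, y, R, B, e⟩ := h.norm R
  obtain ⟨i1, i2, -⟩ := h.frame.inner R
  have w0 : wd 0 = 7 := rfl
  have key : ∀ r, r ≤ p.R → p.Inv x y r := by
    intro r
    induction r with
    | zero =>
      intro _
      refine h.wall.base R (p := 1) (q := 21 * (p.G - 1) - 2) (by have := h.frame.kn; omega)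
        (by rw [w0]; omega) (by rw [w0]; omega) (by rw [w0]; omega)
        (fun i a b => ⟨i1 i 1 a b le_rfl, i1 i 0 a b (by omega)⟩)
        (fun i a b => ⟨i2 0 i 1 (by omega) (by omega) (by rw [w0]; omega) (by omega),
          i2 0 i 2 (by omega) (by omega) (by rw [w0]; omega) le_rfl⟩)
        (fun i a => h.hlo (r := 0) (by omega) (by rw [w0]; omega)) B e
    | succ r ih => exact fun hr => (h.one hG R hr (ih (by omega))).1
  exact ⟨x, y, key, fun r hr => (h.one hG R hr (key r hr.le)).2⟩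

/-- The staircase number `r` goes up. -/
def Up (p : Par) (x y : Vx → ℝ) (r : ℕ) : Prop :=
  ∀ j, 48 * (5 + 4 * r) - 1 ≤ j → j < 48 * (p.G - 6 - 4 * r) - 1 →
    BB x y (2 * r + 2 + 1) (j + 1) = TT x y (2 * r + 2 + 1) j + 1

/-- The staircase number `r` goes down. -/
def Dn (p : Par) (x y : Vx → ℝ) (r : ℕ) : Prop :=
  ∀ j, 48 * (5 + 4 * r) - 1 ≤ j → j < 48 * (p.G - 6 - 4 * r) - 1 →
    BB x y (2 * r + 2 + 1) j = TT x y (2 * r + 2 + 1) (j + 1) - 1

/-- The left end of the cell `u` in the thick row `r`. -/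
def Xa (x : Vx → ℝ) (r u : ℕ) : ℝ := x (2 * r + 2, wd r * u, 0)

section

variable (h : p.Ok) {r : ℕ} (I : p.Inv x y r) (I' : p.Inv x y (r + 1)) (L : p.Rl x y r)
include h I I' L

theorem Ok.shift {u : ℕ} (h1 : 3 * (5 + 4 * r) < u) (h2 : u < 3 * (p.G - 6 - 4 * r))
    (h3 : 2 ≤ r ∨ u % 3 = 0) :
    (p.Up x y r → Xa x (r + 1) u = Xa x r u) ∧ (p.Dn x y r → Xa x (r + 1) u = Xa x r u - 1) := by
  have w := wd_ge r
  have a := h.anchor (r := r) (u := u) (by omega) h3
  have a' := h.anchor (r := r + 1) (u := u) (by omega) (by omega)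
  have l1 : wd r * (3 * (1 + 4 * r) + 1) ≤ wd r * u := Nat.mul_le_mul_left _ (by omega)
  have l2 : wd r * u ≤ wd r * (3 * (p.G - 2 - 4 * r)) := Nat.mul_le_mul_left _ (by omega)
  rw [Nat.mul_succ] at l1
  have e1 := (I.j0 h (k := wd r * u) (by omega) l2).1 a.1
  have e2 := (I.j0 h (k := wd r * u - 1) (by omega) (by omega)).1 a.2.1
  have e3 := (I'.j0 h (k := wd (r + 1) * u) (by rw [wd_succ]; omega)
    (by rw [wd_succ]; omega)).1 a'.1
  have g := h.gU_cell r u
  have f1 := L.exU (wd r * u) (by rw [bkA]; omega) (by rw [bkA]; omega)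
  have f2 := L.exU (wd r * u - 1) (by rw [bkA]; omega) (by rw [bkA]; omega)
  have f3 := L.exL (8 * u) (by rw [tkA]; omega) (by rw [tkA]; omega)
  rw [bkA, g] at f1
  rw [bkA, show p.gU r (wd r * u - 1) = 16 * u - 2 by omega] at f2
  rw [tkA, show p.gL r (8 * u) = 16 * u - 1 by omega] at f3
  have f4 : TT x y (2 * r + 2 + 1 + 1) (8 * u) = Xa x (r + 1) u := e3.2.1
  unfold Xa at f4 ⊢
  constructor
  · intro U
    have := U (16 * u - 2) (by omega) (by omega)
    rw [show 16 * u - 2 + 1 = 16 * u - 1 by omega] at this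
    linarith [e1.1, e2.2.2]
  · intro U
    have := U (16 * u - 1) (by omega) (by omega)
    rw [show 16 * u - 1 + 1 = 16 * u by omega] at this
    linarith [e1.2.2]

theorem Ok.lit {u : ℕ} (h1 : 3 * (5 + 4 * r) < u) (h2 : u + 1 < 3 * (p.G - 6 - 4 * r))
    (h3 : p.L u = r) :
    (p.P u = 0 → p.Up x y r → Xa x r u + 7 < Xa x r (u + 1)) ∧
      (p.P u = 1 → p.Dn x y r → Xa x r u + 7 < Xa x r (u + 1)) := by
  have l3 := h.L3 u
  obtain ⟨r, rfl⟩ : ∃ s, r = s + 1 := ⟨r - 1, by omega⟩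
  have v : p.vk (r + 1) u = 8 + p.P u := by
    unfold vk
    split_ifs <;> first | contradiction | omega
  have s0 := h.shift I I' L (u := u) h1 (by omega) (by omega)
  have s1 := h.shift I I' L (u := u + 1) (by omega) h2 (by omega)
  have J := fun i (hi : i ≤ 8) => I.j0 h (k := 8 * u + i) (by rw [wd_succ]; omega)
    (by rw [wd_succ]; omega)
  have J' := fun i (hi : i ≤ 8) => I'.j0 h (k := 8 * u + i) (by rw [wd_succ]; omega)
    (by rw [wd_succ]; omega)
  have ju : ∀ i, i ≤ 8 → p.jA (r + 1) (8 * u + i) = _ := fun i hi => h.jA_eq (r + 1) u hi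
  have jl := fun i (hi : i ≤ 8) => h.jA_lo (r + 1) u hi
  have gu : ∀ i, i ≤ 8 → p.gU (r + 1) (8 * u + i) = _ := fun i hi => h.gU_eq (r + 1) u hi
  have gl := fun i (hi : i < 8) => gL_eq (p := p) (r + 1) u hi
  unfold Xa at s0 s1 ⊢
  simp only [wd_succ, show 8 * (u + 1) = 8 * u + 8 by omega] at s0 s1 ⊢
  constructor
  · intro P U
    rw [v, P] at ju jl gu gl
    have a1 := ((J 1 (by omega)).1 (ju 1 (by omega))).1
    have a2 := ((J 2 (by omega)).2.1 (ju 2 (by omega))).2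
    have b4 := ((J' 4 (by omega)).2.1 (jl 4 (by omega))).1
    have b5 := ((J' 5 (by omega)).1 (jl 5 (by omega))).1
    have b6 := ((J' 6 (by omega)).1 (jl 6 (by omega))).1
    have b7 := ((J' 7 (by omega)).1 (jl 7 (by omega))).1
    have b8 := ((J' 8 (by omega)).1 (jl 8 (by omega))).1
    have g2 : p.gU (r + 1) (8 * u + 2) = 16 * u + 4 := gu 2 (by omega)
    have g4 : p.gL (r + 1) (8 * u + 4) = 16 * u + 6 + 1 := gl 3 (by omega)
    have f1 := L.exU (8 * u + 2) (by rw [bkA]; omega) (by rw [bkA]; omega)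
    have f2 := L.exL (8 * u + 4) (by rw [tkA]; omega) (by rw [tkA]; omega)
    rw [bkA, g2] at f1
    rw [tkA, g4] at f2
    have f3 := U (16 * u + 6) (by omega) (by omega)
    have f4 := mono_lt L.mono (i := 16 * u + 4) (j := 16 * u + 6) (by omega) (by omega) (by omega)
    have f5 : TT x y (2 * (r + 1) + 2 + 1 + 1) (8 * u + 4) = _ := b4
    have := s1.1 U
    simp only [Nat.add_succ_sub_one, add_zero] at a1 a2 b5 b6 b7 b8
    linarith
  · intro P U
    rw [v, P] at ju jl gu gl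
    have a4 := ((J 4 (by omega)).2.2 (ju 4 (by omega))).2
    have a5 := ((J 5 (by omega)).1 (ju 5 (by omega))).1
    have a6 := ((J 6 (by omega)).1 (ju 6 (by omega))).1
    have a7 := ((J 7 (by omega)).1 (ju 7 (by omega))).1
    have a8 := ((J 8 (by omega)).1 (ju 8 (by omega))).1
    have b1 := ((J' 1 (by omega)).1 (jl 1 (by omega))).1
    have b2 := ((J' 2 (by omega)).1 (jl 2 (by omega))).1
    have b3 := ((J' 3 (by omega)).2.2 (jl 3 (by omega))).1
    have g4 : p.gU (r + 1) (8 * u + 4) = 16 * u + 8 := gu 4 (by omega)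
    have g3 : p.gL (r + 1) (8 * u + 3) = 16 * u + 5 := gl 2 (by omega)
    have f1 := L.exU (8 * u + 4) (by rw [bkA]; omega) (by rw [bkA]; omega)
    have f2 := L.exL (8 * u + 3) (by rw [tkA]; omega) (by rw [tkA]; omega)
    rw [bkA, g4] at f1
    rw [tkA, g3] at f2
    have f3 := U (16 * u + 5) (by omega) (by omega)
    have f4 := mono_lt L.mono (i := 16 * u + 5 + 1) (j := 16 * u + 8) (by omega) (by omega)
      (by omega)
    have f5 : TT x y (2 * (r + 1) + 2 + 1 + 1) (8 * u + 3) = _ := b3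
    have := s0.2 U
    simp only [Nat.add_succ_sub_one, add_zero] at a5 a6 a7 a8 b1 b2 f5
    linarith

end

/-- Soundness: a representation gives an assignment of directions to the rows such that every
group of three cells in the middle has a cell whose sign agrees with its row. -/
theorem Ok.sound (h : p.Ok) (hG : 8 * p.R + 5 ≤ p.G) (h2 : 2 ≤ p.R)
    (R : Rep p.lay.S p.lay.G x y) : ∃ s : ℕ → Prop, ∀ n, 4 * p.R + 2 ≤ n → n + 4 * p.R + 4 ≤ p.G →
      (∀ g, g < 3 → p.L (3 * n + g) < p.R) →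
      ∃ g, g < 3 ∧ (p.P (3 * n + g) = 0 → ¬ s (p.L (3 * n + g))) ∧
        (p.P (3 * n + g) = 1 → s (p.L (3 * n + g))) := by
  obtain ⟨x, y, I, L⟩ := h.all hG R
  refine ⟨p.Up x y, fun n n1 n2 hL => ?_⟩
  have diff : ∀ r u v, r < p.R → 3 * n ≤ u → u ≤ 3 * n + 3 → 3 * n ≤ v → v ≤ 3 * n + 3 →
      (2 ≤ r ∨ (u % 3 = 0 ∧ v % 3 = 0)) →
      Xa x (r + 1) v - Xa x (r + 1) u = Xa x r v - Xa x r u := by
    intro r u v hr u1 u2 v1 v2 c
    have a := h.shift (I r hr.le) (I (r + 1) hr) (L r hr) (u := u) (by omega) (by omega) (by omega)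
    have b := h.shift (I r hr.le) (I (r + 1) hr) (L r hr) (u := v) (by omega) (by omega) (by omega)
    rcases (L r hr).dir with d | d
    · linarith [a.1 d, b.1 d]
    · linarith [a.2 d, b.2 d]
  have d2 : ∀ r u, 2 ≤ r → r ≤ p.R → 3 * n ≤ u → u < 3 * n + 3 →
      Xa x r (u + 1) - Xa x r u = Xa x 2 (u + 1) - Xa x 2 u := by
    intro r u hr
    induction r, hr using Nat.le_induction with
    | base => exact fun _ _ _ => rfl
    | succ r hr ih =>
      intro a b c
      rw [diff r u (u + 1) a b c.le (by omega) c (Or.inl hr), ih (by omega) b c]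
  have d0 : ∀ i, i ≤ 21 → x (2 * 0 + 2, 7 * (3 * n) + i, 0) = Xa x 0 (3 * n) + i := by
    intro i
    induction i with
    | zero => intro _; simp [Xa, wd]
    | succ i ih =>
      intro hi
      have w0 : wd 0 = 7 := rfl
      have := (((I 0 (by omega)).j0 h (k := 7 * (3 * n) + (i + 1)) (by rw [w0]; omega)
        (by rw [w0]; omega)).1 (h.jA0 _)).1
      rw [this, show 7 * (3 * n) + (i + 1) - 1 = 7 * (3 * n) + i by omega, ih (by omega)]
      push_cast
      ring
  have d21 : Xa x 0 (3 * n + 3) = Xa x 0 (3 * n) + (21 : ℕ) := by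
    rw [← d0 21 le_rfl, show 7 * (3 * n) + 21 = wd 0 * (3 * n + 3) by simp only [wd]; simp; omega]
    rfl
  have e0 := diff 0 (3 * n) (3 * n + 3) (by omega) le_rfl (by omega) (by omega) le_rfl (by omega)
  have e1 := diff 1 (3 * n) (3 * n + 3) (by omega) le_rfl (by omega) (by omega) le_rfl (by omega)
  have ex : ∃ g, g < 3 ∧ Xa x 2 (3 * n + g + 1) - Xa x 2 (3 * n + g) ≤ 7 := by
    by_contra hc
    push Not at hc
    have c0 := hc 0 (by omega)
    have c1 := hc 1 (by omega)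
    have c2 := hc 2 (by omega)
    norm_num [add_assoc] at c0 c1 c2 e0 e1 d21
    linarith
  obtain ⟨g, g3, hg⟩ := ex
  have hr := hL g g3
  have l3 := h.L3 (3 * n + g)
  have t := h.lit (I _ hr.le) (I _ hr) (L _ hr) (u := 3 * n + g) (by omega) (by omega) rfl
  rw [← d2 _ _ (show 2 ≤ p.L (3 * n + g) by omega) hr.le (by omega) (by omega)] at hg
  refine ⟨g, g3, fun P U => by linarith [t.1 P U], fun P => ?_⟩
  exact (L _ hr).dir.resolve_right fun U => by linarith [t.2 P U]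

end Par

end Pool.Agent.Lib.MP_ec9af3_lc.H18
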