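import Pool.Agent.Lib.MP_ec9af3_lc.H18StepV

namespace Pool.Agent.Lib.MP_ec9af3_lc.H18

variable {D : Lay} {x y : Vx → ℝ}

/-- The relations a staircase row forces between the rows above and below it. -/
structure Rel (D : Lay) (x y : Vx → ℝ) (ρ lo hi : ℕ) : Prop where
  mono : ∀ j, lo ≤ j → j < hi → TT x y (ρ + 1) j < TT x y (ρ + 1) (j + 1)
  exU : ∀ k, lo ≤ D.bk ρ k → D.bk ρ k ≤ hi → TT x y (ρ + 1) (D.bk ρ k) = BB x y ρ k
  exL : ∀ k, lo ≤ D.tk (ρ + 1 + 1) k → D.tk (ρ + 1 + 1) k ≤ hi →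
    BB x y (ρ + 1) (D.tk (ρ + 1 + 1) k) = TT x y (ρ + 1 + 1) k
  dir : (∀ j, lo ≤ j → j < hi → BB x y (ρ + 1) (j + 1) = TT x y (ρ + 1) j + 1) ∨
    (∀ j, lo ≤ j → j < hi → BB x y (ρ + 1) j = TT x y (ρ + 1) (j + 1) - 1)

theorem step (R : Rep D.S D.G x y) {ρ a b a1 a3 b3 b1 a' b' a'' b'' : ℕ} (W : VRow D ρ)
    (I : InvA D x y ρ a b) (ha : 1 ≤ a) (h1 : a + 3 ≤ a1) (h2 : a1 ≤ a3) (h3 : a3 ≤ b3)
    (h4 : b3 + 1 ≤ b1) (h5 : b1 + 3 ≤ b) (ja : D.jt ρ a = 0) (jb : D.jt ρ b = 0)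
    (vb : D.bk ρ b ≤ D.n (ρ + 1)) (hL : x (ρ, a1, 0) + 3 ≤ x (ρ, a3, 0))
    (hR : x (ρ, b3, 0) + 3 ≤ x (ρ, b1, 0)) (l1 : D.bk ρ a3 ≤ D.tk (ρ + 1 + 1) a')
    (l2 : D.tk (ρ + 1 + 1) (b' + 1) ≤ D.bk ρ b3 + 1) (k1 : a' + 2 ≤ a'') (k2 : a'' ≤ b'')
    (k3 : b'' + 1 ≤ b') (vr : ρ + 1 + 1 < D.nr) (vb' : b' < D.n (ρ + 1 + 1))
    (hj : ∀ k, D.jt (ρ + 1 + 1) k ≤ 2) (ja' : D.jt (ρ + 1 + 1) a'' = 0)
    (jb' : D.jt (ρ + 1 + 1) b'' = 0)
    (fibL : ∀ k, a' ≤ k → D.tk (ρ + 1 + 1) (k + 1) = D.tk (ρ + 1 + 1) k + 1 →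
      D.jt (ρ + 1 + 1) k = 2 ∨ D.jt (ρ + 1 + 1) (k + 1) = 1)
    (inn : ∀ k, a ≤ k → k < b → Inner D.S x y (ρ, k, 0))
    (innV : ∀ j, D.bk ρ a1 ≤ j → j ≤ D.bk ρ b1 → Inner D.S x y (ρ + 1, j, 0))
    (innM : ∀ k, a' ≤ k → k ≤ b' → Inner D.S x y (ρ + 1 + 1, k, 1))
    (hlo : ∀ i, a' ≤ i → i ≤ b' →
      ∃ j, D.G.Adj (ρ + 1 + 1, i, 0) (ρ + 1 + 1 + 1, j, th (ρ + 1 + 1 + 1))) :
    InvA D x y (ρ + 1 + 1) a'' b'' ∧
      Rel D x y ρ (D.tk (ρ + 1 + 1) a'') (D.tk (ρ + 1 + 1) b'') := by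
  obtain ⟨U, C, hU⟩ := I.ex
  have P := topV R W C hU I ha (by omega) ja jb vb inn
  have gm := W.gU
  have lm := W.gL
  have n1 : D.bk ρ a < D.bk ρ (a + 1) := gm (by omega)
  have n2 : D.bk ρ (a + 1) < D.bk ρ a1 := gm (by omega)
  have n3 : D.bk ρ a1 ≤ D.bk ρ a3 := gm.monotone h2
  have n4 : D.bk ρ a3 ≤ D.bk ρ b3 := gm.monotone h3
  have n5 : D.bk ρ b3 < D.bk ρ b1 := gm h4
  have n6 : D.bk ρ b1 < D.bk ρ (b - 1) := gm (by omega)
  have n7 : D.bk ρ (b - 1) < D.bk ρ b := gm (by omega)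
  have n8 : D.tk (ρ + 1 + 1) a' < D.tk (ρ + 1 + 1) (b' + 1) := lm (by omega)
  have g0 : 1 ≤ D.bk ρ a := le_trans ha (gm.id_le a)
  have adj : ∀ j, j + 1 < D.bk ρ b → D.G.Adj (ρ + 1, j, 0) (ρ + 1, j + 1, 0) := by
    intro j h
    have := Lay.adj_up (i := j) W.vr (by omega) (W.jt1 _)
    rwa [W.t0] at this
  -- the two kinds of junctions
  have jc : ∀ j, D.bk ρ (a + 1) ≤ j → j ≤ D.bk ρ (b - 1) →
      x (ρ + 1, j - 1, 0) < x (ρ + 1, j, 0) ∧ x (ρ + 1, j, 0) < x (ρ + 1, j - 1, 0) + 1 ∧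
      ((y (ρ + 1, j - 1, 0) < y (ρ + 1, j, 0) ∧ TT x y (ρ + 1) j = x (ρ + 1, j, 0) ∧
        BB x y (ρ + 1) j = x (ρ + 1, j - 1, 0) + 1) ∨
      (y (ρ + 1, j, 0) < y (ρ + 1, j - 1, 0) ∧ TT x y (ρ + 1) j = x (ρ + 1, j - 1, 0) + 1 ∧
        BB x y (ρ + 1) j = x (ρ + 1, j, 0))) := by
    intro j p q
    obtain ⟨i, rfl⟩ : ∃ i, j = i + 1 := ⟨j - 1, by omega⟩
    have ad := adj i (by omega)
    unfold TT BB jT jB
    simp only [Nat.add_sub_cancel, W.t0]
    refine ⟨P.hx i p q, (R.adj_x ad).2, ?_⟩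
    rcases R.adj_y ad with o | o
    · exact Or.inl ⟨o, if_pos o, if_neg (not_lt.2 o.le)⟩
    · exact Or.inr ⟨o, if_neg (not_lt.2 o.le), if_pos o⟩
  have short : ∀ j, D.bk ρ a1 ≤ j → j < D.bk ρ b1 →
      TT x y (ρ + 1) (j + 1) < TT x y (ρ + 1) j + 1 := by
    intro j p q
    obtain ⟨k, p1, p2, p3, p4⟩ := exists_fib (D.bk ρ) p q (by omega)
    have e1 := P.ex k (by omega) (by omega)
    have e2 := P.ex (k + 1) (by omega) (by omega)
    have J1 := I.jn k (by omega) (by omega)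
    have J2 := I.jn (k + 1) (by omega) (by omega)
    have b1' := J1.bnd (W.jle _)
    have b2' := J2.bnd (W.jle _)
    have r1 : D.bk ρ a1 ≤ D.bk ρ k := gm.monotone p1
    have r2 : D.bk ρ (k + 1) ≤ D.bk ρ b1 := gm.monotone p2
    simp only [Nat.add_sub_cancel] at b2'
    have o1 := mono_le P.mono (i := D.bk ρ k) (j := j) (by omega) p3 (by omega)
    have o2 := mono_le P.mono (i := j + 1) (j := D.bk ρ (k + 1)) (by omega) p4 (by omega)
    rcases p3.eq_or_lt with e | e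
    · rcases (show j + 1 ≤ _ from p4).eq_or_lt with e' | e'
      · rcases W.fibU k (by omega) with h | h
        · obtain ⟨c1, c2, c3⟩ := J1.2.2.1 h
          linarith [b2'.2.1]
        · obtain ⟨c1, c2, c3⟩ := J2.2.2.2 h
          simp only [Nat.add_sub_cancel] at c1
          linarith [b1'.1]
      · linarith [mono_lt P.mono (i := j + 1) (j := D.bk ρ (k + 1)) (by omega) e' (by omega),
          b1'.1, b2'.2.1]
    · linarith [mono_lt P.mono (i := D.bk ρ k) (j := j) (by omega) e (by omega), b1'.1, b2'.2.1]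
  have nopeak : ∀ j, D.bk ρ a1 ≤ j → j < D.bk ρ b1 → y (ρ + 1, j - 1, 0) < y (ρ + 1, j, 0) →
      y (ρ + 1, j + 1, 0) < y (ρ + 1, j, 0) → False := by
    intro j p q o o'
    have s := short j p q
    rcases (jc j (by omega) (by omega)).2.2 with c | c
    · rcases (jc (j + 1) (by omega) (by omega)).2.2 with c' | c'
      · simp only [Nat.add_sub_cancel] at c'
        linarith [c'.1]
      · simp only [Nat.add_sub_cancel] at c'
        linarith [c.2.1, c'.2.1]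
    · linarith [c.1]
  have upn : ∀ j k, D.bk ρ a ≤ j → j < D.bk ρ b → D.G.Adj (ρ + 1, j, 0) (ρ, k, 0) →
      D.bk ρ k < D.tk (ρ + 1) (j + 1) → D.tk (ρ + 1) j < D.bk ρ (k + 1) →
      (ρ, k, 0) ∈ U ∧ y (ρ + 1, j, 0) < y (ρ, k, 0) := by
    intro j k p q ad r1 r2
    rw [W.tk1] at r1 r2
    have : a ≤ k := by have := gm.lt_iff_lt (a := a) (b := k + 1); omega
    have : k < b := by have := gm.lt_iff_lt (a := k) (b := b); omega
    obtain ⟨t, t1, t2, gt⟩ := exists_gen D.S x (C.mono k (by omega) (by omega))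
    exact ⟨(C.low k t (by omega) (by omega) gt t1 t2).2.1,
      R.below (I.up k (by omega) (by omega)) ad.symm (by simp)⟩
  have dn : ∀ j k, D.bk ρ a1 ≤ j → j < D.bk ρ b1 → D.G.Adj (ρ + 1, j, 0) (ρ + 1 + 1, k, 2) →
      D.tk (ρ + 1 + 1) k ≤ j → j < D.tk (ρ + 1 + 1) (k + 1) →
      y (ρ + 1 + 1, k, 2) < y (ρ + 1, j, 0) := by
    intro j k p q ad r1 r2
    rcases R.adj_y ad with o | o
    swap
    · exact o
    exfalso
    have c1 := jc j (by omega) (by omega)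
    have c2 := jc (j + 1) (by omega) (by omega)
    simp only [Nat.add_sub_cancel] at c2
    have low : ∀ t, Gen D.S x t → Cr x t (ρ + 1, j, 0) → ∃ i, (i = j + 1 ∨ i = j - 1) ∧
        Cr x t (ρ + 1, i, 0) ∧ y (ρ + 1, i, 0) < y (ρ + 1, j, 0) := by
      intro t gt c
      obtain ⟨-, ⟨u, hu, d1, d2⟩⟩ := innV j p q.le t c
      obtain ⟨w, w1, w2, -⟩ := R.exists_down gt (R.mem ad) c hu d1 d2
      rcases nb_thin W.t0 w1 with e | e | ⟨k', e, s1, s2⟩ | ⟨k', e, s1, s2⟩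
      · exact ⟨_, Or.inl rfl, e ▸ w2.cu, e ▸ w2.lt⟩
      · exact ⟨_, Or.inr rfl, e.2 ▸ w2.cu, e.2 ▸ w2.lt⟩
      · rw [W.bk1] at s1 s2
        obtain rfl := fib_unique lm r1 r2 (by omega) s1
        rw [e, W.t2'] at w2
        linarith [w2.lt]
      · rw [e] at w1 w2
        linarith [(upn j k' (by omega) (by omega) w1 s1 s2).2, w2.lt]
    obtain ⟨t, t1, t2, gt⟩ := exists_gen D.S x
      (show x (ρ + 1, j - 1, 0) + 1 < x (ρ + 1, j, 0) + 1 by linarith [c1.1])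
    obtain ⟨t', t1', t2', gt'⟩ := exists_gen D.S x c2.1
    obtain ⟨i, e, d1, d2⟩ := low t gt ⟨by linarith [c1.2.1], t2⟩
    obtain ⟨i', e', d1', d2'⟩ := low t' gt' ⟨t1', by linarith [c2.2.1]⟩
    rcases e with rfl | rfl
    · rcases e' with rfl | rfl
      · linarith [d1'.1]
      · exact nopeak j p q d2' d2
    · linarith [d1.2]
  set Rw : Set Vx := {w | w.1 = ρ + 1 ∧ D.bk ρ a1 ≤ w.2.1 ∧ w.2.1 ≤ D.bk ρ b1 ∧ w.2.2 = 0}
    with hRw
  have hx' : ∀ j, D.bk ρ a1 ≤ j → j < D.bk ρ b1 → x (ρ + 1, j, 0) < x (ρ + 1, j + 1, 0) :=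
    fun j p q => P.hx j (by omega) (by omega)
  have monoB : ∀ j, D.bk ρ a1 ≤ j → j < D.bk ρ b1 →
      BB x y (ρ + 1) j < BB x y (ρ + 1) (j + 1) := by
    intro j p q
    have c1 := jc j (by omega) (by omega)
    have c2 := jc (j + 1) (by omega) (by omega)
    simp only [Nat.add_sub_cancel] at c2
    rcases c1.2.2 with c | c <;> rcases c2.2.2 with c' | c'
    · linarith [c.2.2, c'.2.2, c1.1]
    · exact (nopeak j p q c.1 c'.1).elim
    · linarith [c.2.2, c'.2.2]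
    · linarith [c.2.2, c'.2.2, c2.1]
  have bd : ∀ j, D.bk ρ (a + 1) ≤ j → j ≤ D.bk ρ (b - 1) →
      x (ρ + 1, j, 0) ≤ BB x y (ρ + 1) j ∧ BB x y (ρ + 1) j ≤ x (ρ + 1, j - 1, 0) + 1 ∧
      x (ρ + 1, j, 0) ≤ TT x y (ρ + 1) j ∧ TT x y (ρ + 1) j < x (ρ + 1, j, 0) + 1 := by
    intro j p q
    obtain ⟨c1, c2, c | c⟩ := jc j p q
    · refine ⟨?_, ?_, ?_, ?_⟩ <;> linarith [c.2.1, c.2.2]
    · refine ⟨?_, ?_, ?_, ?_⟩ <;> linarith [c.2.1, c.2.2]
  have Ja1 := I.jn a1 (by omega) (by omega)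
  have Jb3 := I.jn b3 (by omega) (by omega)
  have Ba1 := Ja1.bnd (W.jle _)
  have Ba3 := (I.jn a3 (by omega) (by omega)).bnd (W.jle _)
  have Bb3 := Jb3.bnd (W.jle _)
  have Bb1 := (I.jn b1 (by omega) (by omega)).bnd (W.jle _)
  have Ea1 := P.ex a1 h1 (by omega)
  have Ea3 := P.ex a3 (by omega) (by omega)
  have Eb3 := P.ex b3 (by omega) (by omega)
  have Eb1 := P.ex b1 (by omega) h5
  have q1 : x (ρ, a1, 0) + 2 ≤ BB x y (ρ + 1) (D.tk (ρ + 1 + 1) a') := by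
    have := bd (D.tk (ρ + 1 + 1) a') (by omega) (by omega)
    linarith [mono_le P.mono (i := D.bk ρ a3) (by omega) l1 (by omega), this.1, this.2.2.2, Ba3.1]
  have q2 : BB x y (ρ + 1) (D.tk (ρ + 1 + 1) (b' + 1)) ≤ x (ρ, b1, 0) - 1 := by
    have t1 := bd (D.tk (ρ + 1 + 1) (b' + 1)) (by omega) (by omega)
    have t2 := bd (D.tk (ρ + 1 + 1) (b' + 1) - 1) (by omega) (by omega)
    linarith [mono_le P.mono (i := D.tk (ρ + 1 + 1) (b' + 1) - 1) (j := D.bk ρ b3) (by omega)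
      (by omega) (by omega), t1.2.1, t2.2.2.1, Bb3.2.1, Jb3.1]
  have q3 : x (ρ + 1, D.bk ρ a1, 0) ≤ x (ρ, a1, 0) + 1 := by
    linarith [(bd (D.bk ρ a1) (by omega) (by omega)).2.2.1, Ba1.2.1, Ja1.1]
  have q4 : x (ρ, b1, 0) - 1 ≤ x (ρ + 1, D.bk ρ b1, 0) := by
    linarith [(bd (D.bk ρ b1) (by omega) (by omega)).2.2.2, Bb1.1]
  have rng : ∀ t, BB x y (ρ + 1) (D.tk (ρ + 1 + 1) a') < t →
      t < BB x y (ρ + 1) (D.tk (ρ + 1 + 1) (b' + 1)) →
      BB x y ρ (a + 1) < t ∧ t < BB x y ρ (b - 1) ∧ BB x y ρ a1 < t ∧ t < BB x y ρ b1 := by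
    intro t t1 t2
    have := mono_le C.mono (i := a + 1) (j := a1) (by omega) (by omega) (by omega)
    have := mono_le C.mono (i := b1) (j := b - 1) (by omega) (by omega) (by omega)
    refine ⟨?_, ?_, ?_, ?_⟩ <;> linarith [Ba1.2.1, Ja1.1, Bb1.1]
  have sepU : ∀ t, Gen D.S x t → BB x y ρ (a + 1) < t → t < BB x y ρ (b - 1) →
      ∀ w ∈ D.S, w ∉ U → Cr x t w → ∀ u ∈ D.S, u ∈ U → Cr x t u → y w < y u := by
    intro t g p q w hw h c u hu h' c'
    obtain ⟨i, -, -, -, -, T⟩ := P.cov t g p q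
    exact ((T.2.2.2 w hw c).1 h).trans_lt ((T.2.2.2 u hu c').2 h')
  have idx : ∀ t j, BB x y (ρ + 1) (D.tk (ρ + 1 + 1) a') < t →
      t < BB x y (ρ + 1) (D.tk (ρ + 1 + 1) (b' + 1)) → D.bk ρ a1 ≤ j → j ≤ D.bk ρ b1 →
      Cr x t (ρ + 1, j, 0) → D.bk ρ a1 < j ∧ j < D.bk ρ b1 := by
    intro t j t1 t2 p q c
    constructor
    · rcases p.eq_or_lt with e | e
      · rw [← e] at c; linarith [c.2]
      · exact e
    · rcases q.eq_or_lt with e | e
      · rw [e] at c; linarith [c.1]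
      · exact e
  have h3' : ∀ t, Gen D.S x t → BB x y (ρ + 1) (D.tk (ρ + 1 + 1) a') < t →
      t < BB x y (ρ + 1) (D.tk (ρ + 1 + 1) (b' + 1)) → ∃ j, D.bk ρ a1 < j ∧ j < D.bk ρ b1 ∧
        BB x y (ρ + 1) j < t ∧ t < BB x y (ρ + 1) (j + 1) ∧
        LowAt D.S x y (U ∪ Rw) t (ρ + 1, j, 0) := by
    intro t g t1 t2
    obtain ⟨r1, r2, r3, r4⟩ := rng t t1 t2
    obtain ⟨i, i1, i2, i3, i4, T⟩ := P.cov t g r1 r2
    have i5 : D.bk ρ a1 ≤ i := by
      by_contra h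
      linarith [mono_le P.mono (i := i + 1) (j := D.bk ρ a1) (by omega) (by omega) (by omega)]
    have i6 : i ≤ D.bk ρ b1 := by
      by_contra h
      linarith [mono_le P.mono (i := D.bk ρ b1) (j := i) (by omega) (by omega) (by omega)]
    obtain ⟨⟨σ, j, r⟩, ⟨e, j1, j2, j3⟩, L⟩ := R.add_row (Rw := Rw) g T ⟨rfl, i5, i6, rfl⟩
      (by
        rintro ⟨σ, j, r⟩ ⟨e, j1, j2, j3⟩
        dsimp only at e j1 j2 j3
        subst e j3
        exact (P.vis j (by omega) (by omega)).2) (sepU t g r1 r2)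
      (by
        rintro ⟨σ, j, r⟩ ⟨e, j1, j2, j3⟩ c z ad hy
        dsimp only at e j1 j2 j3
        subst e j3
        obtain ⟨p1, p2⟩ := idx t j t1 t2 j1 j2 c
        rcases nb_thin W.t0 ad with e | e | ⟨k', e, s1, s2⟩ | ⟨k', e, s1, s2⟩
        · exact Or.inr (e ▸ ⟨rfl, by dsimp only; omega, by dsimp only; omega, rfl⟩)
        · exact Or.inr (e.2 ▸ ⟨rfl, by dsimp only; omega, by dsimp only; omega, rfl⟩)
        · rw [W.bk1] at s1 s2
          rw [e, W.t2'] at ad hy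
          linarith [dn j k' j1 p2 ad (by omega) s1]
        · rw [e] at ad ⊢
          exact Or.inl (upn j k' (by omega) (by omega) ad s1 s2).1)
    dsimp only at e j1 j2 j3
    subst e j3
    obtain ⟨p1, p2⟩ := idx t j t1 t2 j1 j2 L.2.2.1
    have m' := hx' (j - 1) (by omega) (by omega)
    rw [show j - 1 + 1 = j by omega] at m'
    exact ⟨j, p1, p2, R.lt_low g L (P.vis _ (by omega) (by omega)).1
      (Or.inr ⟨rfl, by dsimp only; omega, by dsimp only; omega, rfl⟩) m',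
      R.low_lt g L (P.vis _ (by omega) (by omega)).1
      (Or.inr ⟨rfl, by dsimp only; omega, by dsimp only; omega, rfl⟩) (hx' j j1 p2), L⟩
  have top : ∀ k j t, a' ≤ k → k ≤ b' → D.tk (ρ + 1 + 1) k ≤ j → j < D.tk (ρ + 1 + 1) (k + 1) →
      Gen D.S x t → BB x y (ρ + 1) j < t → t < BB x y (ρ + 1) (j + 1) →
      TopAt D.S x y (U ∪ Rw) t (ρ + 1 + 1, k, 2) ∧ BB x y (ρ + 1) (D.tk (ρ + 1 + 1) a') < t ∧
        t < BB x y (ρ + 1) (D.tk (ρ + 1 + 1) (b' + 1)) := by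
    intro k j t p q r1 r2 g t1 t2
    have u1 : D.tk (ρ + 1 + 1) a' ≤ D.tk (ρ + 1 + 1) k := lm.monotone p
    have u2 : D.tk (ρ + 1 + 1) (k + 1) ≤ D.tk (ρ + 1 + 1) (b' + 1) := lm.monotone (by omega)
    have s1 : BB x y (ρ + 1) (D.tk (ρ + 1 + 1) a') < t := by
      linarith [mono_le monoB (i := D.tk (ρ + 1 + 1) a') (j := j) (by omega) (by omega) (by omega)]
    have s2 : t < BB x y (ρ + 1) (D.tk (ρ + 1 + 1) (b' + 1)) := by
      linarith [mono_le monoB (i := j + 1) (j := D.tk (ρ + 1 + 1) (b' + 1)) (by omega) (by omega)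
        (by omega)]
    refine ⟨?_, s1, s2⟩
    obtain ⟨j', p1, p2, p3, p4, L⟩ := h3' t g s1 s2
    obtain rfl := seg_unique monoB (i := j) (by omega) (by omega) p1.le p2 t1 t2 p3 p4
    obtain ⟨w, ad, T⟩ := R.exists_top g L (innV j p1.le p2.le)
    rcases nb_thin W.t0 ad with e | e | ⟨k', e, s1, s2⟩ | ⟨k', e, s1, s2⟩
    · exact absurd (Or.inr (e ▸ ⟨rfl, by dsimp only; omega, by dsimp only; omega, rfl⟩)) T.2.1
    · exact absurd (Or.inr (e.2 ▸ ⟨rfl, by dsimp only; omega, by dsimp only; omega, rfl⟩)) T.2.1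
    · rw [W.bk1] at s1 s2
      obtain rfl := fib_unique lm r1 r2 (by omega) s1
      rwa [e, W.t2'] at T
    · rw [e] at ad T
      exact absurd (Or.inl (upn j k' (by omega) (by omega) ad s1 s2).1) T.2.1
  have tb : ∀ k, a' ≤ k → k ≤ b' + 1 → D.bk ρ a1 ≤ D.tk (ρ + 1 + 1) k ∧
      D.tk (ρ + 1 + 1) k ≤ D.bk ρ b1 := by
    intro k p q
    have u1 : D.tk (ρ + 1 + 1) a' ≤ D.tk (ρ + 1 + 1) k := lm.monotone p
    have u2 : D.tk (ρ + 1 + 1) k ≤ D.tk (ρ + 1 + 1) (b' + 1) := lm.monotone q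
    omega
  have st : ∀ k, D.tk (ρ + 1 + 1) k < D.tk (ρ + 1 + 1) (k + 1) := fun k => lm (by omega)
  have vis : ∀ k, a' ≤ k → k ≤ b' → ∃ s, Gen D.S x s ∧ BB x y (ρ + 1) (D.tk (ρ + 1 + 1) k) < s ∧
      s < BB x y (ρ + 1) (D.tk (ρ + 1 + 1) k + 1) := by
    intro k p q
    have := tb (k + 1) (by omega) (by omega)
    have := st k
    obtain ⟨s, s1, s2, g⟩ := exists_gen D.S x (monoB _ (tb k p (by omega)).1 (by omega))
    exact ⟨s, g, s1, s2⟩
  have hxA : ∀ i, a' ≤ i → i < b' → x (ρ + 1 + 1, i, 2) < x (ρ + 1 + 1, i + 1, 2) := by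
    intro i p q
    obtain ⟨s, g, s1, s2⟩ := vis i p q.le
    obtain ⟨s', g', s1', s2'⟩ := vis (i + 1) (by omega) q
    have := tb (i + 1) (by omega) (by omega)
    have := tb i (by omega) (by omega)
    exact R.top_x (top i _ s p q.le le_rfl (st i) g s1 s2).1
      (top (i + 1) _ s' (by omega) q le_rfl (st _) g' s1' s2').1
      (by
        have := mono_le monoB (i := D.tk (ρ + 1 + 1) i + 1) (j := D.tk (ρ + 1 + 1) (i + 1))
          (by omega) (st i) (by omega)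
        linarith) (by simp)
  have adL : ∀ k j, a' ≤ k → k ≤ b' → D.tk (ρ + 1 + 1) k ≤ j → j < D.tk (ρ + 1 + 1) (k + 1) →
      D.G.Adj (ρ + 1, j, 0) (ρ + 1 + 1, k, 2) := by
    intro k j p q r1 r2
    have := tb (k + 1) (by omega) (by omega)
    have ad := Lay.adj_row (i := j) (j := k) vr (by omega) (by omega)
      (by rw [W.bk1]; omega) (by rw [W.bk1]; omega)
    rwa [W.t2'] at ad
  obtain ⟨I', jn⟩ := stepA (U := U ∪ Rw) (a := a') (b := b')
    (α := BB x y (ρ + 1) (D.tk (ρ + 1 + 1) a'))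
    (β := BB x y (ρ + 1) (D.tk (ρ + 1 + 1) (b' + 1))) R W.t2' vr vb' hj
    (by
      intro t g t1 t2
      obtain ⟨j, p1, p2, p3, p4, -⟩ := h3' t g t1 t2
      have u1 : D.tk (ρ + 1 + 1) a' ≤ j := by
        by_contra h
        linarith [mono_le monoB (i := j + 1) (j := D.tk (ρ + 1 + 1) a') (by omega) (by omega)
          (by omega)]
      have u2 : j < D.tk (ρ + 1 + 1) (b' + 1) := by
        by_contra h
        linarith [mono_le monoB (i := D.tk (ρ + 1 + 1) (b' + 1)) (j := j) (by omega) (by omega)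
          (by omega)]
      obtain ⟨k, c1, c2, c3, c4⟩ := exists_fib _ u1 u2 (by omega)
      exact ⟨k, c1, by omega, (top k j t c1 (by omega) c3 c4 g p3 p4).1⟩)
    (by
      intro k p q
      obtain ⟨s, g, s1, s2⟩ := vis k p q
      have := top k _ s p q le_rfl (st k) g s1 s2
      exact ⟨s, g, this.2.1, this.2.2, this.1⟩) hxA innM
    (by
      intro k p q σ j e ad
      obtain rfl : σ = ρ + 1 := by omega
      have := tb (k + 1) (by omega) (by omega)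
      have := tb k (by omega) (by omega)
      rcases nb_top W.t2' ad with e | e | e | ⟨σ, j', e, e', s1, s2⟩
      · simp at e
      · simp at e
      · simp at e
      · simp only [Prod.mk.injEq] at e'
        obtain ⟨rfl, rfl, -⟩ := e'
        rw [W.bk1] at s1 s2
        exact Or.inr ⟨rfl, by dsimp only; omega, by dsimp only; omega, rfl⟩)
    (by
      intro k p q
      have := tb (k + 1) (by omega) (by omega)
      have := st k
      have ad := adL k _ p q le_rfl (st k)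
      exact ⟨_, ad.symm, by simp, dn _ k (tb k p (by omega)).1 (by omega) ad le_rfl (st k)⟩)
    hlo k1 k2 k3 ja' jb'
  have exL : ∀ k, a' < k → k ≤ b' →
      BB x y (ρ + 1) (D.tk (ρ + 1 + 1) k) = TT x y (ρ + 1 + 1) k := by
    intro k p q
    obtain ⟨i, rfl⟩ : ∃ i, k = i + 1 := ⟨k - 1, by omega⟩
    have := tb (i + 1) (by omega) (by omega)
    have := tb (i + 1 + 1) (by omega) (by omega)
    have := tb i (by omega) (by omega)
    have := st i
    have := st (i + 1)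
    obtain ⟨s, g, s1, s2⟩ := vis i (by omega) (by omega)
    obtain ⟨s', g', s1', s2'⟩ := vis (i + 1) (by omega) q
    have T := (top i _ s (by omega) (by omega) le_rfl (st i) g s1 s2).1
    have T' := (top (i + 1) _ s' (by omega) q le_rfl (st _) g' s1' s2').1
    unfold TT
    rw [W.t2', Nat.add_sub_cancel]
    apply le_antisymm
    · have m := monoB (D.tk (ρ + 1 + 1) (i + 1) - 1) (by omega) (by omega)
      have := ge_of_gen D.S x m fun t gt t1 t2 => R.top_lt gt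
        (top i _ t (by omega) (by omega) (by omega) (by omega) gt t1 t2).1 T'.1 T'.2.1
          (hxA i (by omega) (by omega))
      rwa [show D.tk (ρ + 1 + 1) (i + 1) - 1 + 1 = D.tk (ρ + 1 + 1) (i + 1) by omega] at this
    · exact le_of_gen D.S x (monoB _ (by omega) (by omega)) fun t gt t1 t2 => R.lt_top gt
        (top (i + 1) _ t (by omega) q le_rfl (st _) gt t1 t2).1 T.1 T.2.1
          (hxA i (by omega) (by omega))
  have ta := tb a'' (by omega) (by omega)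
  have tb' := tb b'' (by omega) (by omega)
  have u1 : D.tk (ρ + 1 + 1) a' < D.tk (ρ + 1 + 1) a'' := lm (by omega)
  have u2 : D.tk (ρ + 1 + 1) b'' < D.tk (ρ + 1 + 1) (b' + 1) := lm (by omega)
  have shortB : ∀ j, D.tk (ρ + 1 + 1) a'' ≤ j → j < D.tk (ρ + 1 + 1) b'' →
      BB x y (ρ + 1) (j + 1) < BB x y (ρ + 1) j + 1 := by
    intro j p q
    obtain ⟨k, p1, p2, p3, p4⟩ := exists_fib _ p q k2
    have e1 := exL k (by omega) (by omega)
    have e2 := exL (k + 1) (by omega) (by omega)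
    have J1 := I'.jn k p1 p2.le
    have J2 := I'.jn (k + 1) (by omega) p2
    have b1' := J1.bnd (hj _)
    have b2' := J2.bnd (hj _)
    have r1 := tb k (by omega) (by omega)
    have r2 := tb (k + 1) (by omega) (by omega)
    simp only [Nat.add_sub_cancel] at b2'
    have o1 := mono_le monoB (j := j) r1.1 p3 (by omega)
    have o2 := mono_le monoB (i := j + 1) (by omega) p4 r2.2
    rcases p3.eq_or_lt with e | e
    · rcases (show j + 1 ≤ _ from p4).eq_or_lt with e' | e'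
      · rcases fibL k (by omega) (by omega) with h | h
        · obtain ⟨c1, c2, c3⟩ := J1.2.2.2 h
          linarith [b2'.2.2.2, J1.1]
        · obtain ⟨c1, c2, c3⟩ := J2.2.2.1 h
          simp only [Nat.add_sub_cancel] at c1
          linarith [b1'.2.2.1]
      · linarith [mono_lt monoB (i := j + 1) (by omega) e' r2.2, b1'.2.2.1, b2'.2.2.2]
    · linarith [mono_lt monoB (j := j) r1.1 e (by omega), b1'.2.2.1, b2'.2.2.2]
  have uni : ∀ j, D.tk (ρ + 1 + 1) a'' ≤ j → j ≤ D.tk (ρ + 1 + 1) b'' →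
      (y (ρ + 1, j - 1, 0) < y (ρ + 1, j, 0) ↔
        y (ρ + 1, D.tk (ρ + 1 + 1) a'' - 1, 0) < y (ρ + 1, D.tk (ρ + 1 + 1) a'', 0)) := by
    intro j p
    induction j, p using Nat.le_induction with
    | base => exact fun _ => Iff.rfl
    | succ j p ih =>
      intro q
      rw [← ih (by omega), Nat.add_sub_cancel]
      have c1 := jc j (by omega) (by omega)
      have c2 := jc (j + 1) (by omega) (by omega)
      simp only [Nat.add_sub_cancel] at c2
      have s := shortB j p (by omega)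
      rcases c1.2.2 with c | c <;> rcases c2.2.2 with c' | c'
      · exact iff_of_true c'.1 c.1
      · exact (nopeak j (by omega) (by omega) c.1 c'.1).elim
      · linarith [c.2.2, c'.2.2]
      · exact iff_of_false (not_lt.2 c'.1.le) (not_lt.2 c.1.le)
  refine ⟨I', fun j p q => P.mono j (by omega) (by omega), fun k p q => P.ex k ?_ ?_,
    fun k p q => exL k ?_ ?_, ?_⟩
  · have := gm.le_iff_le (a := a3) (b := k); omega
  · have := gm.le_iff_le (a := k) (b := b3); omega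
  · have := lm.le_iff_le (a := a'') (b := k); omega
  · have := lm.le_iff_le (a := k) (b := b''); omega
  · by_cases d : y (ρ + 1, D.tk (ρ + 1 + 1) a'' - 1, 0) < y (ρ + 1, D.tk (ρ + 1 + 1) a'', 0)
    · left
      intro j p q
      have d1 := (uni j p q.le).2 d
      have d2 := (uni (j + 1) (by omega) q).2 d
      rcases (jc j (by omega) (by omega)).2.2 with c | c
      · rcases (jc (j + 1) (by omega) (by omega)).2.2 with c' | c'
        · rw [c'.2.2, c.2.1, Nat.add_sub_cancel]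
        · linarith [c'.1]
      · linarith [c.1]
    · right
      intro j p q
      have d1 := fun h => d ((uni j p q.le).1 h)
      have d2 := fun h => d ((uni (j + 1) (by omega) q).1 h)
      rcases (jc j (by omega) (by omega)).2.2 with c | c
      · exact absurd c.1 d1
      · rcases (jc (j + 1) (by omega) (by omega)).2.2 with c' | c'
        · exact absurd c'.1 d2
        · rw [c'.2.1, c.2.2, Nat.add_sub_cancel]; ring

end Pool.Agent.Lib.MP_ec9af3_lc.H18
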