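import Pool.Agent.Lib.MP_ec9af3_lc.H18Lay

namespace Pool.Agent.Lib.MP_ec9af3_lc.H18

noncomputable def TT (x y : Vx → ℝ) (ρ k : ℕ) : ℝ := jT x y (ρ, k - 1, th ρ) (ρ, k, th ρ)

noncomputable def BB (x y : Vx → ℝ) (ρ k : ℕ) : ℝ := jB x y (ρ, k - 1, 0) (ρ, k, 0)

structure Ceil (D : Lay) (x y : Vx → ℝ) (U : Set Vx) (ρ a b : ℕ) : Prop where
  vr : ρ < D.nr
  vb : b < D.n ρ
  mono : ∀ i, a ≤ i → i < b → BB x y ρ i < BB x y ρ (i + 1)
  low : ∀ i t, a ≤ i → i < b → Gen D.S x t → BB x y ρ i < t → t < BB x y ρ (i + 1) →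
    LowAt D.S x y U t (ρ, i, 0)
  sep : ∀ i t w, a ≤ i → i < b → Gen D.S x t → BB x y ρ a < t → t < BB x y ρ b → w ∈ D.S → w ∈ U →
    Cr x t w → Cr x t (ρ, i, 0) → y w < y (ρ, i, 0) → w.1 = ρ

def Jn (D : Lay) (x y : Vx → ℝ) (ρ k : ℕ) : Prop :=
  x (ρ, k - 1, 0) < x (ρ, k, 0) ∧
  (D.jt ρ k = 0 → x (ρ, k, 0) = x (ρ, k - 1, 0) + 1 ∧ TT x y ρ k = x (ρ, k, 0) ∧
    BB x y ρ k = x (ρ, k, 0)) ∧
  (D.jt ρ k = 1 → x (ρ, k, 0) < x (ρ, k - 1, 0) + 1 ∧ TT x y ρ k = x (ρ, k, 0) ∧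
    BB x y ρ k = x (ρ, k - 1, 0) + 1) ∧
  (D.jt ρ k = 2 → x (ρ, k, 0) < x (ρ, k - 1, 0) + 1 ∧ TT x y ρ k = x (ρ, k - 1, 0) + 1 ∧
    BB x y ρ k = x (ρ, k, 0))

structure InvA (D : Lay) (x y : Vx → ℝ) (ρ a b : ℕ) : Prop where
  ex : ∃ U, Ceil D x y U ρ a b ∧ ∀ k, a ≤ k + 1 → k ≤ b → (ρ, k, 2) ∈ U
  up : ∀ k, a ≤ k + 1 → k ≤ b → UpB D.S D.G x y (ρ, k, 0) (ρ, k, 1) (ρ, k, 2)
  jn : ∀ k, a ≤ k → k ≤ b → Jn D x y ρ k

variable {D : Lay} {x y : Vx → ℝ} {U : Set Vx}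

theorem memS {ρ i p : ℕ} (h1 : ρ < D.nr) (h2 : i < D.n ρ) (h3 : p ≤ th ρ) : (ρ, i, p) ∈ D.S :=
  D.mem_S.2 ⟨h1, h2, h3⟩

theorem Ceil.cover {ρ a b : ℕ} (C : Ceil D x y U ρ a b) (hab : a ≤ b) {t : ℝ} (g : Gen D.S x t)
    (h1 : BB x y ρ a < t) (h2 : t < BB x y ρ b) :
    ∃ i, a ≤ i ∧ i < b ∧ BB x y ρ i < t ∧ t < BB x y ρ (i + 1) ∧ LowAt D.S x y U t (ρ, i, 0) := by
  have := C.vb
  obtain ⟨i, k1, k2, k3, k4⟩ := exists_seg (BB x y ρ) hab h1 h2 fun i _ hi =>
    g.ne_jB (memS C.vr (by omega) (Nat.zero_le _)) (memS C.vr (by omega) (Nat.zero_le _))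
  exact ⟨i, k1, k2, k3, k4, C.low i t k1 k2 g k3 k4⟩

theorem Ceil.sight (R : Rep D.S D.G x y) {ρ a b k : ℕ} (C : Ceil D x y U ρ a b) (h1 : a ≤ k)
    (h2 : k < b) {w : Vx} (hw : w.1 ≠ ρ) (ad : D.G.Adj (ρ, k, 0) w) (hy : y w < y (ρ, k, 0))
    (r1 : BB x y ρ a ≤ x (ρ, k, 0)) (r2 : x (ρ, k, 0) + 1 ≤ BB x y ρ b) :
    ∃ s, Gen D.S x s ∧ BB x y ρ k < s ∧ s < BB x y ρ (k + 1) ∧ TopAt D.S x y U s w := by
  obtain ⟨s, st⟩ := R.sees_of_adj ad.symm hy
  have c := st.cv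
  have p1 : BB x y ρ a < s := by linarith [c.1]
  have p2 : s < BB x y ρ b := by linarith [c.2]
  obtain ⟨i, k1, k2, k3, k4, L⟩ := C.cover (by omega) st.gen p1 p2
  have hk := R.mem ad
  have hwS := R.mem' ad
  have hU : w ∉ U := fun h => hw (C.sep k s w h1 h2 st.gen p1 p2 hwS h st.cu c hy)
  have e : ((ρ, i, 0) : Vx) = (ρ, k, 0) := by
    rcases st.free _ L.1 L.2.2.1 with h | h
    · linarith [(L.2.2.2 w hwS st.cu).2 hU]
    · by_cases hk' : ((ρ, k, 0) : Vx) ∈ U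
      · exact R.eq_of_cr L.1 hk L.2.2.1 c (le_antisymm ((L.2.2.2 _ hk c).1 hk') h)
      · exfalso
        obtain ⟨t, t1, t2, gt⟩ := exists_gen D.S x (C.mono k h1 h2)
        exact hk' (C.low k t h1 h2 gt t1 t2).2.1
  have : i = k := by simpa using e
  subst this
  exact ⟨s, st.gen, k3, k4, R.top_of_sees L hwS st⟩

theorem nb_mid {σ i : ℕ} (h2 : th σ = 2) (w : Vx) (h : D.G.Adj (σ, i, 1) w) :
    w = (σ, i, 0) ∨ w = (σ, i, 2) := by
  rcases Lay.nbr h with h | h | h | h | h | h | ⟨j, h⟩ | ⟨ρ, j, h⟩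
  · exact Or.inr h
  · exact Or.inl h.2
  all_goals omega

theorem nb_top {σ i : ℕ} (h2 : th σ = 2) {w : Vx} (h : D.G.Adj (σ, i, 2) w) :
    w = (σ, i, 1) ∨ (D.jt σ (i + 1) = 1 ∧ w = (σ, i + 1, 0)) ∨
      (1 ≤ i ∧ D.jt σ i = 2 ∧ w = (σ, i - 1, 0)) ∨ ∃ ρ j, σ = ρ + 1 ∧ w = (ρ, j, 0) ∧
        D.bk ρ j < D.tk σ (i + 1) ∧ D.tk σ i < D.bk ρ (j + 1) := by
  have v := h.2.1
  rcases Lay.nbr h with h | h | h | h | h | h | ⟨j, h⟩ | ⟨ρ, j, h⟩
  · subst h
    have := v.2.2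
    dsimp only at this
    omega
  · exact Or.inl h.2
  · exact Or.inr (Or.inl ⟨h.1, h.2.2⟩)
  · omega
  · omega
  · exact Or.inr (Or.inr (Or.inl ⟨h.1, h.2.1, h.2.2.2⟩))
  · omega
  · exact Or.inr (Or.inr (Or.inr ⟨ρ, j, h.1, h.2.2⟩))

theorem nb_bot {σ i : ℕ} (h2 : th σ = 2) {w : Vx} (h : D.G.Adj (σ, i, 0) w) :
    w = (σ, i, 1) ∨ (D.jt σ (i + 1) = 2 ∧ w = (σ, i + 1, 2)) ∨
      (1 ≤ i ∧ D.jt σ i = 1 ∧ w = (σ, i - 1, 2)) ∨
      ∃ j, w = (σ + 1, j, th (σ + 1)) ∧ D.bk σ i < D.tk (σ + 1) (j + 1) ∧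
        D.tk (σ + 1) j < D.bk σ (i + 1) := by
  rcases Lay.nbr h with h | h | h | h | h | h | ⟨j, h⟩ | ⟨ρ, j, h⟩
  · exact Or.inl h
  · omega
  · omega
  · exact Or.inr (Or.inl ⟨h.1, h2 ▸ h.2.2⟩)
  · exact Or.inr (Or.inr (Or.inl ⟨h.1, h.2.1, h2 ▸ h.2.2.2⟩))
  · omega
  · exact Or.inr (Or.inr (Or.inr ⟨j, h.2⟩))
  · omega

theorem UpB.cr {S : Finset Vx} {G : SimpleGraph Vx} {σ i : ℕ}
    (B : UpB S G x y (σ, i, 0) (σ, i, 1) (σ, i, 2)) {p : ℕ} (hp : p ≤ 2) :
    x (σ, i, p) = x (σ, i, 0) ∧ y (σ, i, 0) ≤ y (σ, i, p) ∧ y (σ, i, p) ≤ y (σ, i, 2) ∧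
      (p ≠ 0 → y (σ, i, 0) < y (σ, i, p)) := by
  have := B.xl; have := B.xh; have := B.ylm; have := B.ymh
  interval_cases p
  · exact ⟨rfl, le_rfl, by linarith, fun h => absurd rfl h⟩
  · exact ⟨by linarith, by linarith, by linarith, fun _ => by linarith⟩
  · exact ⟨by linarith, by linarith, le_rfl, fun _ => by linarith⟩

/-- Passing a row of thick bricks. -/
theorem stepA (R : Rep D.S D.G x y) {σ a b a' b' : ℕ} {α β : ℝ} (h2 : th σ = 2) (vr : σ < D.nr)
    (vb : b < D.n σ) (hj : ∀ k, D.jt σ k ≤ 2)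
    (cov : ∀ t, Gen D.S x t → α < t → t < β → ∃ i, a ≤ i ∧ i ≤ b ∧ TopAt D.S x y U t (σ, i, 2))
    (vis : ∀ i, a ≤ i → i ≤ b → ∃ s, Gen D.S x s ∧ α < s ∧ s < β ∧ TopAt D.S x y U s (σ, i, 2))
    (hx : ∀ i, a ≤ i → i < b → x (σ, i, 2) < x (σ, i + 1, 2))
    (inn : ∀ i, a ≤ i → i ≤ b → Inner D.S x y (σ, i, 1))
    (hup : ∀ i, a ≤ i → i ≤ b → ∀ ρ j, σ = ρ + 1 → D.G.Adj (σ, i, 2) (ρ, j, 0) → (ρ, j, 0) ∈ U)
    (hab : ∀ i, a ≤ i → i ≤ b → ∃ v, D.G.Adj (σ, i, 2) v ∧ v ≠ (σ, i, 1) ∧ y (σ, i, 2) < y v)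
    (hlo : ∀ i, a ≤ i → i ≤ b → ∃ j, D.G.Adj (σ, i, 0) (σ + 1, j, th (σ + 1)))
    (k1 : a + 2 ≤ a') (k2 : a' ≤ b') (k3 : b' + 1 ≤ b) (ja : D.jt σ a' = 0) (jb : D.jt σ b' = 0) :
    InvA D x y σ a' b' ∧ ∀ k, a + 2 ≤ k → k + 1 ≤ b → Jn D x y σ k := by
  have mem : ∀ i p, i ≤ b → p ≤ 2 → ((σ, i, p) : Vx) ∈ D.S := fun i p hi hp =>
    memS vr (by omega) (by omega)
  have up : ∀ i, a ≤ i → i ≤ b → UpB D.S D.G x y (σ, i, 0) (σ, i, 1) (σ, i, 2) := by
    intro i h1 h3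
    rcases R.brick_cases (mem i 1 h3 (by omega)) (inn i h1 h3) (nb_mid h2) with B | B
    · exact B
    · obtain ⟨v, v1, v2, v3⟩ := hab i h1 h3
      linarith [R.below B v1 v2]
  have nU : ∀ i p, a ≤ i → i ≤ b → p ≤ 2 → ((σ, i, p) : Vx) ∉ U := by
    intro i p h1 h3 hp hU
    obtain ⟨s, -, -, -, T⟩ := vis i h1 h3
    have B := up i h1 h3
    have c := T.2.2.1
    have e := B.cr hp
    have e' := B.cr (p := 2) le_rfl
    have : Cr x s (σ, i, p) := ⟨by linarith [c.1, e.1, e'.1], by linarith [c.2, e.1, e'.1]⟩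
    linarith [(T.2.2.2 _ (mem i p h3 hp) this).2 hU, e.2.2.1]
  have e2 : ∀ i, a ≤ i → i ≤ b → x (σ, i, 2) = x (σ, i, 0) := fun i h1 h3 =>
    ((up i h1 h3).cr le_rfl).1
  have hx0 : ∀ i, a ≤ i → i < b → x (σ, i, 0) < x (σ, i + 1, 0) := fun i h1 h3 => by
    rw [← e2 i h1 h3.le, ← e2 (i + 1) (by omega) h3]; exact hx i h1 h3
  have sepU : ∀ t, Gen D.S x t → α < t → t < β →
      ∀ w ∈ D.S, w ∉ U → Cr x t w → ∀ u ∈ D.S, u ∈ U → Cr x t u → y w < y u := by
    intro t g p q w hw h c u hu h' c'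
    obtain ⟨i, -, -, T⟩ := cov t g p q
    exact ((T.2.2.2 w hw c).1 h).trans_lt ((T.2.2.2 u hu c').2 h')
  have jn : ∀ k, a + 2 ≤ k → k + 1 ≤ b → Jn D x y σ k := by
    intro k h1 h3
    obtain ⟨i, rfl⟩ : ∃ i, k = i + 1 := ⟨k - 1, by omega⟩
    have B := up i (by omega) (by omega)
    have B' := up (i + 1) (by omega) (by omega)
    have f := e2 i (by omega) (by omega)
    have f' := e2 (i + 1) (by omega) (by omega)
    have m := hx0 i (by omega) (by omega)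
    have y1 := B.ylm; have y2 := B.ymh; have y3 := B'.ylm; have y4 := B'.ymh
    unfold Jn TT BB jT jB
    simp only [Nat.add_sub_cancel, h2]
    refine ⟨m, fun h => ?_, fun h => ?_, fun h => ?_⟩
    · obtain ⟨s, g, s1, s2, T⟩ := vis i (by omega) (by omega)
      obtain ⟨s', g', s1', s2', T'⟩ := vis (i + 1) (by omega) (by omega)
      have c := T.2.2.1
      have c' := T'.2.2.1
      unfold Cr at c c'
      have ss : s < s' := (R.top_lt g T T'.1 T'.2.1 (hx i (by omega) (by omega))).trans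
        (R.lt_top g' T' T.1 T.2.1 (hx i (by omega) (by omega)))
      have key : x (σ, i + 1, 0) = x (σ, i, 0) + 1 := by
        rcases lt_trichotomy (x (σ, i + 1, 0)) (x (σ, i, 0) + 1) with ov | ov | ov
        · exfalso
          obtain ⟨t, t1, t2, gt⟩ := exists_gen D.S x (show max (x (σ, i + 1, 0)) s <
            min (x (σ, i, 0) + 1) s' by
              simp only [max_lt_iff, lt_min_iff]
              refine ⟨⟨?_, ?_⟩, ?_, ?_⟩ <;> linarith)
          rw [max_lt_iff] at t1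
          rw [lt_min_iff] at t2
          have d : Cr x t (σ, i, 2) := ⟨by linarith, by linarith⟩
          have d' : Cr x t (σ, i + 1, 2) := ⟨by linarith, by linarith⟩
          have sp := sepU t gt (by linarith) (by linarith)
          rcases lt_trichotomy (y (σ, i, 2)) (y (σ, i + 1, 2)) with o | o | o
          · obtain ⟨z, z1, z2, z3⟩ := R.exists_up gt T.1 d T'.1 d' o
            rcases nb_top h2 z1 with e | e | e | ⟨ρ, j, e, e', -⟩
            · rw [e] at z2; linarith [z2.lt]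
            · omega
            · rw [e.2.2] at z2
              have m' := hx0 (i - 1) (by omega) (by omega)
              rw [show i - 1 + 1 = i by omega] at m'
              have := (T.2.2.2 _ (mem (i - 1) 0 (by omega) (by omega))
                ⟨by linarith, by linarith [z2.cv.2]⟩).1 (nU (i - 1) 0 (by omega) (by omega) (by omega))
              linarith [z2.lt]
            · rw [e'] at z1 z2 z3
              linarith [sp _ T'.1 T'.2.1 d' _ (R.mem' z1) (hup i (by omega) (by omega) ρ j e z1)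
                z2.cv]
          · have := R.eq_of_cr T.1 T'.1 d d' o
            simp at this
          · obtain ⟨z, z1, z2, z3⟩ := R.exists_up gt T'.1 d' T.1 d o
            rcases nb_top h2 z1 with e | e | e | ⟨ρ, j, e, e', -⟩
            · rw [e] at z2; linarith [z2.lt]
            · rw [e.2] at z2
              have m' := hx0 (i + 1) (by omega) (by omega)
              have := (T'.2.2.2 _ (mem (i + 1 + 1) 0 (by omega) (by omega))
                ⟨by linarith [z2.cv.1], by linarith⟩).1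
                  (nU (i + 1 + 1) 0 (by omega) (by omega) (by omega))
              linarith [z2.lt]
            · omega
            · rw [e'] at z1 z2 z3
              linarith [sp _ T.1 T.2.1 d _ (R.mem' z1) (hup (i + 1) (by omega) (by omega) ρ j e z1)
                z2.cv]
        · exact ov
        · exfalso
          obtain ⟨t, t1, t2, gt⟩ := exists_gen D.S x ov
          obtain ⟨j, j1, j2, Tj⟩ := cov t gt (by linarith) (by linarith)
          have cj := Tj.2.2.1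
          unfold Cr at cj
          rw [e2 j j1 j2] at cj
          rcases le_or_gt j i with o | o
          · linarith [mono_le (T := fun i => x (σ, i, 0)) hx0 j1 o (by omega)]
          · linarith [mono_le (T := fun i => x (σ, i, 0)) hx0 (i := i + 1) (by omega) o j2]
      refine ⟨key, ?_, ?_⟩ <;> split_ifs <;> linarith
    · have ad := Lay.adj_up vr (by omega) h
      rw [h2] at ad
      have o := R.above B ad (by simp)
      have := R.adj_x ad
      refine ⟨by linarith [this.2], ?_, ?_⟩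
      · rw [if_pos (by linarith)]; exact f'
      · rw [if_neg (by linarith)]
    · have ad := Lay.adj_dn vr (by omega) h
      rw [h2] at ad
      have o := R.above B' ad.symm (by simp)
      have := R.adj_x ad
      refine ⟨by linarith [this.2], ?_, ?_⟩
      · rw [if_neg (by linarith), f]
      · rw [if_pos (by linarith)]
  refine ⟨?_, jn⟩
  have Ja := (jn a' k1 (by omega)).2.1 ja
  have Jb := (jn b' (by omega) k3).2.1 jb
  set Rw : Set Vx := {w | w.1 = σ ∧ a ≤ w.2.1 ∧ w.2.1 ≤ b ∧ w.2.2 ≤ 2} with hRw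
  have rng : ∀ t, x (σ, a', 0) < t → t < x (σ, b', 0) → α < t ∧ t < β := by
    intro t t1 t2
    obtain ⟨s, -, s1, -, T⟩ := vis a le_rfl (by omega)
    obtain ⟨s', -, -, s2, T'⟩ := vis b (by omega) le_rfl
    have c := T.2.2.1
    have c' := T'.2.2.1
    unfold Cr at c c'
    rw [e2 a le_rfl (by omega)] at c
    rw [e2 b (by omega) le_rfl] at c'
    constructor
    · linarith [mono_le (T := fun i => x (σ, i, 0)) hx0 (i := a) (j := a' - 1) le_rfl (by omega)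
        (by omega), Ja.1]
    · linarith [mono_le (T := fun i => x (σ, i, 0)) hx0 (i := b') (j := b) (by omega) (by omega)
        le_rfl]
  have idx : ∀ t i, x (σ, a', 0) < t → t < x (σ, b', 0) → a ≤ i → i ≤ b → Cr x t (σ, i, 0) →
      a' ≤ i ∧ i < b' := by
    intro t i t1 t2 h1 h3 c
    constructor
    · by_contra h
      linarith [mono_le (T := fun i => x (σ, i, 0)) hx0 (i := i) (j := a' - 1) h1 (by omega)
        (by omega), Ja.1, c.2]
    · by_contra h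
      linarith [mono_le (T := fun i => x (σ, i, 0)) hx0 (i := b') (j := i) (by omega) (by omega)
        h3, c.1]
  have h3 : ∀ t, Gen D.S x t → x (σ, a', 0) < t → t < x (σ, b', 0) →
      ∃ i, a' ≤ i ∧ i < b' ∧ LowAt D.S x y (U ∪ Rw) t (σ, i, 0) := by
    intro t g t1 t2
    obtain ⟨p, q⟩ := rng t t1 t2
    obtain ⟨i, i1, i2, T⟩ := cov t g p q
    obtain ⟨⟨ρ, j, r⟩, ⟨e, j1, j2, j3⟩, L⟩ := R.add_row (Rw := Rw) g T ⟨rfl, i1, i2, le_rfl⟩
      (by
        rintro ⟨ρ, j, r⟩ ⟨e, j1, j2, j3⟩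
        dsimp only at e j1 j2 j3
        subst e
        exact nU j r j1 j2 j3) (sepU t g p q)
      (by
        rintro ⟨ρ, j, r⟩ ⟨e, j1, j2, j3⟩ c z ad hy
        dsimp only at e j1 j2 j3
        subst e
        have B := up j j1 j2
        have c0 : Cr x t (ρ, j, 0) := by
          unfold Cr at c ⊢
          rwa [(B.cr j3).1] at c
        obtain ⟨p1, p2⟩ := idx t j t1 t2 j1 j2 c0
        interval_cases r
        · by_cases e : z = (ρ, j, 1)
          · exact Or.inr (e ▸ ⟨rfl, j1, j2, by simp⟩)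
          · linarith [R.below B ad e]
        · rcases nb_mid h2 z ad with e | e
          · exact Or.inr (e ▸ ⟨rfl, j1, j2, by simp⟩)
          · exact Or.inr (e ▸ ⟨rfl, j1, j2, by simp⟩)
        · rcases nb_top h2 ad with e | e | e | ⟨ρ', j', e, e', -⟩
          · exact Or.inr (e ▸ ⟨rfl, j1, j2, by simp⟩)
          · exact Or.inr (e.2 ▸ ⟨rfl, by dsimp only; omega, by dsimp only; omega, by simp⟩)
          · exact Or.inr (e.2.2 ▸ ⟨rfl, by dsimp only; omega, by dsimp only; omega, by simp⟩)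
          · exact Or.inl (e' ▸ hup j j1 j2 ρ' j' e (e' ▸ ad)))
    dsimp only at e j1 j2 j3
    subst e
    have B := (up j j1 j2).cr j3
    have c0 : Cr x t (ρ, j, 0) := by
      have c := L.2.2.1
      unfold Cr at c ⊢
      rwa [B.1] at c
    obtain ⟨p1, p2⟩ := idx t j t1 t2 j1 j2 c0
    have : r = 0 := by
      by_contra h
      linarith [B.2.2.2 h, (L.2.2.2 _ (mem j 0 j2 (by omega)) c0).1
        (Or.inr ⟨rfl, j1, j2, by simp⟩)]
    subst this
    exact ⟨j, p1, p2, L⟩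
  have h1 : ∀ t i, Gen D.S x t → a' ≤ i → i < b' → LowAt D.S x y (U ∪ Rw) t (σ, i, 0) →
      BB x y σ i < t ∧ t < BB x y σ (i + 1) := by
    intro t i g i1 i2 L
    have m' := hx0 (i - 1) (by omega) (by omega)
    rw [show i - 1 + 1 = i by omega] at m'
    exact ⟨R.lt_low g L (mem _ 0 (by omega) (by omega))
      (Or.inr ⟨rfl, by dsimp only; omega, by dsimp only; omega, by simp⟩) m',
      R.low_lt g L (mem _ 0 (by omega) (by omega))
      (Or.inr ⟨rfl, by dsimp only; omega, by dsimp only; omega, by simp⟩)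
        (hx0 i (by omega) (by omega))⟩
  have mono : ∀ i, a' ≤ i → i < b' → BB x y σ i < BB x y σ (i + 1) := by
    intro i i1 i2
    obtain ⟨j, ad⟩ := hlo i (by omega) (by omega)
    have hy := R.below (up i (by omega) (by omega)) ad (by simp)
    obtain ⟨s, st⟩ := R.sees_of_adj ad.symm hy
    have c := st.cv
    have t1 : x (σ, a', 0) < s := by
      linarith [mono_le (T := fun i => x (σ, i, 0)) hx0 (i := a') (j := i) (by omega) i1
        (by omega), c.1]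
    have t2 : s < x (σ, b', 0) := by
      linarith [mono_le (T := fun i => x (σ, i, 0)) hx0 (i := i) (j := b' - 1) (by omega)
        (by omega) (by omega), c.2, Jb.1]
    obtain ⟨i', p1, p2, L⟩ := h3 s st.gen t1 t2
    have hd := R.mem' ad
    have : ((σ, i', 0) : Vx) = (σ, i, 0) := by
      rcases st.free _ L.1 L.2.2.1 with h | h
      · exfalso
        by_cases hU : ((σ + 1, j, th (σ + 1)) : Vx) ∈ U ∪ Rw
        · rcases hU with hU | hU
          · linarith [sepU s st.gen (rng s t1 t2).1 (rng s t1 t2).2 _ (R.mem ad)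
              (nU i 0 (by omega) (by omega) (by omega)) c _ hd hU st.cu]
          · have := hU.1
            simp at this
        · linarith [(L.2.2.2 _ hd st.cu).2 hU]
      · exact R.eq_of_cr L.1 (R.mem ad) L.2.2.1 c (le_antisymm ((L.2.2.2 _ (R.mem ad) c).1
          (Or.inr ⟨rfl, by dsimp only; omega, by dsimp only; omega, by simp⟩)) h)
    rw [this] at L
    exact (h1 s i st.gen i1 i2 L).1.trans (h1 s i st.gen i1 i2 L).2
  refine ⟨⟨U ∪ Rw, ⟨vr, by omega, mono, fun i t i1 i2 g t1 t2 => ?_,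
    fun i t w i1 i2 g t1 t2 hw hU c c' hy => ?_⟩, fun k p q =>
      Or.inr ⟨rfl, by dsimp only; omega, by dsimp only; omega, le_rfl⟩⟩,
    fun k p q => up k (by omega) (by omega), fun k p q => jn k (by omega) (by omega)⟩
  · obtain ⟨i', p1, p2, L⟩ := h3 t g
      (by linarith [mono_le mono le_rfl i1 i2.le, Ja.2.2])
      (by linarith [mono_le mono (i := i + 1) (j := b') (by omega) i2 le_rfl, Jb.2.2])
    have := h1 t i' g p1 p2 L
    rwa [seg_unique mono i1 i2 p1 p2 t1 t2 this.1 this.2]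
  · rcases hU with hU | hU
    · rw [Ja.2.2] at t1
      rw [Jb.2.2] at t2
      linarith [sepU t g (rng t t1 t2).1 (rng t t1 t2).2 _ (mem i 0 (by omega) (by omega))
        (nU i 0 (by omega) (by omega) (by omega)) c' _ hw hU c]
    · exact hU.1

end Pool.Agent.Lib.MP_ec9af3_lc.H18
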