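import Pool.Agent.Lib.MP_ec9af3_lc.H18StepA

namespace Pool.Agent.Lib.MP_ec9af3_lc.H18

variable {D : Lay} {x y : Vx → ℝ} {U : Set Vx}

theorem nb_thin {ρ i : ℕ} (h0 : th (ρ + 1) = 0) {w : Vx} (h : D.G.Adj (ρ + 1, i, 0) w) :
    w = (ρ + 1, i + 1, 0) ∨ (1 ≤ i ∧ w = (ρ + 1, i - 1, 0)) ∨
      (∃ j, w = (ρ + 1 + 1, j, th (ρ + 1 + 1)) ∧ D.bk (ρ + 1) i < D.tk (ρ + 1 + 1) (j + 1) ∧
        D.tk (ρ + 1 + 1) j < D.bk (ρ + 1) (i + 1)) ∨
      ∃ j, w = (ρ, j, 0) ∧ D.bk ρ j < D.tk (ρ + 1) (i + 1) ∧ D.tk (ρ + 1) i < D.bk ρ (j + 1) := by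
  have v := h.2.1
  rcases Lay.nbr h with h | h | h | h | h | h | ⟨j, h⟩ | ⟨σ, j, h⟩
  · subst h
    have := v.2.2
    dsimp only at this
    omega
  · omega
  · exact Or.inl h.2.2
  · exact Or.inl (h0 ▸ h.2.2)
  · exact Or.inr (Or.inl ⟨h.1, h0 ▸ h.2.2.2⟩)
  · exact Or.inr (Or.inl ⟨h.1, h.2.2.2⟩)
  · exact Or.inr (Or.inr (Or.inl ⟨j, h.2⟩))
  · obtain ⟨e, -, h⟩ := h
    obtain rfl : ρ = σ := by omega
    exact Or.inr (Or.inr (Or.inr ⟨j, h⟩))

theorem fib_unique {g : ℕ → ℕ} (hg : StrictMono g) {j k k' : ℕ} (h1 : g k ≤ j) (h2 : j < g (k + 1))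
    (h3 : g k' ≤ j) (h4 : j < g (k' + 1)) : k = k' := by
  have a := hg.lt_iff_lt (a := k) (b := k' + 1)
  have b := hg.lt_iff_lt (a := k') (b := k + 1)
  omega

theorem Jn.bnd {ρ k : ℕ} (J : Jn D x y ρ k) (hj : D.jt ρ k ≤ 2) :
    x (ρ, k, 0) ≤ BB x y ρ k ∧ BB x y ρ k ≤ x (ρ, k - 1, 0) + 1 ∧
    x (ρ, k, 0) ≤ TT x y ρ k ∧ TT x y ρ k ≤ x (ρ, k - 1, 0) + 1 := by
  obtain ⟨-, h0, h1, h2⟩ := J
  rcases (by omega : D.jt ρ k = 0 ∨ D.jt ρ k = 1 ∨ D.jt ρ k = 2) with h | h | h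
  · obtain ⟨a, b, c⟩ := h0 h
    refine ⟨?_, ?_, ?_, ?_⟩ <;> linarith
  · obtain ⟨a, b, c⟩ := h1 h
    refine ⟨?_, ?_, ?_, ?_⟩ <;> linarith
  · obtain ⟨a, b, c⟩ := h2 h
    refine ⟨?_, ?_, ?_, ?_⟩ <;> linarith

/-- The shape of a staircase row between two rows of bricks. -/
structure VRow (D : Lay) (ρ : ℕ) : Prop where
  t2 : th ρ = 2
  t0 : th (ρ + 1) = 0
  t2' : th (ρ + 1 + 1) = 2
  vr : ρ + 1 < D.nr
  jt1 : ∀ j, D.jt (ρ + 1) j = 1
  tk1 : ∀ j, D.tk (ρ + 1) j = j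
  bk1 : ∀ j, D.bk (ρ + 1) j = j
  gU : StrictMono (D.bk ρ)
  gL : StrictMono (D.tk (ρ + 1 + 1))
  jle : ∀ k, D.jt ρ k ≤ 2
  fibU : ∀ k, D.bk ρ (k + 1) = D.bk ρ k + 1 → D.jt ρ k = 1 ∨ D.jt ρ (k + 1) = 2

/-- What is known about the top of a staircase row. -/
structure TopV (D : Lay) (x y : Vx → ℝ) (U : Set Vx) (ρ a b : ℕ) : Prop where
  vis : ∀ j, D.bk ρ a ≤ j → j < D.bk ρ b → ((ρ + 1, j, 0) : Vx) ∈ D.S ∧ (ρ + 1, j, 0) ∉ U
  hx : ∀ j, D.bk ρ (a + 1) ≤ j + 1 → j + 1 ≤ D.bk ρ (b - 1) →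
    x (ρ + 1, j, 0) < x (ρ + 1, j + 1, 0)
  mono : ∀ j, D.bk ρ (a + 1) ≤ j → j < D.bk ρ (b - 1) → TT x y (ρ + 1) j < TT x y (ρ + 1) (j + 1)
  cov : ∀ t, Gen D.S x t → BB x y ρ (a + 1) < t → t < BB x y ρ (b - 1) →
    ∃ j, D.bk ρ (a + 1) ≤ j ∧ j < D.bk ρ (b - 1) ∧ TT x y (ρ + 1) j < t ∧
      t < TT x y (ρ + 1) (j + 1) ∧ TopAt D.S x y U t (ρ + 1, j, 0)
  ex : ∀ k, a + 3 ≤ k → k + 3 ≤ b → TT x y (ρ + 1) (D.bk ρ k) = BB x y ρ k

theorem topV (R : Rep D.S D.G x y) {ρ a b : ℕ} (W : VRow D ρ) (C : Ceil D x y U ρ a b)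
    (hU : ∀ k, a ≤ k + 1 → k ≤ b → (ρ, k, 2) ∈ U) (I : InvA D x y ρ a b) (ha : 1 ≤ a)
    (hab : a + 2 ≤ b) (ja : D.jt ρ a = 0) (jb : D.jt ρ b = 0) (vb : D.bk ρ b ≤ D.n (ρ + 1))
    (inn : ∀ k, a ≤ k → k < b → Inner D.S x y (ρ, k, 0)) : TopV D x y U ρ a b := by
  have gm := W.gU
  have Ja := (I.jn a le_rfl (by omega)).2.1 ja
  have Jb := (I.jn b (by omega) le_rfl).2.1 jb
  have hX : ∀ i, a ≤ i → i < b → x (ρ, i, 0) < x (ρ, i + 1, 0) := fun i p q =>
    (I.jn (i + 1) (by omega) q).1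
  have vis : ∀ j k, a ≤ k → k < b → D.bk ρ k ≤ j → j < D.bk ρ (k + 1) → ∃ s, Gen D.S x s ∧ BB x y ρ k < s ∧
      s < BB x y ρ (k + 1) ∧ TopAt D.S x y U s (ρ + 1, j, 0) := by
    intro j k k1 k2 p q
    have := gm.monotone (show k + 1 ≤ b by omega)
    have ad := Lay.adj_row (i := k) (j := j) W.vr (by have := C.vb; omega) (by omega)
      (by rw [W.tk1]; omega) (by rw [W.tk1]; omega)
    rw [W.t0] at ad
    refine C.sight R k1 k2 (by simp) ad (R.below (I.up k (by omega) k2.le) ad (by simp)) ?_ ?_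
    · linarith [mono_le (T := fun i => x (ρ, i, 0)) hX le_rfl k1 k2.le, Ja.2.2]
    · have := mono_le (T := fun i => x (ρ, i, 0)) hX (i := k) (j := b - 1) k1 (by omega) (by omega)
      linarith [Jb.1, Jb.2.2]
  have cov : ∀ k t, a ≤ k → k < b → Gen D.S x t → BB x y ρ k < t → t < BB x y ρ (k + 1) →
      ∃ j, D.bk ρ k ≤ j ∧ j < D.bk ρ (k + 1) ∧ TopAt D.S x y U t (ρ + 1, j, 0) := by
    intro k t k1 k2 gt t1 t2
    have L := C.low k t k1 k2 gt t1 t2
    obtain ⟨w, ad, T⟩ := R.exists_top gt L (inn k k1 k2)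
    rcases nb_bot W.t2 ad with e | e | e | ⟨j, e, p, q⟩
    · have B := I.up k (by omega) k2.le
      subst e
      linarith [(L.2.2.2 _ T.1 T.2.2.1).2 T.2.1, B.ylm]
    · exact absurd (e.2 ▸ hU (k + 1) (by omega) k2) T.2.1
    · exact absurd (e.2.2 ▸ hU (k - 1) (by omega) (by omega)) T.2.1
    · rw [W.tk1] at p q
      rw [e, W.t0] at T
      exact ⟨j, by omega, q, T⟩
  let Vis : ℕ → ℝ → Prop := fun j s => Gen D.S x s ∧ BB x y ρ a < s ∧ s < BB x y ρ b ∧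
    TopAt D.S x y U s (ρ + 1, j, 0)
  have vis' : ∀ j, D.bk ρ a ≤ j → j < D.bk ρ b → ∃ s, Vis j s := by
    intro j p q
    obtain ⟨k, k1, k2, k3, k4⟩ := exists_fib (D.bk ρ) p q (by omega)
    obtain ⟨s, s1, s2, s3, s4⟩ := vis j k k1 k2 k3 k4
    exact ⟨s, s1, by linarith [mono_le C.mono le_rfl k1 k2.le],
      by linarith [mono_le C.mono (i := k + 1) (j := b) (by omega) k2 le_rfl], s4⟩
  have uniq : ∀ j j' s, Vis j s → Vis j' s → j = j' := fun j j' s h h' => by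
    simpa using R.top_unique h.2.2.2 h'.2.2.2
  have fib : ∀ j k s, a ≤ k → k ≤ b → Vis j s → (D.bk ρ k ≤ j → BB x y ρ k < s) ∧
      (j < D.bk ρ k → s < BB x y ρ k) := by
    intro j k s k1 k2 h
    obtain ⟨i, i1, i2, i3, i4, -⟩ := C.cover (by omega) h.1 h.2.1 h.2.2.1
    obtain ⟨j', p, q, T⟩ := cov i s i1 i2 h.1 i3 i4
    obtain rfl := uniq j j' s h ⟨h.1, h.2.1, h.2.2.1, T⟩
    constructor
    · intro o
      have : k ≤ i := by have := gm.lt_iff_lt (a := k) (b := i + 1); omega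
      linarith [mono_le C.mono k1 this i2.le]
    · intro o
      have : i + 1 ≤ k := by have := gm.lt_iff_lt (a := i) (b := k); omega
      linarith [mono_le C.mono (i := i + 1) (by omega) this k2]
  have adj : ∀ j, j + 1 < D.bk ρ b → D.G.Adj (ρ + 1, j, 0) (ρ + 1, j + 1, 0) := by
    intro j h
    have := Lay.adj_up (i := j) W.vr (by omega) (W.jt1 _)
    rwa [W.t0] at this
  have g1 : D.bk ρ a < D.bk ρ (a + 1) := gm (by omega)
  have g2 : D.bk ρ (b - 1) < D.bk ρ b := gm (by omega)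
  have ord : ∀ j, D.bk ρ (a + 1) ≤ j + 1 → j + 1 ≤ D.bk ρ (b - 1) → ∀ s s', Vis j s → Vis (j + 1) s' →
      s < s' := by
    intro j p q s s' h h'
    obtain ⟨k, k1, k2, k3, k4⟩ := exists_fib (D.bk ρ) (a := a + 1) (b := b) (j := j + 1) p (by omega)
      (by omega)
    rcases k3.eq_or_lt with e | e
    · linarith [(fib j k s (by omega) k2.le h).2 (by omega), (fib _ k s' (by omega) k2.le h').1 k3]
    have k5 : k + 1 < b := by
      have := gm.lt_iff_lt (a := k) (b := b - 1)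
      omega
    have g3 : D.bk ρ a < D.bk ρ k := gm (by omega)
    have g4 : D.bk ρ (k + 1) < D.bk ρ b := gm k5
    by_contra hc
    have hlt : s' < s := lt_of_le_of_ne (not_lt.1 hc) fun e => by
      have := uniq _ _ s h (e ▸ h'); omega
    classical
    let r : ℕ → ℝ := fun i => if i = j then s else if hi : D.bk ρ a ≤ i ∧ i < D.bk ρ b then
      (vis' i hi.1 hi.2).choose else 0
    have hr : ∀ i, D.bk ρ a ≤ i → i < D.bk ρ b → Vis i (r i) := by
      intro i p q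
      simp only [r]
      split_ifs with e1 e2
      · exact e1 ▸ h
      · exact (vis' i e2.1 e2.2).choose_spec
      · exact absurd ⟨p, q⟩ e2
    obtain ⟨i, i1, i2, i3, i4⟩ := exists_seg r (a := D.bk ρ k - 1) (b := j) (t := s') (by omega)
      (by linarith [(fib _ k _ (by omega) k2.le (hr (D.bk ρ k - 1) (by omega) (by omega))).2 (by omega),
        (fib _ k s' (by omega) k2.le h').1 k3]) (by simpa [r] using hlt)
      (fun i p q e => by
        have := uniq _ _ s' h' (e ▸ hr i (by omega) (by omega)); omega)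
    have V1 := hr i (by omega) (by omega)
    have V2 := hr (i + 1) (by omega) (by omega)
    have trap : ∀ m, j + 1 ≤ m → m ≤ D.bk ρ (k + 1) → ∃ u, Vis m u ∧ r i < u ∧ u < r (i + 1) := by
      intro m hm
      induction m, hm using Nat.le_induction with
      | base => exact fun _ => ⟨s', h', i3, i4⟩
      | succ m hm ih =>
        intro hm'
        obtain ⟨u, u1, u2, u3⟩ := ih (by omega)
        obtain ⟨u', v⟩ := vis' (m + 1) (by omega) (by omega)
        refine ⟨u', v, ?_, ?_⟩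
        · by_contra hc
          have : u' < r i := lt_of_le_of_ne (not_lt.1 hc) fun e => by
            have := uniq _ _ u' v (e ▸ V1); omega
          exact R.no_cross V1.1 u1.1 v.2.2.2 V1.2.2.2 u1.2.2.2 V2.2.2.2 this u2 u3
            (adj m (by omega)).symm (adj i (by omega)) (by simp; omega) (by simp; omega)
            (by simp; omega)
        · by_contra hc
          have : r (i + 1) < u' := lt_of_le_of_ne (not_lt.1 hc) fun e => by
            have := uniq _ _ u' v (e ▸ V2); omega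
          exact R.no_cross u1.1 V2.1 V1.2.2.2 u1.2.2.2 V2.2.2.2 v.2.2.2 u2 u3 this
            (adj i (by omega)) (adj m (by omega)) (by simp; omega) (by simp; omega)
            (by simp; omega)
    obtain ⟨u, u1, -, u3⟩ := trap (D.bk ρ (k + 1)) (by omega) le_rfl
    linarith [(fib _ (k + 1) _ (by omega) k5.le u1).1 le_rfl,
      (fib _ (k + 1) _ (by omega) k5.le V2).2 (by omega)]
  have mem : ∀ j, D.bk ρ a ≤ j → j < D.bk ρ b → ((ρ + 1, j, 0) : Vx) ∈ D.S ∧ (ρ + 1, j, 0) ∉ U := by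
    intro j p q
    obtain ⟨s, h⟩ := vis' j p q
    exact ⟨h.2.2.2.1, h.2.2.2.2.1⟩
  have hx : ∀ j, D.bk ρ (a + 1) ≤ j + 1 → j + 1 ≤ D.bk ρ (b - 1) →
      x (ρ + 1, j, 0) < x (ρ + 1, j + 1, 0) := by
    intro j p q
    obtain ⟨s, h⟩ := vis' j (by omega) (by omega)
    obtain ⟨s', h'⟩ := vis' (j + 1) (by omega) (by omega)
    exact R.top_x h.2.2.2 h'.2.2.2 (ord j p q s s' h h') (by simp)
  have g0 : 1 ≤ D.bk ρ a := le_trans ha (gm.id_le a)
  have lo : ∀ j s, D.bk ρ (a + 1) ≤ j → j ≤ D.bk ρ (b - 1) → Vis j s → TT x y (ρ + 1) j < s := by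
    intro j s p q h
    have := hx (j - 1) (by omega) (by omega)
    rw [show j - 1 + 1 = j by omega] at this
    unfold TT
    rw [W.t0]
    exact R.lt_top h.1 h.2.2.2 (mem _ (by omega) (by omega)).1 (mem _ (by omega) (by omega)).2 this
  have hi : ∀ j s, D.bk ρ (a + 1) ≤ j + 1 → j + 1 ≤ D.bk ρ (b - 1) → Vis j s →
      s < TT x y (ρ + 1) (j + 1) := by
    intro j s p q h
    unfold TT
    rw [W.t0]
    exact R.top_lt h.1 h.2.2.2 (mem _ (by omega) (by omega)).1 (mem _ (by omega) (by omega)).2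
      (hx j p q)
  have mono : ∀ j, D.bk ρ (a + 1) ≤ j → j < D.bk ρ (b - 1) → TT x y (ρ + 1) j < TT x y (ρ + 1) (j + 1) := by
    intro j p q
    obtain ⟨s, h⟩ := vis' j (by omega) (by omega)
    exact (lo j s p q.le h).trans (hi j s (by omega) q h)
  have m1 := C.mono a le_rfl (by omega)
  have m2 := C.mono (b - 1) (by omega) (by omega)
  rw [show b - 1 + 1 = b by omega] at m2
  have cov' : ∀ t, Gen D.S x t → BB x y ρ (a + 1) < t → t < BB x y ρ (b - 1) →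
      ∃ j, D.bk ρ (a + 1) ≤ j ∧ j < D.bk ρ (b - 1) ∧ Vis j t := by
    intro t gt t1 t2
    obtain ⟨i, i1, i2, i3, i4, -⟩ := C.cover (by omega) gt (by linarith) (by linarith)
    obtain ⟨j, p, q, T⟩ := cov i t i1 i2 gt i3 i4
    have h : Vis j t := ⟨gt, by linarith, by linarith, T⟩
    refine ⟨j, ?_, ?_, h⟩
    · by_contra hc
      linarith [(fib j (a + 1) t (by omega) (by omega) h).2 (by omega)]
    · by_contra hc
      linarith [(fib j (b - 1) t (by omega) (by omega) h).1 (by omega)]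
  refine ⟨mem, hx, mono, fun t gt t1 t2 => ?_, fun k k1 k2 => ?_⟩
  · obtain ⟨j, p, q, h⟩ := cov' t gt t1 t2
    exact ⟨j, p, q, lo j t p q.le h, hi j t (by omega) q h, h.2.2.2⟩
  · have seg : ∀ j, D.bk ρ (a + 1) < j → j + 1 < D.bk ρ (b - 1) → ∀ t, Gen D.S x t → TT x y (ρ + 1) j < t →
        t < TT x y (ρ + 1) (j + 1) → Vis j t := by
      intro j p q t gt t1 t2
      obtain ⟨s, h⟩ := vis' (j - 1) (by omega) (by omega)
      obtain ⟨s', h'⟩ := vis' (j + 1) (by omega) (by omega)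
      have e1 := hi _ s (by omega) (by omega) h
      rw [show j - 1 + 1 = j by omega] at e1
      have e2 := lo _ s' (by omega) (by omega) h'
      obtain ⟨j', p', q', v⟩ := cov' t gt
        (by linarith [(fib _ (a + 1) s (by omega) (by omega) h).1 (by omega)])
        (by linarith [(fib _ (b - 1) s' (by omega) (by omega) h').2 (by omega)])
      rwa [seg_unique mono p.le (by omega) p' q' t1 t2 (lo j' t p' q'.le v)
        (hi j' t (by omega) q' v)]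
    have n1 : D.bk ρ (a + 1) < D.bk ρ (a + 2) := gm (by omega)
    have n2 : D.bk ρ (a + 2) < D.bk ρ k := gm (by omega)
    have n3 : D.bk ρ k < D.bk ρ (b - 2) := gm (by omega)
    have n4 : D.bk ρ (b - 2) < D.bk ρ (b - 1) := gm (by omega)
    apply le_antisymm
    · have := ge_of_gen D.S x (c := BB x y ρ k) (mono (D.bk ρ k - 1) (by omega) (by omega))
        fun t gt t1 t2 => (fib _ k t (by omega) (by omega)
          (seg (D.bk ρ k - 1) (by omega) (by omega) t gt t1 t2)).2 (by omega)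
      rwa [show D.bk ρ k - 1 + 1 = D.bk ρ k by omega] at this
    · exact le_of_gen D.S x (mono (D.bk ρ k) (by omega) (by omega))
        fun t gt t1 t2 => (fib _ k t (by omega) (by omega)
          (seg (D.bk ρ k) (by omega) (by omega) t gt t1 t2)).1 le_rfl

end Pool.Agent.Lib.MP_ec9af3_lc.H18
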